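import Pool.Agent.Lib.MP_3e6a92_co.Spec

set_option autoImplicit false

namespace Pool.Agent.MP3e.Arcs

open MeasureTheory Set

noncomputable section

/-- indicator of the arc of half length `φ` centred at `0` -/
def g (φ : ℝ) (x : ℝ) : ℝ := if Real.cos φ < Real.cos x then 1 else 0

lemma g_periodic (φ : ℝ) : Function.Periodic (g φ) (2 * Real.pi) := by
  intro x
  simp [g, Real.cos_add_two_pi]

lemma g_eq_indicator (φ : ℝ) : g φ = indicator {x : ℝ | Real.cos φ < Real.cos x} (fun _ => (1 : ℝ)) := by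
  funext x
  by_cases h : Real.cos φ < Real.cos x
  · simp [g, h]
  · simp [g, h]

lemma meas_set (φ : ℝ) : MeasurableSet {x : ℝ | Real.cos φ < Real.cos x} :=
  measurableSet_lt measurable_const Real.measurable_cos

lemma g_measurable (φ : ℝ) : Measurable (g φ) := by
  rw [g_eq_indicator]
  exact measurable_const.indicator (meas_set φ)

lemma g_int (φ a b : ℝ) (c : ℝ) : IntervalIntegrable (fun x => g φ (x - c)) volume a b := by
  refine (intervalIntegrable_const (c := (1 : ℝ))).mono_fun
    (((g_measurable φ).comp (measurable_id.sub_const c)).aestronglyMeasurable) ?_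
  refine Filter.Eventually.of_forall fun x => ?_
  simp only [g]
  split_ifs <;> simp

lemma g_integral (φ : ℝ) (h0 : 0 ≤ φ) (h1 : φ ≤ Real.pi) :
    ∫ x in (-Real.pi)..Real.pi, g φ x = 2 * φ := by
  have hpi := Real.pi_pos
  rw [intervalIntegral.integral_of_le (by linarith), g_eq_indicator,
    integral_indicator (meas_set φ), Measure.restrict_restrict (meas_set φ)]
  have hset : {x : ℝ | Real.cos φ < Real.cos x} ∩ Ioc (-Real.pi) Real.pi = Ioo (-φ) φ := by
    ext x
    constructor
    · rintro ⟨hx, hx1, hx2⟩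
      have hx' : Real.cos φ < Real.cos |x| := by rw [Real.cos_abs]; exact hx
      have habs : |x| ≤ Real.pi := abs_le.2 ⟨hx1.le, hx2⟩
      have := (Real.strictAntiOn_cos.lt_iff_gt ⟨h0, h1⟩ ⟨abs_nonneg x, habs⟩).1 hx'
      exact abs_lt.1 this
    · rintro ⟨hx1, hx2⟩
      have habs : |x| < φ := abs_lt.2 ⟨hx1, hx2⟩
      refine ⟨?_, by linarith, by linarith⟩
      have := (Real.strictAntiOn_cos.lt_iff_gt ⟨h0, h1⟩ ⟨abs_nonneg x, by linarith⟩).2 habs
      rw [Real.cos_abs] at this
      exact this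
  rw [hset]
  simp only [integral_const, smul_eq_mul, mul_one, measureReal_restrict_apply_univ]
  rw [Real.volume_real_Ioo_of_le (by linarith)]
  ring

lemma g_integral' (φ a : ℝ) (h0 : 0 ≤ φ) (h1 : φ ≤ Real.pi) :
    ∫ x in (0 : ℝ)..(2 * Real.pi), g φ (x - a) = 2 * φ := by
  rw [intervalIntegral.integral_comp_sub_right (fun x => g φ x) a]
  have h := (g_periodic φ).intervalIntegral_add_eq (0 - a) (-Real.pi)
  have e1 : (0 - a + 2 * Real.pi) = 2 * Real.pi - a := by ring
  have e2 : (-Real.pi + 2 * Real.pi) = Real.pi := by ring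
  rw [e1, e2] at h
  rw [h]
  exact g_integral φ h0 h1

lemma dt_cis (a θ : ℝ) : dt (cis a) (cis θ) = Real.cos (θ - a) := by
  simp only [dt, cis]
  rw [Real.cos_sub]; ring

lemma norm_cis (θ : ℝ) : ‖cis θ‖ = 1 := by
  rw [Complex.norm_eq_sqrt_sq_add_sq]
  simp [cis, Real.cos_sq_add_sin_sq]

lemma exists_cis (n : ℂ) (hn : ‖n‖ = 1) : ∃ a : ℝ, n = cis a := by
  refine ⟨Complex.arg n, ?_⟩
  have hn0 : n ≠ 0 := by
    intro h; rw [h] at hn; simp at hn
  apply Complex.ext
  · simp only [cis]
    rw [Complex.cos_arg hn0, hn, div_one]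
  · simp only [cis]
    rw [Complex.sin_arg, hn, div_one]

end

end Pool.Agent.MP3e.Arcs

namespace Pool.Agent.MP3e

open MeasureTheory Set Arcs

theorem stmtArc : StmtArc := by
  intro J s n φ hs hd
  classical
  have hex : ∀ j : J, ∃ a : ℝ, j ∈ s → n j = cis a := by
    intro j
    by_cases hj : j ∈ s
    · obtain ⟨a, ha⟩ := exists_cis (n j) (hs j hj).1
      exact ⟨a, fun _ => ha⟩
    · exact ⟨0, fun h => absurd h hj⟩
  choose a ha using hex
  have hsum : ∑ j ∈ s, (2 * φ j) = ∫ x in (0 : ℝ)..(2 * Real.pi), ∑ j ∈ s, g (φ j) (x - a j) := by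
    rw [intervalIntegral.integral_finsetSum (fun j _ => g_int (φ j) _ _ (a j))]
    refine Finset.sum_congr rfl fun j hj => ?_
    exact (g_integral' (φ j) (a j) (hs j hj).2.1 (hs j hj).2.2).symm
  have hle : ∀ x : ℝ, ∑ j ∈ s, g (φ j) (x - a j) ≤ 1 := by
    intro x
    have h1 : ∑ j ∈ s, g (φ j) (x - a j) =
        ((s.filter fun j => Real.cos (φ j) < Real.cos (x - a j)).card : ℝ) := by
      rw [Finset.card_filter]
      push_cast
      rfl
    rw [h1]
    have h2 : (s.filter fun j => Real.cos (φ j) < Real.cos (x - a j)).card ≤ 1 := by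
      rw [Finset.card_le_one]
      intro j hj l hl
      rw [Finset.mem_filter] at hj hl
      by_contra hne
      refine hd j hj.1 l hl.1 hne (cis x) (norm_cis x) ?_ ?_
      · rw [ha j hj.1, dt_cis]; exact hj.2
      · rw [ha l hl.1, dt_cis]; exact hl.2
    exact_mod_cast h2
  have hint : IntervalIntegrable (fun x => ∑ j ∈ s, g (φ j) (x - a j)) volume 0 (2 * Real.pi) := by
    have := IntervalIntegrable.sum (μ := volume) (a := (0 : ℝ)) (b := 2 * Real.pi) s
      (f := fun j x => g (φ j) (x - a j)) (fun j _ => g_int (φ j) _ _ (a j))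
    have e : (fun x => ∑ j ∈ s, g (φ j) (x - a j)) = ∑ j ∈ s, fun x => g (φ j) (x - a j) := by
      funext x; simp
    rw [e]; exact this
  have hfin : ∫ x in (0 : ℝ)..(2 * Real.pi), ∑ j ∈ s, g (φ j) (x - a j) ≤
      ∫ _x in (0 : ℝ)..(2 * Real.pi), (1 : ℝ) :=
    intervalIntegral.integral_mono_on (by positivity) hint intervalIntegrable_const
      (fun x _ => hle x)
  rw [← hsum, intervalIntegral.integral_const, ← Finset.mul_sum] at hfin
  simp only [smul_eq_mul] at hfin
  linarith

end Pool.Agent.MP3e
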