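import Pool.Agent.Lib.MP_3e6a92_co.Spec

/-!
Basic algebra of `dt`, `cr`, `cis`, `Hex`, `shoe`.
-/

set_option autoImplicit false

namespace Pool.Agent.MP3e

open MeasureTheory Set

noncomputable section

theorem dt_eq_inner (z w : ℂ) : dt z w = inner ℝ z w := by
  simp only [dt, Complex.inner, Complex.mul_re, Complex.conj_re, Complex.conj_im]
  ring

theorem dt_comm (z w : ℂ) : dt z w = dt w z := by simp only [dt]; ring

theorem dt_add_right (a z w : ℂ) : dt a (z + w) = dt a z + dt a w := by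
  simp only [dt, Complex.add_re, Complex.add_im]; ring

theorem dt_sub_right (a z w : ℂ) : dt a (z - w) = dt a z - dt a w := by
  simp only [dt, Complex.sub_re, Complex.sub_im]; ring

theorem dt_neg_left (a z : ℂ) : dt (-a) z = -dt a z := by
  simp only [dt, Complex.neg_re, Complex.neg_im]; ring

theorem dt_neg_right (a z : ℂ) : dt a (-z) = -dt a z := by
  simp only [dt, Complex.neg_re, Complex.neg_im]; ring

theorem dt_self (z : ℂ) : dt z z = ‖z‖ ^ 2 := by
  rw [dt_eq_inner, real_inner_self_eq_norm_sq]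

theorem dt_le (z w : ℂ) : dt z w ≤ ‖z‖ * ‖w‖ := by
  rw [dt_eq_inner]; exact real_inner_le_norm z w

theorem dt_smul_right (a z : ℂ) (t : ℝ) : dt a ((t : ℂ) * z) = t * dt a z := by
  simp only [dt, Complex.mul_re, Complex.mul_im, Complex.ofReal_re, Complex.ofReal_im]; ring

theorem dt_isometry (L : ℂ ≃ₗᵢ[ℝ] ℂ) (z w : ℂ) : dt (L z) (L w) = dt z w := by
  rw [dt_eq_inner, dt_eq_inner, L.inner_map_map]

theorem norm_cis (θ : ℝ) : ‖cis θ‖ = 1 := by
  have h : ‖cis θ‖ ^ 2 = 1 := by
    rw [← dt_self]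
    simp only [dt, cis]
    nlinarith [Real.sin_sq_add_cos_sq θ]
  have h0 := norm_nonneg (cis θ)
  nlinarith [h, h0]

theorem cr_rot (θ : ℝ) (z w : ℂ) : cr (cis θ * z) (cis θ * w) = cr z w := by
  simp only [cr, cis, Complex.mul_re, Complex.mul_im]
  have := Real.sin_sq_add_cos_sq θ
  linear_combination (z.re * w.im - z.im * w.re) * this

theorem shoe_rot (θ : ℝ) (q : Fin 6 → ℂ) : shoe (fun m => cis θ * q m) = shoe q := by
  simp only [shoe, cr_rot]

theorem shoe_shift (q : Fin 6 → ℂ) (m₀ : Fin 6) : shoe (fun m => q (m + m₀)) = shoe q := by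
  simp only [shoe]
  have : ∀ m : Fin 6, m + 1 + m₀ = (m + m₀) + 1 := fun m => add_right_comm m 1 m₀
  simp only [this]
  exact Equiv.sum_comp (Equiv.addRight m₀) (fun m => cr (q m) (q (m + 1)))

theorem Hex_shift (q : Fin 6 → ℂ) (m₀ : Fin 6) : Hex (fun m => q (m + m₀)) = Hex q := by
  ext z
  show (∀ m, _) ↔ (∀ m, _)
  have h1 : ∀ m : Fin 6, m + 1 + m₀ = (m + m₀) + 1 := fun m => add_right_comm m 1 m₀
  simp only [h1]
  constructor
  · intro h m
    have := h (m - m₀)
    simpa using this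
  · intro h m
    exact h (m + m₀)

end

end Pool.Agent.MP3e
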