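import Pool.Agent.Lib.MP_3e6a92_co.Spec

/-!
Inner and outer radius of the body and its contact points.
-/

set_option autoImplicit false

namespace Pool.Agent.MP3e

namespace Body

open Set

noncomputable section

theorem cis_re (a : ℝ) : (cis a).re = Real.cos a := rfl
theorem cis_im (a : ℝ) : (cis a).im = Real.sin a := rfl

theorem cis_add (a b : ℝ) : cis (a + b) = cis a * cis b := by
  apply Complex.ext
  · simp [cis_re, cis_im, Real.cos_add]
  · simp [cis_re, cis_im, Real.sin_add]; ring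

theorem norm_cis (a : ℝ) : ‖cis a‖ = 1 := by
  have h : ‖cis a‖ ^ 2 = 1 := by
    rw [← Complex.normSq_eq_norm_sq, Complex.normSq_apply, cis_re, cis_im]
    nlinarith [Real.sin_sq_add_cos_sq a]
  have h0 : 0 ≤ ‖cis a‖ := norm_nonneg _
  nlinarith

theorem cr_cis_mul (θ : ℝ) (a b : ℂ) : cr (cis θ * a) (cis θ * b) = cr a b := by
  unfold cr
  simp only [Complex.mul_re, Complex.mul_im, cis_re, cis_im]
  linear_combination (a.re * b.im - a.im * b.re) * Real.sin_sq_add_cos_sq θ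

theorem dt_cis_mul (θ : ℝ) (a b : ℂ) : dt (cis θ * a) (cis θ * b) = dt a b := by
  unfold dt
  simp only [Complex.mul_re, Complex.mul_im, cis_re, cis_im]
  linear_combination (a.re * b.re + a.im * b.im) * Real.sin_sq_add_cos_sq θ

theorem normSq_eq (a : ℂ) : ‖a‖ ^ 2 = a.re ^ 2 + a.im ^ 2 := by
  rw [← Complex.normSq_eq_norm_sq, Complex.normSq_apply]; ring

theorem abs_cr_le (a b : ℂ) : |cr a b| ≤ ‖a‖ * ‖b‖ := by
  apply abs_le_of_sq_le_sq _ (by positivity)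
  rw [mul_pow, normSq_eq, normSq_eq]
  unfold cr
  nlinarith [sq_nonneg (a.re * b.re + a.im * b.im)]

theorem abs_dt_le (a b : ℂ) : |dt a b| ≤ ‖a‖ * ‖b‖ := by
  apply abs_le_of_sq_le_sq _ (by positivity)
  rw [mul_pow, normSq_eq, normSq_eq]
  unfold dt
  nlinarith [sq_nonneg (a.re * b.im - a.im * b.re)]

theorem cr_pert (a a0 b b0 : ℂ) :
    |cr a b - cr a0 b0| ≤ ‖a - a0‖ * ‖b0‖ + ‖a0‖ * ‖b - b0‖ + ‖a - a0‖ * ‖b - b0‖ := by
  have h : cr a b - cr a0 b0 = cr (a - a0) b0 + cr a0 (b - b0) + cr (a - a0) (b - b0) := by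
    unfold cr; simp only [Complex.sub_re, Complex.sub_im]; ring
  rw [h]
  refine (abs_add_le _ _).trans ?_
  refine add_le_add ((abs_add_le _ _).trans ?_) (abs_cr_le _ _)
  exact add_le_add (abs_cr_le _ _) (abs_cr_le _ _)

/-- the outer unit normals of the regular hexagon -/
def nn : Fin 6 → ℂ :=
  ![⟨1 / 2, Real.sqrt 3 / 2⟩, ⟨-1 / 2, Real.sqrt 3 / 2⟩, ⟨-1, 0⟩, ⟨-1 / 2, -Real.sqrt 3 / 2⟩,
    ⟨1 / 2, -Real.sqrt 3 / 2⟩, ⟨1, 0⟩]

theorem s3 : Real.sqrt 3 * Real.sqrt 3 = 3 := Real.mul_self_sqrt (by norm_num)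

theorem nn_eq (m : Fin 6) : nn m = cis (((m : ℕ) + 1) * (Real.pi / 3)) := by
  have c1 : Real.cos (Real.pi / 3) = 1 / 2 := Real.cos_pi_div_three
  have s1 : Real.sin (Real.pi / 3) = Real.sqrt 3 / 2 := Real.sin_pi_div_three
  have h2 : (2 : ℝ) * (Real.pi / 3) = Real.pi - Real.pi / 3 := by ring
  have h3 : (3 : ℝ) * (Real.pi / 3) = Real.pi := by ring
  have h4 : (4 : ℝ) * (Real.pi / 3) = Real.pi / 3 + Real.pi := by ring
  have h5 : (5 : ℝ) * (Real.pi / 3) = 2 * Real.pi - Real.pi / 3 := by ring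
  have h6 : (6 : ℝ) * (Real.pi / 3) = 2 * Real.pi := by ring
  fin_cases m
  · apply Complex.ext <;> simp [nn, cis, c1, s1]
  · have e : (((1 : ℕ) : ℝ) + 1) * (Real.pi / 3) = Real.pi - Real.pi / 3 := by push_cast; ring
    apply Complex.ext
    · simp only [nn, cis]
      simp only [Fin.mk_one, Fin.isValue, Matrix.cons_val_one, Matrix.cons_val_zero]
      rw [e, Real.cos_pi_sub, c1]; norm_num
    · simp only [nn, cis]
      simp only [Fin.mk_one, Fin.isValue, Matrix.cons_val_one, Matrix.cons_val_zero]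
      rw [e, Real.sin_pi_sub, s1]
  · have e : (((2 : ℕ) : ℝ) + 1) * (Real.pi / 3) = Real.pi := by push_cast; ring
    apply Complex.ext
    · show (-1 : ℝ) = Real.cos ((((2 : ℕ) : ℝ) + 1) * (Real.pi / 3))
      rw [e, Real.cos_pi]
    · show (0 : ℝ) = Real.sin ((((2 : ℕ) : ℝ) + 1) * (Real.pi / 3))
      rw [e, Real.sin_pi]
  · have e : (((3 : ℕ) : ℝ) + 1) * (Real.pi / 3) = Real.pi / 3 + Real.pi := by push_cast; ring
    apply Complex.ext
    · show (-1 / 2 : ℝ) = Real.cos ((((3 : ℕ) : ℝ) + 1) * (Real.pi / 3))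
      rw [e, Real.cos_add_pi, c1]; norm_num
    · show (-Real.sqrt 3 / 2 : ℝ) = Real.sin ((((3 : ℕ) : ℝ) + 1) * (Real.pi / 3))
      rw [e, Real.sin_add_pi, s1]; ring
  · have e : (((4 : ℕ) : ℝ) + 1) * (Real.pi / 3) = 2 * Real.pi - Real.pi / 3 := by push_cast; ring
    apply Complex.ext
    · show (1 / 2 : ℝ) = Real.cos ((((4 : ℕ) : ℝ) + 1) * (Real.pi / 3))
      rw [e, Real.cos_two_pi_sub, c1]
    · show (-Real.sqrt 3 / 2 : ℝ) = Real.sin ((((4 : ℕ) : ℝ) + 1) * (Real.pi / 3))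
      rw [e, Real.sin_two_pi_sub, s1]; ring
  · have e : (((5 : ℕ) : ℝ) + 1) * (Real.pi / 3) = 2 * Real.pi := by push_cast; ring
    apply Complex.ext
    · show (1 : ℝ) = Real.cos ((((5 : ℕ) : ℝ) + 1) * (Real.pi / 3))
      rw [e, Real.cos_two_pi]
    · show (0 : ℝ) = Real.sin ((((5 : ℕ) : ℝ) + 1) * (Real.pi / 3))
      rw [e, Real.sin_two_pi]

theorem u1_re : u1.re = 2 := rfl
theorem u1_im : u1.im = 0 := rfl
theorem u2_re : u2.re = 1 := rfl
theorem u2_im : u2.im = Real.sqrt 3 := rfl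

theorem div3_re (z : ℂ) : (z / 3).re = z.re / 3 := by
  have : (3 : ℂ) = ((3 : ℝ) : ℂ) := by norm_num
  rw [this, Complex.div_ofReal_re]

theorem div3_im (z : ℂ) : (z / 3).im = z.im / 3 := by
  have : (3 : ℂ) = ((3 : ℝ) : ℂ) := by norm_num
  rw [this, Complex.div_ofReal_im]

/-- explicit real and imaginary parts of the corners -/
theorem reg_val (m : Fin 6) : reg m =
    (![⟨1, Real.sqrt 3 / 3⟩, ⟨0, 2 * Real.sqrt 3 / 3⟩, ⟨-1, Real.sqrt 3 / 3⟩,
      ⟨-1, -Real.sqrt 3 / 3⟩, ⟨0, -2 * Real.sqrt 3 / 3⟩, ⟨1, -Real.sqrt 3 / 3⟩] : Fin 6 → ℂ) m := by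
  have t : (2 : ℂ) = ((2 : ℝ) : ℂ) := by norm_num
  fin_cases m
  · show (u1 + u2) / 3 = ⟨1, Real.sqrt 3 / 3⟩
    apply Complex.ext
    · rw [div3_re, Complex.add_re, u1_re, u2_re]; norm_num
    · rw [div3_im, Complex.add_im, u1_im, u2_im]; simp
  · show (2 * u2 - u1) / 3 = ⟨0, 2 * Real.sqrt 3 / 3⟩
    apply Complex.ext
    · rw [div3_re, Complex.sub_re, t, Complex.re_ofReal_mul, u1_re, u2_re]; norm_num
    · rw [div3_im, Complex.sub_im, t, Complex.im_ofReal_mul, u1_im, u2_im]; simp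
  · show (u2 - 2 * u1) / 3 = ⟨-1, Real.sqrt 3 / 3⟩
    apply Complex.ext
    · rw [div3_re, Complex.sub_re, t, Complex.re_ofReal_mul, u1_re, u2_re]; norm_num
    · rw [div3_im, Complex.sub_im, t, Complex.im_ofReal_mul, u1_im, u2_im]; simp
  · show -(u1 + u2) / 3 = ⟨-1, -Real.sqrt 3 / 3⟩
    apply Complex.ext
    · rw [div3_re, Complex.neg_re, Complex.add_re, u1_re, u2_re]; norm_num
    · rw [div3_im, Complex.neg_im, Complex.add_im, u1_im, u2_im]; simp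
  · show (u1 - 2 * u2) / 3 = ⟨0, -2 * Real.sqrt 3 / 3⟩
    apply Complex.ext
    · rw [div3_re, Complex.sub_re, t, Complex.re_ofReal_mul, u1_re, u2_re]; norm_num
    · rw [div3_im, Complex.sub_im, t, Complex.im_ofReal_mul, u1_im, u2_im]; simp
  · show (2 * u1 - u2) / 3 = ⟨1, -Real.sqrt 3 / 3⟩
    apply Complex.ext
    · rw [div3_re, Complex.sub_re, t, Complex.re_ofReal_mul, u1_re, u2_re]; norm_num
    · rw [div3_im, Complex.sub_im, t, Complex.im_ofReal_mul, u1_im, u2_im]; simp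

theorem side_val (m : Fin 6) (z : ℂ) :
    cr (reg (m + 1) - reg m) (z - reg m) = 2 * Real.sqrt 3 / 3 * (1 - dt (nn m) z) := by
  have h3 := s3
  rw [reg_val, reg_val]
  fin_cases m
  · show cr ((⟨0, 2 * Real.sqrt 3 / 3⟩ : ℂ) - ⟨1, Real.sqrt 3 / 3⟩) (z - ⟨1, Real.sqrt 3 / 3⟩) =
      2 * Real.sqrt 3 / 3 * (1 - dt ⟨1 / 2, Real.sqrt 3 / 2⟩ z)
    simp only [cr, dt, Complex.sub_re, Complex.sub_im]
    linear_combination (1 / 3 * z.im) * h3
  · show cr ((⟨-1, Real.sqrt 3 / 3⟩ : ℂ) - ⟨0, 2 * Real.sqrt 3 / 3⟩)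
        (z - ⟨0, 2 * Real.sqrt 3 / 3⟩) =
      2 * Real.sqrt 3 / 3 * (1 - dt ⟨-1 / 2, Real.sqrt 3 / 2⟩ z)
    simp only [cr, dt, Complex.sub_re, Complex.sub_im]
    linear_combination (1 / 3 * z.im) * h3
  · show cr ((⟨-1, -Real.sqrt 3 / 3⟩ : ℂ) - ⟨-1, Real.sqrt 3 / 3⟩) (z - ⟨-1, Real.sqrt 3 / 3⟩) =
      2 * Real.sqrt 3 / 3 * (1 - dt ⟨-1, 0⟩ z)
    simp only [cr, dt, Complex.sub_re, Complex.sub_im]
    ring
  · show cr ((⟨0, -2 * Real.sqrt 3 / 3⟩ : ℂ) - ⟨-1, -Real.sqrt 3 / 3⟩)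
        (z - ⟨-1, -Real.sqrt 3 / 3⟩) =
      2 * Real.sqrt 3 / 3 * (1 - dt ⟨-1 / 2, -Real.sqrt 3 / 2⟩ z)
    simp only [cr, dt, Complex.sub_re, Complex.sub_im]
    linear_combination (-1 / 3 * z.im) * h3
  · show cr ((⟨1, -Real.sqrt 3 / 3⟩ : ℂ) - ⟨0, -2 * Real.sqrt 3 / 3⟩)
        (z - ⟨0, -2 * Real.sqrt 3 / 3⟩) =
      2 * Real.sqrt 3 / 3 * (1 - dt ⟨1 / 2, -Real.sqrt 3 / 2⟩ z)
    simp only [cr, dt, Complex.sub_re, Complex.sub_im]
    linear_combination (-1 / 3 * z.im) * h3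
  · show cr ((⟨1, Real.sqrt 3 / 3⟩ : ℂ) - ⟨1, -Real.sqrt 3 / 3⟩) (z - ⟨1, -Real.sqrt 3 / 3⟩) =
      2 * Real.sqrt 3 / 3 * (1 - dt ⟨1, 0⟩ z)
    simp only [cr, dt, Complex.sub_re, Complex.sub_im]
    ring

/-- the point of the side `m` of the regular hexagon at relative position `1/2 + s` -/
theorem sidePt_reg (m : Fin 6) (s : ℝ) :
    sidePt reg m s = nn m * ⟨1, 2 * Real.sqrt 3 / 3 * s⟩ := by
  have h3 := s3
  unfold sidePt
  rw [reg_val, reg_val]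
  fin_cases m
  · show (⟨1, Real.sqrt 3 / 3⟩ : ℂ) + ((1 / 2 + s : ℝ) : ℂ) *
      ((⟨0, 2 * Real.sqrt 3 / 3⟩ : ℂ) - ⟨1, Real.sqrt 3 / 3⟩) =
      (⟨1 / 2, Real.sqrt 3 / 2⟩ : ℂ) * ⟨1, 2 * Real.sqrt 3 / 3 * s⟩
    apply Complex.ext
    · simp only [Complex.add_re, Complex.ofReal_re, Complex.ofReal_im, Complex.sub_re,
        Complex.sub_im, Complex.mul_re]
      linear_combination (s / 3) * h3
    · simp only [Complex.add_im, Complex.ofReal_re, Complex.ofReal_im, Complex.sub_im,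
        Complex.sub_re, Complex.mul_im]
      ring
  · show (⟨0, 2 * Real.sqrt 3 / 3⟩ : ℂ) + ((1 / 2 + s : ℝ) : ℂ) *
      ((⟨-1, Real.sqrt 3 / 3⟩ : ℂ) - ⟨0, 2 * Real.sqrt 3 / 3⟩) =
      (⟨-1 / 2, Real.sqrt 3 / 2⟩ : ℂ) * ⟨1, 2 * Real.sqrt 3 / 3 * s⟩
    apply Complex.ext
    · simp only [Complex.add_re, Complex.ofReal_re, Complex.ofReal_im, Complex.sub_re,
        Complex.sub_im, Complex.mul_re]
      linear_combination (s / 3) * h3
    · simp only [Complex.add_im, Complex.ofReal_re, Complex.ofReal_im, Complex.sub_im,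
        Complex.sub_re, Complex.mul_im]
      ring
  · show (⟨-1, Real.sqrt 3 / 3⟩ : ℂ) + ((1 / 2 + s : ℝ) : ℂ) *
      ((⟨-1, -Real.sqrt 3 / 3⟩ : ℂ) - ⟨-1, Real.sqrt 3 / 3⟩) =
      (⟨-1, 0⟩ : ℂ) * ⟨1, 2 * Real.sqrt 3 / 3 * s⟩
    apply Complex.ext
    · simp only [Complex.add_re, Complex.ofReal_re, Complex.ofReal_im, Complex.sub_re,
        Complex.sub_im, Complex.mul_re]
      ring
    · simp only [Complex.add_im, Complex.ofReal_re, Complex.ofReal_im, Complex.sub_im,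
        Complex.sub_re, Complex.mul_im]
      ring
  · show (⟨-1, -Real.sqrt 3 / 3⟩ : ℂ) + ((1 / 2 + s : ℝ) : ℂ) *
      ((⟨0, -2 * Real.sqrt 3 / 3⟩ : ℂ) - ⟨-1, -Real.sqrt 3 / 3⟩) =
      (⟨-1 / 2, -Real.sqrt 3 / 2⟩ : ℂ) * ⟨1, 2 * Real.sqrt 3 / 3 * s⟩
    apply Complex.ext
    · simp only [Complex.add_re, Complex.ofReal_re, Complex.ofReal_im, Complex.sub_re,
        Complex.sub_im, Complex.mul_re]
      linear_combination (-s / 3) * h3
    · simp only [Complex.add_im, Complex.ofReal_re, Complex.ofReal_im, Complex.sub_im,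
        Complex.sub_re, Complex.mul_im]
      ring
  · show (⟨0, -2 * Real.sqrt 3 / 3⟩ : ℂ) + ((1 / 2 + s : ℝ) : ℂ) *
      ((⟨1, -Real.sqrt 3 / 3⟩ : ℂ) - ⟨0, -2 * Real.sqrt 3 / 3⟩) =
      (⟨1 / 2, -Real.sqrt 3 / 2⟩ : ℂ) * ⟨1, 2 * Real.sqrt 3 / 3 * s⟩
    apply Complex.ext
    · simp only [Complex.add_re, Complex.ofReal_re, Complex.ofReal_im, Complex.sub_re,
        Complex.sub_im, Complex.mul_re]
      linear_combination (-s / 3) * h3
    · simp only [Complex.add_im, Complex.ofReal_re, Complex.ofReal_im, Complex.sub_im,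
        Complex.sub_re, Complex.mul_im]
      ring
  · show (⟨1, -Real.sqrt 3 / 3⟩ : ℂ) + ((1 / 2 + s : ℝ) : ℂ) *
      ((⟨1, Real.sqrt 3 / 3⟩ : ℂ) - ⟨1, -Real.sqrt 3 / 3⟩) =
      (⟨1, 0⟩ : ℂ) * ⟨1, 2 * Real.sqrt 3 / 3 * s⟩
    apply Complex.ext
    · simp only [Complex.add_re, Complex.ofReal_re, Complex.ofReal_im, Complex.sub_re,
        Complex.sub_im, Complex.mul_re]
      ring
    · simp only [Complex.add_im, Complex.ofReal_re, Complex.ofReal_im, Complex.sub_im,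
        Complex.sub_re, Complex.mul_im]
      ring

theorem norm_reg_le (m : Fin 6) : ‖reg m‖ ≤ 6 / 5 := by
  have h3 := s3
  have h0 : 0 ≤ Real.sqrt 3 := Real.sqrt_nonneg _
  have h : ‖reg m‖ ^ 2 ≤ (6 / 5 : ℝ) ^ 2 := by
    rw [normSq_eq, reg_val]
    fin_cases m
    · show (1 : ℝ) ^ 2 + (Real.sqrt 3 / 3) ^ 2 ≤ _
      nlinarith
    · show (0 : ℝ) ^ 2 + (2 * Real.sqrt 3 / 3) ^ 2 ≤ _
      nlinarith
    · show (-1 : ℝ) ^ 2 + (Real.sqrt 3 / 3) ^ 2 ≤ _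
      nlinarith
    · show (-1 : ℝ) ^ 2 + (-Real.sqrt 3 / 3) ^ 2 ≤ _
      nlinarith
    · show (0 : ℝ) ^ 2 + (-2 * Real.sqrt 3 / 3) ^ 2 ≤ _
      nlinarith
    · show (1 : ℝ) ^ 2 + (-Real.sqrt 3 / 3) ^ 2 ≤ _
      nlinarith
  exact le_of_sq_le_sq h (by norm_num)


theorem trig_aux {g x ψ : ℝ} (hg : 0 < g) (hg1 : g ≤ Real.pi / 3) (hx : g ≤ x)
    (hx1 : x ≤ 2 * Real.pi - g) (h1 : -(g / 3) ≤ ψ) (h2 : ψ ≤ g / 3) :
    0 < 1 - (Real.cos x - Real.tan ψ * Real.sin x) := by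
  have hpi := Real.pi_pos
  have hc : 0 < Real.cos ψ := Real.cos_pos_of_mem_Ioo ⟨by linarith, by linarith⟩
  have e1 : Real.cos ψ - Real.cos (x + ψ) = 2 * (Real.sin (x / 2 + ψ) * Real.sin (x / 2)) := by
    rw [Real.cos_sub_cos]
    have a1 : (ψ + (x + ψ)) / 2 = x / 2 + ψ := by ring
    have a2 : (ψ - (x + ψ)) / 2 = -(x / 2) := by ring
    rw [a1, a2, Real.sin_neg]; ring
  have s1 : 0 < Real.sin (x / 2 + ψ) := Real.sin_pos_of_pos_of_lt_pi (by linarith) (by linarith)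
  have s2 : 0 < Real.sin (x / 2) := Real.sin_pos_of_pos_of_lt_pi (by linarith) (by linarith)
  have e2 : Real.cos ψ * (1 - (Real.cos x - Real.tan ψ * Real.sin x)) =
      Real.cos ψ - Real.cos (x + ψ) := by
    rw [Real.cos_add, Real.tan_eq_sin_div_cos]
    field_simp
  have e3 : 0 < Real.cos ψ * (1 - (Real.cos x - Real.tan ψ * Real.sin x)) := by
    rw [e2, e1]; positivity
  exact (mul_pos_iff_of_pos_left hc).1 e3

theorem trig_pos (N : ℕ) (hN : 1 ≤ N) (l : ℤ) (h0 : l ≠ 0) (h1 : l < 6 * (N : ℤ))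
    (h2 : -(6 * (N : ℤ)) < l) (t : ℝ)
    (ht : t = Real.tan (Real.pi / (9 * N)) ∨ t = -Real.tan (Real.pi / (9 * N))) :
    0 < 1 - (Real.cos (l * (Real.pi / (3 * N))) - t * Real.sin (l * (Real.pi / (3 * N)))) := by
  have hpi := Real.pi_pos
  have hNr : (1 : ℝ) ≤ N := by exact_mod_cast hN
  have hN0 : (0 : ℝ) < N := by linarith
  have hg : 0 < Real.pi / (3 * N) := by positivity
  have hNg : (N : ℝ) * (Real.pi / (3 * N)) = Real.pi / 3 := by field_simp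
  have hg1 : Real.pi / (3 * N) ≤ Real.pi / 3 := by nlinarith
  have hg3 : Real.pi / (9 * N) = Real.pi / (3 * N) / 3 := by field_simp; norm_num
  rw [hg3] at ht
  generalize hgd : Real.pi / (3 * N) = g at *
  obtain ⟨ψ, hψ1, hψ2, hψ⟩ : ∃ ψ : ℝ, -(g / 3) ≤ ψ ∧ ψ ≤ g / 3 ∧ t = Real.tan ψ := by
    rcases ht with h | h
    · exact ⟨g / 3, by linarith, le_rfl, h⟩
    · exact ⟨-(g / 3), le_rfl, by linarith, by rw [Real.tan_neg]; exact h⟩
  rw [hψ]
  rcases lt_or_gt_of_ne h0 with hl | hl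
  · have e := trig_aux hg hg1 (x := -(l * g)) (ψ := -ψ) (by
      have : (l : ℝ) ≤ -1 := by exact_mod_cast (by omega : l ≤ -1)
      nlinarith) (by
      have : -(6 * (N : ℝ)) + 1 ≤ l := by exact_mod_cast (by omega : -(6 * (N : ℤ)) + 1 ≤ l)
      nlinarith) (by linarith) (by linarith)
    rw [Real.cos_neg, Real.sin_neg, Real.tan_neg] at e
    nlinarith
  · exact trig_aux hg hg1 (x := l * g) (ψ := ψ) (by
      have : (1 : ℝ) ≤ l := by exact_mod_cast (by omega : 1 ≤ l)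
      nlinarith) (by
      have : (l : ℝ) ≤ 6 * N - 1 := by exact_mod_cast (by omega : l ≤ 6 * (N : ℤ) - 1)
      nlinarith) hψ1 hψ2

/-- value of the side constraint `(k', m')` at the contact point `(k, m, s)` for the regular
hexagons -/
theorem contact_val (a b : ℝ) (m m' : Fin 6) (s : ℝ) :
    cr (cis b * reg (m' + 1) - cis b * reg m') (cis a * sidePt reg m s - cis b * reg m') =
      2 * Real.sqrt 3 / 3 * (1 - (Real.cos (a - b + ((m : ℕ) - (m' : ℕ) : ℝ) * (Real.pi / 3)) -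
        2 * Real.sqrt 3 / 3 * s *
          Real.sin (a - b + ((m : ℕ) - (m' : ℕ) : ℝ) * (Real.pi / 3)))) := by
  have e1 : cis a * sidePt reg m s = cis b * (cis (a - b) * sidePt reg m s) := by
    rw [← mul_assoc, ← cis_add]; congr 2; ring
  rw [e1, ← mul_sub, ← mul_sub, cr_cis_mul, side_val, sidePt_reg, nn_eq m, nn_eq m',
    ← mul_assoc, ← cis_add]
  have e2 : a - b + ((m : ℕ) + 1) * (Real.pi / 3) = (((m' : ℕ) : ℝ) + 1) * (Real.pi / 3) +
      (a - b + ((m : ℕ) - (m' : ℕ) : ℝ) * (Real.pi / 3)) := by ring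
  rw [e2, cis_add, mul_assoc]
  have e3 : dt (cis ((((m' : ℕ) : ℝ) + 1) * (Real.pi / 3)))
      (cis ((((m' : ℕ) : ℝ) + 1) * (Real.pi / 3)) *
        (cis (a - b + ((m : ℕ) - (m' : ℕ) : ℝ) * (Real.pi / 3)) *
          ⟨1, 2 * Real.sqrt 3 / 3 * s⟩)) =
      dt (cis ((((m' : ℕ) : ℝ) + 1) * (Real.pi / 3)) * 1)
      (cis ((((m' : ℕ) : ℝ) + 1) * (Real.pi / 3)) *
        (cis (a - b + ((m : ℕ) - (m' : ℕ) : ℝ) * (Real.pi / 3)) *
          ⟨1, 2 * Real.sqrt 3 / 3 * s⟩)) := by rw [mul_one]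
  rw [e3, dt_cis_mul]
  simp only [dt, Complex.mul_re, Complex.one_re, Complex.one_im, cis_re, cis_im]
  ring

theorem kap_mul (N : ℕ) : 2 * Real.sqrt 3 / 3 * kap N = Real.tan (Real.pi / (9 * N)) := by
  unfold kap
  have h3 := s3
  linear_combination (Real.tan (Real.pi / (9 * N)) / 3) * h3

theorem kap_nonneg (N : ℕ) (hN : 1 ≤ N) : 0 ≤ kap N := by
  unfold kap
  have hpi := Real.pi_pos
  have hNr : (1 : ℝ) ≤ N := by exact_mod_cast hN
  have h1 : Real.pi / (9 * N) < Real.pi / 2 := by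
    rw [div_lt_div_iff₀ (by positivity) (by norm_num)]; nlinarith
  have h2 : 0 ≤ Real.tan (Real.pi / (9 * N)) :=
    Real.tan_nonneg_of_nonneg_of_le_pi_div_two (by positivity) h1.le
  positivity

theorem kap_le (N : ℕ) (hN : 1 ≤ N) : kap N ≤ 1 := by
  unfold kap
  have hpi := Real.pi_pos
  have hNr : (1 : ℝ) ≤ N := by exact_mod_cast hN
  have h1 : Real.pi / (9 * N) < Real.pi / 4 := by
    rw [div_lt_div_iff₀ (by positivity) (by norm_num)]; nlinarith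
  have h2 : Real.tan (Real.pi / (9 * N)) ≤ 1 := by
    rw [← Real.tan_pi_div_four]
    apply (Real.tan_lt_tan_of_nonneg_of_lt_pi_div_two (by positivity) (by linarith) h1).le
  have h0 : 0 ≤ Real.tan (Real.pi / (9 * N)) :=
    Real.tan_nonneg_of_nonneg_of_le_pi_div_two (by positivity) (by linarith)
  have h3 := s3
  have h4 : Real.sqrt 3 ≤ 2 := by nlinarith [Real.sqrt_nonneg 3]
  nlinarith


/-- the value of a side constraint of a rotated regular hexagon -/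
theorem rot_val (θ : ℝ) (m : Fin 6) (z : ℂ) :
    cr (cis θ * reg (m + 1) - cis θ * reg m) (z - cis θ * reg m) =
      2 * Real.sqrt 3 / 3 * (1 - dt (cis θ * nn m) z) := by
  have e1 : z = cis θ * (cis (-θ) * z) := by
    rw [← mul_assoc, ← cis_add]
    have : cis (θ + -θ) = 1 := by
      apply Complex.ext <;> simp [cis_re, cis_im]
    rw [this, one_mul]
  rw [e1, ← mul_sub, ← mul_sub, cr_cis_mul, side_val, dt_cis_mul]

/-- perturbation of a side constraint -/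
theorem side_pert (θ δ : ℝ) (hδ : 0 ≤ δ) (hδ1 : δ ≤ 1) (c : Fin 6 → ℂ)
    (hc : ∀ m, ‖c m - reg m‖ ≤ δ) (z z0 : ℂ) (hz : ‖z - z0‖ ≤ 2 * δ) (m : Fin 6) :
    |cr (cis θ * c (m + 1) - cis θ * c m) (z - cis θ * c m) -
      cr (cis θ * reg (m + 1) - cis θ * reg m) (z0 - cis θ * reg m)| ≤
      δ * (2 * ‖z0‖ + 16) := by
  have hd : ∀ m, ‖cis θ * c m - cis θ * reg m‖ ≤ δ := by
    intro m
    rw [← mul_sub, norm_mul, norm_cis, one_mul]; exact hc m
  have hr : ∀ m, ‖cis θ * reg m‖ ≤ 6 / 5 := by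
    intro m; rw [norm_mul, norm_cis, one_mul]; exact norm_reg_le m
  have h1 : ‖(cis θ * c (m + 1) - cis θ * c m) - (cis θ * reg (m + 1) - cis θ * reg m)‖ ≤ 2 * δ := by
    have : (cis θ * c (m + 1) - cis θ * c m) - (cis θ * reg (m + 1) - cis θ * reg m) =
      (cis θ * c (m + 1) - cis θ * reg (m + 1)) - (cis θ * c m - cis θ * reg m) := by ring
    rw [this]
    refine (norm_sub_le _ _).trans ?_
    linarith [hd (m + 1), hd m]
  have h2 : ‖(z - cis θ * c m) - (z0 - cis θ * reg m)‖ ≤ 3 * δ := by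
    have : (z - cis θ * c m) - (z0 - cis θ * reg m) =
      (z - z0) - (cis θ * c m - cis θ * reg m) := by ring
    rw [this]
    refine (norm_sub_le _ _).trans ?_
    linarith [hd m]
  have h3 : ‖cis θ * reg (m + 1) - cis θ * reg m‖ ≤ 12 / 5 := by
    refine (norm_sub_le _ _).trans ?_
    linarith [hr (m + 1), hr m]
  have h4 : ‖z0 - cis θ * reg m‖ ≤ ‖z0‖ + 6 / 5 := by
    refine (norm_sub_le _ _).trans ?_
    linarith [hr m]
  refine (cr_pert _ _ _ _).trans ?_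
  have n0 : 0 ≤ ‖z0‖ := norm_nonneg _
  have k1 : ‖(cis θ * c (m + 1) - cis θ * c m) - (cis θ * reg (m + 1) - cis θ * reg m)‖ *
      ‖z0 - cis θ * reg m‖ ≤ 2 * δ * (‖z0‖ + 6 / 5) :=
    mul_le_mul h1 h4 (norm_nonneg _) (by positivity)
  have k2 : ‖cis θ * reg (m + 1) - cis θ * reg m‖ *
      ‖(z - cis θ * c m) - (z0 - cis θ * reg m)‖ ≤ 12 / 5 * (3 * δ) :=
    mul_le_mul h3 h2 (norm_nonneg _) (by positivity)
  have k3 : ‖(cis θ * c (m + 1) - cis θ * c m) - (cis θ * reg (m + 1) - cis θ * reg m)‖ *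
      ‖(z - cis θ * c m) - (z0 - cis θ * reg m)‖ ≤ 2 * δ * (3 * δ) :=
    mul_le_mul h1 h2 (norm_nonneg _) (by positivity)
  nlinarith

/-- some normal is close to a given direction -/
theorem exists_dir (N : ℕ) (hN : 1 ≤ N) (φ : ℝ) : ∃ (k : Fin N) (m : Fin 6),
    Real.cos (Real.pi / (3 * N) / 2) ≤
      Real.cos (φ - ((k : ℕ) * (Real.pi / (3 * N)) + ((m : ℕ) + 1) * (Real.pi / 3))) := by
  have hpi := Real.pi_pos
  have hNr : (1 : ℝ) ≤ N := by exact_mod_cast hN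
  have hN0 : (0 : ℝ) < N := by linarith
  have hg : 0 < Real.pi / (3 * N) := by positivity
  have hNg : (N : ℝ) * (Real.pi / (3 * N)) = Real.pi / 3 := by field_simp
  have hg1 : Real.pi / (3 * N) ≤ Real.pi / 3 := by nlinarith
  generalize hgd : Real.pi / (3 * N) = g at *
  have hNz : (0 : ℤ) < N := by exact_mod_cast hN
  set l : ℤ := round (φ / g) with hl
  have hl1 : |φ - l * g| ≤ g / 2 := by
    have h := abs_sub_round (φ / g)
    rw [← hl] at h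
    have e : φ - l * g = (φ / g - l) * g := by field_simp
    rw [e, abs_mul, abs_of_pos hg]
    nlinarith
  set l2 : ℤ := (l - N) % (6 * N) with hl2
  set Q : ℤ := (l - N) / (6 * N) with hQ
  have hd : l - N = l2 + 6 * N * Q := by
    rw [hl2, hQ]; have := Int.emod_add_mul_ediv (l - N) (6 * N); linarith
  have h20 : 0 ≤ l2 := Int.emod_nonneg _ (by omega)
  have h21 : l2 < 6 * N := Int.emod_lt_of_pos _ (by omega)
  set a : ℤ := l2 % N with ha
  set b : ℤ := l2 / N with hb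
  have hd2 : l2 = a + N * b := by
    rw [ha, hb]; have := Int.emod_add_mul_ediv l2 N; linarith
  have ha0 : 0 ≤ a := Int.emod_nonneg _ (by omega)
  have ha1 : a < N := Int.emod_lt_of_pos _ hNz
  have hb0 : 0 ≤ b := Int.ediv_nonneg h20 hNz.le
  have hb1 : b < 6 := by
    rw [hb]; apply Int.ediv_lt_of_lt_mul hNz; linarith
  refine ⟨⟨a.toNat, by omega⟩, ⟨b.toNat, by omega⟩, ?_⟩
  have ea : ((a.toNat : ℕ) : ℝ) = (a : ℝ) := by
    have : ((a.toNat : ℕ) : ℤ) = a := Int.toNat_of_nonneg ha0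
    exact_mod_cast this
  have eb : ((b.toNat : ℕ) : ℝ) = (b : ℝ) := by
    have : ((b.toNat : ℕ) : ℤ) = b := Int.toNat_of_nonneg hb0
    exact_mod_cast this
  show Real.cos (g / 2) ≤ Real.cos (φ - (((a.toNat : ℕ) : ℝ) * g +
    (((b.toNat : ℕ) : ℝ) + 1) * (Real.pi / 3)))
  rw [ea, eb]
  have hlr : (l : ℝ) = a + N * b + 6 * N * Q + N := by
    have : l = a + N * b + 6 * N * Q + N := by linarith
    exact_mod_cast this
  have e : φ - ((a : ℝ) * g + ((b : ℝ) + 1) * (Real.pi / 3)) =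
      (φ - l * g) + Q * (2 * Real.pi) := by
    rw [hlr, ← hNg]
    have : 2 * Real.pi = 6 * (N * g) := by rw [hNg]; ring
    rw [this]; ring
  rw [e, Real.cos_add_int_mul_two_pi, ← Real.cos_abs (φ - l * g)]
  exact Real.cos_le_cos_of_nonneg_of_le_pi (abs_nonneg _) (by linarith) hl1

theorem exists_pos_lb {ι : Type} [Finite ι] (f : ι → ℝ) (hf : ∀ i, 0 < f i) :
    ∃ μ > 0, ∀ i, μ ≤ f i := by
  rcases isEmpty_or_nonempty ι with h | h
  · exact ⟨1, one_pos, fun i => (h.false i).elim⟩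
  · obtain ⟨i, hi⟩ := Finite.exists_min f
    exact ⟨f i, hf i, hi⟩


theorem L_ge : (1 : ℝ) ≤ 2 * Real.sqrt 3 / 3 := by
  have h3 := s3
  have h0 : 0 ≤ Real.sqrt 3 := Real.sqrt_nonneg _
  have : (3 / 2 : ℝ) ≤ Real.sqrt 3 := by
    rw [show (3 / 2 : ℝ) = Real.sqrt ((3 / 2) ^ 2) by rw [Real.sqrt_sq (by norm_num)]]
    exact Real.sqrt_le_sqrt (by norm_num)
  linarith

theorem norm_rn (θ : ℝ) (m : Fin 6) : ‖cis θ * nn m‖ = 1 := by
  rw [nn_eq, ← cis_add, norm_cis]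

/-- inner ball -/
theorem inner {N : ℕ} {S : Type} {W : WangSys S} (γ : S → ℝ) (ε δ τ' : ℝ) (hδ : 0 ≤ δ)
    (hδ1 : δ ≤ 1) (h18 : 18 * δ ≤ τ')
    (hc : ∀ (t : Ty W) (m : Fin 6), ‖corner γ ε t m - reg m‖ ≤ δ) (tt : Fin N → Ty W) :
    Metric.closedBall (0 : ℂ) (1 - τ') ⊆ body γ ε tt := by
  intro z hz
  rw [mem_closedBall_zero_iff] at hz
  unfold body
  rw [mem_iInter]
  intro k m
  unfold Qc
  set θ : ℝ := (k : ℕ) * (Real.pi / (3 * N))
  have hp := side_pert θ δ hδ hδ1 (corner γ ε (tt k)) (hc (tt k)) z z (by simpa using hδ) m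
  rw [rot_val] at hp
  have h1 : dt (cis θ * nn m) z ≤ ‖z‖ := by
    have := abs_dt_le (cis θ * nn m) z
    rw [norm_rn, one_mul] at this
    exact (le_abs_self _).trans this
  have hL := L_ge
  have n0 : 0 ≤ ‖z‖ := norm_nonneg _
  have hz1 : ‖z‖ ≤ 1 := by linarith
  have h2 : τ' ≤ 2 * Real.sqrt 3 / 3 * (1 - dt (cis θ * nn m) z) := by
    have : τ' ≤ 1 - dt (cis θ * nn m) z := by linarith
    nlinarith
  have h3 := (abs_le.1 hp).1
  have h4 : δ * (2 * ‖z‖ + 16) ≤ 18 * δ := by nlinarith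
  linarith

/-- outer ball -/
theorem outer {N : ℕ} (hN : 1 ≤ N) {S : Type} {W : WangSys S} (γ : S → ℝ) (ε δ τ τ1 : ℝ)
    (hδ : 0 ≤ δ) (hδ1 : δ ≤ 1) (hτ : 0 < τ) (h1 : 4 * (1 + τ) * τ1 ≤ τ)
    (h2 : δ * (24 + 4 * τ) ≤ τ) (hC : 1 - τ1 ≤ Real.cos (Real.pi / (3 * N) / 2))
    (hc : ∀ (t : Ty W) (m : Fin 6), ‖corner γ ε t m - reg m‖ ≤ δ) (tt : Fin N → Ty W) :
    body γ ε tt ⊆ Metric.closedBall (0 : ℂ) (1 + τ) := by
  intro z hz
  rw [mem_closedBall_zero_iff]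
  by_contra hcon
  push Not at hcon
  obtain ⟨k, m, hkm⟩ := exists_dir N hN (Complex.arg z)
  unfold body at hz
  rw [mem_iInter] at hz
  have hz' := hz k m
  unfold Qc at hz'
  set θ : ℝ := (k : ℕ) * (Real.pi / (3 * N)) with hθ
  have hp := side_pert θ δ hδ hδ1 (corner γ ε (tt k)) (hc (tt k)) z z (by simpa using hδ) m
  rw [rot_val] at hp
  have hd : dt (cis θ * nn m) z = ‖z‖ * Real.cos (Complex.arg z -
      (θ + (((m : Fin 6) : ℕ) + 1) * (Real.pi / 3))) := by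
    rw [nn_eq, ← cis_add]
    unfold dt
    rw [Real.cos_sub, cis_re, cis_im, ← Complex.norm_mul_cos_arg z, ← Complex.norm_mul_sin_arg z]
    ring
  have n0 : 0 < ‖z‖ := by linarith
  have h3 : ‖z‖ * (1 - τ1) ≤ dt (cis θ * nn m) z := by
    rw [hd]
    exact mul_le_mul_of_nonneg_left (hC.trans hkm) n0.le
  have hL := L_ge
  have h4 := (abs_le.1 hp).2
  have h5 : 1 - dt (cis θ * nn m) z < 0 := by nlinarith
  have h6 : 2 * Real.sqrt 3 / 3 * (1 - dt (cis θ * nn m) z) ≤ 1 - dt (cis θ * nn m) z := by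
    nlinarith
  have h7 : 0 ≤ 1 - ‖z‖ * (1 - τ1) + δ * (2 * ‖z‖ + 16) := by linarith
  have hτ1 : τ1 ≤ 1 / 4 := by
    by_contra hh
    push Not at hh
    nlinarith
  have hδ2 : δ * 24 ≤ τ := by nlinarith
  have h8 : 0 ≤ 1 - τ1 - 2 * δ ∨ 1 - τ1 - 2 * δ < 0 := le_or_gt _ _
  have h9 : (1 + τ) * (1 - τ1 - 2 * δ) ≤ 1 + 16 * δ := by
    rcases h8 with h8 | h8
    · have : (1 + τ) * (1 - τ1 - 2 * δ) ≤ ‖z‖ * (1 - τ1 - 2 * δ) :=
        mul_le_mul_of_nonneg_right hcon.le h8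
      nlinarith
    · have : (1 + τ) * (1 - τ1 - 2 * δ) ≤ 0 :=
        mul_nonpos_of_nonneg_of_nonpos (by linarith) h8.le
      linarith
  nlinarith

/-- the convex combination form of `sidePt` -/
theorem sidePt_eq (q : Fin 6 → ℂ) (m : Fin 6) (s : ℝ) :
    sidePt q m s = ((1 / 2 - s : ℝ) : ℂ) * q m + ((1 / 2 + s : ℝ) : ℂ) * q (m + 1) := by
  unfold sidePt; push_cast; ring

theorem sidePt_mul (a : ℂ) (q : Fin 6 → ℂ) (m : Fin 6) (s : ℝ) :
    sidePt (fun m => a * q m) m s = a * sidePt q m s := by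
  unfold sidePt; ring

theorem norm_comb_le (s δ : ℝ) (hs : |s| ≤ 1) (hδ : 0 ≤ δ) (a b : ℂ) (ha : ‖a‖ ≤ δ)
    (hb : ‖b‖ ≤ δ) : ‖((1 / 2 - s : ℝ) : ℂ) * a + ((1 / 2 + s : ℝ) : ℂ) * b‖ ≤ 2 * δ := by
  refine (norm_add_le _ _).trans ?_
  rw [norm_mul, norm_mul, Complex.norm_real, Complex.norm_real, Real.norm_eq_abs,
    Real.norm_eq_abs]
  have h1 : |1 / 2 - s| * ‖a‖ ≤ |1 / 2 - s| * δ := mul_le_mul_of_nonneg_left ha (abs_nonneg _)
  have h2 : |1 / 2 + s| * ‖b‖ ≤ |1 / 2 + s| * δ := mul_le_mul_of_nonneg_left hb (abs_nonneg _)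
  have h3 : |1 / 2 - s| + |1 / 2 + s| ≤ 2 := by
    rw [abs_le] at hs
    rcases abs_cases (1 / 2 - s) with h | h <;> rcases abs_cases (1 / 2 + s) with h' | h' <;>
      linarith [h.1, h'.1]
  nlinarith

/-- the contact points lie in the body -/
theorem contact {N : ℕ} (hN : 1 ≤ N) : ∃ μ > 0, ∀ {S : Type} {W : WangSys S} (γ : S → ℝ)
    (ε δ : ℝ), 0 ≤ δ → δ ≤ 1 → 21 * δ ≤ μ →
    (∀ (t : Ty W) (m : Fin 6), ‖corner γ ε t m - reg m‖ ≤ δ) → ∀ (tt : Fin N → Ty W)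
    (k : Fin N) (m : Fin 6) (s : ℝ), (s = kap N ∨ s = -kap N) →
      sidePt (Qc γ ε tt k) m s ∈ body γ ε tt := by
  classical
  -- the regular values
  let V : (Fin N × Fin N) × (Fin 6 × Fin 6) × Bool → ℝ := fun i =>
    if i.1.1 = i.1.2 ∧ i.2.1.1 = i.2.1.2 then 1 else
      2 * Real.sqrt 3 / 3 * (1 - (Real.cos (((i.1.1 : ℕ) * (Real.pi / (3 * N)) : ℝ) -
        (i.1.2 : ℕ) * (Real.pi / (3 * N)) + ((i.2.1.1 : ℕ) - (i.2.1.2 : ℕ) : ℝ) * (Real.pi / 3)) -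
        2 * Real.sqrt 3 / 3 * (if i.2.2 then kap N else -kap N) *
        Real.sin (((i.1.1 : ℕ) * (Real.pi / (3 * N)) : ℝ) -
        (i.1.2 : ℕ) * (Real.pi / (3 * N)) + ((i.2.1.1 : ℕ) - (i.2.1.2 : ℕ) : ℝ) * (Real.pi / 3))))
  have hL := L_ge
  have hNr : (1 : ℝ) ≤ N := by exact_mod_cast hN
  have hN0 : (0 : ℝ) < N := by linarith
  have hNg : (N : ℝ) * (Real.pi / (3 * N)) = Real.pi / 3 := by field_simp
  have hV : ∀ i, 0 < V i := by
    rintro ⟨⟨k, k'⟩, ⟨m, m'⟩, b⟩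
    by_cases h : k = k' ∧ m = m'
    · have : V ((k, k'), (m, m'), b) = 1 := if_pos h
      rw [this]; exact one_pos
    · have : V ((k, k'), (m, m'), b) = 2 * Real.sqrt 3 / 3 * (1 -
          (Real.cos (((k : ℕ) * (Real.pi / (3 * N)) : ℝ) -
          (k' : ℕ) * (Real.pi / (3 * N)) + ((m : ℕ) - (m' : ℕ) : ℝ) * (Real.pi / 3)) -
          2 * Real.sqrt 3 / 3 * (if b then kap N else -kap N) *
          Real.sin (((k : ℕ) * (Real.pi / (3 * N)) : ℝ) -
          (k' : ℕ) * (Real.pi / (3 * N)) + ((m : ℕ) - (m' : ℕ) : ℝ) * (Real.pi / 3)))) := if_neg h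
      rw [this]
      apply mul_pos (by linarith)
      have hk := k.2
      have hk' := k'.2
      have hm := m.2
      have hm' := m'.2
      set l : ℤ := ((k : ℕ) : ℤ) - ((k' : ℕ) : ℤ) + N * (((m : ℕ) : ℤ) - ((m' : ℕ) : ℤ)) with hl
      have hNz : (1 : ℤ) ≤ N := by exact_mod_cast hN
      have hkz : ((k : ℕ) : ℤ) < N := by exact_mod_cast hk
      have hkz' : ((k' : ℕ) : ℤ) < N := by exact_mod_cast hk'
      have hk0 : (0 : ℤ) ≤ ((k : ℕ) : ℤ) := by positivity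
      have hk0' : (0 : ℤ) ≤ ((k' : ℕ) : ℤ) := by positivity
      have hl0 : l ≠ 0 := by
        intro h0
        have hmm : ((m : ℕ) : ℤ) - ((m' : ℕ) : ℤ) = 0 := by
          rcases lt_trichotomy (((m : ℕ) : ℤ) - ((m' : ℕ) : ℤ)) 0 with h1 | h1 | h1
          · exfalso
            have : ((m : ℕ) : ℤ) - ((m' : ℕ) : ℤ) ≤ -1 := by omega
            nlinarith
          · exact h1
          · exfalso
            have : 1 ≤ ((m : ℕ) : ℤ) - ((m' : ℕ) : ℤ) := by omega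
            nlinarith
        rw [hmm] at hl
        apply h
        constructor
        · apply Fin.ext; omega
        · apply Fin.ext; omega
      have hl1 : l < 6 * (N : ℤ) := by
        have : ((m : ℕ) : ℤ) - ((m' : ℕ) : ℤ) ≤ 5 := by omega
        nlinarith
      have hl2 : -(6 * (N : ℤ)) < l := by
        have : -5 ≤ ((m : ℕ) : ℤ) - ((m' : ℕ) : ℤ) := by omega
        nlinarith
      have ht : 2 * Real.sqrt 3 / 3 * (if b then kap N else -kap N) =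
          Real.tan (Real.pi / (9 * N)) ∨ 2 * Real.sqrt 3 / 3 * (if b then kap N else -kap N) =
          -Real.tan (Real.pi / (9 * N)) := by
        cases b
        · right; simp only [Bool.false_eq_true, if_false]; rw [mul_neg, kap_mul]
        · left; simp only [if_true]; rw [kap_mul]
      have e := trig_pos N hN l hl0 hl1 hl2 _ ht
      have ex : ((k : ℕ) * (Real.pi / (3 * N)) : ℝ) - (k' : ℕ) * (Real.pi / (3 * N)) +
          ((m : ℕ) - (m' : ℕ) : ℝ) * (Real.pi / 3) = (l : ℝ) * (Real.pi / (3 * N)) := by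
        rw [hl, ← hNg]; push_cast; ring
      show 0 < 1 - (Real.cos (((k : ℕ) * (Real.pi / (3 * N)) : ℝ) - (k' : ℕ) *
        (Real.pi / (3 * N)) + ((m : ℕ) - (m' : ℕ) : ℝ) * (Real.pi / 3)) -
        2 * Real.sqrt 3 / 3 * (if b then kap N else -kap N) * Real.sin
        (((k : ℕ) * (Real.pi / (3 * N)) : ℝ) - (k' : ℕ) * (Real.pi / (3 * N)) +
          ((m : ℕ) - (m' : ℕ) : ℝ) * (Real.pi / 3)))
      rw [ex]
      exact e
  obtain ⟨μ, hμ, hVμ⟩ := exists_pos_lb V hV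
  refine ⟨μ, hμ, ?_⟩
  intro S W γ ε δ hδ hδ1 h21 hc tt k m s hs
  have hs1 : |s| ≤ 1 := by
    have h0 := kap_nonneg N hN
    have h1 := kap_le N hN
    rw [abs_le]
    rcases hs with h | h <;> constructor <;> linarith
  unfold body
  rw [mem_iInter]
  intro k' m'
  by_cases hkm : k = k' ∧ m = m'
  · obtain ⟨rfl, rfl⟩ := hkm
    have : sidePt (Qc γ ε tt k) m s - Qc γ ε tt k m =
        ((1 / 2 + s : ℝ) : ℂ) * (Qc γ ε tt k (m + 1) - Qc γ ε tt k m) := by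
      unfold sidePt; ring
    rw [this]
    have : cr (Qc γ ε tt k (m + 1) - Qc γ ε tt k m)
        (((1 / 2 + s : ℝ) : ℂ) * (Qc γ ε tt k (m + 1) - Qc γ ε tt k m)) = 0 := by
      unfold cr; rw [Complex.re_ofReal_mul, Complex.im_ofReal_mul]; ring
    rw [this]
  · set θ : ℝ := (k : ℕ) * (Real.pi / (3 * N)) with hθ
    set θ' : ℝ := (k' : ℕ) * (Real.pi / (3 * N)) with hθ'
    have hz : ‖sidePt (Qc γ ε tt k) m s - cis θ * sidePt reg m s‖ ≤ 2 * δ := by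
      have e1 : sidePt (Qc γ ε tt k) m s = cis θ * sidePt (corner γ ε (tt k)) m s :=
        sidePt_mul _ _ _ _
      rw [e1, ← mul_sub, norm_mul, norm_cis, one_mul, sidePt_eq, sidePt_eq]
      have e2 : ((1 / 2 - s : ℝ) : ℂ) * corner γ ε (tt k) m +
          ((1 / 2 + s : ℝ) : ℂ) * corner γ ε (tt k) (m + 1) -
          (((1 / 2 - s : ℝ) : ℂ) * reg m + ((1 / 2 + s : ℝ) : ℂ) * reg (m + 1)) =
          ((1 / 2 - s : ℝ) : ℂ) * (corner γ ε (tt k) m - reg m) +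
          ((1 / 2 + s : ℝ) : ℂ) * (corner γ ε (tt k) (m + 1) - reg (m + 1)) := by ring
      rw [e2]
      exact norm_comb_le s δ hs1 hδ _ _ (hc _ _) (hc _ _)
    have hz0 : ‖cis θ * sidePt reg m s‖ ≤ 12 / 5 := by
      rw [norm_mul, norm_cis, one_mul, sidePt_eq]
      have := norm_comb_le s (6 / 5) hs1 (by norm_num) (reg m) (reg (m + 1)) (norm_reg_le _)
        (norm_reg_le _)
      linarith
    have hp := side_pert θ' δ hδ hδ1 (corner γ ε (tt k')) (hc (tt k')) _ _ hz m'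
    rw [contact_val] at hp
    have hv : μ ≤ 2 * Real.sqrt 3 / 3 * (1 - (Real.cos (θ - θ' + ((m : ℕ) - (m' : ℕ) : ℝ) *
        (Real.pi / 3)) - 2 * Real.sqrt 3 / 3 * s *
          Real.sin (θ - θ' + ((m : ℕ) - (m' : ℕ) : ℝ) * (Real.pi / 3)))) := by
      rcases hs with h | h
      · have h1 := hVμ ((k, k'), (m, m'), true)
        simp only [V, hkm, if_false, if_true] at h1
        rw [h]
        exact h1
      · have h1 := hVμ ((k, k'), (m, m'), false)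
        simp only [V, hkm, if_false, Bool.false_eq_true] at h1
        rw [h]
        exact h1
    have h3 := (abs_le.1 hp).1
    have h4 : δ * (2 * ‖cis θ * sidePt reg m s‖ + 16) ≤ 21 * δ := by nlinarith
    show 0 ≤ cr (cis θ' * corner γ ε (tt k') (m' + 1) - cis θ' * corner γ ε (tt k') m')
      (sidePt (Qc γ ε tt k) m s - cis θ' * corner γ ε (tt k') m')
    linarith

end

end Body

open Body in
theorem stmtBody (hCl : StmtClose) : StmtBody := by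
  intro S _ W γ τ hτ
  set τ1 : ℝ := τ / (4 * (1 + τ)) with hτ1
  have hτ1p : 0 < τ1 := by positivity
  have hτ1e : 4 * (1 + τ) * τ1 ≤ τ := by rw [hτ1]; field_simp; exact le_refl _
  have hτ1l : τ1 ≤ 1 / 4 := by
    rw [hτ1, div_le_iff₀ (by positivity)]; linarith
  obtain ⟨N₀, hN₀⟩ := exists_nat_gt (1 / τ1)
  refine ⟨N₀, ?_⟩
  intro N hN hN1 τ' hτ'
  obtain ⟨μ, hμ, hcont⟩ := contact hN1
  set δ : ℝ := min (min 1 (τ' / 18)) (min (τ / (24 + 4 * τ)) (μ / 21)) with hδ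
  have hδ0 : 0 < δ := by
    rw [hδ]; refine lt_min (lt_min one_pos (by positivity)) (lt_min (by positivity) (by positivity))
  have hδ1 : δ ≤ 1 := (min_le_left _ _).trans (min_le_left _ _)
  have hδ2 : δ ≤ τ' / 18 := (min_le_left _ _).trans (min_le_right _ _)
  have hδ3 : δ ≤ τ / (24 + 4 * τ) := (min_le_right _ _).trans (min_le_left _ _)
  have hδ4 : δ ≤ μ / 21 := (min_le_right _ _).trans (min_le_right _ _)
  obtain ⟨ε₀, hε₀, hcl⟩ := hCl S W γ δ hδ0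
  refine ⟨ε₀, hε₀, ?_⟩
  intro ε hε tt
  have hc := hcl ε hε
  have hNr : (1 : ℝ) ≤ N := by exact_mod_cast hN1
  have hC : 1 - τ1 ≤ Real.cos (Real.pi / (3 * N) / 2) := by
    have hpi := Real.pi_pos
    have hpi4 := Real.pi_lt_four
    have hNN : 1 / τ1 < N := hN₀.trans_le (by exact_mod_cast hN)
    have h1 : 1 < N * τ1 := by
      rw [div_lt_iff₀ hτ1p] at hNN; exact hNN
    have hx : Real.pi / (3 * N) / 2 ≤ τ1 := by
      rw [div_div, div_le_iff₀ (by positivity)]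
      nlinarith
    have hx0 : 0 ≤ Real.pi / (3 * N) / 2 := by positivity
    have h2 := Real.one_sub_sq_div_two_le_cos (x := Real.pi / (3 * N) / 2)
    nlinarith
  refine ⟨inner γ ε δ τ' hδ0.le hδ1 ?_ hc tt, outer hN1 γ ε δ τ τ1 hδ0.le hδ1 hτ hτ1e ?_ hC hc tt,
    ?_⟩
  · rw [le_div_iff₀ (by norm_num)] at hδ2; linarith
  · rw [le_div_iff₀ (by positivity)] at hδ3; exact hδ3
  · intro k m s hs
    apply hcont γ ε δ hδ0.le hδ1 _ hc tt k m s hs
    rw [le_div_iff₀ (by norm_num)] at hδ4; linarith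

end Pool.Agent.MP3e
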