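import Pool.Agent.Lib.MP_3e6a92_co.Equal

/-!
Final assembly in the plane `ℂ`: every periodic packing of the body has density less than
`vol K / (2 √3)`, and there are periodic packings whose densities tend to this number.
-/

set_option autoImplicit false

namespace Pool.Agent.MP3e

open MeasureTheory Set

noncomputable section

theorem convex_body {S : Type} {W : WangSys S} (γ : S → ℝ) (ε : ℝ) {N : ℕ} (tt : Fin N → Ty W) :
    Convex ℝ (body γ ε tt) := by
  apply convex_iInter
  intro k z hz w hw s t hs ht hst m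
  have h1 := hz m
  have h2 := hw m
  set q := Qc γ ε tt k
  have : cr (q (m + 1) - q m) (s • z + t • w - q m) =
      s * cr (q (m + 1) - q m) (z - q m) + t * cr (q (m + 1) - q m) (w - q m) := by
    have hs' : s = 1 - t := by linarith
    subst hs'
    simp only [cr, Complex.sub_re, Complex.sub_im, Complex.add_re, Complex.add_im,
      Complex.real_smul, Complex.mul_re, Complex.mul_im, Complex.ofReal_re, Complex.ofReal_im]
    ring
  show 0 ≤ cr (q (m + 1) - q m) (s • z + t • w - q m)
  rw [this]
  positivity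

theorem isClosed_body {S : Type} {W : WangSys S} (γ : S → ℝ) (ε : ℝ) {N : ℕ} (tt : Fin N → Ty W) :
    IsClosed (body γ ε tt) := by
  apply isClosed_iInter
  intro k
  have : Hex (Qc γ ε tt k) = ⋂ m : Fin 6, {z : ℂ | 0 ≤ cr (Qc γ ε tt k (m + 1) - Qc γ ε tt k m)
      (z - Qc γ ε tt k m)} := by
    ext z; simp [Hex]
  rw [this]
  apply isClosed_iInter
  intro m
  apply isClosed_le continuous_const
  unfold cr
  have h1 : Continuous fun z : ℂ => (z - Qc γ ε tt k m).re :=
    Complex.continuous_re.comp (continuous_id.sub continuous_const)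
  have h2 : Continuous fun z : ℂ => (z - Qc γ ε tt k m).im :=
    Complex.continuous_im.comp (continuous_id.sub continuous_const)
  exact (continuous_const.mul h2).sub (continuous_const.mul h1)

/-- The result in the plane `ℂ`. -/
theorem main_C (hW : StmtW) (hSid : StmtSidon) (hA : StmtA) (hBody : StmtBody) (hBc : StmtBc)
    (hB4 : StmtB4) (hHG : StmtHexGeom) (hHV : StmtHexVol) (hV : StmtVtx) (hShoe : StmtShoe)
    (hLab : StmtLabel) (hCl : StmtClose) (hSep : StmtSep) (hMeas : StmtMeas) (hQ : StmtQ)
    (hC : StmtC) (hD : StmtD) :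
    ∃ K : Set ℂ, Convex ℝ K ∧ IsCompact K ∧ (interior K).Nonempty ∧
      (∀ (n : ℕ) (g : Fin n → (ℂ ≃ᵢ ℂ)) (u w : ℂ), IsPacking K g u w →
        (n : ℝ) * (2 * Real.sqrt 3) < (volume (parallelepiped ![u, w])).toReal) ∧
      (∀ M : ℕ, 1 ≤ M → ∃ g : Fin (M * M) → (ℂ ≃ᵢ ℂ),
        IsPacking K g (((M : ℝ) + 1 : ℝ) * u1) (((M : ℝ) + 1 : ℝ) * u2)) := by
  obtain ⟨S, hfin, W, hconf, hNP⟩ := hW
  obtain ⟨γ, hγ⟩ := hSid S
  have hne : Nonempty (Ty W) := by
    obtain ⟨s, hs⟩ := hconf
    refine ⟨⟨s 0 1, s 1 1, s 1 0, s 0 2, s 2 0, s 0 0, ?_, ?_, ?_, ?_, ?_, ?_⟩⟩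
    · exact (hs 0 1).1
    · exact (hs 0 1).2
    · exact (hs 1 0).1
    · exact (hs 1 0).2
    · exact (hs 0 0).1
    · exact (hs 0 0).2
  obtain ⟨ε, N, tt, r, e, _hN1, P⟩ := exists_package hA hBody hBc hB4 hHG hHV hV hShoe hLab hCl W γ hγ
  refine ⟨body γ ε tt, convex_body γ ε tt, ?_, ?_, ?_, ?_⟩
  · exact Metric.isCompact_of_isClosed_isBounded (isClosed_body γ ε tt)
      (Metric.isBounded_closedBall.subset P.sub_ball)
  · refine ⟨0, ?_⟩
    rw [mem_interior]
    exact ⟨Metric.ball 0 r, (Metric.ball_subset_closedBall).trans P.ball_sub, Metric.isOpen_ball,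
      Metric.mem_ball_self P.r_pos⟩
  · intro n g u w hpack
    have hLI := hpack.1
    obtain ⟨nn, hh, hS⟩ := hSep (body γ ε tt) r e (convex_body γ ε tt) P.r_pos P.e_nonneg
      P.ball_sub P.sub_ball n g u w hpack
    -- the period parallelogram has positive finite area
    have hTfin : volume (parallelepiped ![u, w]) ≠ ⊤ := by
      have : IsCompact (parallelepiped ![u, w]) := by
        rw [parallelepiped]
        apply IsCompact.image isCompact_Icc
        fun_prop
      exact this.measure_lt_top.ne
    rcases Nat.eq_zero_or_pos n with hn | hn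
    · subst hn
      rw [Nat.cast_zero, zero_mul]
      apply ENNReal.toReal_pos _ hTfin
      -- positivity of the area
      have hrk : Module.finrank ℝ ℂ = Fintype.card (Fin 2) := by simp
      let b := basisOfLinearIndependentOfCardEqFinrank hLI hrk.symm
      have hb : (b : Fin 2 → ℂ) = ![u, w] := coe_basisOfLinearIndependentOfCardEqFinrank _ _
      rw [← hb]
      have h1 : (interior (parallelepiped b)).Nonempty := (b.parallelepiped).interior_nonempty
      exact (Measure.measure_pos_of_nonempty_interior volume h1).ne'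
    · by_contra hcon
      push Not at hcon
      apply no_equality hHG hQ hC hMeas hNP P hn hLI hS
      rw [← ENNReal.ofReal_toReal hTfin]
      have : (n : ENNReal) * ENNReal.ofReal (2 * Real.sqrt 3) =
          ENNReal.ofReal ((n : ℝ) * (2 * Real.sqrt 3)) := by
        rw [ENNReal.ofReal_mul (p := (n : ℝ)) (by positivity), ENNReal.ofReal_natCast]
      rw [this]
      exact ENNReal.ofReal_le_ofReal hcon
  · intro M hM
    exact hD S W γ ε N tt hconf P.close P.surj M hM

end

end Pool.Agent.MP3e
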