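import Pool.Agent.Lib.MP_3e6a92_co.Spec

/-! Area of a circular cap. -/

set_option autoImplicit false

namespace Pool.Agent.MP3e

open MeasureTheory Set

noncomputable section

namespace CapArea

/-- antiderivative of `2 √(R² - x²)` -/
def G (R x : ℝ) : ℝ := x * Real.sqrt (R ^ 2 - x ^ 2) + R ^ 2 * Real.arcsin (x / R)

lemma G_cont (R : ℝ) : Continuous (G R) := by
  unfold G
  fun_prop

lemma G_deriv {R x : ℝ} (hR : 0 < R) (hx : x ∈ Ioo (-R) R) :
    HasDerivAt (G R) (2 * Real.sqrt (R ^ 2 - x ^ 2)) x := by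
  have hpos : 0 < R ^ 2 - x ^ 2 := by
    have h1 : -R < x := hx.1
    have h2 : x < R := hx.2
    nlinarith
  have hs : 0 < Real.sqrt (R ^ 2 - x ^ 2) := Real.sqrt_pos.mpr hpos
  have e1 : HasDerivAt (fun y : ℝ => R ^ 2 - y ^ 2) (-(2 * x)) x := by
    have := (hasDerivAt_pow 2 x).const_sub (R ^ 2)
    simpa using this
  have e2 := e1.sqrt hpos.ne'
  have e3 := (hasDerivAt_id x).mul e2
  have hx1 : x / R ≠ -1 := by
    intro h
    rw [div_eq_iff hR.ne'] at h
    have h1 : -R < x := hx.1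
    linarith
  have hx2 : x / R ≠ 1 := by
    intro h
    rw [div_eq_iff hR.ne'] at h
    have h1 : x < R := hx.2
    linarith
  have e4 := (Real.hasDerivAt_arcsin hx1 hx2).comp x ((hasDerivAt_id x).div_const R)
  have e5 := e4.const_mul (R ^ 2)
  have e6 := e3.add e5
  have hsq : Real.sqrt (1 - (x / R) ^ 2) = Real.sqrt (R ^ 2 - x ^ 2) / R := by
    have : 1 - (x / R) ^ 2 = (R ^ 2 - x ^ 2) / R ^ 2 := by
      field_simp
    rw [this, Real.sqrt_div hpos.le, Real.sqrt_sq hR.le]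
  have hval : 1 * Real.sqrt (R ^ 2 - x ^ 2) + id x * (-(2 * x) / (2 * Real.sqrt (R ^ 2 - x ^ 2))) +
      R ^ 2 * (1 / Real.sqrt (1 - (x / R) ^ 2) * (1 / R)) = 2 * Real.sqrt (R ^ 2 - x ^ 2) := by
    rw [hsq]
    have h2 : Real.sqrt (R ^ 2 - x ^ 2) ^ 2 = R ^ 2 - x ^ 2 := Real.sq_sqrt hpos.le
    simp only [id]
    field_simp
    nlinarith
  rw [hval] at e6
  exact e6

lemma integral_eq {R h : ℝ} (h0 : 0 < h) (hR : h ≤ R) :
    ∫ x in h..R, 2 * Real.sqrt (R ^ 2 - x ^ 2) =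
      R ^ 2 * (Real.arccos (h / R) -
      Real.sin (Real.arccos (h / R)) * Real.cos (Real.arccos (h / R))) := by
  have hR0 : 0 < R := lt_of_lt_of_le h0 hR
  have key := intervalIntegral.integral_eq_sub_of_hasDerivAt_of_le (a := h) (b := R)
    (f := G R) (f' := fun x => 2 * Real.sqrt (R ^ 2 - x ^ 2)) hR (G_cont R).continuousOn
    (fun x hx => G_deriv hR0 ⟨by linarith [hx.1], hx.2⟩)
    (Continuous.intervalIntegrable (by fun_prop) _ _)
  rw [key]
  have hle : h / R ≤ 1 := (div_le_one hR0).mpr hR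
  have hge : -1 ≤ h / R := by
    have : 0 ≤ h / R := by positivity
    linarith
  rw [Real.cos_arccos hge hle, Real.sin_arccos]
  have hpos : 0 ≤ R ^ 2 - h ^ 2 := by nlinarith
  have hsq : Real.sqrt (1 - (h / R) ^ 2) = Real.sqrt (R ^ 2 - h ^ 2) / R := by
    have : 1 - (h / R) ^ 2 = (R ^ 2 - h ^ 2) / R ^ 2 := by
      field_simp
    rw [this, Real.sqrt_div hpos, Real.sqrt_sq hR0.le]
  rw [hsq, Real.arccos_eq_pi_div_two_sub_arcsin]
  unfold G
  rw [div_self hR0.ne', Real.arcsin_one, sub_self, Real.sqrt_zero]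
  field_simp
  ring

lemma meas_prod (R h : ℝ) : MeasurableSet {p : ℝ × ℝ | p.1 ^ 2 + p.2 ^ 2 ≤ R ^ 2 ∧ h < p.1} := by
  have h1 : MeasurableSet {p : ℝ × ℝ | p.1 ^ 2 + p.2 ^ 2 ≤ R ^ 2} :=
    (isClosed_le (f := fun p : ℝ × ℝ => p.1 ^ 2 + p.2 ^ 2) (g := fun _ => R ^ 2)
      (by fun_prop) (by fun_prop)).measurableSet
  have h2 : MeasurableSet {p : ℝ × ℝ | h < p.1} :=
    (isOpen_lt (f := fun _ : ℝ × ℝ => h) (g := fun p => p.1)
      (by fun_prop) (by fun_prop)).measurableSet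
  exact h1.inter h2

lemma meas_complex (R h : ℝ) : MeasurableSet {w : ℂ | ‖w‖ ≤ R ∧ h < w.re} := by
  have h1 : MeasurableSet {w : ℂ | ‖w‖ ≤ R} :=
    (isClosed_le (f := fun w : ℂ => ‖w‖) (g := fun _ => R)
      (by fun_prop) (by fun_prop)).measurableSet
  have h2 : MeasurableSet {w : ℂ | h < w.re} :=
    (isOpen_lt (f := fun _ : ℂ => h) (g := fun w => w.re)
      (by fun_prop) (by fun_prop)).measurableSet
  exact h1.inter h2

lemma slice_subset {R x : ℝ} :
    {y : ℝ | x ^ 2 + y ^ 2 ≤ R ^ 2} ⊆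
      Icc (-Real.sqrt (R ^ 2 - x ^ 2)) (Real.sqrt (R ^ 2 - x ^ 2)) := by
  intro y hy
  have hy' : x ^ 2 + y ^ 2 ≤ R ^ 2 := hy
  have h1 : |y| ≤ Real.sqrt (R ^ 2 - x ^ 2) := by
    apply Real.abs_le_sqrt
    linarith
  exact abs_le.mp h1

lemma vol_prod {R h : ℝ} (h0 : 0 < h) (hR : h ≤ R) :
    volume {p : ℝ × ℝ | p.1 ^ 2 + p.2 ^ 2 ≤ R ^ 2 ∧ h < p.1} ≤
      ENNReal.ofReal (∫ x in h..R, 2 * Real.sqrt (R ^ 2 - x ^ 2)) := by
  have hR0 : 0 < R := lt_of_lt_of_le h0 hR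
  have hmeas := meas_prod R h
  rw [Measure.volume_eq_prod, Measure.prod_apply hmeas]
  have hb : ∀ x : ℝ, volume (Prod.mk x ⁻¹' {p : ℝ × ℝ | p.1 ^ 2 + p.2 ^ 2 ≤ R ^ 2 ∧ h < p.1}) ≤
      (Ioc h R).indicator (fun x => ENNReal.ofReal (2 * Real.sqrt (R ^ 2 - x ^ 2))) x := by
    intro x
    by_cases hx : x ∈ Ioc h R
    · rw [indicator_of_mem hx]
      calc volume (Prod.mk x ⁻¹' {p : ℝ × ℝ | p.1 ^ 2 + p.2 ^ 2 ≤ R ^ 2 ∧ h < p.1})
          ≤ volume (Icc (-Real.sqrt (R ^ 2 - x ^ 2)) (Real.sqrt (R ^ 2 - x ^ 2))) := by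
            apply measure_mono
            intro y hy
            exact slice_subset hy.1
        _ = ENNReal.ofReal (2 * Real.sqrt (R ^ 2 - x ^ 2)) := by
            rw [Real.volume_Icc]
            congr 1
            ring
    · rw [indicator_of_notMem hx]
      have : Prod.mk x ⁻¹' {p : ℝ × ℝ | p.1 ^ 2 + p.2 ^ 2 ≤ R ^ 2 ∧ h < p.1} = ∅ := by
        ext y
        simp only [mem_preimage, mem_ofPred_eq, mem_empty_iff_false, iff_false, not_and, not_lt]
        intro hy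
        by_contra hlt
        push Not at hlt
        apply hx
        refine ⟨hlt, ?_⟩
        have : x ^ 2 ≤ R ^ 2 := by nlinarith [sq_nonneg y]
        exact (abs_le_of_sq_le_sq' this hR0.le).2
      rw [this, measure_empty]
  calc ∫⁻ x, volume (Prod.mk x ⁻¹' {p : ℝ × ℝ | p.1 ^ 2 + p.2 ^ 2 ≤ R ^ 2 ∧ h < p.1})
      ≤ ∫⁻ x, (Ioc h R).indicator (fun x => ENNReal.ofReal (2 * Real.sqrt (R ^ 2 - x ^ 2))) x :=
        lintegral_mono hb
    _ = ∫⁻ x in Ioc h R, ENNReal.ofReal (2 * Real.sqrt (R ^ 2 - x ^ 2)) := by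
        rw [lintegral_indicator measurableSet_Ioc]
    _ = ENNReal.ofReal (∫ x in Ioc h R, 2 * Real.sqrt (R ^ 2 - x ^ 2)) := by
        rw [ofReal_integral_eq_lintegral_ofReal]
        · apply IntegrableOn.mono_set (t := Icc h R) _ Ioc_subset_Icc_self
          exact (Continuous.continuousOn (by fun_prop)).integrableOn_Icc
        · exact Filter.Eventually.of_forall fun x => by positivity
    _ = ENNReal.ofReal (∫ x in h..R, 2 * Real.sqrt (R ^ 2 - x ^ 2)) := by
        rw [intervalIntegral.integral_of_le hR]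

lemma vol_complex {R h : ℝ} (h0 : 0 < h) (hR : h ≤ R) :
    volume {w : ℂ | ‖w‖ ≤ R ∧ h < w.re} ≤
      ENNReal.ofReal (∫ x in h..R, 2 * Real.sqrt (R ^ 2 - x ^ 2)) := by
  have hR0 : 0 < R := lt_of_lt_of_le h0 hR
  refine le_trans (le_of_eq ?_) (vol_prod h0 hR)
  have hmp := Complex.volume_preserving_equiv_real_prod
  have hmeas := meas_prod R h
  rw [← hmp.measure_preimage hmeas.nullMeasurableSet]
  congr 1
  ext w
  simp only [mem_ofPred_eq, mem_preimage, Complex.measurableEquivRealProd_apply]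
  have : ‖w‖ ≤ R ↔ w.re ^ 2 + w.im ^ 2 ≤ R ^ 2 := by
    constructor
    · intro hw
      have h1 : ‖w‖ ^ 2 ≤ R ^ 2 := by
        have := norm_nonneg w
        nlinarith
      rw [Complex.sq_norm, Complex.normSq_apply] at h1
      nlinarith
    · intro hw
      have h1 : ‖w‖ ^ 2 ≤ R ^ 2 := by
        rw [Complex.sq_norm, Complex.normSq_apply]
        nlinarith
      exact (abs_le_of_sq_le_sq' h1 hR0.le).2
  rw [this]

end CapArea

open CapArea in
theorem stmtCap : StmtCap := by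
  intro R h n h0 hR hn
  rw [← integral_eq h0 hR]
  refine le_trans (le_of_eq ?_) (vol_complex h0 hR)
  have hcn : ‖(starRingEnd ℂ) n‖ = 1 := by
    rw [RCLike.norm_conj]
    exact hn
  let c : Circle := ⟨(starRingEnd ℂ) n, by
    rw [Submonoid.unitSphere, ← SetLike.mem_coe]
    simpa using hn⟩
  have hmp : MeasurePreserving (rotation c) volume volume :=
    (rotation c).measurePreserving
  have hmeas := meas_complex R h
  rw [← hmp.measure_preimage hmeas.nullMeasurableSet]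
  congr 1
  ext z
  simp only [mem_ofPred_eq, mem_preimage, rotation_apply]
  have h1 : ‖(c : ℂ) * z‖ = ‖z‖ := by
    rw [norm_mul]
    simp
  have h2 : ((c : ℂ) * z).re = dt n z := by
    show ((starRingEnd ℂ) n * z).re = dt n z
    simp [dt, Complex.mul_re]
  rw [h1, h2]

end

end Pool.Agent.MP3e
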