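import Pool.Agent.Lib.MP_3e6a92_co.Local

/-!
The cells of a periodic packing of the body: area at least `2 √3` each; in the case of equality the
cells form a tiling by hexagons.
-/

set_option autoImplicit false

namespace Pool.Agent.MP3e

open MeasureTheory Set

noncomputable section

section frame

variable {n : ℕ} (g : Fin n → (ℂ ≃ᵢ ℂ)) (u w : ℂ)

/-- linear part of the isometry `g i` -/
def lin (i : Fin n) : ℂ ≃ₗᵢ[ℝ] ℂ := (g i).toRealAffineIsometryEquiv.linearIsometryEquiv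

/-- centre of the copy `x` -/
def ctr (x : Fin n × ℤ × ℤ) : ℂ := place g u w x 0

theorem g_eq (i : Fin n) (z : ℂ) : g i z = lin g i z + g i 0 := by
  have h := (g i).toRealAffineIsometryEquiv.map_vadd (0 : ℂ) z
  simp only [vadd_eq_add, add_zero] at h
  exact h

theorem place_eq (x : Fin n × ℤ × ℤ) (z : ℂ) :
    place g u w x z = lin g x.1 z + ctr g u w x := by
  simp only [ctr, place]
  rw [g_eq g x.1 z]
  ring

theorem place_sh (a b : ℤ) (x : Fin n × ℤ × ℤ) (z : ℂ) :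
    place g u w (sh a b x) z = place g u w x z + ((a : ℝ) • u + (b : ℝ) • w) := by
  simp only [place, sh, Int.cast_add, add_smul]
  ring

theorem ctr_sh (a b : ℤ) (x : Fin n × ℤ × ℤ) :
    ctr g u w (sh a b x) = ctr g u w x + ((a : ℝ) • u + (b : ℝ) • w) := place_sh g u w a b x 0

theorem sh_inj {a b : ℤ} {x y : Fin n × ℤ × ℤ} (h : sh a b x = sh a b y) : x = y := by
  simp only [sh, Prod.mk.injEq, add_left_inj] at h
  obtain ⟨h1, h2, h3⟩ := h
  exact Prod.ext h1 (Prod.ext h2 h3)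

theorem sh_sh (a b a' b' : ℤ) (x : Fin n × ℤ × ℤ) : sh a b (sh a' b' x) = sh (a' + a) (b' + b) x := by
  simp only [sh, add_assoc]

theorem sh_neg (a b : ℤ) (x : Fin n × ℤ × ℤ) : sh a b (sh (-a) (-b) x) = x := by
  simp [sh_sh, sh]

theorem eq_sh_base (x : Fin n × ℤ × ℤ) : x = sh x.2.1 x.2.2 (x.1, 0, 0) := by
  simp [sh]

/-- inverse of `place` -/
def unplace (x : Fin n × ℤ × ℤ) (z : ℂ) : ℂ := (lin g x.1).symm (z - ctr g u w x)

theorem place_unplace (x : Fin n × ℤ × ℤ) (z : ℂ) :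
    place g u w x (unplace g u w x z) = z := by
  rw [place_eq, unplace]; simp

theorem unplace_place (x : Fin n × ℤ × ℤ) (z : ℂ) :
    unplace g u w x (place g u w x z) = z := by
  rw [place_eq, unplace]; simp

variable {g u w}

/-- the normals in the frame of the copy `(i,0,0)` -/
def nF (g : Fin n → (ℂ ≃ᵢ ℂ)) (nn : Fin n × ℤ × ℤ → Fin n × ℤ × ℤ → ℂ) (i : Fin n)
    (y : {y : Fin n × ℤ × ℤ // y ≠ (i, 0, 0)}) : ℂ := (lin g i).symm (nn (i, 0, 0) y.1)

/-- the offsets in the frame of the copy `(i,0,0)` -/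
def hF (g : Fin n → (ℂ ≃ᵢ ℂ)) (u w : ℂ) (nn : Fin n × ℤ × ℤ → Fin n × ℤ × ℤ → ℂ)
    (hh : Fin n × ℤ × ℤ → Fin n × ℤ × ℤ → ℝ) (i : Fin n)
    (y : {y : Fin n × ℤ × ℤ // y ≠ (i, 0, 0)}) : ℝ :=
  hh (i, 0, 0) y.1 - dt (nn (i, 0, 0) y.1) (ctr g u w (i, 0, 0))

/-- the centres in the frame of the copy `(i,0,0)` -/
def cF (g : Fin n → (ℂ ≃ᵢ ℂ)) (u w : ℂ) (i : Fin n)
    (y : {y : Fin n × ℤ × ℤ // y ≠ (i, 0, 0)}) : ℂ :=
  (lin g i).symm (ctr g u w y.1 - ctr g u w (i, 0, 0))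

variable {K : Set ℂ} {r e : ℝ} {nn : Fin n × ℤ × ℤ → Fin n × ℤ × ℤ → ℂ}
  {hh : Fin n × ℤ × ℤ → Fin n × ℤ × ℤ → ℝ}

theorem dt_symm_left (L : ℂ ≃ₗᵢ[ℝ] ℂ) (a z : ℂ) : dt (L.symm a) z = dt a (L z) := by
  rw [← dt_isometry L, L.apply_symm_apply]

/-- the key comparison of the frames -/
theorem frame_eq (hS : Sep K e g u w nn hh) (i : Fin n) (a b : ℤ)
    (y : {y : Fin n × ℤ × ℤ // y ≠ (i, 0, 0)}) (ζ : ℂ) :
    dt (nn (i, a, b) (sh a b y.1)) (place g u w (i, a, b) ζ) - hh (i, a, b) (sh a b y.1) =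
      dt (nF g nn i y) ζ - hF g u w nn hh i y := by
  have hx : ((i, a, b) : Fin n × ℤ × ℤ) = sh a b (i, 0, 0) := by simp [sh]
  have hne : ((i, 0, 0) : Fin n × ℤ × ℤ) ≠ y.1 := fun h => y.2 h.symm
  rw [hx, hS.shift_n _ _ a b hne, hS.shift_h _ _ a b hne, place_eq, ctr_sh]
  simp only [nF, hF, dt_symm_left, dt_add_right]
  have : (sh a b ((i, 0, 0) : Fin n × ℤ × ℤ)).1 = i := rfl
  rw [this]
  ring

theorem rad_le (hS : Sep K e g u w nn hh) (hr : 0 ≤ r) (hb : Metric.closedBall (0 : ℂ) r ⊆ K)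
    (x y : Fin n × ℤ × ℤ) (hxy : x ≠ y) :
    dt (nn x y) (ctr g u w x) + r ≤ hh x y := by
  have hn := hS.norm x y hxy
  set ζ : ℂ := ((r : ℝ) : ℂ) * (lin g x.1).symm (nn x y) with hζ
  have hζK : ζ ∈ K := by
    apply hb
    rw [mem_closedBall_zero_iff, hζ, norm_mul, LinearIsometryEquiv.norm_map, hn, mul_one,
      Complex.norm_real, Real.norm_eq_abs, abs_of_nonneg hr]
  have h := hS.sub x y hxy ζ hζK
  rw [place_eq, dt_add_right] at h
  have h2 : dt (nn x y) (lin g x.1 ζ) = r := by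
    rw [← dt_symm_left, hζ, dt_smul_right, dt_self, LinearIsometryEquiv.norm_map, hn]
    ring
  rw [h2] at h
  linarith

theorem rad_ge (hS : Sep K e g u w nn hh) (hr : 0 ≤ r) (hb : Metric.closedBall (0 : ℂ) r ⊆ K)
    (x y : Fin n × ℤ × ℤ) (hxy : x ≠ y) :
    hh x y + r ≤ dt (nn x y) (ctr g u w y) := by
  have h := rad_le hS hr hb y x hxy.symm
  rw [hS.anti_n x y hxy, hS.anti_h x y hxy, dt_neg_left] at h
  linarith

theorem ctr_dist (hS : Sep K e g u w nn hh) (hr : 0 ≤ r) (hb : Metric.closedBall (0 : ℂ) r ⊆ K)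
    (x y : Fin n × ℤ × ℤ) (hxy : x ≠ y) : 2 * r ≤ ‖ctr g u w y - ctr g u w x‖ := by
  have h1 := rad_le hS hr hb x y hxy
  have h2 := rad_ge hS hr hb x y hxy
  have h3 := dt_le (nn x y) (ctr g u w y - ctr g u w x)
  rw [hS.norm x y hxy, one_mul, dt_sub_right] at h3
  linarith

theorem config (hS : Sep K e g u w nn hh) (hr : 0 ≤ r) (hb : Metric.closedBall (0 : ℂ) r ⊆ K)
    (i : Fin n) : Config r e (cF g u w i) (nF g nn i) (hF g u w nn hh i) := by
  refine ⟨?_, ?_, ?_, ?_, ?_⟩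
  · intro y
    rw [nF, LinearIsometryEquiv.norm_map]
    exact hS.norm _ _ (Ne.symm y.2)
  · intro y
    rw [cF, LinearIsometryEquiv.norm_map]
    exact ctr_dist hS hr hb _ _ (Ne.symm y.2)
  · intro y l hyl
    rw [cF, cF, ← map_sub, LinearIsometryEquiv.norm_map]
    have h := ctr_dist hS hr hb l.1 y.1 (fun h => hyl (Subtype.ext h.symm))
    have : ctr g u w y.1 - ctr g u w (i, 0, 0) - (ctr g u w l.1 - ctr g u w (i, 0, 0)) =
      ctr g u w y.1 - ctr g u w l.1 := by ring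
    rw [this]
    exact h
  · intro y
    have := rad_le hS hr hb _ _ (Ne.symm y.2)
    simp only [hF]
    linarith
  · intro y
    by_cases hfar : 2 * (1 + e) ≤ ‖ctr g u w y.1 - ctr g u w (i, 0, 0)‖
    · left
      have h := hS.far (i, 0, 0) y.1 (Ne.symm y.2) hfar
      simp only [cF, nF, hF]
      have h' : ctr g u w y.1 - ctr g u w (i, 0, 0) =
        (2 * (hh (i, 0, 0) y.1 - dt (nn (i, 0, 0) y.1) (ctr g u w (i, 0, 0))) : ℝ) •
          nn (i, 0, 0) y.1 := by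
        rw [Complex.real_smul]; exact h
      rw [h', map_smul, Complex.real_smul]
    · right
      refine ⟨?_, ?_⟩
      · rw [cF, LinearIsometryEquiv.norm_map]
        exact le_of_lt (not_le.mp hfar)
      · have := rad_ge hS hr hb _ _ (Ne.symm y.2)
        simp only [cF, nF, hF, dt_isometry, dt_sub_right]
        linarith

theorem mem_cell_iff (hS : Sep K e g u w nn hh) (i : Fin n) (a b : ℤ) (ζ : ℂ) :
    place g u w (i, a, b) ζ ∈ cell nn hh (i, a, b) ↔
      ζ ∈ cellOf (nF g nn i) (hF g u w nn hh i) := by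
  constructor
  · intro h y
    have hne : sh a b y.1 ≠ (i, a, b) := by
      intro h'
      apply y.2
      apply sh_inj (a := a) (b := b)
      rw [h']; simp [sh]
    have h1 := h (sh a b y.1) hne
    have h2 := frame_eq hS i a b y ζ
    linarith
  · intro h y hy
    have hy' : sh (-a) (-b) y ≠ (i, 0, 0) := by
      intro h'
      apply hy
      have := congrArg (sh a b) h'
      rw [sh_neg] at this
      rw [this]; simp [sh]
    have h1 := h ⟨sh (-a) (-b) y, hy'⟩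
    have h2 := frame_eq hS i a b ⟨sh (-a) (-b) y, hy'⟩ ζ
    rw [sh_neg] at h2
    linarith

theorem volume_cell (hS : Sep K e g u w nn hh) (i : Fin n) :
    volume (cell nn hh (i, 0, 0)) = volume (cellOf (nF g nn i) (hF g u w nn hh i)) := by
  have h1 : cellOf (nF g nn i) (hF g u w nn hh i) =
      (lin g i) ⁻¹' ((fun z => z + ctr g u w (i, 0, 0)) ⁻¹' (cell nn hh (i, 0, 0))) := by
    ext ζ
    rw [← mem_cell_iff hS i 0 0 ζ]
    simp only [mem_preimage, place_eq]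
  rw [h1]
  have h2 := (lin g i).measurePreserving.measure_preimage_equiv (f :=
    (lin g i).toHomeomorph.toMeasurableEquiv)
      ((fun z => z + ctr g u w (i, 0, 0)) ⁻¹' (cell nn hh (i, 0, 0)))
  have h3 := measure_preimage_add_right (volume : Measure ℂ) (ctr g u w (i, 0, 0))
    (cell nn hh (i, 0, 0))
  rw [← h3]
  exact h2.symm

end frame

end

end Pool.Agent.MP3e
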