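import Pool.Agent.Lib.MP_3e6a92_co.Spec

/-!
From side data to a doubly periodic Wang configuration.
-/

set_option autoImplicit false

namespace Pool.Agent.MP3e

namespace Comb

/-- class of the second minus class of the first component of the label of a side -/
def dif : Fin 6 → ZMod 7 := ![4, 2, 1, 4, 2, 1]

/-- offset of the base class of a side -/
def off : Fin 6 → ZMod 7 := ![0, 0, 4, 4, 5, 5]

/-- the base class of a side, computed from its label -/
def base {S : Type} (W : WangSys S) (p : S × S) : Fin 6 → ZMod 7 :=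
  ![W.cls p.2, W.cls p.1 - 1, W.cls p.1, W.cls p.2, W.cls p.1 - 1, W.cls p.1]

theorem base_add {S : Type} (W : WangSys S) (p : S × S) (m : Fin 6) :
    base W p (m + 3) = base W p m := by
  fin_cases m <;> rfl

theorem dif_eq : ∀ m m' : Fin 6, dif m = dif m' → m' = m ∨ m' = m + 3 := by
  decide

theorem add_two_eq : ∀ m : Fin 6, m + 2 = m + 3 + -1 := by
  decide

theorem cls_all {S : Type} {W : WangSys S} (t : Ty W) :
    W.cls t.B = W.cls t.A + 1 ∧ W.cls t.D = W.cls t.A + 3 ∧ W.cls t.C = W.cls t.A + 5 ∧
      W.cls t.E = W.cls t.A + 6 ∧ W.cls t.F = W.cls t.A + 4 := by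
  have h1 := W.hE _ _ t.hAB
  have h2 := W.hN _ _ t.hAD
  have h3 := W.hE _ _ t.hCE
  have h4 := W.hN _ _ t.hCB
  have h5 := W.hN _ _ t.hFA
  generalize W.cls t.A = a at *
  generalize W.cls t.B = b at *
  generalize W.cls t.C = c at *
  generalize W.cls t.D = d at *
  generalize W.cls t.E = e at *
  generalize W.cls t.F = f at *
  subst h1 h2 h3
  refine ⟨rfl, rfl, ?_, ?_, ?_⟩
  · clear h5; revert a c; decide
  · clear h5; revert a c; decide
  · clear h4; revert a f; decide

theorem dif_label {S : Type} {W : WangSys S} (t : Ty W) (m : Fin 6) :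
    W.cls (label t m).2 - W.cls (label t m).1 = dif m := by
  obtain ⟨h1, h2, h3, h4, h5⟩ := cls_all t
  fin_cases m
  · change W.cls t.A - W.cls t.D = 4
    rw [h2]; generalize W.cls t.A = a; revert a; decide
  · change W.cls t.D - W.cls t.B = 2
    rw [h1, h2]; generalize W.cls t.A = a; revert a; decide
  · change W.cls t.C - W.cls t.F = 1
    rw [h3, h5]; generalize W.cls t.A = a; revert a; decide
  · change W.cls t.F - W.cls t.A = 4
    rw [h5]; generalize W.cls t.A = a; revert a; decide
  · change W.cls t.B - W.cls t.E = 2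
    rw [h1, h4]; generalize W.cls t.A = a; revert a; decide
  · change W.cls t.E - W.cls t.C = 1
    rw [h3, h4]; generalize W.cls t.A = a; revert a; decide

theorem base_label {S : Type} {W : WangSys S} (t : Ty W) (m : Fin 6) :
    base W (label t m) m = W.cls t.A + off m := by
  obtain ⟨h1, h2, h3, h4, h5⟩ := cls_all t
  fin_cases m
  · change W.cls t.A = W.cls t.A + 0
    rw [add_zero]
  · change W.cls t.B - 1 = W.cls t.A + 0
    rw [h1]; generalize W.cls t.A = a; revert a; decide
  · change W.cls t.F = W.cls t.A + 4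
    exact h5
  · change W.cls t.F = W.cls t.A + 4
    exact h5
  · change W.cls t.E - 1 = W.cls t.A + 5
    rw [h4]; generalize W.cls t.A = a; revert a; decide
  · change W.cls t.C = W.cls t.A + 5
    exact h3

theorem corner_dec : ∀ m m' m'' e e' : Fin 6, (m' = m ∨ m' = m + 3) →
    (m'' = m + 1 ∨ m'' = m + 1 + 3) → (e = 1 ∨ e = -1) → (e' = 1 ∨ e' = -1) →
    (m'' + e' = m' + e ∨ m'' + e' = m' + e + 3) →
    off m' - off m + (off (m + 1) - off m'') + (off (m'' + e') - off (m' + e)) = 0 →
    m' = m + 3 ∧ e = -1 := by
  decide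

end Comb

open Comb in
theorem stmtC : StmtC := by
  intro S W hNP I _ _ ty nb sd hS hlab
  have hmod : ∀ i m, sd i m = m ∨ sd i m = m + 3 := by
    intro i m
    apply dif_eq
    rw [← dif_label (ty i) m, hlab i m, dif_label]
  have hbase : ∀ i m, W.cls (ty i).A + off m = W.cls (ty (nb i m)).A + off (sd i m) := by
    intro i m
    rw [← base_label (ty i) m, ← base_label (ty (nb i m)) (sd i m), hlab i m]
    rcases hmod i m with h | h
    · rw [h]
    · rw [h, base_add]
  have key : ∀ i m, sd i m = m + 3 ∧ nb (nb i m) (m + 2) = nb i (m + 1) := by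
    intro i m
    obtain ⟨e, e', he, he', h1, h2⟩ := hS.corner i m
    have a1 := hbase i m
    have a2 := hbase i (m + 1)
    have a3 := hbase (nb i m) (sd i m + e)
    rw [h1, h2] at a3
    have a4 := hmod (nb i m) (sd i m + e)
    rw [h2] at a4
    have key := corner_dec m (sd i m) (sd i (m + 1)) e e' (hmod i m) (hmod i (m + 1)) he he' a4
      (by
        have b1 : off (sd i m) - off m = W.cls (ty i).A - W.cls (ty (nb i m)).A := by
          linear_combination -a1
        have b2 : off (m + 1) - off (sd i (m + 1)) =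
            W.cls (ty (nb i (m + 1))).A - W.cls (ty i).A := by
          linear_combination a2
        have b3 : off (sd i (m + 1) + e') - off (sd i m + e) =
            W.cls (ty (nb i m)).A - W.cls (ty (nb i (m + 1))).A := by
          linear_combination -a3
        rw [b1, b2, b3]; ring)
    obtain ⟨k1, k2⟩ := key
    refine ⟨k1, ?_⟩
    rw [k1, k2] at h1
    rw [← h1, add_two_eq]
  have hinv : ∀ i m, nb (nb i m) (m + 3) = i := by
    intro i m
    have := hS.nb_nb i m
    rwa [(key i m).1] at this
  let E : Equiv.Perm I :=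
    { toFun := fun i => nb i 5
      invFun := fun i => nb i 2
      left_inv := fun i => hinv i 5
      right_inv := fun i => hinv i 2 }
  let N : Equiv.Perm I :=
    { toFun := fun i => nb i 0
      invFun := fun i => nb i 3
      left_inv := fun i => hinv i 0
      right_inv := fun i => hinv i 3 }
  have hME : ∀ i, nb (E i) 1 = N i := fun i => (key i 5).2
  have hEM : ∀ i, N i = E (nb i 1) := by
    intro i
    have h := (key i 0).2
    have h2 : nb (nb (nb i 0) 2) 5 = nb i 0 := hinv (nb i 0) 2
    have h3 : nb (nb i 0) 2 = nb i 1 := h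
    rw [h3] at h2
    exact h2.symm
  refine hNP I E N (fun i => (ty i).A) ?_ ?_
  · intro i
    rw [hEM (E i), hME i]
  · intro i
    constructor
    · have h1 := hlab i 4
      rw [(key i 4).1] at h1
      have h2 : (ty i).B = (ty (nb i 4)).D := congrArg Prod.snd h1
      have h3 := hlab (nb i 4) 0
      rw [(key (nb i 4) 0).1] at h3
      have h4 : nb (nb i 4) 0 = nb i 5 := (key i 4).2
      rw [h4] at h3
      have h5 : (ty (nb i 4)).D = (ty (nb i 5)).A := congrArg Prod.fst h3
      have h6 : (ty i).B = (ty (E i)).A := h2.trans h5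
      change W.E (ty i).A (ty (E i)).A
      rw [← h6]
      exact (ty i).hAB
    · have h1 := hlab i 0
      rw [(key i 0).1] at h1
      have h2 : (ty i).D = (ty (nb i 0)).A := congrArg Prod.fst h1
      change W.N (ty i).A (ty (nb i 0)).A
      rw [← h2]
      exact (ty i).hAD

end Pool.Agent.MP3e
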