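import Mathlib

/-!
Definitions for the disproof of MP_3e6a92_co (frozen S08280): there is a convex disc whose packing density
is attained by no periodic packing.  The plane is `ℂ`.
-/

set_option autoImplicit false

namespace Pool.Agent.MP3e

open MeasureTheory Set

noncomputable section

/-- dot product of two plane vectors -/
def dt (z w : ℂ) : ℝ := z.re * w.re + z.im * w.im

/-- cross product of two plane vectors -/
def cr (z w : ℂ) : ℝ := z.re * w.im - z.im * w.re

/-- unit vector of angle `θ` -/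
def cis (θ : ℝ) : ℂ := ⟨Real.cos θ, Real.sin θ⟩

/-- first lattice vector -/
def u1 : ℂ := ⟨2, 0⟩

/-- second lattice vector -/
def u2 : ℂ := ⟨1, Real.sqrt 3⟩

/-! ### Wang systems -/

/-- A nearest-neighbour system on `ℤ²` with horizontal relation `E`, vertical relation `N` and a
background colouring mod 7. -/
structure WangSys (S : Type) where
  E : S → S → Prop
  N : S → S → Prop
  cls : S → ZMod 7
  hE : ∀ s t, E s t → cls t = cls s + 1
  hN : ∀ s t, N s t → cls t = cls s + 3

/-- the system has a configuration on `ℤ × ℕ` -/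
def HasConf {S : Type} (W : WangSys S) : Prop :=
  ∃ s : ℤ → ℕ → S, ∀ x y, W.E (s x y) (s (x + 1) y) ∧ W.N (s x y) (s x (y + 1))

/-- the system has no doubly periodic configuration (in the form of a finite `ℤ²`-set) -/
def NoPeriodic {S : Type} (W : WangSys S) : Prop :=
  ∀ (I : Type) [Finite I] [Nonempty I] (E N : Equiv.Perm I) (a : I → S),
    (∀ i, E (N i) = N (E i)) → (∀ i, W.E (a i) (a (E i)) ∧ W.N (a i) (a (N i))) → False

/-! ### Hexagon types -/

/-- A hexagon type: the six states around a hexagon.  If the hexagon sits at `(x,y)` then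
`A = s(x,y)`, `B = s(x+1,y)`, `C = s(x+1,y-1)`, `D = s(x,y+1)`, `E = s(x+2,y-1)`, `F = s(x,y-1)`. -/
structure Ty {S : Type} (W : WangSys S) where
  A : S
  B : S
  C : S
  D : S
  E : S
  F : S
  hAB : W.E A B
  hAD : W.N A D
  hCE : W.E C E
  hCB : W.N C B
  hFC : W.E F C
  hFA : W.N F A

variable {S : Type} {W : WangSys S}

/-- labels of the six sides; side `m` joins corner `m` and corner `m + 1` -/
def label (t : Ty W) : Fin 6 → S × S :=
  ![(t.D, t.A), (t.B, t.D), (t.F, t.C), (t.A, t.F), (t.E, t.B), (t.C, t.E)]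

/-- displacement of a corner surrounded by the states `s0, s1, s2` -/
def disp (γ : S → ℝ) (ε : ℝ) (s0 s1 s2 : S) : ℂ :=
  ((ε * (γ s1 - γ s0) : ℝ) : ℂ) * u2 - ((ε * (γ s2 - γ s0) : ℝ) : ℂ) * u1

/-- the corners of the regular hexagon circumscribed about the unit disc; the corner `m` has
angle `π/6 + m π/3` -/
def reg : Fin 6 → ℂ :=
  ![(u1 + u2) / 3, (2 * u2 - u1) / 3, (u2 - 2 * u1) / 3, -(u1 + u2) / 3, (u1 - 2 * u2) / 3,
    (2 * u1 - u2) / 3]

/-- the corners (counterclockwise) of the hexagon of type `t`, centre `0` -/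
def corner (γ : S → ℝ) (ε : ℝ) (t : Ty W) : Fin 6 → ℂ :=
  ![(u1 + u2) / 3, (2 * u2 - u1) / 3 + disp γ ε t.A t.B t.D, (u2 - 2 * u1) / 3,
    -(u1 + u2) / 3 + disp γ ε t.F t.C t.A, (u1 - 2 * u2) / 3,
    (2 * u1 - u2) / 3 + disp γ ε t.C t.E t.B]

/-- the hexagon with corners `q 0, …, q 5` in counterclockwise order (intersection of the six
half planes to the left of the sides) -/
def Hex (q : Fin 6 → ℂ) : Set ℂ := {z | ∀ m, 0 ≤ cr (q (m + 1) - q m) (z - q m)}

/-- twice the shoelace area -/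
def shoe (q : Fin 6 → ℂ) : ℝ := ∑ m, cr (q m) (q (m + 1))

/-- corners of the `k`-th hexagon of the body: type `tt k`, rotated by `k π / (3 N)` -/
def Qc (γ : S → ℝ) (ε : ℝ) {N : ℕ} (tt : Fin N → Ty W) (k : Fin N) : Fin 6 → ℂ :=
  fun m => cis ((k : ℕ) * (Real.pi / (3 * N))) * corner γ ε (tt k) m

/-- The convex body: intersection of the rotated hexagons. -/
def body (γ : S → ℝ) (ε : ℝ) {N : ℕ} (tt : Fin N → Ty W) : Set ℂ :=
  ⋂ k : Fin N, Hex (Qc γ ε tt k)

/-- all differences of `γ` are distinct -/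
def Sidon {S : Type} (γ : S → ℝ) : Prop :=
  ∀ s t s' t' : S, s ≠ t → s' ≠ t' → γ s - γ t = γ s' - γ t' → s = s' ∧ t = t'

/-! ### Half planes -/

/-- intersection of the half planes `dt (n j) z ≤ h j` -/
def cellOf {J : Type} (n : J → ℂ) (h : J → ℝ) : Set ℂ := {z | ∀ j, dt (n j) z ≤ h j}

/-- the vertex `m` of the polygon with side lines `dt (n m) z = h m`: intersection of the lines
`m - 1` and `m` -/
def vtx (n : Fin 6 → ℂ) (h : Fin 6 → ℝ) (m : Fin 6) : ℂ :=
  (((h m : ℝ) : ℂ) * (Complex.I * n (m - 1)) - ((h (m - 1) : ℝ) : ℂ) * (Complex.I * n m)) /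
    ((cr (n (m - 1)) (n m) : ℝ) : ℂ)

/-- near regular normals -/
def nrm (α : ℝ) (β : Fin 6 → ℝ) : Fin 6 → ℂ :=
  fun m => cis (α + (m : ℕ) * (Real.pi / 3) + β m)

/-- The hypotheses on the neighbours (centres `c j`, separating half planes `dt (n j) z ≤ h j`) of a
copy centred at `0`: all centres are `2 r`-separated, and each half plane is either the bisector
half plane or belongs to a near neighbour. -/
structure Config (r e : ℝ) {J : Type} (c : J → ℂ) (n : J → ℂ) (h : J → ℝ) : Prop where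
  norm_n : ∀ j, ‖n j‖ = 1
  dist0 : ∀ j, 2 * r ≤ ‖c j‖
  dist : ∀ j l, j ≠ l → 2 * r ≤ ‖c j - c l‖
  le_h : ∀ j, r ≤ h j
  alt : ∀ j, c j = ((2 * h j : ℝ) : ℂ) * n j ∨ (‖c j‖ ≤ 2 * (1 + e) ∧ h j + r ≤ dt (n j) (c j))

/-! ### Packings -/

/-- the plane isometries of a periodic arrangement: the copy `(i,a,b)` is the image of the body
under `z ↦ g i z + a u + b w` -/
def place {n : ℕ} (g : Fin n → (ℂ ≃ᵢ ℂ)) (u w : ℂ) (x : Fin n × ℤ × ℤ) (z : ℂ) : ℂ :=
  g x.1 z + ((x.2.1 : ℝ) • u + (x.2.2 : ℝ) • w)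

/-- `n` copies per period form a packing -/
def IsPacking (K : Set ℂ) {n : ℕ} (g : Fin n → (ℂ ≃ᵢ ℂ)) (u w : ℂ) : Prop :=
  LinearIndependent ℝ ![u, w] ∧
    ∀ x y : Fin n × ℤ × ℤ, x ≠ y →
      Disjoint (interior (place g u w x '' K)) (interior (place g u w y '' K))

/-- area of the period parallelogram -/
def coVol (u w : ℂ) : ℝ := (volume (parallelepiped ![u, w])).toReal

end

end Pool.Agent.MP3e
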