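import Pool.Agent.Lib.MP_3e6a92_co.Cells

/-!
Upper bound for the density, and exclusion of equality.
-/

set_option autoImplicit false

namespace Pool.Agent.MP3e

open MeasureTheory Set

noncomputable section

variable {S : Type} {W : WangSys S} {γ : S → ℝ} {ε : ℝ} {N : ℕ} {tt : Fin N → Ty W} {r e : ℝ}
  {n : ℕ} {g : Fin n → (ℂ ≃ᵢ ℂ)} {u w : ℂ} {nn : Fin n × ℤ × ℤ → Fin n × ℤ × ℤ → ℂ}
  {hh : Fin n × ℤ × ℤ → Fin n × ℤ × ℤ → ℝ}

theorem sub_frame (_P : Package W γ ε tt r e) (hS : Sep (body γ ε tt) e g u w nn hh) (i : Fin n)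
    (y : {y : Fin n × ℤ × ℤ // y ≠ (i, 0, 0)}) (z : ℂ) (hz : z ∈ body γ ε tt) :
    dt (nF g nn i y) z ≤ hF g u w nn hh i y := by
  have h1 := hS.sub (i, 0, 0) y.1 (Ne.symm y.2) z hz
  have h2 := frame_eq hS i 0 0 y z
  have h3 : sh 0 0 y.1 = y.1 := by simp [sh]
  rw [h3] at h2
  linarith

theorem volume_ge (P : Package W γ ε tt r e) (hS : Sep (body γ ε tt) e g u w nn hh) (i : Fin n) :
    ENNReal.ofReal (2 * Real.sqrt 3) ≤ volume (cell nn hh (i, 0, 0)) := by
  rw [volume_cell hS i]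
  exact (P.loc _ _ _ _ (config hS P.r_pos.le P.ball_sub i) (sub_frame P hS i)).1

theorem segment_place (x : Fin n × ℤ × ℤ) (p q z : ℂ) :
    place g u w x z ∈ segment ℝ (place g u w x p) (place g u w x q) ↔ z ∈ segment ℝ p q := by
  constructor
  · rintro ⟨s, t, hs, ht, hst, h⟩
    refine ⟨s, t, hs, ht, hst, ?_⟩
    apply (lin g x.1).injective
    rw [map_add, map_smul, map_smul]
    simp only [place_eq, smul_add] at h
    have h2 : (s + t) • ctr g u w x = ctr g u w x := by rw [hst, one_smul]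
    rw [add_smul] at h2
    have h3 : s • (lin g x.1) p + t • (lin g x.1) q + (s • ctr g u w x + t • ctr g u w x) =
        (lin g x.1) z + ctr g u w x := by
      rw [← h]; abel
    rw [h2] at h3
    exact add_right_cancel h3
  · rintro ⟨s, t, hs, ht, hst, h⟩
    refine ⟨s, t, hs, ht, hst, ?_⟩
    simp only [place_eq, smul_add]
    rw [← h, map_add, map_smul, map_smul]
    have h2 : (s + t) • ctr g u w x = ctr g u w x := by rw [hst, one_smul]
    rw [add_smul] at h2
    calc _ = s • (lin g x.1) p + t • (lin g x.1) q + (s • ctr g u w x + t • ctr g u w x) := by abel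
      _ = _ := by rw [h2]

theorem openSegment_place (x : Fin n × ℤ × ℤ) (p q z : ℂ) :
    place g u w x z ∈ openSegment ℝ (place g u w x p) (place g u w x q) ↔
      z ∈ openSegment ℝ p q := by
  constructor
  · rintro ⟨s, t, hs, ht, hst, h⟩
    refine ⟨s, t, hs, ht, hst, ?_⟩
    apply (lin g x.1).injective
    rw [map_add, map_smul, map_smul]
    simp only [place_eq, smul_add] at h
    have h2 : (s + t) • ctr g u w x = ctr g u w x := by rw [hst, one_smul]
    rw [add_smul] at h2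
    have h3 : s • (lin g x.1) p + t • (lin g x.1) q + (s • ctr g u w x + t • ctr g u w x) =
        (lin g x.1) z + ctr g u w x := by
      rw [← h]; abel
    rw [h2] at h3
    exact add_right_cancel h3
  · rintro ⟨s, t, hs, ht, hst, h⟩
    refine ⟨s, t, hs, ht, hst, ?_⟩
    simp only [place_eq, smul_add]
    rw [← h, map_add, map_smul, map_smul]
    have h2 : (s + t) • ctr g u w x = ctr g u w x := by rw [hst, one_smul]
    rw [add_smul] at h2
    calc _ = s • (lin g x.1) p + t • (lin g x.1) q + (s • ctr g u w x + t • ctr g u w x) := by abel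
      _ = _ := by rw [h2]

theorem place_inj (x : Fin n × ℤ × ℤ) {p q : ℂ} (h : place g u w x p = place g u w x q) :
    p = q := by
  have := congrArg (unplace g u w x) h
  rwa [unplace_place, unplace_place] at this

/-- In the case of equality the cells form a tiling with all the structure. -/
theorem tiling_of_equality (hHG : StmtHexGeom) (P : Package W γ ε tt r e)
    (hS : Sep (body γ ε tt) e g u w nn hh)
    (k : Fin n → Fin N)
    (j : ∀ i : Fin n, Fin 6 → {y : Fin n × ℤ × ℤ // y ≠ (i, 0, 0)})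
    (hj : ∀ i, Function.Injective (j i))
    (hcell : ∀ i, cellOf (nF g nn i) (hF g u w nn hh i) = Hex (Qc γ ε tt (k i)))
    (hline : ∀ i m z, dt (nF g nn i (j i m)) z = hF g u w nn hh i (j i m) ↔
      cr (Qc γ ε tt (k i) (m + 1) - Qc γ ε tt (k i) m) (z - Qc γ ε tt (k i) m) = 0)
    (hoth : ∀ i l, l ∉ range (j i) → ∀ z ∈ cellOf (nF g nn i) (hF g u w nn hh i),
      dt (nF g nn i l) z < hF g u w nn hh i l)
    (hcover : ∀ z, ∃ x, z ∈ cell nn hh x) (hlf : LocallyFinite (cell nn hh)) :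
    TilingData (Fin n × ℤ × ℤ) (cell nn hh)
      (fun x m => place g u w x (Qc γ ε tt (k x.1) m))
      (fun x m => sh x.2.1 x.2.2 (j x.1 m).1) nn hh := by
  have hgeo : ∀ i, HexGeom (Qc γ ε tt (k i)) := fun i =>
    hHG _ _ (nearReg_Qc tt P.close (k i))
  -- membership in the cell in the frame
  have hmem : ∀ (i : Fin n) (a b : ℤ) (ζ : ℂ), place g u w (i, a, b) ζ ∈ cell nn hh (i, a, b) ↔
      ζ ∈ Hex (Qc γ ε tt (k i)) := by
    intro i a b ζ
    rw [mem_cell_iff hS i a b ζ, hcell i]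
  have hln : ∀ (i : Fin n) (a b : ℤ) (m : Fin 6) (ζ : ℂ),
      dt (nn (i, a, b) (sh a b (j i m).1)) (place g u w (i, a, b) ζ) =
        hh (i, a, b) (sh a b (j i m).1) ↔
      cr (Qc γ ε tt (k i) (m + 1) - Qc γ ε tt (k i) m) (ζ - Qc γ ε tt (k i) m) = 0 := by
    intro i a b m ζ
    rw [← hline i m ζ]
    have h := frame_eq hS i a b (j i m) ζ
    constructor <;> intro h' <;> linarith
  refine ⟨hS.norm, hS.anti_n, hS.anti_h, fun x z => Iff.rfl, ?_, ?_, ?_, ?_, ?_, ?_, ?_, hcover,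
    hlf⟩
  · -- nb_ne
    rintro ⟨i, a, b⟩ m h
    apply (j i m).2
    apply sh_inj (a := a) (b := b)
    have : sh a b ((i, 0, 0) : Fin n × ℤ × ℤ) = (i, a, b) := by simp [sh]
    rw [this]; exact h
  · -- nb_inj
    rintro ⟨i, a, b⟩ m m' h
    exact hj i (Subtype.ext (sh_inj h))
  · -- other
    rintro ⟨i, a, b⟩ y hy hy' z hz
    obtain ⟨ζ, rfl⟩ : ∃ ζ, z = place g u w (i, a, b) ζ := ⟨_, (place_unplace g u w _ z).symm⟩
    have hne : sh (-a) (-b) y ≠ (i, 0, 0) := by
      intro h'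
      apply hy
      have := congrArg (sh a b) h'
      rw [sh_neg] at this
      rw [this]; simp [sh]
    have hnr : (⟨sh (-a) (-b) y, hne⟩ : {y : Fin n × ℤ × ℤ // y ≠ (i, 0, 0)}) ∉ range (j i) := by
      rintro ⟨m, hm⟩
      apply hy'
      refine ⟨m, ?_⟩
      show sh a b (j i m).1 = y
      rw [hm]
      exact sh_neg a b y
    have h1 := hoth i _ hnr ζ ((mem_cell_iff hS i a b ζ).mp hz)
    have h2 := frame_eq hS i a b ⟨sh (-a) (-b) y, hne⟩ ζ
    rw [sh_neg] at h2
    linarith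
  · -- side
    rintro ⟨i, a, b⟩ m z
    obtain ⟨ζ, rfl⟩ : ∃ ζ, z = place g u w (i, a, b) ζ := ⟨_, (place_unplace g u w _ z).symm⟩
    rw [segment_place, ← (hgeo i).side m ζ]
    exact and_congr (hmem i a b ζ) (hln i a b m ζ)
  · -- vne
    rintro ⟨i, a, b⟩ m h
    exact (hgeo i).ne m (place_inj _ h)
  · -- vertex
    rintro ⟨i, a, b⟩ m l h
    have h1 := (hln i a b l _).mp h
    by_contra hcon
    push Not at hcon
    have := (hgeo i).vertex_pos m l hcon.1 hcon.2
    rw [h1] at this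
    exact lt_irrefl _ this
  · -- open_side
    rintro ⟨i, a, b⟩ m z hz l hl
    obtain ⟨ζ, rfl⟩ : ∃ ζ, z = place g u w (i, a, b) ζ := ⟨_, (place_unplace g u w _ z).symm⟩
    have hζ := (openSegment_place _ _ _ _).mp hz
    have h1 := (hgeo i).side_pos m ζ hζ l hl
    have h2 : ζ ∈ Hex (Qc γ ε tt (k i)) :=
      ((hgeo i).side m ζ).mpr (openSegment_subset_segment ℝ _ _ hζ) |>.1
    have h3 := (hmem i a b ζ).mpr h2
    have h4 : dt (nn (i, a, b) (sh a b (j i l).1)) (place g u w (i, a, b) ζ) ≤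
        hh (i, a, b) (sh a b (j i l).1) := by
      apply h3
      intro h'
      apply (j i l).2
      apply sh_inj (a := a) (b := b)
      rw [h']; simp [sh]
    refine lt_of_le_of_ne h4 ?_
    intro h5
    have := (hln i a b l ζ).mp h5
    rw [this] at h1
    exact lt_irrefl _ h1

/-- equality is impossible -/
theorem no_equality (hHG : StmtHexGeom) (hQ : StmtQ) (hC : StmtC) (hMeas : StmtMeas)
    (hNP : NoPeriodic W) (P : Package W γ ε tt r e) (hn : 0 < n)
    (hLI : LinearIndependent ℝ ![u, w])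
    (hS : Sep (body γ ε tt) e g u w nn hh)
    (heq : volume (parallelepiped ![u, w]) ≤ n * ENNReal.ofReal (2 * Real.sqrt 3)) : False := by
  obtain ⟨hM1, hM2⟩ := hMeas (body γ ε tt) e n g u w nn hh hLI hS
  have hge := fun i => volume_ge P hS i
  -- all cells have area exactly `2 √3`
  have hfin : (n : ENNReal) * ENNReal.ofReal (2 * Real.sqrt 3) ≠ ⊤ :=
    ENNReal.mul_ne_top (ENNReal.natCast_ne_top n) ENNReal.ofReal_ne_top
  have hsum : ∑ _i : Fin n, ENNReal.ofReal (2 * Real.sqrt 3) =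
      (n : ENNReal) * ENNReal.ofReal (2 * Real.sqrt 3) := by
    rw [Finset.sum_const, Finset.card_univ, Fintype.card_fin, nsmul_eq_mul]
  have hle : ∀ i, volume (cell nn hh (i, 0, 0)) ≤ ENNReal.ofReal (2 * Real.sqrt 3) := by
    intro i
    by_contra hcon
    push Not at hcon
    have h1 : ∑ _i : Fin n, ENNReal.ofReal (2 * Real.sqrt 3) <
        ∑ i : Fin n, volume (cell nn hh (i, 0, 0)) := by
      rw [← Finset.add_sum_erase _ _ (Finset.mem_univ i), ← Finset.add_sum_erase _ _ (Finset.mem_univ i)]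
      apply ENNReal.add_lt_add_of_lt_of_le _ hcon
      · exact Finset.sum_le_sum (fun l _ => hge l)
      · refine ne_top_of_le_ne_top hfin ?_
        rw [← hsum]
        exact Finset.sum_le_sum_of_subset (Finset.erase_subset _ _)
    rw [hsum] at h1
    exact absurd (h1.trans_le (hM1.trans heq)) (lt_irrefl _)
  have hloc : ∀ i : Fin n, ∃ (k : Fin N) (j : Fin 6 → {y : Fin n × ℤ × ℤ // y ≠ (i, 0, 0)}),
      Function.Injective j ∧ cellOf (nF g nn i) (hF g u w nn hh i) = Hex (Qc γ ε tt k) ∧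
        (∀ m z, dt (nF g nn i (j m)) z = hF g u w nn hh i (j m) ↔
          cr (Qc γ ε tt k (m + 1) - Qc γ ε tt k m) (z - Qc γ ε tt k m) = 0) ∧
        (∀ l, l ∉ range j → ∀ z ∈ cellOf (nF g nn i) (hF g u w nn hh i),
          dt (nF g nn i l) z < hF g u w nn hh i l) := by
    intro i
    refine (P.loc _ _ _ _ (config hS P.r_pos.le P.ball_sub i) (sub_frame P hS i)).2 ?_
    rw [← volume_cell hS i]
    exact hle i
  choose k j hj hcell hline hoth using hloc
  have hgeo : ∀ i, HexGeom (Qc γ ε tt (k i)) := fun i =>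
    hHG _ _ (nearReg_Qc tt P.close (k i))
  -- cells are bounded
  have hbd : ∃ ρ : ℝ, ∀ i : Fin n, cell nn hh (i, 0, 0) ⊆ Metric.closedBall 0 ρ := by
    refine ⟨6 / 5 + ∑ i : Fin n, ‖ctr g u w (i, 0, 0)‖, ?_⟩
    intro i z hz
    obtain ⟨ζ, rfl⟩ : ∃ ζ, z = place g u w (i, 0, 0) ζ := ⟨_, (place_unplace g u w _ z).symm⟩
    have h1 : ζ ∈ Hex (Qc γ ε tt (k i)) := by
      rw [← hcell i]; exact (mem_cell_iff hS i 0 0 ζ).mp hz
    have h2 := (hgeo i).sub_ball h1
    rw [mem_closedBall_zero_iff] at h2 ⊢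
    rw [place_eq]
    refine (norm_add_le _ _).trans ?_
    rw [LinearIsometryEquiv.norm_map]
    have h3 : ‖ctr g u w (i, 0, 0)‖ ≤ ∑ i : Fin n, ‖ctr g u w (i, 0, 0)‖ :=
      Finset.single_le_sum (f := fun i : Fin n => ‖ctr g u w (i, 0, 0)‖)
        (fun _ _ => norm_nonneg _) (Finset.mem_univ i)
    linarith
  obtain ⟨hlf, hcov⟩ := hM2 hbd
  have hcover : ∀ z, ∃ x, z ∈ cell nn hh x := by
    apply hcov
    refine heq.trans ?_
    rw [← hsum]
    exact Finset.sum_le_sum (fun l _ => hge l)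
  have hT := tiling_of_equality hHG P hS k j hj hcell hline hoth hcover hlf
  obtain ⟨sd, hsd, hnorm⟩ := hQ _ _ _ _ _ _ hT
  -- equivariance of `sd`
  set nb : Fin n × ℤ × ℤ → Fin 6 → Fin n × ℤ × ℤ := fun x m => sh x.2.1 x.2.2 (j x.1 m).1 with hnb
  have hnbsh : ∀ (a b : ℤ) (x : Fin n × ℤ × ℤ) (m : Fin 6), nb (sh a b x) m = sh a b (nb x m) := by
    intro a b x m
    simp only [hnb, sh_sh]
    rfl
  have hsdsh : ∀ (a b : ℤ) (x : Fin n × ℤ × ℤ) (m : Fin 6), sd (sh a b x) m = sd x m := by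
    intro a b x m
    have h1 := hsd.nb_nb (sh a b x) m
    rw [hnbsh a b x m, hnbsh a b (nb x m)] at h1
    have h2 := sh_inj h1
    have h3 := hsd.nb_nb x m
    exact hT.nb_inj (nb x m) (h2.trans h3.symm)
  -- descend to `Fin n`
  have hfst : ∀ (x : Fin n × ℤ × ℤ) (m : Fin 6), (nb x m).1 = (nb (x.1, 0, 0) m).1 := by
    intro x m
    have h1 : nb x m = sh x.2.1 x.2.2 (nb (x.1, 0, 0) m) := by
      rw [← hnbsh, ← eq_sh_base]
    rw [h1]; rfl
  have hsd0 : ∀ (x : Fin n × ℤ × ℤ) (m : Fin 6), sd x m = sd (x.1, 0, 0) m := by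
    intro x m
    conv_lhs => rw [eq_sh_base x]
    exact hsdsh _ _ _ _
  have : Nonempty (Fin n) := ⟨⟨0, hn⟩⟩
  refine hC S W hNP (Fin n) (fun i => tt (k i)) (fun i m => (nb (i, 0, 0) m).1)
    (fun i m => sd (i, 0, 0) m) ⟨?_, ?_, ?_⟩ ?_
  · intro i m
    show (nb ((nb (i, 0, 0) m).1, 0, 0) (sd (i, 0, 0) m)).1 = i
    rw [← hfst, hsd.nb_nb]
  · intro i m
    show sd ((nb (i, 0, 0) m).1, 0, 0) (sd (i, 0, 0) m) = m
    rw [← hsd0, hsd.sd_sd]
  · intro i m
    obtain ⟨e, e', he, he', h1, h2⟩ := hsd.corner (i, 0, 0) m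
    refine ⟨e, e', he, he', ?_, ?_⟩
    · show (nb ((nb (i, 0, 0) m).1, 0, 0) (sd (i, 0, 0) m + e)).1 = (nb (i, 0, 0) (m + 1)).1
      rw [← hfst, h1]
    · show sd ((nb (i, 0, 0) m).1, 0, 0) (sd (i, 0, 0) m + e) = sd (i, 0, 0) (m + 1) + e'
      rw [← hsd0, h2]
  · intro i m
    show label (tt (k i)) m = label (tt (k (nb (i, 0, 0) m).1)) (sd (i, 0, 0) m)
    apply P.lab
    have h1 := hnorm (i, 0, 0) m
    have hn1 : ∀ (x : Fin n × ℤ × ℤ) (p q : ℂ),
        ‖place g u w x p - place g u w x q‖ = ‖p - q‖ := by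
      intro x p q
      rw [place_eq, place_eq, add_sub_add_right_eq_sub, ← map_sub, LinearIsometryEquiv.norm_map]
    have hn2 : ∀ (k : Fin N) (m m' : Fin 6), ‖Qc γ ε tt k m - Qc γ ε tt k m'‖ =
        ‖corner γ ε (tt k) m - corner γ ε (tt k) m'‖ := by
      intro k m m'
      have : Qc γ ε tt k m - Qc γ ε tt k m' = cis ((k : ℕ) * (Real.pi / (3 * N))) *
        (corner γ ε (tt k) m - corner γ ε (tt k) m') := by simp only [Qc]; ring
      rw [this, norm_mul, norm_cis, one_mul]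
    rw [hn1, hn1, hn2, hn2] at h1
    exact h1

end

end Pool.Agent.MP3e
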