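import Pool.Agent.Lib.MP_3e6a92_co.Spec

/-!
Convex geometry of a near regular hexagon.
-/

set_option autoImplicit false

namespace Pool.Agent.MP3e

open MeasureTheory Set

namespace HexGeo

/-! ### basic algebra of `cr` and `dt` -/

lemma cr_add_left (a b c : ℂ) : cr (a + b) c = cr a c + cr b c := by
  simp only [cr, Complex.add_re, Complex.add_im]; ring

lemma cr_add_right (a b c : ℂ) : cr a (b + c) = cr a b + cr a c := by
  simp only [cr, Complex.add_re, Complex.add_im]; ring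

lemma cr_sub_left (a b c : ℂ) : cr (a - b) c = cr a c - cr b c := by
  simp only [cr, Complex.sub_re, Complex.sub_im]; ring

lemma cr_sub_right (a b c : ℂ) : cr a (b - c) = cr a b - cr a c := by
  simp only [cr, Complex.sub_re, Complex.sub_im]; ring

lemma cr_self (a : ℂ) : cr a a = 0 := by
  simp only [cr]; ring

lemma cr_zero (a : ℂ) : cr a 0 = 0 := by simp [cr]

lemma zero_cr (a : ℂ) : cr 0 a = 0 := by simp [cr]

lemma cr_smul (a b : ℂ) (t : ℝ) : cr a (t • b) = t * cr a b := by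
  simp only [cr, Complex.real_smul, Complex.mul_re, Complex.mul_im, Complex.ofReal_re,
    Complex.ofReal_im]; ring

lemma norm_sq' (z : ℂ) : ‖z‖ ^ 2 = z.re ^ 2 + z.im ^ 2 := by
  rw [Complex.sq_norm, Complex.normSq_apply]; ring

lemma abs_cr_le (a b : ℂ) : |cr a b| ≤ ‖a‖ * ‖b‖ := by
  apply abs_le_of_sq_le_sq _ (by positivity)
  rw [mul_pow, norm_sq', norm_sq', cr]
  nlinarith [sq_nonneg (a.re * b.re + a.im * b.im)]

lemma norm_cis (t : ℝ) : ‖cis t‖ = 1 := by
  have h : ‖cis t‖ ^ 2 = 1 := by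
    rw [norm_sq', cis]
    exact Real.cos_sq_add_sin_sq t
  nlinarith [norm_nonneg (cis t), sq_nonneg (‖cis t‖ - 1)]

lemma cr_cis (t : ℝ) (z w : ℂ) : cr (cis t * z) (cis t * w) = cr z w := by
  have h := Real.cos_sq_add_sin_sq t
  have e : cr (cis t * z) (cis t * w) = (Real.cos t ^ 2 + Real.sin t ^ 2) * cr z w := by
    simp only [cr, cis, Complex.mul_re, Complex.mul_im]; ring
  rw [e, h, one_mul]

lemma dt_cis (t : ℝ) (z w : ℂ) : dt (cis t * z) (cis t * w) = dt z w := by
  have h := Real.cos_sq_add_sin_sq t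
  have e : dt (cis t * z) (cis t * w) = (Real.cos t ^ 2 + Real.sin t ^ 2) * dt z w := by
    simp only [dt, cis, Complex.mul_re, Complex.mul_im]; ring
  rw [e, h, one_mul]

lemma cis_mul_neg (t : ℝ) (w : ℂ) : cis t * (cis (-t) * w) = w := by
  have h := Real.cos_sq_add_sin_sq t
  rw [← mul_assoc]
  have : cis t * cis (-t) = 1 := by
    apply Complex.ext
    · simp only [cis, Complex.mul_re, Real.cos_neg, Real.sin_neg, Complex.one_re]
      linarith [h, sq (Real.cos t), sq (Real.sin t)]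
    · simp only [cis, Complex.mul_im, Real.cos_neg, Real.sin_neg, Complex.one_im]
      ring
  rw [this, one_mul]

/-! ### the regular hexagon -/

/-- `√3 / 3` -/
noncomputable def s3 : ℝ := Real.sqrt 3 / 3

lemma s3_sq : s3 ^ 2 = 1 / 3 := by
  unfold s3
  rw [div_pow, Real.sq_sqrt (by norm_num)]
  norm_num

lemma s3_pos : 0 < s3 := by unfold s3; positivity

lemma s3_lt : s3 < 0.57736 := by
  nlinarith [s3_sq, s3_pos]

lemma s3_gt : 0.57735 < s3 := by
  nlinarith [s3_sq, s3_pos]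

lemma reg_re (m : Fin 6) : (reg m).re = ![1, 0, -1, -1, 0, 1] m := by
  fin_cases m <;> simp [reg, u1, u2] <;> norm_num

lemma reg_im (m : Fin 6) : (reg m).im = ![s3, 2 * s3, s3, -s3, -(2 * s3), -s3] m := by
  fin_cases m <;> simp [reg, u1, u2, s3] <;> ring

lemma R1 (l : Fin 6) : cr (reg l) (reg (l + 1)) = 2 * s3 := by
  rw [cr, reg_re, reg_re, reg_im, reg_im]
  fin_cases l <;> simp <;> ring

lemma R2 (l : Fin 6) : ‖reg l‖ ^ 2 = 4 / 3 := by
  have h := s3_sq
  rw [norm_sq', reg_re, reg_im]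
  fin_cases l <;> simp <;> nlinarith

lemma R3 (l : Fin 6) (w : ℂ) :
    -cr (reg (l + 1) - reg l) w = s3 * dt (reg l + reg (l + 1)) w := by
  have h := s3_sq
  simp only [cr, dt, Complex.sub_re, Complex.sub_im, Complex.add_re, Complex.add_im]
  rw [reg_re, reg_re, reg_im, reg_im]
  fin_cases l <;> simp <;>
    first
    | linear_combination (-3 * w.im) * h
    | linear_combination (3 * w.im) * h
    | ring

lemma R4 (m l : Fin 6) (h1 : l ≠ m) (h2 : l + 1 ≠ m) :
    2 * s3 ≤ cr (reg (l + 1) - reg l) (reg m - reg l) := by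
  have hs := s3_pos
  simp only [cr, Complex.sub_re, Complex.sub_im]
  rw [reg_re, reg_re, reg_re, reg_im, reg_im, reg_im]
  fin_cases l <;> fin_cases m <;> simp at h1 h2 ⊢ <;> nlinarith

lemma R5 (l : Fin 6) : ‖reg (l + 1) - reg l‖ ^ 2 = 4 / 3 := by
  have h := s3_sq
  rw [norm_sq']
  simp only [Complex.sub_re, Complex.sub_im]
  rw [reg_re, reg_re, reg_im, reg_im]
  fin_cases l <;> simp <;> nlinarith

lemma R6 (w : ℂ) : ∃ l : Fin 6, ‖w‖ ≤ -cr (reg (l + 1) - reg l) w := by
  have hs := s3_sq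
  have hp := s3_pos
  have hw := norm_sq' w
  have hw0 := norm_nonneg w
  set a := w.re
  set b := w.im
  have key : ∀ c : ℝ, 0 ≤ c → a ^ 2 + b ^ 2 ≤ c ^ 2 → ‖w‖ ≤ c := fun c hc h => by
    apply le_of_sq_le_sq _ hc
    linarith
  have hv : ∀ l : Fin 6, -cr (reg (l + 1) - reg l) w =
      ![b + s3 * a, b - s3 * a, -(2 * s3 * a), -b - s3 * a, -b + s3 * a, 2 * s3 * a] l := by
    intro l
    simp only [cr, Complex.sub_re, Complex.sub_im]
    rw [reg_re, reg_re, reg_im, reg_im]
    fin_cases l <;> simp <;> ring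
  by_cases h1 : |b| ≤ s3 * |a|
  · have h2 : b ^ 2 ≤ 1 / 3 * a ^ 2 := by
      have := mul_self_le_mul_self (abs_nonneg b) h1
      rw [abs_mul_abs_self] at this
      calc b ^ 2 = b * b := sq b
        _ ≤ s3 * |a| * (s3 * |a|) := this
        _ = s3 ^ 2 * (|a| * |a|) := by ring
        _ = 1 / 3 * a ^ 2 := by rw [hs, abs_mul_abs_self]; ring
    rcases le_total 0 a with ha | ha
    · refine ⟨5, ?_⟩
      rw [hv]
      refine key _ (by simp; positivity) ?_
      simp
      nlinarith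
    · refine ⟨2, ?_⟩
      rw [hv]
      refine key _ (by simp; nlinarith) ?_
      simp
      nlinarith
  · push Not at h1
    have h3 : s3 * (a * a) ≤ |a| * |b| := by
      have : s3 * |a| * |a| ≤ |b| * |a| := mul_le_mul_of_nonneg_right h1.le (abs_nonneg a)
      rw [mul_assoc, abs_mul_abs_self] at this
      linarith [mul_comm (|a|) (|b|)]
    have h4 : a ^ 2 + b ^ 2 ≤ (|b| + s3 * |a|) ^ 2 := by
      have e1 : |a| ^ 2 = a ^ 2 := sq_abs a
      have e2 : |b| ^ 2 = b ^ 2 := sq_abs b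
      have e3 : (|b| + s3 * |a|) ^ 2 = b ^ 2 + 2 * s3 * (|a| * |b|) + s3 ^ 2 * a ^ 2 := by
        rw [← e1, ← e2]; ring
      rw [e3, hs]
      nlinarith
    have h5 : ‖w‖ ≤ |b| + s3 * |a| := key _ (by positivity) h4
    rcases le_total 0 a with ha | ha <;> rcases le_total 0 b with hb | hb
    · refine ⟨0, ?_⟩
      rw [hv]
      rw [abs_of_nonneg ha, abs_of_nonneg hb] at h5
      simpa using h5
    · refine ⟨4, ?_⟩
      rw [hv]
      rw [abs_of_nonneg ha, abs_of_nonpos hb] at h5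
      simpa using h5
    · refine ⟨1, ?_⟩
      rw [hv]
      rw [abs_of_nonpos ha, abs_of_nonneg hb] at h5
      simp
      linarith
    · refine ⟨3, ?_⟩
      rw [hv]
      rw [abs_of_nonpos ha, abs_of_nonpos hb] at h5
      simp
      linarith

/-! ### rotated and perturbed -/

section

variable {θ : ℝ} {q : Fin 6 → ℂ}

/-- rotated regular corner -/
noncomputable def P (θ : ℝ) (m : Fin 6) : ℂ := cis θ * reg m

lemma P1 (l : Fin 6) : cr (P θ l) (P θ (l + 1)) = 2 * s3 := by
  rw [P, P, cr_cis, R1]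

lemma norm_P (l : Fin 6) : ‖P θ l‖ ≤ 2 * s3 := by
  have h := R2 l
  have hs := s3_sq
  have hp := s3_pos
  rw [P, norm_mul, norm_cis, one_mul]
  nlinarith [norm_nonneg (reg l)]

lemma P4 (m l : Fin 6) (h1 : l ≠ m) (h2 : l + 1 ≠ m) :
    2 * s3 ≤ cr (P θ (l + 1) - P θ l) (P θ m - P θ l) := by
  rw [P, P, P, ← mul_sub, ← mul_sub, cr_cis]
  exact R4 m l h1 h2

lemma norm_P5 (l : Fin 6) : ‖P θ (l + 1) - P θ l‖ ≤ 2 * s3 := by
  have h := R5 l
  have hs := s3_sq
  have hp := s3_pos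
  rw [P, P, ← mul_sub, norm_mul, norm_cis, one_mul]
  nlinarith [norm_nonneg (reg (l + 1) - reg l)]

lemma P3 (l : Fin 6) (w : ℂ) :
    -cr (P θ (l + 1) - P θ l) w = s3 * dt (P θ l + P θ (l + 1)) w := by
  rw [← cis_mul_neg θ w, P, P, ← mul_sub, ← mul_add, cr_cis, dt_cis]
  exact R3 l _

lemma P6 (w : ℂ) : ∃ l : Fin 6, ‖w‖ ≤ -cr (P θ (l + 1) - P θ l) w := by
  obtain ⟨l, hl⟩ := R6 (cis (-θ) * w)
  refine ⟨l, ?_⟩
  rw [norm_mul, norm_cis, one_mul] at hl
  rw [← cis_mul_neg θ w] at hl ⊢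
  rw [P, P, ← mul_sub, cr_cis]
  rw [cis_mul_neg θ w] at hl
  rwa [cis_mul_neg θ w]

lemma P7 (m l : Fin 6) : ‖P θ m - P θ l‖ ≤ 2.31 := by
  have h1 := norm_P (θ := θ) m
  have h2 := norm_P (θ := θ) l
  have h3 := norm_sub_le (P θ m) (P θ l)
  have := s3_lt
  linarith

/-- perturbation of a cross product -/
lemma cr_pert (a b x y : ℂ) {A B X Y : ℝ} (hA : ‖a‖ ≤ A) (hB : ‖b‖ ≤ B) (hX : ‖x‖ ≤ X)
    (hY : ‖y‖ ≤ Y) : |cr (a + x) (b + y) - cr a b| ≤ A * Y + X * B + X * Y := by
  have e : cr (a + x) (b + y) - cr a b = cr a y + cr x b + cr x y := by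
    rw [cr_add_left, cr_add_right, cr_add_right]; ring
  rw [e]
  have h1 := abs_cr_le a y
  have h2 := abs_cr_le x b
  have h3 := abs_cr_le x y
  have h4 : ‖a‖ * ‖y‖ ≤ A * Y := mul_le_mul hA hY (norm_nonneg _) ((norm_nonneg _).trans hA)
  have h5 : ‖x‖ * ‖b‖ ≤ X * B := mul_le_mul hX hB (norm_nonneg _) ((norm_nonneg _).trans hX)
  have h6 : ‖x‖ * ‖y‖ ≤ X * Y := mul_le_mul hX hY (norm_nonneg _) ((norm_nonneg _).trans hX)
  have h7 := abs_add_three (cr a y) (cr x b) (cr x y)
  linarith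

lemma near (h : NearReg θ q) (m : Fin 6) : ‖q m - P θ m‖ ≤ 1 / 100 := h m

lemma near2 (h : NearReg θ q) (m l : Fin 6) : ‖(q m - q l) - (P θ m - P θ l)‖ ≤ 2 / 100 := by
  have e : (q m - q l) - (P θ m - P θ l) = (q m - P θ m) - (q l - P θ l) := by ring
  rw [e]
  have := norm_sub_le (q m - P θ m) (q l - P θ l)
  have h1 := near h m
  have h2 := near h l
  linarith

lemma vertex_pos (h : NearReg θ q) (m l : Fin 6) (h1 : l ≠ m) (h2 : l + 1 ≠ m) :
    0 < cr (q (l + 1) - q l) (q m - q l) := by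
  have hp := cr_pert (P θ (l + 1) - P θ l) (P θ m - P θ l)
    ((q (l + 1) - q l) - (P θ (l + 1) - P θ l)) ((q m - q l) - (P θ m - P θ l))
    (norm_P5 l) (P7 m l) (near2 h (l + 1) l) (near2 h m l)
  rw [add_sub_cancel, add_sub_cancel] at hp
  have h4 := P4 (θ := θ) m l h1 h2
  have := s3_lt
  have := s3_gt
  have := (abs_le.1 hp).1
  linarith

lemma vertex_mem (h : NearReg θ q) (m : Fin 6) : q m ∈ Hex q := by
  intro l
  by_cases h1 : l = m
  · rw [h1, sub_self, cr_zero]
  · by_cases h2 : l + 1 = m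
    · rw [h2, cr_self]
    · exact (vertex_pos h m l h1 h2).le

lemma convex_hex (q : Fin 6 → ℂ) : Convex ℝ (Hex q) := by
  intro x hx y hy a b ha hb hab m
  have e : a • x + b • y - q m = a • (x - q m) + b • (y - q m) := by
    have : q m = (a + b) • q m := by rw [hab, one_smul]
    rw [smul_sub, smul_sub]
    nth_rewrite 1 [this]
    rw [add_smul]
    abel
  rw [e, cr_add_right, cr_smul, cr_smul]
  have := hx m
  have := hy m
  positivity

lemma ball_sub (h : NearReg θ q) : Metric.closedBall (0 : ℂ) (9 / 10) ⊆ Hex q := by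
  intro z hz l
  rw [mem_closedBall_zero_iff] at hz
  have hp := cr_pert (P θ l) (P θ (l + 1)) (q l - P θ l) (q (l + 1) - P θ (l + 1))
    (norm_P l) (norm_P (l + 1)) (near h l) (near h (l + 1))
  rw [add_sub_cancel, add_sub_cancel, P1] at hp
  have e : cr (q (l + 1) - q l) (z - q l) = cr (q l) (q (l + 1)) + cr (q (l + 1) - q l) z := by
    simp only [cr, Complex.sub_re, Complex.sub_im]; ring
  have h5 : ‖q (l + 1) - q l‖ ≤ 2 * s3 + 2 / 100 := by
    have h6 := near2 h (l + 1) l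
    have h7 := norm_P5 (θ := θ) l
    have h8 := norm_add_le ((q (l + 1) - q l) - (P θ (l + 1) - P θ l)) (P θ (l + 1) - P θ l)
    rw [sub_add_cancel] at h8
    linarith
  have h9 := abs_cr_le (q (l + 1) - q l) z
  have h10 : ‖q (l + 1) - q l‖ * ‖z‖ ≤ (2 * s3 + 2 / 100) * (9 / 10) :=
    mul_le_mul h5 hz (norm_nonneg _) (by have := s3_pos; positivity)
  rw [e]
  have := s3_lt
  have := s3_gt
  have := (abs_le.1 hp).1
  have := (abs_le.1 (h9.trans h10)).1
  nlinarith

lemma sphere_out (h : NearReg θ q) (z : ℂ) (hz : ‖z‖ = 6 / 5) : z ∉ Hex q := by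
  intro hmem
  obtain ⟨l, hl⟩ := P6 (θ := θ) z
  rw [hz] at hl
  have h1 := hmem l
  -- `cr (q l - z) (q (l+1) - z) ≥ 0`
  have e : cr (q (l + 1) - q l) (z - q l) = cr (q l - z) (q (l + 1) - z) := by
    simp only [cr, Complex.sub_re, Complex.sub_im]; ring
  rw [e] at h1
  have e2 : cr (P θ l - z) (P θ (l + 1) - z) = 2 * s3 + cr (P θ (l + 1) - P θ l) z := by
    rw [← P1 (θ := θ) l]
    simp only [cr, Complex.sub_re, Complex.sub_im]; ring
  have h3 := P3 (θ := θ) l z
  have hsum : ‖P θ l - z‖ ^ 2 + ‖P θ (l + 1) - z‖ ^ 2 =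
      ‖P θ l‖ ^ 2 + ‖P θ (l + 1)‖ ^ 2 + 2 * ‖z‖ ^ 2 - 2 * dt (P θ l + P θ (l + 1)) z := by
    rw [norm_sq', norm_sq', norm_sq', norm_sq', norm_sq']
    simp only [dt, Complex.sub_re, Complex.sub_im, Complex.add_re, Complex.add_im]; ring
  have hs := s3_lt
  have hs' := s3_gt
  have hd : 2.07 ≤ dt (P θ l + P θ (l + 1)) z := by
    by_contra hcon
    push Not at hcon
    have : s3 * dt (P θ l + P θ (l + 1)) z < s3 * 2.07 := mul_lt_mul_of_pos_left hcon s3_pos
    rw [h3] at hl
    nlinarith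
  have hn1 : ‖P θ l‖ ^ 2 ≤ 4 / 3 := by
    have := norm_P (θ := θ) l
    nlinarith [norm_nonneg (P θ l), s3_sq]
  have hn2 : ‖P θ (l + 1)‖ ^ 2 ≤ 4 / 3 := by
    have := norm_P (θ := θ) (l + 1)
    nlinarith [norm_nonneg (P θ (l + 1)), s3_sq]
  rw [hz] at hsum
  have hab : ‖P θ l - z‖ + ‖P θ (l + 1) - z‖ ≤ 1.7 := by
    nlinarith [sq_nonneg (‖P θ l - z‖ - ‖P θ (l + 1) - z‖), norm_nonneg (P θ l - z),
      norm_nonneg (P θ (l + 1) - z)]
  have hp := cr_pert (P θ l - z) (P θ (l + 1) - z) (q l - P θ l) (q (l + 1) - P θ (l + 1))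
    le_rfl le_rfl (near h l) (near h (l + 1))
  have e3 : P θ l - z + (q l - P θ l) = q l - z := by ring
  have e4 : P θ (l + 1) - z + (q (l + 1) - P θ (l + 1)) = q (l + 1) - z := by ring
  rw [e3, e4, e2] at hp
  have := (abs_le.1 hp).2
  linarith

lemma sub_ball (h : NearReg θ q) : Hex q ⊆ Metric.closedBall (0 : ℂ) (6 / 5) := by
  intro z hz
  rw [mem_closedBall_zero_iff]
  by_contra hcon
  push Not at hcon
  have h0 : (0 : ℂ) ∈ Hex q := ball_sub h (by simp; norm_num)
  have hpos : 0 < ‖z‖ := lt_trans (by norm_num) hcon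
  have hmem : ((6 / 5) / ‖z‖) • z ∈ Hex q := by
    have := convex_hex q h0 hz (a := 1 - (6 / 5) / ‖z‖) (b := (6 / 5) / ‖z‖)
      (by rw [sub_nonneg, div_le_one hpos]; exact hcon.le) (by positivity) (by ring)
    rwa [smul_zero, zero_add] at this
  refine sphere_out h _ ?_ hmem
  rw [norm_smul, Real.norm_eq_abs, abs_of_pos (by positivity)]
  field_simp

lemma isClosed_hex (q : Fin 6 → ℂ) : IsClosed (Hex q) := by
  have : Hex q = ⋂ m, {z | 0 ≤ cr (q (m + 1) - q m) (z - q m)} := by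
    ext z; simp [Hex]
  rw [this]
  refine isClosed_iInter fun m => isClosed_le continuous_const ?_
  unfold cr
  fun_prop

lemma compact (h : NearReg θ q) : IsCompact (Hex q) :=
  Metric.isCompact_of_isClosed_isBounded (isClosed_hex q)
    (Metric.isBounded_closedBall.subset (sub_ball h))

lemma ne (h : NearReg θ q) (m : Fin 6) : q m ≠ q (m + 1) := by
  intro he
  have h1 : m ≠ m + 2 := by fin_cases m <;> decide
  have h2 : m + 1 ≠ m + 2 := by fin_cases m <;> decide
  have := vertex_pos h (m + 2) m h1 h2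
  rw [← he, sub_self, zero_cr] at this
  exact lt_irrefl _ this

lemma side_pos (h : NearReg θ q) (m : Fin 6) (z : ℂ)
    (hz : z ∈ openSegment ℝ (q m) (q (m + 1))) (l : Fin 6) (hl : l ≠ m) :
    0 < cr (q (l + 1) - q l) (z - q l) := by
  obtain ⟨a, b, ha, hb, hab, rfl⟩ := hz
  have e : a • q m + b • q (m + 1) - q l = a • (q m - q l) + b • (q (m + 1) - q l) := by
    have : q l = (a + b) • q l := by rw [hab, one_smul]
    rw [smul_sub, smul_sub]
    nth_rewrite 1 [this]
    rw [add_smul]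
    abel
  rw [e, cr_add_right, cr_smul, cr_smul]
  have hm := vertex_mem h m l
  have hm1 := vertex_mem h (m + 1) l
  by_cases h2 : l + 1 = m
  · have h3 : l ≠ m + 1 := by
      rw [← h2]; fin_cases l <;> decide
    have h4 : l + 1 ≠ m + 1 := by
      rw [← h2]; fin_cases l <;> decide
    have := vertex_pos h (m + 1) l h3 h4
    have h5 : 0 ≤ a * cr (q (l + 1) - q l) (q m - q l) := mul_nonneg ha.le hm
    have h6 : 0 < b * cr (q (l + 1) - q l) (q (m + 1) - q l) := mul_pos hb this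
    linarith
  · have := vertex_pos h m l hl h2
    have h5 : 0 < a * cr (q (l + 1) - q l) (q m - q l) := mul_pos ha this
    have h6 : 0 ≤ b * cr (q (l + 1) - q l) (q (m + 1) - q l) := mul_nonneg hb.le hm1
    linarith

lemma exists_of_cr_eq_zero {e w : ℂ} (he : e ≠ 0) (h : cr e w = 0) : ∃ t : ℝ, w = t • e := by
  have hn : 0 < e.re ^ 2 + e.im ^ 2 := by
    rw [← norm_sq']
    have := norm_pos_iff.2 he
    positivity
  refine ⟨(e.re * w.re + e.im * w.im) / (e.re ^ 2 + e.im ^ 2), ?_⟩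
  unfold cr at h
  apply Complex.ext
  · simp only [Complex.real_smul, Complex.mul_re, Complex.ofReal_re, Complex.ofReal_im, zero_mul,
      sub_zero]
    field_simp
    linear_combination (-e.im) * h
  · simp only [Complex.real_smul, Complex.mul_im, Complex.ofReal_re, Complex.ofReal_im, zero_mul,
      add_zero]
    field_simp
    linear_combination (e.re) * h

lemma side (h : NearReg θ q) (m : Fin 6) (z : ℂ) :
    (z ∈ Hex q ∧ cr (q (m + 1) - q m) (z - q m) = 0) ↔ z ∈ segment ℝ (q m) (q (m + 1)) := by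
  constructor
  · rintro ⟨hz, h0⟩
    obtain ⟨t, ht⟩ := exists_of_cr_eq_zero (sub_ne_zero.2 (ne h m).symm) h0
    have hzt : z = q m + t • (q (m + 1) - q m) := by rw [← ht]; ring
    have ht0 : 0 ≤ t := by
      have h1 := hz (m - 1)
      rw [sub_add_cancel] at h1
      have e : z - q (m - 1) = (q m - q (m - 1)) + t • ((q (m + 1) - q (m - 1)) - (q m - q (m - 1))) := by
        rw [hzt]; simp only [Complex.real_smul]; ring
      rw [e, cr_add_right, cr_self, cr_smul, cr_sub_right, cr_self, zero_add, sub_zero] at h1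
      have h2 : 0 < cr (q m - q (m - 1)) (q (m + 1) - q (m - 1)) := by
        have := vertex_pos h (m + 1) (m - 1) (by fin_cases m <;> decide) (by fin_cases m <;> decide)
        rwa [sub_add_cancel] at this
      by_contra hcon
      push Not at hcon
      have := mul_neg_of_neg_of_pos hcon h2
      linarith
    have ht1 : t ≤ 1 := by
      have h1 := hz (m + 1)
      have e : z - q (m + 1) = (1 - t) • (q m - q (m + 1)) := by
        rw [hzt]; simp only [Complex.real_smul, Complex.ofReal_sub, Complex.ofReal_one]; ring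
      rw [e, cr_smul] at h1
      have h2 := vertex_pos h m (m + 1) (by fin_cases m <;> decide) (by fin_cases m <;> decide)
      by_contra hcon
      push Not at hcon
      have := mul_neg_of_neg_of_pos (sub_neg.2 hcon) h2
      linarith
    rw [segment_eq_image']
    exact ⟨t, ⟨ht0, ht1⟩, hzt.symm⟩
  · intro hz
    refine ⟨(convex_hex q).segment_subset (vertex_mem h m) (vertex_mem h (m + 1)) hz, ?_⟩
    rw [segment_eq_image'] at hz
    obtain ⟨t, _, rfl⟩ := hz
    simp only [add_sub_cancel_left]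
    rw [cr_smul, cr_self, mul_zero]

end

end HexGeo

theorem stmtHexGeom : StmtHexGeom := fun _θ _q h =>
  { ball_sub := HexGeo.ball_sub h
    sub_ball := HexGeo.sub_ball h
    compact := HexGeo.compact h
    convex := HexGeo.convex_hex _
    vertex_mem := HexGeo.vertex_mem h
    side := HexGeo.side h
    ne := HexGeo.ne h
    vertex_pos := HexGeo.vertex_pos h
    side_pos := HexGeo.side_pos h }

end Pool.Agent.MP3e
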