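import Pool.Agent.Lib.MP_3e6a92_co.Spec

/-! MP_3e6a92_co: the area of a near regular hexagon is at least half its shoelace sum. -/

set_option autoImplicit false

namespace Pool.Agent.MP3e

namespace HexVol

open MeasureTheory Set

/-- the open standard triangle -/
def std : Set ℂ := {z : ℂ | 0 < z.re ∧ 0 < z.im ∧ z.re + z.im < 1}

lemma vol_std : volume std = ENNReal.ofReal (1 / 2) := by
  have h1 : volume (regionBetween (fun _ : ℝ => (0 : ℝ)) (fun x : ℝ => 1 - x) (Ioo (0 : ℝ) 1)) =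
      ENNReal.ofReal (1 / 2) := by
    have hi : IntegrableOn (fun x : ℝ => 1 - x) (Ioo (0 : ℝ) 1) := by
      apply (Continuous.integrableOn_Icc (a := 0) (b := 1) (by fun_prop)).mono_set
        Ioo_subset_Icc_self
    rw [show (volume : Measure (ℝ × ℝ)) = (volume : Measure ℝ).prod volume from rfl,
      volume_regionBetween_eq_integral (μ := (volume : Measure ℝ)) (integrableOn_zero) hi measurableSet_Ioo]
    · congr 1
      rw [← integral_Ioc_eq_integral_Ioo, ← intervalIntegral.integral_of_le zero_le_one]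
      simp only [Pi.sub_apply, sub_zero]
      rw [intervalIntegral.integral_sub (by simp) (by simp)]
      simp
      norm_num
    · intro x hx
      have := hx.2
      linarith
  have h2 : std = Complex.measurableEquivRealProd ⁻¹'
      (regionBetween (fun _ : ℝ => (0 : ℝ)) (fun x : ℝ => 1 - x) (Ioo (0 : ℝ) 1)) := by
    ext z
    simp only [std, regionBetween, Set.mem_ofPred_eq, mem_preimage, Complex.measurableEquivRealProd_apply,
      mem_Ioo]
    constructor
    · rintro ⟨a, b, c⟩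
      exact ⟨⟨a, by linarith⟩, b, by linarith⟩
    · rintro ⟨⟨a, _⟩, b, c⟩
      exact ⟨a, b, by linarith⟩
  rw [h2, Complex.volume_preserving_equiv_real_prod.measure_preimage_equiv, h1]

/-- the linear map with `1 ↦ a`, `I ↦ b` -/
noncomputable def L (a b : ℂ) : ℂ →ₗ[ℝ] ℂ := Complex.basisOneI.constr ℝ ![a, b]

lemma L_apply (a b z : ℂ) : L a b z = (z.re : ℂ) * a + (z.im : ℂ) * b := by
  simp [L, Module.Basis.constr_apply_fintype, Fin.sum_univ_two]

lemma det_L (a b : ℂ) : LinearMap.det (L a b) = cr a b := by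
  rw [← LinearMap.det_toMatrix Complex.basisOneI, Matrix.det_fin_two]
  simp [LinearMap.toMatrix_apply, L_apply, cr]
  ring

lemma vol_tri (a b : ℂ) (h : 0 < cr a b) :
    volume (L a b '' std) = ENNReal.ofReal (cr a b / 2) := by
  rw [Measure.addHaar_image_linearMap, det_L, vol_std, abs_of_pos h, ← ENNReal.ofReal_mul h.le]
  congr 1
  ring

lemma isOpen_std : IsOpen std := by
  apply IsOpen.inter (isOpen_lt continuous_const Complex.continuous_re)
  apply IsOpen.inter (isOpen_lt continuous_const Complex.continuous_im)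
  exact isOpen_lt (Complex.continuous_re.add Complex.continuous_im) continuous_const

lemma meas_tri (a b : ℂ) (h : 0 < cr a b) : MeasurableSet (L a b '' std) := by
  apply isOpen_std.measurableSet.image_of_continuousOn_injOn
  · exact (LinearMap.continuous_of_finiteDimensional (L a b)).continuousOn
  · intro z _ w _ hzw
    have hu : IsUnit (LinearMap.det (L a b)) := by
      rw [det_L]
      exact isUnit_iff_ne_zero.mpr h.ne'
    have := (LinearMap.equivOfIsUnitDet hu).injective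
    exact this (by simpa using hzw)

/-! ### near regular hexagons -/

lemma cr_cis (θ : ℝ) (a b : ℂ) : cr (cis θ * a) (cis θ * b) = cr a b := by
  simp only [cr, cis, Complex.mul_re, Complex.mul_im]
  have := Real.sin_sq_add_cos_sq θ
  linear_combination (a.re * b.im - a.im * b.re) * this

lemma dt_cis (θ : ℝ) (a b : ℂ) : dt (cis θ * a) (cis θ * b) = dt a b := by
  simp only [dt, cis, Complex.mul_re, Complex.mul_im]
  have := Real.sin_sq_add_cos_sq θ
  linear_combination (a.re * b.re + a.im * b.im) * this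

lemma norm_cis (θ : ℝ) : ‖cis θ‖ = 1 := by
  rw [← sq_eq_sq₀ (norm_nonneg _) zero_le_one, ← Complex.normSq_eq_norm_sq, Complex.normSq_apply]
  simp only [cis]
  have := Real.sin_sq_add_cos_sq θ
  nlinarith

lemma cis_neg_mul (θ : ℝ) : cis θ * cis (-θ) = 1 := by
  apply Complex.ext
  · simp only [cis, Complex.mul_re, Real.cos_neg, Real.sin_neg, Complex.one_re]
    have := Real.sin_sq_add_cos_sq θ
    nlinarith
  · simp only [cis, Complex.mul_im, Real.cos_neg, Real.sin_neg, Complex.one_im]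
    ring

/-- coordinates: a near regular hexagon is a rotated small perturbation of `reg` -/
lemma exists_coord (θ : ℝ) (q : Fin 6 → ℂ) (h : NearReg θ q) :
    ∃ p : Fin 6 → ℂ, (∀ m, q m = cis θ * p m) ∧ (∀ m, |(p m).re - (reg m).re| ≤ 1 / 100) ∧
      (∀ m, |(p m).im - (reg m).im| ≤ 1 / 100) := by
  refine ⟨fun m => cis (-θ) * q m, fun m => ?_, fun m => ?_, fun m => ?_⟩
  · rw [← mul_assoc, cis_neg_mul, one_mul]
  all_goals
    have h1 : ‖cis (-θ) * q m - reg m‖ ≤ 1 / 100 := by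
      have : cis (-θ) * q m - reg m = cis (-θ) * (q m - cis θ * reg m) := by
        rw [mul_sub, ← mul_assoc, mul_comm (cis (-θ)) (cis θ), cis_neg_mul, one_mul]
      rw [this, norm_mul, norm_cis, one_mul]
      exact h m
  · exact (Complex.abs_re_le_norm (cis (-θ) * q m - reg m)).trans h1
  · exact (Complex.abs_im_le_norm (cis (-θ) * q m - reg m)).trans h1

/-- the sign facts needed -/
structure Facts (p : Fin 6 → ℂ) : Prop where
  cr1 : ∀ m, 0 < cr (p m) (p (m + 1))
  cr2 : ∀ m, 0 < cr (p m) (p (m + 2))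
  dt0 : ∀ m, 0 < dt (p m + p (m + 1)) (p m)
  dt1 : ∀ m, 0 < dt (p m + p (m + 1)) (p (m + 1))
  dt3 : ∀ m, dt (p m + p (m + 1)) (p (m + 3)) < 0
  dt4 : ∀ m, dt (p m + p (m + 1)) (p (m + 4)) < 0
  side : ∀ l m, 0 ≤ cr (p (l + 1) - p l) (p m - p l)

lemma prod_pert {x y X Y : ℝ} (hx : |x - X| ≤ 22 / 1000) (hy : |y - Y| ≤ 22 / 1000)
    (hX : |X| ≤ 231 / 100) (hY : |Y| ≤ 231 / 100) : |x * y - X * Y| ≤ 1 / 8 := by
  have h : x * y - X * Y = (x - X) * Y + X * (y - Y) + (x - X) * (y - Y) := by ring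
  rw [h]
  have h1 : |(x - X) * Y| ≤ 22 / 1000 * (231 / 100) := by
    rw [abs_mul]
    exact mul_le_mul hx hY (abs_nonneg _) (by norm_num)
  have h2 : |X * (y - Y)| ≤ 231 / 100 * (22 / 1000) := by
    rw [abs_mul]
    exact mul_le_mul hX hy (abs_nonneg _) (by norm_num)
  have h3 : |(x - X) * (y - Y)| ≤ 22 / 1000 * (22 / 1000) := by
    rw [abs_mul]
    exact mul_le_mul hx hy (abs_nonneg _) (by norm_num)
  calc _ ≤ |(x - X) * Y + X * (y - Y)| + |(x - X) * (y - Y)| := abs_add_le _ _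
    _ ≤ (|(x - X) * Y| + |X * (y - Y)|) + |(x - X) * (y - Y)| := by
        gcongr
        exact abs_add_le _ _
    _ ≤ 1 / 8 := by linarith

/-- `a` is close to the rational point `(X, Y)` -/
structure Cl (a : ℂ) (X Y : ℝ) : Prop where
  re : |a.re - X| ≤ 22 / 1000
  im : |a.im - Y| ≤ 22 / 1000
  bX : |X| ≤ 231 / 100
  bY : |Y| ≤ 231 / 100

lemma cr_pert {a b : ℂ} {X Y Z W : ℝ} (ha : Cl a X Y) (hb : Cl b Z W) :
    |cr a b - (X * W - Y * Z)| ≤ 1 / 4 := by
  have h1 := abs_le.mp (prod_pert ha.re hb.im ha.bX hb.bY)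
  have h2 := abs_le.mp (prod_pert ha.im hb.re ha.bY hb.bX)
  rw [abs_le]
  simp only [cr]
  constructor <;> linarith [h1.1, h1.2, h2.1, h2.2]

lemma dt_pert {a b : ℂ} {X Y Z W : ℝ} (ha : Cl a X Y) (hb : Cl b Z W) :
    |dt a b - (X * Z + Y * W)| ≤ 1 / 4 := by
  have h1 := abs_le.mp (prod_pert ha.re hb.re ha.bX hb.bX)
  have h2 := abs_le.mp (prod_pert ha.im hb.im ha.bY hb.bY)
  rw [abs_le]
  simp only [dt]
  constructor <;> linarith [h1.1, h1.2, h2.1, h2.2]

/-- rational approximations of the coordinates of `reg` -/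
def qX : Fin 6 → ℚ := ![1, 0, -1, -1, 0, 1]

/-- rational approximations of the coordinates of `reg` -/
def qY : Fin 6 → ℚ := ![577 / 1000, 1155 / 1000, 577 / 1000, -577 / 1000, -1155 / 1000, -577 / 1000]

/-- rational approximations of the coordinates of `reg` -/
noncomputable def cX (m : Fin 6) : ℝ := qX m

/-- rational approximations of the coordinates of `reg` -/
noncomputable def cY (m : Fin 6) : ℝ := qY m

lemma near_c (p : Fin 6 → ℂ) (h1 : ∀ m, |(p m).re - (reg m).re| ≤ 1 / 100)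
    (h2 : ∀ m, |(p m).im - (reg m).im| ≤ 1 / 100) (m : Fin 6) :
    |(p m).re - cX m| ≤ 11 / 1000 ∧ |(p m).im - cY m| ≤ 11 / 1000 := by
  have hs1 : (1731 / 1000 : ℝ) ≤ Real.sqrt 3 := Real.le_sqrt_of_sq_le (by norm_num)
  have hs2 : Real.sqrt 3 ≤ (17325 / 10000 : ℝ) := by
    rw [Real.sqrt_le_left (by norm_num)]
    norm_num
  have e1 := abs_le.mp (h1 m)
  have e2 := abs_le.mp (h2 m)
  rw [abs_le, abs_le]
  fin_cases m <;>
  simp [reg, u1, u2, cX, cY, qX, qY] at e1 e2 ⊢ <;>
  refine ⟨⟨?_, ?_⟩, ?_, ?_⟩ <;> linarith [e1.1, e1.2, e2.1, e2.2]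

lemma facts (p : Fin 6 → ℂ) (h1 : ∀ m, |(p m).re - (reg m).re| ≤ 1 / 100)
    (h2 : ∀ m, |(p m).im - (reg m).im| ≤ 1 / 100) : Facts p := by
  have hc := near_c p h1 h2
  have bX : ∀ m, |cX m| ≤ 1155 / 1000 := by
    intro m
    rw [abs_le]
    fin_cases m <;> norm_num [cX, qX]
  have bY : ∀ m, |cY m| ≤ 1155 / 1000 := by
    intro m
    rw [abs_le]
    fin_cases m <;> norm_num [cY, qY]
  have c1 : ∀ m, Cl (p m) (cX m) (cY m) := fun m =>
    ⟨(hc m).1.trans (by norm_num), (hc m).2.trans (by norm_num), (bX m).trans (by norm_num),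
      (bY m).trans (by norm_num)⟩
  have c2 : ∀ m l, Cl (p m + p l) (cX m + cX l) (cY m + cY l) := by
    intro m l
    have a1 := abs_le.mp (hc m).1
    have a2 := abs_le.mp (hc m).2
    have a3 := abs_le.mp (hc l).1
    have a4 := abs_le.mp (hc l).2
    have a5 := abs_le.mp (bX m)
    have a6 := abs_le.mp (bY m)
    have a7 := abs_le.mp (bX l)
    have a8 := abs_le.mp (bY l)
    refine ⟨?_, ?_, ?_, ?_⟩ <;> rw [abs_le] <;> (try simp only [Complex.add_re, Complex.add_im]) <;>
      constructor <;> linarith [a1.1, a1.2, a2.1, a2.2, a3.1, a3.2, a4.1, a4.2, a5.1, a5.2, a6.1,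
        a6.2, a7.1, a7.2, a8.1, a8.2]
  have c3 : ∀ m l, Cl (p m - p l) (cX m - cX l) (cY m - cY l) := by
    intro m l
    have a1 := abs_le.mp (hc m).1
    have a2 := abs_le.mp (hc m).2
    have a3 := abs_le.mp (hc l).1
    have a4 := abs_le.mp (hc l).2
    have a5 := abs_le.mp (bX m)
    have a6 := abs_le.mp (bY m)
    have a7 := abs_le.mp (bX l)
    have a8 := abs_le.mp (bY l)
    refine ⟨?_, ?_, ?_, ?_⟩ <;> rw [abs_le] <;> (try simp only [Complex.sub_re, Complex.sub_im]) <;>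
      constructor <;> linarith [a1.1, a1.2, a2.1, a2.2, a3.1, a3.2, a4.1, a4.2, a5.1, a5.2, a6.1,
        a6.2, a7.1, a7.2, a8.1, a8.2]
  constructor
  · intro m
    have := abs_le.mp (cr_pert (c1 m) (c1 (m + 1)))
    have h2 : ∀ m, 1 / 4 < qX m * qY (m + 1) - qY m * qX (m + 1) := by decide +kernel
    have h3 : 1 / 4 < cX m * cY (m + 1) - cY m * cX (m + 1) := by
      have := (Rat.cast_lt (K := ℝ)).mpr (h2 m)
      push_cast at this
      exact this
    linarith [this.1]
  · intro m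
    have := abs_le.mp (cr_pert (c1 m) (c1 (m + 2)))
    have h2 : ∀ m, 1 / 4 < qX m * qY (m + 2) - qY m * qX (m + 2) := by decide +kernel
    have h3 : 1 / 4 < cX m * cY (m + 2) - cY m * cX (m + 2) := by
      have := (Rat.cast_lt (K := ℝ)).mpr (h2 m)
      push_cast at this
      exact this
    linarith [this.1]
  · intro m
    have := abs_le.mp (dt_pert (c2 m (m + 1)) (c1 m))
    have h2 : ∀ m, 1 / 4 < (qX m + qX (m + 1)) * qX m + (qY m + qY (m + 1)) * qY m := by decide +kernel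
    have h3 : 1 / 4 < (cX m + cX (m + 1)) * cX m + (cY m + cY (m + 1)) * cY m := by
      have := (Rat.cast_lt (K := ℝ)).mpr (h2 m)
      push_cast at this
      exact this
    linarith [this.1]
  · intro m
    have := abs_le.mp (dt_pert (c2 m (m + 1)) (c1 (m + 1)))
    have h2 : ∀ m, 1 / 4 < (qX m + qX (m + 1)) * qX (m + 1) + (qY m + qY (m + 1)) * qY (m + 1) := by
      decide +kernel
    have h3 : 1 / 4 < (cX m + cX (m + 1)) * cX (m + 1) + (cY m + cY (m + 1)) * cY (m + 1) := by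
      have := (Rat.cast_lt (K := ℝ)).mpr (h2 m)
      push_cast at this
      exact this
    linarith [this.1]
  · intro m
    have := abs_le.mp (dt_pert (c2 m (m + 1)) (c1 (m + 3)))
    have h2 : ∀ m, (qX m + qX (m + 1)) * qX (m + 3) + (qY m + qY (m + 1)) * qY (m + 3) < -(1 / 4) := by
      decide +kernel
    have h3 : (cX m + cX (m + 1)) * cX (m + 3) + (cY m + cY (m + 1)) * cY (m + 3) < -(1 / 4) := by
      have := (Rat.cast_lt (K := ℝ)).mpr (h2 m)
      push_cast at this
      exact this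
    linarith [this.2]
  · intro m
    have := abs_le.mp (dt_pert (c2 m (m + 1)) (c1 (m + 4)))
    have h2 : ∀ m, (qX m + qX (m + 1)) * qX (m + 4) + (qY m + qY (m + 1)) * qY (m + 4) < -(1 / 4) := by
      decide +kernel
    have h3 : (cX m + cX (m + 1)) * cX (m + 4) + (cY m + cY (m + 1)) * cY (m + 4) < -(1 / 4) := by
      have := (Rat.cast_lt (K := ℝ)).mpr (h2 m)
      push_cast at this
      exact this
    linarith [this.2]
  · intro l m
    by_cases hml : m = l
    · subst hml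
      simp [cr]
    by_cases hml' : m = l + 1
    · subst hml'
      simp only [cr]
      apply le_of_eq
      ring
    have := abs_le.mp (cr_pert (c3 (l + 1) l) (c3 m l))
    have h2 : ∀ l m, m ≠ l → m ≠ l + 1 →
        1 / 4 < (qX (l + 1) - qX l) * (qY m - qY l) - (qY (l + 1) - qY l) * (qX m - qX l) := by
      decide +kernel
    have h3 : 1 / 4 < (cX (l + 1) - cX l) * (cY m - cY l) - (cY (l + 1) - cY l) * (cX m - cX l) := by
      have := (Rat.cast_lt (K := ℝ)).mpr (h2 l m hml hml')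
      push_cast at this
      exact this
    linarith [this.1]

/-- the `m`-th open triangle -/
noncomputable def T (q : Fin 6 → ℂ) (m : Fin 6) : Set ℂ := L (q m) (q (m + 1)) '' std

lemma facts_of_near (θ : ℝ) (q : Fin 6 → ℂ) (h : NearReg θ q) : Facts q := by
  obtain ⟨p, hp, h1, h2⟩ := exists_coord θ q h
  have F := facts p h1 h2
  constructor
  · intro m
    rw [hp, hp, cr_cis]
    exact F.cr1 m
  · intro m
    rw [hp, hp, cr_cis]
    exact F.cr2 m
  · intro m
    rw [hp, hp, ← mul_add, dt_cis]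
    exact F.dt0 m
  · intro m
    rw [hp, hp (m + 1), ← mul_add, dt_cis]
    exact F.dt1 m
  · intro m
    rw [hp, hp (m + 1), hp (m + 3), ← mul_add, dt_cis]
    exact F.dt3 m
  · intro m
    rw [hp, hp (m + 1), hp (m + 4), ← mul_add, dt_cis]
    exact F.dt4 m
  · intro l m
    rw [hp (l + 1), hp l, hp m, ← mul_sub, ← mul_sub, cr_cis]
    exact F.side l m

lemma cr_L (a b c z : ℂ) : cr c (L a b z) = z.re * cr c a + z.im * cr c b := by
  rw [L_apply]
  simp only [cr, Complex.add_re, Complex.add_im, Complex.re_ofReal_mul, Complex.im_ofReal_mul]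
  ring

lemma dt_L (a b c z : ℂ) : dt c (L a b z) = z.re * dt c a + z.im * dt c b := by
  rw [L_apply]
  simp only [dt, Complex.add_re, Complex.add_im, Complex.re_ofReal_mul, Complex.im_ofReal_mul]
  ring

lemma cr_swap (a b : ℂ) : cr a b = -cr b a := by
  simp only [cr]
  ring

lemma cr_self (a : ℂ) : cr a a = 0 := by
  simp only [cr]
  ring

lemma T_sub (q : Fin 6 → ℂ) (F : Facts q) (m : Fin 6) : T q m ⊆ Hex q := by
  rintro _ ⟨z, ⟨hz1, hz2, hz3⟩, rfl⟩
  intro l
  have e : cr (q (l + 1) - q l) (L (q m) (q (m + 1)) z - q l) =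
      z.re * cr (q (l + 1) - q l) (q m - q l) + z.im * cr (q (l + 1) - q l) (q (m + 1) - q l) +
        (1 - z.re - z.im) * cr (q l) (q (l + 1)) := by
    rw [L_apply]
    simp only [cr, Complex.add_re, Complex.add_im, Complex.sub_re, Complex.sub_im,
      Complex.re_ofReal_mul, Complex.im_ofReal_mul]
    ring
  rw [e]
  have h1 := F.side l m
  have h2 := F.side l (m + 1)
  have h3 := F.cr1 l
  have h4 : 0 ≤ 1 - z.re - z.im := by linarith
  positivity

lemma T_disj1 (q : Fin 6 → ℂ) (F : Facts q) (m : Fin 6) : Disjoint (T q m) (T q (m + 1)) := by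
  rw [Set.disjoint_left]
  rintro _ ⟨z, ⟨hz1, hz2, _⟩, rfl⟩ ⟨w, ⟨hw1, hw2, _⟩, hw⟩
  have h1 := cr_L (q m) (q (m + 1)) (q (m + 1)) z
  have h2 := cr_L (q (m + 1)) (q (m + 1 + 1)) (q (m + 1)) w
  rw [hw] at h2
  rw [cr_self, cr_swap _ (q m)] at h1
  rw [cr_self] at h2
  have h3 := F.cr1 m
  have h4 := F.cr1 (m + 1)
  have h5 := mul_pos hz1 h3
  have h6 := mul_pos hw2 h4
  linarith

lemma T_disj2 (q : Fin 6 → ℂ) (F : Facts q) (m : Fin 6) : Disjoint (T q m) (T q (m + 2)) := by
  rw [Set.disjoint_left]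
  rintro _ ⟨z, ⟨hz1, hz2, _⟩, rfl⟩ ⟨w, ⟨hw1, hw2, _⟩, hw⟩
  have h1 := cr_L (q m) (q (m + 1)) (q (m + 2)) z
  have h2 := cr_L (q (m + 2)) (q (m + 2 + 1)) (q (m + 2)) w
  rw [hw] at h2
  rw [cr_swap _ (q m), cr_swap _ (q (m + 1))] at h1
  rw [cr_self] at h2
  have h3 := F.cr2 m
  have h4 := F.cr1 (m + 1)
  have h4' := F.cr1 (m + 2)
  rw [show m + 1 + 1 = m + 2 by rw [add_assoc]; rfl] at h4
  have h5 := mul_pos hz1 h3
  have h5' := mul_pos hz2 h4
  have h6 := mul_pos hw2 h4'
  linarith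

lemma T_disj3 (q : Fin 6 → ℂ) (F : Facts q) (m : Fin 6) : Disjoint (T q m) (T q (m + 3)) := by
  rw [Set.disjoint_left]
  rintro _ ⟨z, ⟨hz1, hz2, _⟩, rfl⟩ ⟨w, ⟨hw1, hw2, _⟩, hw⟩
  have h1 := dt_L (q m) (q (m + 1)) (q m + q (m + 1)) z
  have h2 := dt_L (q (m + 3)) (q (m + 3 + 1)) (q m + q (m + 1)) w
  rw [hw] at h2
  have h3 := mul_pos hz1 (F.dt0 m)
  have h4 := mul_pos hz2 (F.dt1 m)
  have h5 := mul_neg_of_pos_of_neg hw1 (F.dt3 m)
  have h6 := mul_neg_of_pos_of_neg hw2 (F.dt4 m)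
  rw [show m + 3 + 1 = m + 4 by rw [add_assoc]; rfl] at h2
  linarith

lemma T_disj (q : Fin 6 → ℂ) (F : Facts q) : Pairwise (Function.onFun Disjoint (T q)) := by
  intro m l hml
  have key : ∀ m l : Fin 6, m ≠ l → l = m + 1 ∨ l = m + 2 ∨ l = m + 3 ∨ m = l + 1 ∨ m = l + 2 := by
    decide
  rcases key m l hml with h | h | h | h | h
  · subst h
    exact T_disj1 q F m
  · subst h
    exact T_disj2 q F m
  · subst h
    exact T_disj3 q F m
  · subst h
    exact (T_disj1 q F l).symm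
  · subst h
    exact (T_disj2 q F l).symm

end HexVol

open MeasureTheory in
theorem stmtHexVol : StmtHexVol := by
  intro θ q h
  have F := HexVol.facts_of_near θ q h
  calc ENNReal.ofReal (shoe q / 2) = ∑ m, ENNReal.ofReal (cr (q m) (q (m + 1)) / 2) := by
        rw [← ENNReal.ofReal_sum_of_nonneg (fun m _ => (half_pos (F.cr1 m)).le), ← Finset.sum_div]
        rfl
    _ = ∑ m, volume (HexVol.T q m) := by
        refine Finset.sum_congr rfl fun m _ => ?_
        exact (HexVol.vol_tri _ _ (F.cr1 m)).symm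
    _ = volume (⋃ m, HexVol.T q m) := by
        rw [measure_iUnion (HexVol.T_disj q F) (fun m => HexVol.meas_tri _ _ (F.cr1 m)), tsum_fintype]
    _ ≤ volume (Hex q) := measure_mono (Set.iUnion_subset fun m => HexVol.T_sub q F m)

end Pool.Agent.MP3e
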