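import Pool.Agent.Lib.MP_3e6a92_co.Spec

/-!
Local structure of a tiling by convex hexagonal cells.
-/

set_option autoImplicit false

namespace Pool.Agent.MP3e

open Set

namespace LocStr

theorem dt_neg (z w : ℂ) : dt (-z) w = -dt z w := by
  simp only [dt, Complex.neg_re, Complex.neg_im]; ring

theorem dt_add_smul (n z : ℂ) (t : ℝ) (hn : ‖n‖ = 1) : dt n (z + (t : ℂ) * n) = dt n z + t := by
  have h : n.re * n.re + n.im * n.im = 1 := by
    have := Complex.sq_norm n
    rw [hn, Complex.normSq_apply] at this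
    linarith
  simp only [dt, Complex.add_re, Complex.add_im, Complex.mul_re, Complex.mul_im,
    Complex.ofReal_re, Complex.ofReal_im]
  linear_combination t * h

theorem continuous_dt (n : ℂ) : Continuous (fun z => dt n z) := by
  unfold dt; fun_prop

/-- the end points of a segment are determined by the segment -/
theorem seg_end {a b c d : ℂ} (h : segment ℝ a b = segment ℝ c d) (hcd : c ≠ d) :
    b = c ∨ b = d := by
  have hb : b ∈ segment ℝ c d := h ▸ right_mem_segment ℝ a b
  have hc : c ∈ segment ℝ a b := h ▸ left_mem_segment ℝ c d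
  have hd : d ∈ segment ℝ a b := h ▸ right_mem_segment ℝ c d
  by_contra hcon
  push Not at hcon
  obtain ⟨h1, h2⟩ := hcon
  rw [segment_eq_image] at hb hc hd
  obtain ⟨t, ⟨ht0, ht1⟩, hb⟩ := hb
  obtain ⟨s1, ⟨hs0, hs1⟩, hc⟩ := hc
  obtain ⟨s2, ⟨hs0', hs1'⟩, hd⟩ := hd
  simp only at hb hc hd
  have ht0' : t ≠ 0 := by
    rintro rfl
    apply h1; rw [← hb]; simp
  have ht1' : t ≠ 1 := by
    rintro rfl
    apply h2; rw [← hb]; simp
  have htp : 0 < t := lt_of_le_of_ne ht0 (Ne.symm ht0')
  have htp' : 0 < 1 - t := by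
    rcases lt_or_eq_of_le ht1 with h | h
    · linarith
    · exact absurd h ht1'
  have e : (((1 - t) * s1 + t * s2 - 1 : ℝ)) • (b - a) = 0 := by
    have : b = (1 - t) • ((1 - s1) • a + s1 • b) + t • ((1 - s2) • a + s2 • b) := by
      rw [hc, hd, hb]
    have h3 : ((1 - t) * s1 + t * s2 - 1 : ℝ) • (b - a) =
        ((1 - t) • ((1 - s1) • a + s1 • b) + t • ((1 - s2) • a + s2 • b)) - b := by
      module
    rw [h3, ← this, sub_self]
  rcases smul_eq_zero.1 e with h3 | h3
  · have h4 : s1 = 1 := by nlinarith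
    have h5 : s2 = 1 := by nlinarith
    apply hcd
    rw [← hc, ← hd, h4, h5]
  · have hab : b = a := sub_eq_zero.1 h3
    apply hcd
    rw [← hc, ← hd, hab]
    module

theorem seg_len {a b c d : ℂ} (h : segment ℝ a b ⊆ segment ℝ c d) : ‖b - a‖ ≤ ‖d - c‖ := by
  have ha : a ∈ segment ℝ c d := h (left_mem_segment ℝ a b)
  have hb : b ∈ segment ℝ c d := h (right_mem_segment ℝ a b)
  rw [segment_eq_image'] at ha hb
  obtain ⟨s, ⟨hs0, hs1⟩, ha⟩ := ha
  obtain ⟨t, ⟨ht0, ht1⟩, hb⟩ := hb
  simp only at ha hb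
  have e : b - a = (t - s) • (d - c) := by rw [← ha, ← hb]; module
  rw [e, norm_smul, Real.norm_eq_abs]
  have : |t - s| ≤ 1 := by rw [abs_le]; constructor <;> linarith
  calc |t - s| * ‖d - c‖ ≤ 1 * ‖d - c‖ := by gcongr
    _ = ‖d - c‖ := one_mul _

section

variable {X : Type} {C : X → Set ℂ} {v : X → Fin 6 → ℂ} {nb : X → Fin 6 → X}
  {nn : X → X → ℂ} {hh : X → X → ℝ}

theorem closed (T : TilingData X C v nb nn hh) (x : X) : IsClosed (C x) := by
  have : C x = ⋂ y, ⋂ (_ : y ≠ x), {z | dt (nn x y) z ≤ hh x y} := by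
    ext z
    rw [T.mem]
    simp
  rw [this]
  exact isClosed_iInter fun y => isClosed_iInter fun _ =>
    isClosed_le (continuous_dt _) continuous_const

/-- a point of `C x` and `C w` is on the separating line -/
theorem eq_of_mem (T : TilingData X C v nb nn hh) {x w : X} (hxw : w ≠ x) {z : ℂ} (hx : z ∈ C x)
    (hw : z ∈ C w) : dt (nn x w) z = hh x w := by
  have h1 := (T.mem x z).1 hx w hxw
  have h2 := (T.mem w z).1 hw x (Ne.symm hxw)
  rw [T.anti_n x w (Ne.symm hxw), T.anti_h x w (Ne.symm hxw), dt_neg] at h2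
  linarith

/-- a point of `C x` on one of the separating lines is in another cell -/
theorem exists_other (T : TilingData X C v nb nn hh) {x y : X} (hyx : y ≠ x) {z : ℂ}
    (h : dt (nn x y) z = hh x y) : ∃ w, w ≠ x ∧ z ∈ C w := by
  by_contra hcon
  push Not at hcon
  have hlf : LocallyFinite (fun w : {w // w ≠ x} => C w) :=
    T.locfin.comp_injective Subtype.val_injective
  have hcl : IsClosed (⋃ w : {w // w ≠ x}, C w) := hlf.isClosed_iUnion fun w => closed T w
  have hz : z ∈ (⋃ w : {w // w ≠ x}, C w)ᶜ := by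
    simp only [mem_compl_iff, mem_iUnion, not_exists]
    rintro ⟨w, hw⟩ hzw
    exact hcon w hw hzw
  obtain ⟨ε, hε, hball⟩ := Metric.isOpen_iff.1 hcl.isOpen_compl z hz
  have hn := T.norm x y (Ne.symm hyx)
  set p : ℂ := z + ((ε / 2 : ℝ) : ℂ) * nn x y with hp
  have hpb : p ∈ Metric.ball z ε := by
    rw [mem_ball_iff_norm, hp, add_sub_cancel_left, norm_mul, hn, Complex.norm_real,
      Real.norm_eq_abs, abs_of_pos (by linarith)]
    linarith
  have h1 := hball hpb
  obtain ⟨w, hw⟩ := T.cover p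
  have hwx : w = x := by
    by_contra hne
    exact h1 (mem_iUnion.2 ⟨⟨w, hne⟩, hw⟩)
  subst hwx
  have h2 := (T.mem w p).1 hw y hyx
  rw [hp, dt_add_smul _ _ _ hn, h] at h2
  linarith

theorem seg_sub (T : TilingData X C v nb nn hh) (x : X) (m : Fin 6) :
    segment ℝ (v x m) (v x (m + 1)) ⊆ C (nb x m) := by
  rw [← closure_openSegment]
  apply closure_minimal _ (closed T _)
  intro z hz
  have h1 := (T.side x m z).2 (openSegment_subset_segment ℝ _ _ hz)
  obtain ⟨w, hw, hzw⟩ := exists_other T (T.nb_ne x m) h1.2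
  have h2 := eq_of_mem T hw h1.1 hzw
  have h3 : w ∈ range (nb x) := by
    by_contra hcon
    have := T.other x w hw hcon z h1.1
    linarith
  obtain ⟨l, rfl⟩ := h3
  by_cases hl : l = m
  · rw [← hl]; exact hzw
  · have := T.open_side x m z hz l hl
    linarith

theorem mem_range (T : TilingData X C v nb nn hh) {x y : X} (hxy : x ≠ y) {z : ℂ}
    (hx : z ∈ C x) (hy : z ∈ C y) : ∃ l, nb y l = x := by
  by_contra hcon
  have h1 : x ∉ range (nb y) := by
    rintro ⟨l, hl⟩
    exact hcon ⟨l, hl⟩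
  have h2 := T.other y x hxy h1 z hy
  have h3 := eq_of_mem T hxy hy hx
  linarith

theorem seg_sub_seg (T : TilingData X C v nb nn hh) (x : X) (m m' : Fin 6)
    (h : nb (nb x m) m' = x) :
    segment ℝ (v x m) (v x (m + 1)) ⊆ segment ℝ (v (nb x m) m') (v (nb x m) (m' + 1)) := by
  intro z hz
  rw [← T.side]
  have h1 := (T.side x m z).2 hz
  have h2 := seg_sub T x m hz
  refine ⟨h2, ?_⟩
  rw [h]
  exact eq_of_mem T (Ne.symm (T.nb_ne x m)) h2 h1.1

end

theorem fin6_a : ∀ k l m' : Fin 6, (k = m' ∨ k = m' + 1) → (l = k ∨ l + 1 = k) → l ≠ m' →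
    ∃ e : Fin 6, (e = 1 ∨ e = -1) ∧ l = m' + e := by
  decide

theorem fin6_b : ∀ m : Fin 6, m ≠ m + 1 := by decide

end LocStr

open LocStr in
theorem stmtQ : StmtQ := by
  intro X C v nb nn hh T
  have h1 : ∀ x m, ∃ m', nb (nb x m) m' = x := by
    intro x m
    have hz := left_mem_segment ℝ (v x m) (v x (m + 1))
    exact mem_range T (Ne.symm (T.nb_ne x m)) ((T.side x m _).2 hz).1 (seg_sub T x m hz)
  choose sd hsd using h1
  have hsd2 : ∀ x m, sd (nb x m) (sd x m) = m := by
    intro x m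
    apply T.nb_inj x
    have h2 := hsd (nb x m) (sd x m)
    rw [hsd x m] at h2
    exact h2
  have hseg : ∀ x m, segment ℝ (v x m) (v x (m + 1)) =
      segment ℝ (v (nb x m) (sd x m)) (v (nb x m) (sd x m + 1)) := by
    intro x m
    apply Subset.antisymm
    · exact seg_sub_seg T x m _ (hsd x m)
    · have h2 := seg_sub_seg T (nb x m) (sd x m) m (by rw [hsd x m])
      rw [hsd x m] at h2
      exact h2
  -- the end points of the common sides
  have hend : ∀ x m p, (p = v x m ∨ p = v x (m + 1)) →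
      p = v (nb x m) (sd x m) ∨ p = v (nb x m) (sd x m + 1) := by
    rintro x m p (rfl | rfl)
    · exact seg_end ((segment_symm ℝ _ _).trans (hseg x m)) (T.vne _ _)
    · exact seg_end (hseg x m) (T.vne _ _)
  refine ⟨sd, ⟨hsd, hsd2, ?_⟩, ?_⟩
  · intro x m
    set y := nb x m with hy
    set z := nb x (m + 1) with hz
    have hyz : y ≠ z := fun h => fin6_b m (T.nb_inj x h)
    have pseg1 : v x (m + 1) ∈ segment ℝ (v x m) (v x (m + 1)) := right_mem_segment ℝ _ _
    have pseg2 : v x (m + 1) ∈ segment ℝ (v x (m + 1)) (v x (m + 1 + 1)) :=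
      left_mem_segment ℝ _ _
    have py : v x (m + 1) ∈ C y := seg_sub T x m pseg1
    have pz : v x (m + 1) ∈ C z := seg_sub T x (m + 1) pseg2
    obtain ⟨l, hl⟩ := mem_range T (Ne.symm hyz) pz py
    have hxz : x ≠ z := Ne.symm (T.nb_ne x (m + 1))
    have hxy : x ≠ y := Ne.symm (T.nb_ne x m)
    -- in `y`
    have hlm : l ≠ sd x m := by
      rintro rfl
      rw [hsd x m] at hl
      exact hxz hl
    have key1 : ∃ e : Fin 6, (e = 1 ∨ e = -1) ∧ l = sd x m + e := by
      have e1 := eq_of_mem T (Ne.symm hyz) py pz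
      rw [← hl] at e1
      rcases hend x m (v x (m + 1)) (Or.inr rfl) with hp | hp
      · rw [hp] at e1
        exact fin6_a (sd x m) l (sd x m) (Or.inl rfl) (T.vertex _ _ _ e1) hlm
      · rw [hp] at e1
        exact fin6_a (sd x m + 1) l (sd x m) (Or.inr rfl) (T.vertex _ _ _ e1) hlm
    obtain ⟨e, he, hle⟩ := key1
    -- in `z`
    have hj : nb z (sd y l) = y := by
      have := hsd y l
      rwa [hl] at this
    have hjm : sd y l ≠ sd x (m + 1) := by
      intro h
      rw [h, hsd x (m + 1)] at hj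
      exact hxy hj
    have key2 : ∃ e : Fin 6, (e = 1 ∨ e = -1) ∧ sd y l = sd x (m + 1) + e := by
      have e1 := eq_of_mem T hyz pz py
      rw [← hj] at e1
      rcases hend x (m + 1) (v x (m + 1)) (Or.inl rfl) with hp | hp
      · rw [hp] at e1
        exact fin6_a (sd x (m + 1)) _ (sd x (m + 1)) (Or.inl rfl) (T.vertex _ _ _ e1) hjm
      · rw [hp] at e1
        exact fin6_a (sd x (m + 1) + 1) _ (sd x (m + 1)) (Or.inr rfl) (T.vertex _ _ _ e1) hjm
    obtain ⟨e', he', hle'⟩ := key2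
    refine ⟨e, e', he, he', ?_, ?_⟩
    · rw [← hle, hl]
    · rw [← hle, hle']
  · intro x m
    exact le_antisymm (seg_len (hseg x m).le) (seg_len (hseg x m).ge)

end Pool.Agent.MP3e
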