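import Pool.Agent.Lib.MP_3e6a92_co.Spec

set_option autoImplicit false

namespace Pool.Agent.MP3e

open MeasureTheory Set

namespace LocalA

noncomputable section

lemma sqn (z : ℂ) : ‖z‖ ^ 2 = z.re ^ 2 + z.im ^ 2 := by
  rw [Complex.sq_norm, Complex.normSq_apply]; ring

lemma sub_sqn (a b : ℂ) : ‖a - b‖ ^ 2 = ‖a‖ ^ 2 - 2 * dt a b + ‖b‖ ^ 2 := by
  simp only [sqn, dt, Complex.sub_re, Complex.sub_im]; ring

lemma three (a b c : ℂ) :
    ‖a - b‖ ^ 2 + ‖b - c‖ ^ 2 + ‖c - a‖ ^ 2 ≤ 3 * (‖a‖ ^ 2 + ‖b‖ ^ 2 + ‖c‖ ^ 2) := by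
  simp only [sqn, Complex.sub_re, Complex.sub_im]
  nlinarith [sq_nonneg (a.re + b.re + c.re), sq_nonneg (a.im + b.im + c.im)]

lemma dt_comm (a b : ℂ) : dt a b = dt b a := by simp only [dt]; ring

lemma dt_smul (t : ℝ) (a b : ℂ) : dt a ((t : ℂ) * b) = t * dt a b := by
  simp [dt]; ring

lemma dt_smul' (t : ℝ) (a b : ℂ) : dt ((t : ℂ) * a) b = t * dt a b := by
  simp [dt]; ring

lemma dt_le (a b : ℂ) : dt a b ≤ ‖a‖ * ‖b‖ := by
  have h : dt a b ^ 2 ≤ (‖a‖ * ‖b‖) ^ 2 := by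
    rw [mul_pow, sqn, sqn]; simp only [dt]
    nlinarith [sq_nonneg (a.re * b.im - a.im * b.re)]
  exact (le_abs_self _).trans (abs_le_of_sq_le_sq h (by positivity))

lemma two_sqn (c n : ℂ) (hn : ‖n‖ = 1) : ‖c - 2 * n‖ ^ 2 = ‖c‖ ^ 2 - 4 * dt n c + 4 := by
  have h1 : ((2 : ℂ)) = ((2 : ℝ) : ℂ) := by norm_num
  rw [sub_sqn, h1, dt_smul, norm_mul, hn, dt_comm c n]
  simp; ring

variable {J : Type} {c n : J → ℂ} {h : J → ℝ} {r e ρ τ : ℝ}

/-- standing numerical hypotheses -/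
structure Num (ρ τ r e : ℝ) : Prop where
  ρ_pos : 0 < ρ
  ρ_le : ρ ≤ 1 / 100
  τ_eq : τ = ρ ^ 2 / 100
  r_ge : 1 - τ ≤ r
  r_le : r ≤ 1
  e_nn : 0 ≤ e
  e_le : e ≤ τ

lemma Num.τ_pos (H : Num ρ τ r e) : 0 < τ := by
  rw [H.τ_eq]; have := H.ρ_pos; positivity

lemma Num.τ_le (H : Num ρ τ r e) : τ ≤ ρ / 10000 := by
  rw [H.τ_eq]; have := H.ρ_pos; have := H.ρ_le; nlinarith

lemma near (H : Num ρ τ r e) (C : Config r e c n h) (j : J)
    (hc : ‖c j‖ ≤ 2 * (1 + e)) (hd : h j + r ≤ dt (n j) (c j)) : ‖c j - 2 * n j‖ ≤ ρ / 2 := by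
  have h1 := C.norm_n j
  have h2 := C.le_h j
  have hρ := H.ρ_pos
  have hτ := H.τ_pos
  have hτ' := H.τ_le
  have hρ' := H.ρ_le
  have h3 : ‖c j - 2 * n j‖ ^ 2 ≤ (ρ / 2) ^ 2 := by
    rw [two_sqn _ _ h1]
    have h4 : ‖c j‖ ^ 2 ≤ (2 * (1 + e)) ^ 2 := by
      have := norm_nonneg (c j)
      gcongr
    have h5 : τ = ρ ^ 2 / 100 := H.τ_eq
    have := H.r_ge
    have := H.e_le
    have := H.e_nn
    nlinarith
  exact (abs_le_of_sq_le_sq h3 (by positivity) |> (le_abs_self _).trans)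

lemma R_facts : (2 / Real.sqrt 3) ^ 2 = 4 / 3 ∧ 1.154 < 2 / Real.sqrt 3 ∧
    2 / Real.sqrt 3 < 1.155 := by
  have h3 : Real.sqrt 3 ^ 2 = 3 := Real.sq_sqrt (by norm_num)
  have hp : 0 < Real.sqrt 3 := by positivity
  refine ⟨?_, ?_, ?_⟩
  · rw [div_pow, h3]; norm_num
  · rw [lt_div_iff₀ hp]
    nlinarith
  · rw [div_lt_iff₀ hp]
    nlinarith

lemma cap_dist (H : Num ρ τ r e) (C : Config r e c n h) (j : J) (x : ℂ)
    (hx : ‖x‖ ≤ 2 / Real.sqrt 3 - ρ) (hd : h j < dt (n j) x) :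
    ‖x - c j‖ ≤ 2 / Real.sqrt 3 - ρ / 2 + 2 * τ := by
  obtain ⟨hR, hR1, hR2⟩ := R_facts
  set R := 2 / Real.sqrt 3 with hRdef
  have hρ := H.ρ_pos
  have hτ := H.τ_pos
  have hτ' := H.τ_le
  have hρ' := H.ρ_le
  have h1 := C.norm_n j
  have h2 := C.le_h j
  have hr := H.r_ge
  have hr0 : 0 < r := by nlinarith
  rcases C.alt j with hc | ⟨hc, hcd⟩
  · have h3 : ‖x - c j‖ ^ 2 ≤ ‖x‖ ^ 2 := by
      rw [sub_sqn, hc, dt_smul, norm_mul, h1, dt_comm x (n j)]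
      have : ‖((2 * h j : ℝ) : ℂ)‖ = 2 * h j := by
        rw [Complex.norm_real, Real.norm_eq_abs, abs_of_pos (by linarith)]
      rw [this]
      have : 0 < h j := by linarith
      nlinarith
    have h4 : ‖x - c j‖ ≤ ‖x‖ := by
      have := abs_le_of_sq_le_sq h3 (norm_nonneg _)
      exact (le_abs_self _).trans this
    linarith
  · have h3 := near H C j hc hcd
    have h4 : ‖x - 2 * n j‖ ^ 2 ≤ (R - ρ + 2 * τ) ^ 2 := by
      rw [two_sqn _ _ h1]
      have h5 : ‖x‖ ^ 2 ≤ (R - ρ) ^ 2 := by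
        have := norm_nonneg x
        gcongr
      nlinarith
    have h5 : ‖x - 2 * n j‖ ≤ R - ρ + 2 * τ :=
      (le_abs_self _).trans (abs_le_of_sq_le_sq h4 (by linarith))
    have h6 : ‖x - c j‖ ≤ ‖x - 2 * n j‖ + ‖c j - 2 * n j‖ := by
      have : x - c j = (x - 2 * n j) - (c j - 2 * n j) := by ring
      rw [this]; exact norm_sub_le _ _
    linarith

lemma cap_disj (H : Num ρ τ r e) (C : Config r e c n h) (j l : J) (hjl : j ≠ l) (x : ℂ)
    (hx : ‖x‖ ≤ 2 / Real.sqrt 3 - ρ) (hd : h j < dt (n j) x) (hd' : h l < dt (n l) x) : False := by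
  have h1 := cap_dist H C j x hx hd
  have h2 := cap_dist H C l x hx hd'
  obtain ⟨hR, hR1, hR2⟩ := R_facts
  set R := 2 / Real.sqrt 3 with hRdef
  have hρ := H.ρ_pos
  have hτ := H.τ_pos
  have hτ' := H.τ_le
  have hρ' := H.ρ_le
  have hr := H.r_ge
  have h3 := three x (x - c j) (x - c l)
  have e1 : x - (x - c j) = c j := by ring
  have e2 : (x - c j) - (x - c l) = -(c j - c l) := by ring
  have e3 : (x - c l) - x = - c l := by ring
  rw [e1, e2, e3, norm_neg, norm_neg] at h3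
  have h4 := C.dist0 j
  have h5 := C.dist0 l
  have h6 := C.dist j l hjl
  have hr0 : 0 < r := by nlinarith
  have g1 : (2 * r) ^ 2 ≤ ‖c j‖ ^ 2 := by gcongr
  have g2 : (2 * r) ^ 2 ≤ ‖c l‖ ^ 2 := by gcongr
  have g3 : (2 * r) ^ 2 ≤ ‖c j - c l‖ ^ 2 := by gcongr
  have g4 : ‖x‖ ^ 2 ≤ (R - ρ / 2 + 2 * τ) ^ 2 := by
    have := norm_nonneg x
    have : ‖x‖ ≤ R - ρ / 2 + 2 * τ := by linarith
    gcongr
  have g5 : ‖x - c j‖ ^ 2 ≤ (R - ρ / 2 + 2 * τ) ^ 2 := by gcongr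
  have g6 : ‖x - c l‖ ^ 2 ≤ (R - ρ / 2 + 2 * τ) ^ 2 := by gcongr
  have g7 : 12 * r ^ 2 ≤ 9 * (R - ρ / 2 + 2 * τ) ^ 2 := by nlinarith
  have g8 : (R - ρ / 2 + 2 * τ) ^ 2 ≤ 4 / 3 - ρ := by
    have : 0 < R - ρ / 2 + 2 * τ := by linarith
    have : R - ρ / 2 + 2 * τ ≤ R - ρ * (0.49) := by linarith
    have : (R - ρ / 2 + 2 * τ) ^ 2 ≤ (R - ρ * (0.49)) ^ 2 := by gcongr
    nlinarith
  have g9 : (1 - τ) ^ 2 ≤ r ^ 2 := by
    have : 0 ≤ 1 - τ := by linarith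
    gcongr
  nlinarith

lemma norm_c_lt (H : Num ρ τ r e) (C : Config r e c n h) (j : J) (hj : h j < 7 / 5) :
    ‖c j‖ < 2.8 := by
  have hρ := H.ρ_pos
  have hτ := H.τ_pos
  have hτ' := H.τ_le
  have hρ' := H.ρ_le
  have hr := H.r_ge
  have h1 := C.norm_n j
  have h2 := C.le_h j
  have hr0 : 0 < r := by nlinarith
  have := H.e_le
  rcases C.alt j with hc | ⟨hc, hcd⟩
  · rw [hc, norm_mul, h1, Complex.norm_real, Real.norm_eq_abs, abs_of_pos (by linarith)]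
    linarith
  · linarith

lemma fin (H : Num ρ τ r e) (C : Config r e c n h) :
    {j | h j < 2 / Real.sqrt 3 - ρ}.Finite := by
  obtain ⟨hR, hR1, hR2⟩ := R_facts
  set R := 2 / Real.sqrt 3 with hRdef
  have hρ := H.ρ_pos
  have hτ := H.τ_pos
  have hτ' := H.τ_le
  have hρ' := H.ρ_le
  have hr := H.r_ge
  obtain ⟨t, ht, hcov⟩ := Metric.totallyBounded_iff.1
    (isCompact_closedBall (0 : ℂ) 3).totallyBounded (1 / 2) (by norm_num)
  have hex : ∀ j ∈ {j | h j < R - ρ}, ∃ y ∈ t, c j ∈ Metric.ball y (1 / 2) := by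
    intro j hj
    have hj' : h j < R - ρ := hj
    have h3 := norm_c_lt H C j (by linarith)
    have : c j ∈ Metric.closedBall (0 : ℂ) 3 := by
      rw [mem_closedBall_zero_iff]; linarith
    have := hcov this
    simpa using this
  choose! f hf using hex
  refine Set.Finite.of_finite_image (ht.subset (image_subset_iff.2 fun j hj => (hf j hj).1))
    (f := f) ?_
  intro j hj l hl hjl
  by_contra hne
  have h1 := (hf j hj).2
  have h2 := (hf l hl).2
  rw [hjl] at h1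
  rw [Metric.mem_ball, dist_eq_norm] at h1 h2
  have h3 := C.dist j l hne
  have h4 : ‖c j - c l‖ ≤ ‖c j - f l‖ + ‖c l - f l‖ := by
    have : c j - c l = (c j - f l) - (c l - f l) := by ring
    rw [this]; exact norm_sub_le _ _
  linarith

/-- the cap angle -/
def ph (R' : ℝ) (h : J → ℝ) (j : J) : ℝ := Real.arccos (h j / R')

lemma ph_nn (R' : ℝ) (h : J → ℝ) (j : J) : 0 ≤ ph R' h j := Real.arccos_nonneg _

lemma sincos_le (x : ℝ) (hx : 0 ≤ x) : 0 ≤ x - Real.sin x * Real.cos x := by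
  have h1 : Real.sin (2 * x) ≤ 2 * x := Real.sin_le (by linarith)
  rw [Real.sin_two_mul] at h1
  linarith

lemma vol_bound (hCap : StmtCap) (H : Num ρ τ r e) (C : Config r e c n h)
    (hv : volume (cellOf n h) ≤ ENNReal.ofReal (2 * Real.sqrt 3)) (F : Finset J)
    (hF : ∀ j, j ∈ F ↔ h j < 2 / Real.sqrt 3 - ρ) :
    (2 / Real.sqrt 3 - ρ) ^ 2 * (Real.pi - ∑ j ∈ F, (ph (2 / Real.sqrt 3 - ρ) h j -
      Real.sin (ph (2 / Real.sqrt 3 - ρ) h j) * Real.cos (ph (2 / Real.sqrt 3 - ρ) h j))) ≤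
      2 * Real.sqrt 3 := by
  obtain ⟨hR, hR1, hR2⟩ := R_facts
  have hρ := H.ρ_pos
  have hρ' := H.ρ_le
  have hr := H.r_ge
  have hτ' := H.τ_le
  set R := 2 / Real.sqrt 3 - ρ with hRdef
  have hRpos : 0 < R := by linarith
  set a : J → ℝ := fun j => R ^ 2 * (ph R h j - Real.sin (ph R h j) * Real.cos (ph R h j)) with ha
  have ha0 : ∀ j, 0 ≤ a j := fun j => mul_nonneg (by positivity) (sincos_le _ (ph_nn _ _ _))
  have hsub : Metric.closedBall (0 : ℂ) R ⊆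
      cellOf n h ∪ ⋃ j ∈ F, {z : ℂ | ‖z‖ ≤ R ∧ h j < dt (n j) z} := by
    intro z hz
    rw [mem_closedBall_zero_iff] at hz
    by_cases hzc : z ∈ cellOf n h
    · exact Or.inl hzc
    · right
      have : ∃ j, h j < dt (n j) z := by
        by_contra hcon
        push Not at hcon
        exact hzc hcon
      obtain ⟨j, hj⟩ := this
      have h1 : dt (n j) z ≤ R := by
        have := dt_le (n j) z
        rw [C.norm_n j, one_mul] at this
        linarith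
      exact mem_iUnion₂.2 ⟨j, (hF j).2 (by linarith), hz, hj⟩
  have hcap : ∀ j ∈ F, volume {z : ℂ | ‖z‖ ≤ R ∧ h j < dt (n j) z} ≤ ENNReal.ofReal (a j) := by
    intro j hj
    have hj' := (hF j).1 hj
    exact hCap R (h j) (n j) (by have := C.le_h j; linarith) hj'.le (C.norm_n j)
  have h1 : ENNReal.ofReal (Real.pi * R ^ 2) ≤
      ENNReal.ofReal (2 * Real.sqrt 3 + ∑ j ∈ F, a j) := by
    calc ENNReal.ofReal (Real.pi * R ^ 2) = volume (Metric.closedBall (0 : ℂ) R) := by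
          rw [Complex.volume_closedBall, ENNReal.ofReal_mul Real.pi_pos.le,
            ENNReal.ofReal_pow hRpos.le, mul_comm, ← NNReal.coe_real_pi,
            ENNReal.ofReal_coe_nnreal]
      _ ≤ volume (cellOf n h ∪ ⋃ j ∈ F, {z : ℂ | ‖z‖ ≤ R ∧ h j < dt (n j) z}) :=
          measure_mono hsub
      _ ≤ volume (cellOf n h) + volume (⋃ j ∈ F, {z : ℂ | ‖z‖ ≤ R ∧ h j < dt (n j) z}) :=
          measure_union_le _ _
      _ ≤ ENNReal.ofReal (2 * Real.sqrt 3) + ∑ j ∈ F, ENNReal.ofReal (a j) := by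
          gcongr
          exact (measure_biUnion_finset_le _ _).trans (Finset.sum_le_sum hcap)
      _ = ENNReal.ofReal (2 * Real.sqrt 3 + ∑ j ∈ F, a j) := by
          rw [ENNReal.ofReal_add (by positivity) (Finset.sum_nonneg fun j _ => ha0 j),
            ENNReal.ofReal_sum_of_nonneg fun j _ => ha0 j]
  have h2 : Real.pi * R ^ 2 ≤ 2 * Real.sqrt 3 + ∑ j ∈ F, a j :=
    (ENNReal.ofReal_le_ofReal_iff (add_nonneg (by positivity)
      (Finset.sum_nonneg fun j _ => ha0 j))).1 h1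
  have h3 : ∑ j ∈ F, a j = R ^ 2 * ∑ j ∈ F, (ph R h j -
      Real.sin (ph R h j) * Real.cos (ph R h j)) := by rw [Finset.mul_sum]
  rw [h3] at h2
  nlinarith

lemma cos_ph (H : Num ρ τ r e) (C : Config r e c n h) (j : J)
    (hj : h j ≤ 2 / Real.sqrt 3 - ρ) :
    Real.cos (ph (2 / Real.sqrt 3 - ρ) h j) = h j / (2 / Real.sqrt 3 - ρ) := by
  obtain ⟨hR, hR1, hR2⟩ := R_facts
  have hρ := H.ρ_pos
  have hρ' := H.ρ_le
  have hr := H.r_ge
  have hτ' := H.τ_le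
  set R := 2 / Real.sqrt 3 - ρ with hRdef
  have hRpos : 0 < R := by linarith
  have hpos : 0 < h j := by have := C.le_h j; linarith
  apply Real.cos_arccos
  · have : 0 ≤ h j / R := by positivity
    linarith
  · rw [div_le_one hRpos]; exact hj

lemma ph_le (H : Num ρ τ r e) (C : Config r e c n h) (j : J) :
    ph (2 / Real.sqrt 3 - ρ) h j ≤ Real.pi / 6 := by
  obtain ⟨hR, hR1, hR2⟩ := R_facts
  have hρ := H.ρ_pos
  have hρ' := H.ρ_le
  have hr := H.r_ge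
  have hτ' := H.τ_le
  set R := 2 / Real.sqrt 3 with hRdef
  have hRpos : 0 < R - ρ := by linarith
  have h3 : Real.sqrt 3 ^ 2 = 3 := Real.sq_sqrt (by norm_num)
  have hp : 0 < Real.sqrt 3 := by positivity
  have h4 : Real.cos (Real.pi / 6) = Real.sqrt 3 / 2 := Real.cos_pi_div_six
  have h5 : Real.sqrt 3 / 2 ≤ h j / (R - ρ) := by
    rw [le_div_iff₀ hRpos]
    have h6 : Real.sqrt 3 * R = 2 := by rw [hRdef]; field_simp
    have h7 := C.le_h j
    have h8 : 1.7 < Real.sqrt 3 := by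
      rw [show (1.7 : ℝ) = Real.sqrt (1.7 ^ 2) by rw [Real.sqrt_sq (by norm_num)]]
      exact Real.sqrt_lt_sqrt (by norm_num) (by norm_num)
    nlinarith
  unfold ph
  rw [← Real.arccos_cos (by positivity : 0 ≤ Real.pi / 6) (by linarith [Real.pi_pos]), h4]
  exact Real.arccos_le_arccos h5

lemma sum_ph (hArc : StmtArc) (H : Num ρ τ r e) (C : Config r e c n h) (F : Finset J)
    (hF : ∀ j, j ∈ F ↔ h j < 2 / Real.sqrt 3 - ρ) :
    ∑ j ∈ F, ph (2 / Real.sqrt 3 - ρ) h j ≤ Real.pi := by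
  obtain ⟨hR, hR1, hR2⟩ := R_facts
  have hρ := H.ρ_pos
  have hρ' := H.ρ_le
  have hRpos : 0 < 2 / Real.sqrt 3 - ρ := by linarith
  apply hArc J F n
  · intro j _
    refine ⟨C.norm_n j, ph_nn _ _ _, ?_⟩
    have := ph_le H C j
    linarith [Real.pi_pos]
  · intro j hj l hl hjl ω hω h1 h2
    rw [cos_ph H C j ((hF j).1 hj).le, div_lt_iff₀ hRpos] at h1
    rw [cos_ph H C l ((hF l).1 hl).le, div_lt_iff₀ hRpos] at h2
    refine cap_disj H C j l hjl (((2 / Real.sqrt 3 - ρ : ℝ) : ℂ) * ω) ?_ ?_ ?_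
    · rw [norm_mul, hω, Complex.norm_real, Real.norm_eq_abs, abs_of_pos hRpos, mul_one]
    · rw [dt_smul]; linarith
    · rw [dt_smul]; linarith

lemma dt_cis (a b : ℝ) : dt (cis a) (cis b) = Real.cos (a - b) := by
  simp only [dt, cis]; rw [Real.cos_sub]

lemma eq_cis (u : ℂ) (hu : ‖u‖ = 1) : u = cis (Complex.arg u) := by
  have h1 := Complex.norm_mul_cos_arg u
  have h2 := Complex.norm_mul_sin_arg u
  rw [hu, one_mul] at h1 h2
  apply Complex.ext
  · simp only [cis]; exact h1.symm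
  · simp only [cis]; exact h2.symm

lemma dir (α : ℝ) (β : Fin 6 → ℝ) (δ : ℝ) (hδ : δ ≤ 1) (hβ : ∀ m, |β m| ≤ δ) (u : ℂ)
    (hu : ‖u‖ = 1) : ∃ m : Fin 6, Real.sqrt 3 / 2 - δ ≤ dt (nrm α β m) u := by
  set ω := Complex.arg u with hω
  have hπ := Real.pi_pos
  set x := (ω - α) / (Real.pi / 3) with hx
  set k := round x with hk
  have hk1 : |x - k| ≤ 1 / 2 := abs_sub_round x
  have hm0 : 0 ≤ k % 6 := Int.emod_nonneg _ (by norm_num)
  have hm6 : k % 6 < 6 := Int.emod_lt_of_pos _ (by norm_num)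
  let m : Fin 6 := ⟨(k % 6).toNat, by omega⟩
  have hmv : ((m : ℕ) : ℝ) = ((k % 6 : ℤ) : ℝ) := by
    have : ((m : ℕ) : ℤ) = k % 6 := by simp [m, Int.toNat_of_nonneg hm0]
    exact_mod_cast this
  have hkq : (k : ℝ) = ((k % 6 : ℤ) : ℝ) + 6 * ((k / 6 : ℤ) : ℝ) := by
    have := Int.emod_add_mul_ediv k 6
    exact_mod_cast this.symm
  refine ⟨m, ?_⟩
  rw [eq_cis u hu, ← hω]
  unfold nrm
  rw [dt_cis]
  set y := ω - α - k * (Real.pi / 3) with hy
  have hy1 : |y| ≤ Real.pi / 6 := by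
    have : y = (x - k) * (Real.pi / 3) := by
      rw [hy, hx]; field_simp
    rw [this, abs_mul, abs_of_pos (by positivity : 0 < Real.pi / 3)]
    nlinarith
  have e1 : α + (m : ℕ) * (Real.pi / 3) + β m - ω = -(y - β m + ((k / 6 : ℤ) : ℝ) * (2 * Real.pi)) := by
    rw [hy, hkq, hmv]; ring
  rw [e1, Real.cos_neg, Real.cos_add_int_mul_two_pi, Real.cos_sub]
  have hb := hβ m
  have hb1 : |Real.sin (β m)| ≤ δ := (Real.abs_sin_le_abs).trans hb
  have hb0 : 0 ≤ δ := (abs_nonneg _).trans hb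
  have hb2 : 1 - δ / 2 ≤ Real.cos (β m) := by
    have h1 := Real.one_sub_sq_div_two_le_cos (x := β m)
    have h2 : β m ^ 2 ≤ δ ^ 2 := sq_le_sq' (abs_le.1 hb).1 (abs_le.1 hb).2
    nlinarith
  have hc : Real.sqrt 3 / 2 ≤ Real.cos y := by
    rw [← Real.cos_pi_div_six, ← Real.cos_abs y]
    exact Real.cos_le_cos_of_nonneg_of_le_pi (abs_nonneg _) (by linarith) hy1
  have hs : |Real.sin y| ≤ 1 / 2 := by
    have h1 : Real.sin y ^ 2 ≤ (1 / 2) ^ 2 := by
      have h2 := Real.sin_sq_add_cos_sq y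
      have h3 : Real.sqrt 3 ^ 2 = 3 := Real.sq_sqrt (by norm_num)
      have h4 : (Real.sqrt 3 / 2) ^ 2 ≤ Real.cos y ^ 2 := by gcongr
      nlinarith
    exact abs_le_of_sq_le_sq h1 (by norm_num)
  have h5 : Real.cos y * (1 - δ / 2) ≤ Real.cos y * Real.cos (β m) := by
    have : 0 ≤ Real.cos y := le_trans (by positivity) hc
    gcongr
  have h6 : -(δ / 2) ≤ Real.sin y * Real.sin (β m) := by
    have h7 : |Real.sin y * Real.sin (β m)| ≤ 1 / 2 * δ := by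
      rw [abs_mul]; gcongr
    have := (abs_le.1 h7).1
    linarith
  have h8 : Real.cos y ≤ 1 := Real.cos_le_one y
  nlinarith

end

end LocalA

open LocalA in
theorem stmtA (hCap : StmtCap) (hArc : StmtArc) (hNum : StmtNum) (hSix : StmtSix) : StmtA := by
  intro δ hδ
  have hδ1 : 0 < min δ (1 / 100) := lt_min hδ (by norm_num)
  obtain ⟨σ0, hσ0, hsix⟩ := hSix (min δ (1 / 100)) hδ1
  set σ := min σ0 (1 / 100) with hσdef
  have hσ : 0 < σ := lt_min hσ0 (by norm_num)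
  have hσ0' : σ ≤ σ0 := min_le_left _ _
  have hσ1 : σ ≤ 1 / 100 := min_le_right _ _
  set δ1 := min (δ / 2) (σ / 16) with hδ1def
  have hδ1p : 0 < δ1 := lt_min (by positivity) (by positivity)
  have hδ1a : δ1 ≤ δ / 2 := min_le_left _ _
  have hδ1b : δ1 ≤ σ / 16 := min_le_right _ _
  obtain ⟨η0, hη0, hnum⟩ := hNum δ1 hδ1p
  set η := min η0 1 with hηdef
  have hη : 0 < η := lt_min hη0 (by norm_num)
  have hη0' : η ≤ η0 := min_le_left _ _
  have hη1 : η ≤ 1 := min_le_right _ _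
  set ρ := min (min (1 / 100) (η / 10)) (σ / 4) with hρdef
  have hρ : 0 < ρ := lt_min (lt_min (by norm_num) (by positivity)) (by positivity)
  have hρ1 : ρ ≤ 1 / 100 := (min_le_left _ _).trans (min_le_left _ _)
  have hρ2 : ρ ≤ η / 10 := (min_le_left _ _).trans (min_le_right _ _)
  have hρ3 : ρ ≤ σ / 4 := min_le_right _ _
  refine ⟨ρ ^ 2 / 100, by positivity, ?_⟩
  intro r e hr hr1 he he' J c n h C hv
  set τ := ρ ^ 2 / 100 with hτdef
  have H : Num ρ τ r e := ⟨hρ, hρ1, rfl, hr, hr1, he, he'⟩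
  have hτ := H.τ_pos
  have hτ' := H.τ_le
  set F := (fin H C).toFinset with hFdef
  have hF : ∀ j, j ∈ F ↔ h j < 2 / Real.sqrt 3 - ρ := by intro j; simp [hFdef]
  have hvb := vol_bound hCap H C hv F hF
  have hs := sum_ph hArc H C F hF
  obtain ⟨hR, hR1, hR2⟩ := R_facts
  have h3 : Real.sqrt 3 ^ 2 = 3 := Real.sq_sqrt (by norm_num)
  have h3a : 1.732 < Real.sqrt 3 := by
    rw [show (1.732 : ℝ) = Real.sqrt (1.732 ^ 2) by rw [Real.sqrt_sq (by norm_num)]]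
    exact Real.sqrt_lt_sqrt (by norm_num) (by norm_num)
  have h3b : Real.sqrt 3 < 1.7321 := by
    rw [show (1.7321 : ℝ) = Real.sqrt (1.7321 ^ 2) by rw [Real.sqrt_sq (by norm_num)]]
    exact Real.sqrt_lt_sqrt (by norm_num) (by norm_num)
  have hR3 : 2 / Real.sqrt 3 * (Real.sqrt 3 / 2) = 1 := by field_simp
  have hπ := Real.pi_pos
  have hπ3 := Real.pi_gt_three
  obtain ⟨t, htF, htc, ht⟩ := hnum J F (ph (2 / Real.sqrt 3 - ρ) h)
    (fun j _ => ⟨ph_nn _ _ _, ph_le H C j⟩) hs (by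
      by_contra hcon
      push Not at hcon
      set Y := Real.pi - ∑ j ∈ F, (ph (2 / Real.sqrt 3 - ρ) h j -
        Real.sin (ph (2 / Real.sqrt 3 - ρ) h j) * Real.cos (ph (2 / Real.sqrt 3 - ρ) h j))
      have h1 : 3 * Real.sqrt 3 / 2 + η < Y := by linarith
      have h2 : 4 / 3 - 2.4 * ρ ≤ (2 / Real.sqrt 3 - ρ) ^ 2 := by nlinarith
      have h4 : 0 < 4 / 3 - 2.4 * ρ := by linarith
      have h5 : (4 / 3 - 2.4 * ρ) * (3 * Real.sqrt 3 / 2 + η) < 2 * Real.sqrt 3 := by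
        calc (4 / 3 - 2.4 * ρ) * (3 * Real.sqrt 3 / 2 + η) < (4 / 3 - 2.4 * ρ) * Y := by gcongr
          _ ≤ (2 / Real.sqrt 3 - ρ) ^ 2 * Y := by
              have : 0 < Y := by nlinarith
              gcongr
          _ ≤ _ := hvb
      nlinarith)
  set R' := 2 / Real.sqrt 3 - ρ with hR'def
  have hR'pos : 0 < R' := by linarith
  have hj1 : ∀ j ∈ t, h j ≤ 1 + δ1 := by
    intro j hj
    have hjF := (hF j).1 (htF hj)
    have h1 := cos_ph H C j hjF.le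
    have h2 := ht j hj
    have h4 : Real.cos (ph R' h j) ≤ Real.cos (Real.pi / 6 - δ1) :=
      Real.cos_le_cos_of_nonneg_of_le_pi (by linarith)
        (by have := ph_le H C j; linarith) h2
    rw [h1, Real.cos_sub, Real.cos_pi_div_six, Real.sin_pi_div_six, div_le_iff₀ hR'pos] at h4
    have h5 : Real.sin δ1 ≤ δ1 := Real.sin_le hδ1p.le
    have h6 : Real.cos δ1 ≤ 1 := Real.cos_le_one _
    have h7 : Real.sqrt 3 / 2 * Real.cos δ1 + 1 / 2 * Real.sin δ1 ≤ Real.sqrt 3 / 2 + δ1 / 2 := by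
      nlinarith
    have h8 : (Real.sqrt 3 / 2 * Real.cos δ1 + 1 / 2 * Real.sin δ1) * R' ≤
        (Real.sqrt 3 / 2 + δ1 / 2) * R' := by gcongr
    nlinarith
  have hj2 : ∀ j ∈ t, ‖c j - 2 * n j‖ ≤ 4 * δ1 + 2 * τ + ρ / 2 := by
    intro j hj
    have h1 := hj1 j hj
    have h2 := C.le_h j
    rcases C.alt j with hc | ⟨hc, hcd⟩
    · have : c j - 2 * n j = ((2 * (h j - 1) : ℝ) : ℂ) * n j := by
        rw [hc]; push_cast; ring
      rw [this, norm_mul, C.norm_n j, mul_one, Complex.norm_real, Real.norm_eq_abs, abs_le]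
      constructor <;> linarith
    · have := near H C j hc hcd
      linarith
  have hdt : ∀ j ∈ t, ∀ l ∈ t, j ≠ l → dt (n j) (n l) ≤ 1 / 2 + σ := by
    intro j hj l hl hjl
    have h1 := hj2 j hj
    have h2 := hj2 l hl
    have h4 := C.dist j l hjl
    have h5 : ‖c j - c l‖ ≤ 2 * ‖n j - n l‖ + ‖c j - 2 * n j‖ + ‖c l - 2 * n l‖ := by
      have e1 : c j - c l = 2 * (n j - n l) + (c j - 2 * n j) - (c l - 2 * n l) := by ring
      calc ‖c j - c l‖ = ‖2 * (n j - n l) + (c j - 2 * n j) - (c l - 2 * n l)‖ := by rw [← e1]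
        _ ≤ ‖2 * (n j - n l) + (c j - 2 * n j)‖ + ‖c l - 2 * n l‖ := norm_sub_le _ _
        _ ≤ ‖2 * (n j - n l)‖ + ‖c j - 2 * n j‖ + ‖c l - 2 * n l‖ := by
            gcongr; exact norm_add_le _ _
        _ = _ := by rw [norm_mul]; norm_num
    have h6 : 1 - (5 * δ1 + 4 * τ + ρ / 2) ≤ ‖n j - n l‖ := by linarith
    have h7 := sub_sqn (n j) (n l)
    rw [C.norm_n j, C.norm_n l] at h7
    have h8 : (1 - (5 * δ1 + 4 * τ + ρ / 2)) ^ 2 ≤ ‖n j - n l‖ ^ 2 := by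
      have : 0 ≤ 1 - (5 * δ1 + 4 * τ + ρ / 2) := by linarith
      gcongr
    nlinarith
  let en : Fin 6 ≃ t := (Finset.equivFinOfCardEq htc).symm
  obtain ⟨p, α, β, hβ, hn⟩ := hsix (fun m => n (en m)) (fun m => C.norm_n _) (by
    intro m l hml
    have := hdt (en m) (en m).2 (en l) (en l).2 (by
      intro heq
      exact hml (en.injective (Subtype.ext heq)))
    linarith)
  have hβ1 : ∀ m, |β m| ≤ δ := fun m => (hβ m).trans (min_le_left _ _)
  have hβ2 : ∀ m, |β m| ≤ 1 / 100 := fun m => (hβ m).trans (min_le_right _ _)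
  refine ⟨fun m => (en (p m) : J), α, β, ?_, hβ1, hn, ?_, ?_⟩
  · intro m l hml
    exact p.injective (en.injective (Subtype.ext hml))
  · intro m
    have := hj1 (en (p m)) (en (p m)).2
    linarith
  · intro l hl
    by_contra hcon
    push Not at hcon
    have h1 := norm_c_lt H C l hcon
    have h2 := C.dist0 l
    have h4 : 1.99 ≤ ‖c l‖ := by linarith
    have h5 : 0 < ‖c l‖ := by linarith
    obtain ⟨m, hm⟩ := dir α β (1 / 100) (by norm_num) hβ2 (((‖c l‖⁻¹ : ℝ) : ℂ) * c l) (by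
      rw [norm_mul, Complex.norm_real, norm_inv, norm_norm, inv_mul_cancel₀ h5.ne'])
    rw [dt_smul, ← hn m] at hm
    have h6 : (Real.sqrt 3 / 2 - 1 / 100) * ‖c l‖ ≤ dt (n (en (p m))) (c l) := by
      have := mul_le_mul_of_nonneg_right hm h5.le
      have e1 : ‖c l‖⁻¹ * dt (n (en (p m))) (c l) * ‖c l‖ = dt (n (en (p m))) (c l) := by
        field_simp
      rwa [e1] at this
    have h7 : ‖c l - 2 * n (en (p m))‖ ^ 2 ≤ 1.6 ^ 2 := by
      rw [two_sqn _ _ (C.norm_n _)]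
      nlinarith
    have h8 : ‖c l - 2 * n (en (p m))‖ ≤ 1.6 :=
      (le_abs_self _).trans (abs_le_of_sq_le_sq h7 (by norm_num))
    have h9 := hj2 (en (p m)) (en (p m)).2
    have h10 : ‖c l - c (en (p m))‖ ≤ ‖c l - 2 * n (en (p m))‖ +
        ‖c (en (p m)) - 2 * n (en (p m))‖ := by
      have e1 : c l - c (en (p m)) = (c l - 2 * n (en (p m))) -
        (c (en (p m)) - 2 * n (en (p m))) := by ring
      rw [e1]; exact norm_sub_le _ _
    have h11 := C.dist l (en (p m)) (by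
      intro heq; exact hl ⟨m, heq.symm⟩)
    linarith

end Pool.Agent.MP3e
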