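import Pool.Agent.Lib.MP_3e6a92_co.Spec

/-!
Packings from the aperiodic tiling: the lower bound.
-/

set_option autoImplicit false

namespace Pool.Agent.MP3e

open MeasureTheory Set

namespace LowerD

/-! ### Plane geometry -/

theorem cis_eq_exp (θ : ℝ) : cis θ = Complex.exp (θ * Complex.I) := by
  apply Complex.ext
  · rw [Complex.exp_ofReal_mul_I_re]; rfl
  · rw [Complex.exp_ofReal_mul_I_im]; rfl

theorem cr_cis (θ : ℝ) (a b : ℂ) : cr (cis θ * a) (cis θ * b) = cr a b := by
  simp only [cr, cis, Complex.mul_re, Complex.mul_im]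
  linear_combination (a.re * b.im - a.im * b.re) * (Real.sin_sq_add_cos_sq θ)

/-- the set `f = 0` of a nonconstant affine function has no interior -/
theorem interior_line {p E : ℂ} (hE : E ≠ 0) : interior {z : ℂ | cr E (z - p) = 0} = ∅ := by
  rw [Set.eq_empty_iff_forall_notMem]
  intro z hz
  rw [mem_interior_iff_mem_nhds, Metric.mem_nhds_iff] at hz
  obtain ⟨r, hr, hball⟩ := hz
  have hEn : 0 < ‖E‖ := norm_pos_iff.2 hE
  have h0 : cr E (z - p) = 0 := hball (Metric.mem_ball_self hr)
  set s : ℝ := r / (2 * ‖E‖) with hs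
  have hspos : 0 < s := by positivity
  have h1 : z + (s : ℂ) * (Complex.I * E) ∈ Metric.ball z r := by
    rw [Metric.mem_ball, dist_eq_norm]
    have : z + (s : ℂ) * (Complex.I * E) - z = (s : ℂ) * (Complex.I * E) := by ring
    rw [this, norm_mul, norm_mul, Complex.norm_I, one_mul, Complex.norm_real,
      Real.norm_of_nonneg hspos.le, hs]
    have : r / (2 * ‖E‖) * ‖E‖ = r / 2 := by field_simp
    rw [this]; linarith
  have h2 : cr E (z + (s : ℂ) * (Complex.I * E) - p) = 0 := hball h1
  have h3 : cr E (z + (s : ℂ) * (Complex.I * E) - p) =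
      cr E (z - p) + s * (E.re ^ 2 + E.im ^ 2) := by
    simp only [cr, Complex.sub_re, Complex.sub_im, Complex.add_re, Complex.add_im,
      Complex.mul_re, Complex.mul_im, Complex.I_re, Complex.I_im, Complex.ofReal_re,
      Complex.ofReal_im]
    ring
  rw [h3, h0, zero_add] at h2
  have h4 : 0 < E.re ^ 2 + E.im ^ 2 := by
    have : ‖E‖ ^ 2 = E.re ^ 2 + E.im ^ 2 := by
      rw [Complex.sq_norm, Complex.normSq_apply]; ring
    rw [← this]; positivity
  have h5 : 0 < s * (E.re ^ 2 + E.im ^ 2) := mul_pos hspos h4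
  linarith

theorem disj_of_halfplanes {A B : Set ℂ} {p E : ℂ} (hE : E ≠ 0)
    (hA : ∀ z ∈ A, 0 ≤ cr E (z - p)) (hB : ∀ z ∈ B, cr E (z - p) ≤ 0) :
    Disjoint (interior A) (interior B) := by
  rw [Set.disjoint_iff_inter_eq_empty, ← interior_inter]
  rw [Set.eq_empty_iff_forall_notMem]
  intro z hz
  have h1 : A ∩ B ⊆ {z : ℂ | cr E (z - p) = 0} := fun y hy =>
    le_antisymm (hB y hy.2) (hA y hy.1)
  have h2 := interior_mono h1 hz
  rw [interior_line hE] at h2
  exact h2

theorem disj_of_balls {A B : Set ℂ} {a b : ℂ} (hA : A ⊆ Metric.closedBall a (6 / 5))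
    (hB : B ⊆ Metric.closedBall b (6 / 5)) (h : 12 / 5 < ‖a - b‖) :
    Disjoint (interior A) (interior B) := by
  rw [Set.disjoint_left]
  intro z hz1 hz2
  have h1 := hA (interior_subset hz1)
  have h2 := hB (interior_subset hz2)
  rw [Metric.mem_closedBall, dist_eq_norm] at h1 h2
  have h3 : ‖a - b‖ ≤ ‖z - a‖ + ‖z - b‖ := by
    have : a - b = (z - b) - (z - a) := by ring
    rw [this]
    calc ‖(z - b) - (z - a)‖ ≤ ‖z - b‖ + ‖z - a‖ := norm_sub_le _ _
      _ = ‖z - a‖ + ‖z - b‖ := add_comm _ _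
  linarith

theorem norm_lattice (X Y : ℝ) : ‖(X : ℂ) * u1 + (Y : ℂ) * u2‖ ^ 2 = 4 * (X ^ 2 + X * Y + Y ^ 2) := by
  have h3 : Real.sqrt 3 ^ 2 = 3 := Real.sq_sqrt (by norm_num)
  rw [Complex.sq_norm, Complex.normSq_apply]
  simp only [u1, u2, Complex.add_re, Complex.add_im, Complex.mul_re, Complex.mul_im,
    Complex.ofReal_re, Complex.ofReal_im]
  linear_combination (Y ^ 2) * h3

/-! ### The hexagons of the configuration -/

section Conf

variable {S : Type} {W : WangSys S}

/-- the hexagon type at `(x, y)` -/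
noncomputable def ty (s : ℤ → ℕ → S)
    (hs : ∀ x y, W.E (s x y) (s (x + 1) y) ∧ W.N (s x y) (s x (y + 1))) (x : ℤ) (y : ℕ) : Ty W where
  A := s x (y + 1)
  B := s (x + 1) (y + 1)
  C := s (x + 1) y
  D := s x (y + 2)
  E := s (x + 2) y
  F := s x y
  hAB := (hs x (y + 1)).1
  hAD := (hs x (y + 1)).2
  hCE := by
    have := (hs (x + 1) y).1
    rwa [add_assoc] at this
  hCB := (hs (x + 1) y).2
  hFC := (hs x y).1
  hFA := (hs x y).2

/-- the rigid motion putting the body at the given place -/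
noncomputable def mot (θ : ℝ) (Z : ℂ) : ℂ ≃ᵢ ℂ :=
  (rotation (Circle.exp (-θ))).toIsometryEquiv.trans (IsometryEquiv.addRight Z)

theorem mot_apply (θ : ℝ) (Z z : ℂ) : mot θ Z z = cis (-θ) * z + Z := by
  rw [cis_eq_exp]
  rfl

theorem mem_hex_of_mem {γ : S → ℝ} {ε : ℝ} {N : ℕ} {tt : Fin N → Ty W} {k : Fin N} {z : ℂ}
    (hz : z ∈ body γ ε tt) :
    cis (-((k : ℕ) * (Real.pi / (3 * N)))) * z ∈ Hex (corner γ ε (tt k)) := by
  intro m
  have h1 : z ∈ Hex (Qc γ ε tt k) := Set.mem_iInter.1 hz k
  have h2 := h1 m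
  set θ : ℝ := (k : ℕ) * (Real.pi / (3 * N)) with hθ
  have hc : cis θ * cis (-θ) = 1 := by
    rw [cis_eq_exp, cis_eq_exp, ← Complex.exp_add]
    push_cast
    rw [neg_mul, add_neg_cancel, Complex.exp_zero]
  have h3 : Qc γ ε tt k (m + 1) - Qc γ ε tt k m =
      cis θ * (corner γ ε (tt k) (m + 1) - corner γ ε (tt k) m) := by
    simp only [Qc]; ring
  have h4 : z - Qc γ ε tt k m = cis θ * (cis (-θ) * z - corner γ ε (tt k) m) := by
    simp only [Qc]
    rw [mul_sub, ← mul_assoc, hc, one_mul]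
  rw [h3, h4, cr_cis] at h2
  exact h2

end Conf

end LowerD

open LowerD

theorem stmtD (hG : StmtHexGeom) : StmtD := by
  intro S W γ ε N tt hconf hcl hsurj M hM
  obtain ⟨s, hs⟩ := hconf
  -- hexagon geometry
  have hHG : ∀ t : Ty W, HexGeom (corner γ ε t) := by
    intro t
    apply hG 0
    intro m
    have : cis 0 = 1 := by
      apply Complex.ext <;> simp [cis]
    rw [this, one_mul]
    exact hcl t m
  choose inv hinv using hsurj
  -- coordinates
  let cx : Fin (M * M) → ℕ := fun i => (finProdFinEquiv.symm i).1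
  let cy : Fin (M * M) → ℕ := fun i => (finProdFinEquiv.symm i).2
  have hcx : ∀ i, cx i < M := fun i => (finProdFinEquiv.symm i).1.2
  have hcy : ∀ i, cy i < M := fun i => (finProdFinEquiv.symm i).2.2
  have hcxy : ∀ i j, cx i = cx j → cy i = cy j → i = j := by
    intro i j h1 h2
    apply finProdFinEquiv.symm.injective
    exact Prod.ext (Fin.ext h1) (Fin.ext h2)
  let tp : Fin (M * M) → Ty W := fun i => ty s hs (cx i) (cy i)
  let ang : Fin (M * M) → ℝ := fun i => ((inv (tp i) : Fin N) : ℕ) * (Real.pi / (3 * N))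
  let g : Fin (M * M) → (ℂ ≃ᵢ ℂ) := fun i => mot (ang i) ((cx i : ℝ) * u1 + (cy i : ℝ) * u2)
  let XX : Fin (M * M) × ℤ × ℤ → ℤ := fun p => (cx p.1 : ℤ) + p.2.1 * ((M : ℤ) + 1)
  let YY : Fin (M * M) × ℤ × ℤ → ℤ := fun p => (cy p.1 : ℤ) + p.2.2 * ((M : ℤ) + 1)
  set u : ℂ := (((M : ℝ) + 1 : ℝ) * u1) with hu
  set w : ℂ := (((M : ℝ) + 1 : ℝ) * u2) with hw
  -- the images lie in the hexagons
  have himg : ∀ p, ∀ z ∈ place g u w p '' body γ ε tt,
      z - (((XX p : ℤ) : ℝ) * u1 + ((YY p : ℤ) : ℝ) * u2) ∈ Hex (corner γ ε (tp p.1)) := by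
    rintro p _ ⟨z, hz, rfl⟩
    have h1 := mem_hex_of_mem (k := inv (tp p.1)) hz
    rw [hinv] at h1
    have h2 : place g u w p z - (((XX p : ℤ) : ℝ) * u1 + ((YY p : ℤ) : ℝ) * u2) =
        cis (-(ang p.1)) * z := by
      simp only [place, g, mot_apply, hu, hw, XX, YY, Complex.real_smul]
      push_cast
      ring
    rw [h2]
    exact h1
  refine ⟨g, ?_, ?_⟩
  · -- linear independence
    rw [LinearIndependent.pair_iff]
    intro a b hab
    have hM0 : (0 : ℝ) < (M : ℝ) + 1 := by positivity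
    have h3 : (0 : ℝ) < Real.sqrt 3 := Real.sqrt_pos.2 (by norm_num)
    have him := congrArg Complex.im hab
    have hre := congrArg Complex.re hab
    simp only [hu, hw, u1, u2, Complex.real_smul, Complex.add_im, Complex.add_re, Complex.mul_im,
      Complex.mul_re, Complex.ofReal_re, Complex.ofReal_im, Complex.zero_im, Complex.zero_re]
      at him hre
    have hb : b = 0 := by
      have : b * (((M : ℝ) + 1) * Real.sqrt 3) = 0 := by linarith
      rcases mul_eq_zero.1 this with h | h
      · exact h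
      · exact absurd h (by positivity)
    refine ⟨?_, hb⟩
    rw [hb] at hre
    have : a * (((M : ℝ) + 1) * 2) = 0 := by linarith
    rcases mul_eq_zero.1 this with h | h
    · exact h
    · exact absurd h (by positivity)
  · -- disjointness
    -- neighbours with shared side
    have key : ∀ p q : Fin (M * M) × ℤ × ℤ,
        ((XX q = XX p ∧ YY q = YY p + 1) ∨ (XX q = XX p + 1 ∧ YY q = YY p) ∨
          (XX q = XX p - 1 ∧ YY q = YY p + 1)) →
        Disjoint (interior (place g u w p '' body γ ε tt))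
          (interior (place g u w q '' body γ ε tt)) := by
      intro p q hpq
      have hp1 := hcx p.1
      have hp2 := hcy p.1
      have hq1 := hcx q.1
      have hq2 := hcy q.1
      -- same block
      have hMM : ∀ a b : ℤ, ∀ x y : ℤ, 0 ≤ x → x < M → 0 ≤ y → y < M →
          |(x + a * ((M : ℤ) + 1)) - (y + b * ((M : ℤ) + 1))| ≤ 1 → a = b := by
        intro a b x y hx0 hxM hy0 hyM habs
        rw [abs_le] at habs
        obtain ⟨h1, h2⟩ := habs
        by_contra hne
        rcases lt_or_gt_of_ne hne with hlt | hlt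
        · have : (b - a) * ((M : ℤ) + 1) ≥ 1 * ((M : ℤ) + 1) :=
            mul_le_mul_of_nonneg_right (by omega) (by omega)
          nlinarith
        · have : (a - b) * ((M : ℤ) + 1) ≥ 1 * ((M : ℤ) + 1) :=
            mul_le_mul_of_nonneg_right (by omega) (by omega)
          nlinarith
      have ha : q.2.1 = p.2.1 := by
        apply hMM q.2.1 p.2.1 (cx q.1) (cx p.1) (by omega) (by omega) (by omega) (by omega)
        have : |XX q - XX p| ≤ 1 := by
          rw [abs_le]; rcases hpq with h | h | h <;> omega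
        exact this
      have hb : q.2.2 = p.2.2 := by
        apply hMM q.2.2 p.2.2 (cy q.1) (cy p.1) (by omega) (by omega) (by omega) (by omega)
        have : |YY q - YY p| ≤ 1 := by
          rw [abs_le]; rcases hpq with h | h | h <;> omega
        exact this
      have hXd : XX q - XX p = (cx q.1 : ℤ) - (cx p.1 : ℤ) := by
        simp only [XX, ha]; ring
      have hYd : YY q - YY p = (cy q.1 : ℤ) - (cy p.1 : ℤ) := by
        simp only [YY, hb]; ring
      -- general separation argument
      have sep : ∀ (m m' : Fin 6),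
          (((XX q : ℤ) : ℝ) * u1 + ((YY q : ℤ) : ℝ) * u2 + corner γ ε (tp q.1) m' : ℂ) =
            ((XX p : ℤ) : ℝ) * u1 + ((YY p : ℤ) : ℝ) * u2 + corner γ ε (tp p.1) (m + 1) →
          (((XX q : ℤ) : ℝ) * u1 + ((YY q : ℤ) : ℝ) * u2 + corner γ ε (tp q.1) (m' + 1) : ℂ) =
            ((XX p : ℤ) : ℝ) * u1 + ((YY p : ℤ) : ℝ) * u2 + corner γ ε (tp p.1) m →
          Disjoint (interior (place g u w p '' body γ ε tt))
            (interior (place g u w q '' body γ ε tt)) := by
        intro m m' h1 h2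
        set Zp : ℂ := ((XX p : ℤ) : ℝ) * u1 + ((YY p : ℤ) : ℝ) * u2 with hZp
        set Zq : ℂ := ((XX q : ℤ) : ℝ) * u1 + ((YY q : ℤ) : ℝ) * u2 with hZq
        have hne : corner γ ε (tp p.1) (m + 1) - corner γ ε (tp p.1) m ≠ 0 :=
          sub_ne_zero.2 (Ne.symm ((hHG (tp p.1)).ne m))
        refine disj_of_halfplanes (p := Zp + corner γ ε (tp p.1) m) hne ?_ ?_
        · intro z hz
          have h3 := himg p z hz m
          rw [sub_add_eq_sub_sub]
          exact h3
        · intro z hz
          have h3 := himg q z hz m'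
          have e1 : corner γ ε (tp q.1) (m' + 1) - corner γ ε (tp q.1) m' =
              -(corner γ ε (tp p.1) (m + 1) - corner γ ε (tp p.1) m) := by
            linear_combination h2 - h1
          have e2 : z - Zq - corner γ ε (tp q.1) m' =
              (z - (Zp + corner γ ε (tp p.1) m)) -
                (corner γ ε (tp p.1) (m + 1) - corner γ ε (tp p.1) m) := by
            linear_combination -h1
          rw [e1, e2] at h3
          have h4 : ∀ E v : ℂ, cr (-E) (v - E) = - cr E v := by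
            intro E v
            simp only [cr, Complex.neg_re, Complex.neg_im, Complex.sub_re, Complex.sub_im]
            ring
          rw [h4] at h3
          linarith
      rcases hpq with ⟨h1, h2⟩ | ⟨h1, h2⟩ | ⟨h1, h2⟩
      · -- (0, 1): side 0 against side 3
        have e1 : cx q.1 = cx p.1 := by omega
        have e2 : cy q.1 = cy p.1 + 1 := by omega
        refine sep 0 3 ?_ ?_
        · rw [h1, h2]
          have : (tp q.1) = ty s hs (cx p.1) (cy p.1 + 1) := by simp only [tp, e1, e2]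
          rw [this]
          simp only [corner, tp, ty, Matrix.cons_val_zero, Matrix.cons_val_one, Matrix.cons_val,
            Fin.isValue, zero_add]
          push_cast
          ring
        · rw [h1, h2]
          simp only [corner, Fin.isValue]
          show (_ : ℂ) + (u1 - 2 * u2) / 3 = _ + (u1 + u2) / 3
          push_cast
          ring
      · -- (1, 0): side 5 against side 2
        have e1 : cx q.1 = cx p.1 + 1 := by omega
        have e2 : cy q.1 = cy p.1 := by omega
        refine sep 5 2 ?_ ?_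
        · rw [h1, h2]
          show (_ : ℂ) + (u2 - 2 * u1) / 3 = _ + (u1 + u2) / 3
          push_cast
          ring
        · rw [h1, h2]
          have : (tp q.1) = ty s hs ((cx p.1 : ℤ) + 1) (cy p.1) := by
            simp only [tp, e1, e2]; push_cast; rfl
          rw [this]
          show (_ : ℂ) + (-(u1 + u2) / 3 + disp γ ε (s (cx p.1 + 1) (cy p.1))
            (s (cx p.1 + 1 + 1) (cy p.1)) (s (cx p.1 + 1) (cy p.1 + 1))) =
            _ + ((2 * u1 - u2) / 3 + disp γ ε (s (cx p.1 + 1) (cy p.1))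
            (s (cx p.1 + 2) (cy p.1)) (s (cx p.1 + 1) (cy p.1 + 1)))
          have e3 : ((cx p.1 : ℤ) + 1 + 1) = (cx p.1 : ℤ) + 2 := by ring
          rw [e3]
          push_cast
          ring
      · -- (-1, 1): side 1 against side 4
        have e1 : (cx q.1 : ℤ) = cx p.1 - 1 := by omega
        have e2 : cy q.1 = cy p.1 + 1 := by omega
        refine sep 1 4 ?_ ?_
        · rw [h1, h2]
          show (_ : ℂ) + (u1 - 2 * u2) / 3 = _ + (u2 - 2 * u1) / 3
          push_cast
          ring
        · rw [h1, h2]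
          have : (tp q.1) = ty s hs ((cx p.1 : ℤ) - 1) (cy p.1 + 1) := by
            simp only [tp, e1, e2]
          rw [this]
          show (_ : ℂ) + ((2 * u1 - u2) / 3 + disp γ ε (s ((cx p.1 : ℤ) - 1 + 1) (cy p.1 + 1))
            (s ((cx p.1 : ℤ) - 1 + 2) (cy p.1 + 1)) (s ((cx p.1 : ℤ) - 1 + 1) (cy p.1 + 1 + 1))) =
            _ + ((2 * u2 - u1) / 3 + disp γ ε (s (cx p.1) (cy p.1 + 1))
            (s ((cx p.1 : ℤ) + 1) (cy p.1 + 1)) (s (cx p.1) (cy p.1 + 2)))
          have e3 : ((cx p.1 : ℤ) - 1 + 1) = (cx p.1 : ℤ) := by ring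
          have e4 : ((cx p.1 : ℤ) - 1 + 2) = (cx p.1 : ℤ) + 1 := by ring
          rw [e3, e4]
          push_cast
          ring
    -- general pairs
    intro p q hpq
    have hne : ¬ (XX q - XX p = 0 ∧ YY q - YY p = 0) := by
      rintro ⟨h1, h2⟩
      apply hpq
      have hp1 := hcx p.1
      have hp2 := hcy p.1
      have hq1 := hcx q.1
      have hq2 := hcy q.1
      have hinj : ∀ a b : ℤ, ∀ x y : ℤ, 0 ≤ x → x < M → 0 ≤ y → y < M →
          (x + a * ((M : ℤ) + 1)) - (y + b * ((M : ℤ) + 1)) = 0 → a = b ∧ x = y := by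
        intro a b x y hx0 hxM hy0 hyM h
        have hab : a = b := by
          by_contra hne
          rcases lt_or_gt_of_ne hne with hlt | hlt
          · have : (b - a) * ((M : ℤ) + 1) ≥ 1 * ((M : ℤ) + 1) :=
              mul_le_mul_of_nonneg_right (by omega) (by omega)
            nlinarith
          · have : (a - b) * ((M : ℤ) + 1) ≥ 1 * ((M : ℤ) + 1) :=
              mul_le_mul_of_nonneg_right (by omega) (by omega)
            nlinarith
        refine ⟨hab, ?_⟩
        subst hab
        linarith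
      obtain ⟨a1, a2⟩ := hinj q.2.1 p.2.1 (cx q.1) (cx p.1) (by omega) (by omega) (by omega)
        (by omega) h1
      obtain ⟨b1, b2⟩ := hinj q.2.2 p.2.2 (cy q.1) (cy p.1) (by omega) (by omega) (by omega)
        (by omega) h2
      have h3 : p.1 = q.1 := hcxy _ _ (by exact_mod_cast a2.symm) (by exact_mod_cast b2.symm)
      exact Prod.ext h3 (Prod.ext a1.symm b1.symm)
    by_cases hfar : 2 ≤ (XX q - XX p) ^ 2 + (XX q - XX p) * (YY q - YY p) + (YY q - YY p) ^ 2
    · -- far pairs
      have hball : ∀ p, place g u w p '' body γ ε tt ⊆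
          Metric.closedBall (((XX p : ℤ) : ℝ) * u1 + ((YY p : ℤ) : ℝ) * u2) (6 / 5) := by
        intro p z hz
        have h1 := (hHG (tp p.1)).sub_ball (himg p z hz)
        rw [Metric.mem_closedBall, dist_eq_norm] at h1 ⊢
        simpa using h1
      refine disj_of_balls (hball p) (hball q) ?_
      have h1 : ((((XX p : ℤ) : ℝ) * u1 + ((YY p : ℤ) : ℝ) * u2) -
          (((XX q : ℤ) : ℝ) * u1 + ((YY q : ℤ) : ℝ) * u2) : ℂ) =
          (((XX p : ℝ) - (XX q : ℝ) : ℝ) : ℂ) * u1 + (((YY p : ℝ) - (YY q : ℝ) : ℝ) : ℂ) * u2 := by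
        push_cast; ring
      rw [h1]
      have h2 := norm_lattice ((XX p : ℝ) - (XX q : ℝ)) ((YY p : ℝ) - (YY q : ℝ))
      have h3 : (2 : ℝ) ≤ ((XX q : ℝ) - (XX p : ℝ)) ^ 2 + ((XX q : ℝ) - (XX p : ℝ)) *
          ((YY q : ℝ) - (YY p : ℝ)) + ((YY q : ℝ) - (YY p : ℝ)) ^ 2 := by
        exact_mod_cast hfar
      by_contra hcon
      push Not at hcon
      have h4 : ‖(((XX p : ℝ) - (XX q : ℝ) : ℝ) : ℂ) * u1 +
          (((YY p : ℝ) - (YY q : ℝ) : ℝ) : ℂ) * u2‖ ^ 2 ≤ (12 / 5) ^ 2 :=
        pow_le_pow_left₀ (norm_nonneg _) hcon 2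
      rw [h2] at h4
      nlinarith
    · -- neighbours
      push Not at hfar
      set dx := XX q - XX p with hdx
      set dy := YY q - YY p with hdy
      have hb1 : dx ^ 2 ≤ 1 := by nlinarith [sq_nonneg (dx + 2 * dy), sq_nonneg dx]
      have hb2 : dy ^ 2 ≤ 1 := by nlinarith [sq_nonneg (2 * dx + dy), sq_nonneg dy]
      have hx1 : -1 ≤ dx ∧ dx ≤ 1 := abs_le.1 (abs_le_one_iff_mul_self_le_one.2 (by nlinarith))
      have hy1 : -1 ≤ dy ∧ dy ≤ 1 := abs_le.1 (abs_le_one_iff_mul_self_le_one.2 (by nlinarith))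
      have hdx3 : dx = -1 ∨ dx = 0 ∨ dx = 1 := by omega
      have hdy3 : dy = -1 ∨ dy = 0 ∨ dy = 1 := by omega
      rcases hdx3 with h1 | h1 | h1 <;> rcases hdy3 with h2 | h2 | h2
      · rw [h1, h2] at hfar; norm_num at hfar
      · exact (key q p (Or.inr (Or.inl (by omega)))).symm
      · exact key p q (Or.inr (Or.inr (by omega)))
      · exact (key q p (Or.inl (by omega))).symm
      · exact absurd ⟨h1, h2⟩ hne
      · exact key p q (Or.inl (by omega))
      · exact (key q p (Or.inr (Or.inr (by omega)))).symm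
      · exact key p q (Or.inr (Or.inl (by omega)))
      · rw [h1, h2] at hfar; norm_num at hfar

end Pool.Agent.MP3e
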