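import Pool.Agent.Lib.MP_3e6a92_co.Spec

/-!
The minimal near regular circumscribed hexagon of the unit disc.
-/

set_option autoImplicit false

namespace Pool.Agent.MP3e.MinB0

open Set

noncomputable section

/-- tangent line inequality for `tan` at `π / 6` -/
lemma tan_tangent {x : ℝ} (h0 : 0 ≤ x) (h1 : x < Real.pi / 2) (hne : x ≠ Real.pi / 6) :
    Real.tan (Real.pi / 6) + 4 / 3 * (x - Real.pi / 6) < Real.tan x := by
  have hpi := Real.pi_pos
  have hcospos : ∀ y ∈ Ico (0 : ℝ) (Real.pi / 2), 0 < Real.cos y := fun y hy =>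
    Real.cos_pos_of_mem_Ioo ⟨by linarith [hy.1], hy.2⟩
  have hder : ∀ y ∈ Ico (0 : ℝ) (Real.pi / 2),
      HasDerivAt (fun z => Real.tan z - 4 / 3 * z) (1 / Real.cos y ^ 2 - 4 / 3) y := by
    intro y hy
    have h : HasDerivAt (fun z => Real.tan z - 4 / 3 * z) (1 / Real.cos y ^ 2 - 4 / 3 * 1) y :=
      (Real.hasDerivAt_tan (hcospos y hy).ne').sub ((hasDerivAt_id y).const_mul (4 / 3 : ℝ))
    rwa [mul_one] at h
  have hcont : ContinuousOn (fun z => Real.tan z - 4 / 3 * z) (Ico (0 : ℝ) (Real.pi / 2)) :=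
    fun y hy => (hder y hy).continuousAt.continuousWithinAt
  have hc6 : Real.cos (Real.pi / 6) = Real.sqrt 3 / 2 := Real.cos_pi_div_six
  have hs3 : Real.sqrt 3 ^ 2 = 3 := Real.sq_sqrt (by norm_num)
  have hs3p : 0 < Real.sqrt 3 := Real.sqrt_pos.mpr (by norm_num)
  rcases lt_or_gt_of_ne hne with hlt | hgt
  · have hanti : StrictAntiOn (fun z => Real.tan z - 4 / 3 * z) (Icc (0 : ℝ) (Real.pi / 6)) := by
      apply strictAntiOn_of_deriv_neg (convex_Icc _ _)
      · exact hcont.mono (fun y hy => ⟨hy.1, by linarith [hy.2]⟩)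
      · intro y hy
        rw [interior_Icc] at hy
        have hy' : y ∈ Ico (0 : ℝ) (Real.pi / 2) := ⟨hy.1.le, by linarith [hy.2]⟩
        rw [(hder y hy').deriv]
        have hc : Real.cos (Real.pi / 6) < Real.cos y :=
          Real.cos_lt_cos_of_nonneg_of_le_pi_div_two hy.1.le (by linarith) hy.2
        have hcp := hcospos y hy'
        rw [hc6] at hc
        have : 3 / 4 < Real.cos y ^ 2 := by nlinarith
        rw [sub_neg, div_lt_iff₀ (by positivity)]
        linarith
    have h := hanti ⟨h0, hlt.le⟩ ⟨by positivity, le_refl _⟩ hlt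
    simp only at h
    linarith
  · have hmono : StrictMonoOn (fun z => Real.tan z - 4 / 3 * z)
        (Ico (Real.pi / 6) (Real.pi / 2)) := by
      apply strictMonoOn_of_deriv_pos (convex_Ico _ _)
      · exact hcont.mono (fun y hy => ⟨by linarith [hy.1], hy.2⟩)
      · intro y hy
        rw [interior_Ico] at hy
        have hy' : y ∈ Ico (0 : ℝ) (Real.pi / 2) := ⟨by linarith [hy.1], hy.2⟩
        rw [(hder y hy').deriv]
        have hc : Real.cos y < Real.cos (Real.pi / 6) :=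
          Real.cos_lt_cos_of_nonneg_of_le_pi_div_two (by positivity) (by linarith [hy.2]) hy.1
        have hcp := hcospos y hy'
        rw [hc6] at hc
        have : Real.cos y ^ 2 < 3 / 4 := by nlinarith
        rw [sub_pos, lt_div_iff₀ (by positivity)]
        linarith
    have h := hmono ⟨le_refl _, by linarith⟩ ⟨hgt.le, h1⟩ hgt
    simp only at h
    linarith

/-- the half angle quotient -/
lemma half_quot {D : ℝ} (h0 : 0 < D) (h1 : D < Real.pi) :
    (1 - Real.cos D) / Real.sin D = Real.tan (D / 2) := by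
  have hs : Real.sin D = 2 * Real.sin (D / 2) * Real.cos (D / 2) := by
    rw [← Real.sin_two_mul]; congr 1; ring
  have hc : Real.cos D = 1 - 2 * Real.sin (D / 2) ^ 2 := by
    have h := Real.cos_two_mul (D / 2)
    have h2 := Real.sin_sq_add_cos_sq (D / 2)
    have h3 : 2 * (D / 2) = D := by ring
    rw [h3] at h
    linarith
  have hsp : 0 < Real.sin (D / 2) := Real.sin_pos_of_pos_of_lt_pi (by linarith) (by linarith)
  have hcp : 0 < Real.cos (D / 2) := Real.cos_pos_of_mem_Ioo ⟨by linarith, by linarith⟩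
  rw [hs, hc, Real.tan_eq_sin_div_cos]
  field_simp
  ring

/-- the bound for a single term -/
lemma term_bound {x h k : ℝ} (hx : |x| ≤ 1 / 500) (h1 : 1 ≤ h) (h2 : h ≤ 1 + 1 / 1000)
    (k1 : 1 ≤ k) (k2 : k ≤ 1 + 1 / 1000) :
    2 / Real.sqrt 3 + 4 / 3 * x + (h - 1 + (k - 1)) ≤
      2 * h * k / Real.sin (Real.pi / 3 + x) -
        (h ^ 2 + k ^ 2) * Real.cos (Real.pi / 3 + x) / Real.sin (Real.pi / 3 + x) ∧
    (2 * h * k / Real.sin (Real.pi / 3 + x) -
        (h ^ 2 + k ^ 2) * Real.cos (Real.pi / 3 + x) / Real.sin (Real.pi / 3 + x) =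
      2 / Real.sqrt 3 + 4 / 3 * x → x = 0 ∧ h = 1) := by
  have hpi3 := Real.pi_gt_three
  have hpi4 := Real.pi_lt_four
  have hx' := abs_le.mp hx
  set D := Real.pi / 3 + x with hD
  have hD0 : 0 < D := by rw [hD]; linarith [hx'.1]
  have hD1 : D < Real.pi := by rw [hD]; linarith [hx'.2]
  have hsD : 0 < Real.sin D := Real.sin_pos_of_pos_of_lt_pi hD0 hD1
  have hs3 : Real.sqrt 3 ^ 2 = 3 := Real.sq_sqrt (by norm_num)
  have hs3p : 0 < Real.sqrt 3 := Real.sqrt_pos.mpr (by norm_num)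
  have hs3u : Real.sqrt 3 < 1.7321 := by
    rw [Real.sqrt_lt' (by norm_num)]; norm_num
  have hinv : (0.577 : ℝ) < 1 / Real.sqrt 3 := by
    rw [lt_div_iff₀ hs3p]; nlinarith
  -- the quotient T
  set T := (1 - Real.cos D) / Real.sin D with hT
  have hTt : T = Real.tan (D / 2) := half_quot hD0 hD1
  have ht6 : Real.tan (Real.pi / 6) = 1 / Real.sqrt 3 := Real.tan_pi_div_six
  have hTge : 1 / Real.sqrt 3 + 2 / 3 * x ≤ T ∧ (T = 1 / Real.sqrt 3 + 2 / 3 * x → x = 0) := by
    by_cases hx0 : x = 0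
    · refine ⟨?_, fun _ => hx0⟩
      have : D / 2 = Real.pi / 6 := by rw [hD, hx0]; ring
      rw [hTt, this, ht6, hx0]; simp
    · have h := tan_tangent (x := D / 2) (by linarith) (by linarith) (by
        intro h; apply hx0; rw [hD] at h; linarith)
      have h' : 1 / Real.sqrt 3 + 2 / 3 * x < T := by
        rw [hTt]; rw [ht6] at h
        have : 4 / 3 * (D / 2 - Real.pi / 6) = 2 / 3 * x := by rw [hD]; ring
        linarith
      exact ⟨h'.le, fun h'' => absurd h'' (ne_of_gt h')⟩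
  have hT57 : 0.57 ≤ T := by
    have := hTge.1
    linarith [hx'.1]
  -- cos D ≤ 3 / 4
  have hc34 : Real.cos D ≤ 3 / 4 := by
    have h := Real.cos_le_cos_of_nonneg_of_le_pi (x := Real.pi / 4) (y := D) (by linarith) hD1.le
      (by rw [hD]; linarith [hx'.1])
    rw [Real.cos_pi_div_four] at h
    have : Real.sqrt 2 < 1.5 := by rw [Real.sqrt_lt' (by norm_num)]; norm_num
    linarith
  have hcT : Real.cos D / Real.sin D ≤ 3 * T := by
    rw [hT, ← mul_div_assoc]
    apply div_le_div_of_nonneg_right _ hsD.le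
    linarith
  have hexp : 2 * h * k / Real.sin D - (h ^ 2 + k ^ 2) * Real.cos D / Real.sin D =
      2 * h * k * T - (h - k) ^ 2 * (Real.cos D / Real.sin D) := by
    rw [hT]; field_simp; ring
  have hsq : (h - k) ^ 2 ≤ 1 / 1000 * (h - 1 + (k - 1)) := by
    rcases le_total h k with hhk | hhk <;> nlinarith
  have hsq0 : 0 ≤ (h - k) ^ 2 := sq_nonneg _
  have hprod : 1 + (h - 1) + (k - 1) ≤ h * k := by nlinarith
  have hmain : 2 * T + (h - 1 + (k - 1)) ≤
      2 * h * k / Real.sin D - (h ^ 2 + k ^ 2) * Real.cos D / Real.sin D := by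
    rw [hexp]
    have e1 : (h - k) ^ 2 * (Real.cos D / Real.sin D) ≤ (h - k) ^ 2 * (3 * T) :=
      mul_le_mul_of_nonneg_left hcT hsq0
    have e2 : (h - k) ^ 2 * (3 * T) ≤ 1 / 1000 * (h - 1 + (k - 1)) * (3 * T) :=
      mul_le_mul_of_nonneg_right hsq (by linarith)
    have e3 : (1 + (h - 1) + (k - 1)) * (2 * T) ≤ h * k * (2 * T) :=
      mul_le_mul_of_nonneg_right hprod (by linarith)
    have e4 : 0 ≤ (h - 1 + (k - 1)) * (T - 0.57) :=
      mul_nonneg (by linarith) (by linarith)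
    nlinarith
  constructor
  · have := hTge.1
    have e5 : 2 / Real.sqrt 3 = 2 * (1 / Real.sqrt 3) := by ring
    rw [e5]; linarith
  · intro heq
    have e5 : 2 / Real.sqrt 3 = 2 * (1 / Real.sqrt 3) := by ring
    rw [heq, e5] at hmain
    have h3 := hTge.1
    have hT2 : T = 1 / Real.sqrt 3 + 2 / 3 * x := by
      apply le_antisymm _ h3
      linarith
    exact ⟨hTge.2 hT2, by linarith⟩

lemma cis_norm (a : ℝ) : (cis a).re ^ 2 + (cis a).im ^ 2 = 1 := by
  simp [cis]

lemma cr_cis (a b : ℝ) : cr (cis a) (cis b) = Real.sin (b - a) := by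
  simp [cr, cis, Real.sin_sub]; ring

lemma dt_cis (a b : ℝ) : dt (cis a) (cis b) = Real.cos (b - a) := by
  simp [dt, cis, Real.cos_sub]; ring

lemma cr_nrm (α : ℝ) (β : Fin 6 → ℝ) (m : Fin 6) :
    cr (nrm α β m) (nrm α β (m + 1)) = Real.sin (Real.pi / 3 + (β (m + 1) - β m)) := by
  unfold nrm
  rw [cr_cis]
  fin_cases m
  all_goals simp
  · congr 1; ring
  · congr 1; ring
  · congr 1; ring
  · congr 1; ring
  · congr 1; ring
  · rw [← Real.sin_add_two_pi]; congr 1; ring

lemma dt_nrm (α : ℝ) (β : Fin 6 → ℝ) (m : Fin 6) :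
    dt (nrm α β m) (nrm α β (m + 1)) = Real.cos (Real.pi / 3 + (β (m + 1) - β m)) := by
  unfold nrm
  rw [dt_cis]
  fin_cases m
  all_goals simp
  · congr 1; ring
  · congr 1; ring
  · congr 1; ring
  · congr 1; ring
  · congr 1; ring
  · rw [← Real.cos_add_two_pi]; congr 1; ring

/-- algebraic form of the cross product of consecutive vertices -/
lemma cross_alg (a b c d e f g h k s t : ℝ) (hn : c ^ 2 + d ^ 2 = 1)
    (hs : s = a * d - b * c) (ht : t = c * f - d * e) (h1 : s ≠ 0) (h2 : t ≠ 0) :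
    ((-h * b + g * d) / s) * ((k * c - h * e) / t) -
      ((h * a - g * c) / s) * ((-k * d + h * f) / t) =
    (h * k / t - h ^ 2 * (c * e + d * f) / t) +
      (g * h / s - h ^ 2 * (a * c + b * d) / s) := by
  have key : b * e - a * f = -((c * e + d * f) * s + (a * c + b * d) * t) := by
    have : (c * e + d * f) * (a * d - b * c) + (a * c + b * d) * (c * f - d * e) =
      (c ^ 2 + d ^ 2) * (a * f - b * e) := by ring
    rw [hs, ht, this, hn]; ring
  field_simp
  linear_combination h ^ 2 * key - h * k * hs - g * h * ht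

lemma cr_vtx (n : Fin 6 → ℂ) (h : Fin 6 → ℝ) (hn : ∀ m, (n m).re ^ 2 + (n m).im ^ 2 = 1)
    (hs : ∀ m, cr (n m) (n (m + 1)) ≠ 0) (m : Fin 6) :
    cr (vtx n h m) (vtx n h (m + 1)) =
      (h m * h (m + 1) / cr (n m) (n (m + 1)) -
        h m ^ 2 * dt (n m) (n (m + 1)) / cr (n m) (n (m + 1))) +
      (h (m - 1) * h m / cr (n (m - 1)) (n m) -
        h m ^ 2 * dt (n (m - 1)) (n m) / cr (n (m - 1)) (n m)) := by
  have e1 : m + 1 - 1 = m := add_sub_cancel_right m 1
  have e2 : m - 1 + 1 = m := sub_add_cancel m 1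
  have hs1 := hs m
  have hs2 := hs (m - 1)
  rw [e2] at hs2
  have hre : ∀ l : Fin 6, (vtx n h l).re =
      (-h l * (n (l - 1)).im + h (l - 1) * (n l).im) / cr (n (l - 1)) (n l) := by
    intro l
    unfold vtx
    rw [Complex.div_ofReal_re]
    congr 1
    simp [Complex.mul_re, Complex.mul_im]
  have him : ∀ l : Fin 6, (vtx n h l).im =
      (h l * (n (l - 1)).re - h (l - 1) * (n l).re) / cr (n (l - 1)) (n l) := by
    intro l
    unfold vtx
    rw [Complex.div_ofReal_im]
    congr 1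
    simp [Complex.mul_re, Complex.mul_im]
  have := cross_alg (n (m - 1)).re (n (m - 1)).im (n m).re (n m).im (n (m + 1)).re (n (m + 1)).im
    (h (m - 1)) (h m) (h (m + 1)) _ _ (hn m) rfl rfl hs2 hs1
  have hc : cr (vtx n h m) (vtx n h (m + 1)) = (vtx n h m).re * (vtx n h (m + 1)).im -
    (vtx n h m).im * (vtx n h (m + 1)).re := rfl
  rw [hc, hre, him, hre, him, e1]
  exact this

lemma shoe_vtx (n : Fin 6 → ℂ) (h : Fin 6 → ℝ) (hn : ∀ m, (n m).re ^ 2 + (n m).im ^ 2 = 1)
    (hs : ∀ m, cr (n m) (n (m + 1)) ≠ 0) :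
    shoe (vtx n h) = ∑ m, (2 * h m * h (m + 1) / cr (n m) (n (m + 1)) -
      (h m ^ 2 + h (m + 1) ^ 2) * dt (n m) (n (m + 1)) / cr (n m) (n (m + 1))) := by
  unfold shoe
  simp_rw [cr_vtx n h hn hs]
  rw [Finset.sum_add_distrib]
  have hshift : ∑ m : Fin 6, (h (m - 1) * h m / cr (n (m - 1)) (n m) -
        h m ^ 2 * dt (n (m - 1)) (n m) / cr (n (m - 1)) (n m)) =
      ∑ m : Fin 6, (h m * h (m + 1) / cr (n m) (n (m + 1)) -
        h (m + 1) ^ 2 * dt (n m) (n (m + 1)) / cr (n m) (n (m + 1))) := by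
    rw [← Equiv.sum_comp (Equiv.addRight (1 : Fin 6))]
    apply Finset.sum_congr rfl
    intro m _
    simp only [Equiv.coe_addRight, add_sub_cancel_right]
  rw [hshift, ← Finset.sum_add_distrib]
  apply Finset.sum_congr rfl
  intro m _
  ring

theorem main : StmtB0 := by
  intro α β h hβ h1 h2
  have hx : ∀ m, |β (m + 1) - β m| ≤ 1 / 500 := by
    intro m
    have := abs_sub (β (m + 1)) (β m)
    linarith [hβ m, hβ (m + 1)]
  have hsin : ∀ m, 0 < Real.sin (Real.pi / 3 + (β (m + 1) - β m)) := by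
    intro m
    have hpi3 := Real.pi_gt_three
    have := abs_le.mp (hx m)
    exact Real.sin_pos_of_pos_of_lt_pi (by linarith [this.1]) (by linarith [this.2])
  have hshoe := shoe_vtx (nrm α β) h (fun m => cis_norm _) (fun m => by
    rw [cr_nrm]; exact (hsin m).ne')
  simp_rw [cr_nrm, dt_nrm] at hshoe
  have htb := fun m => term_bound (hx m) (h1 m) (h2 m) (h1 (m + 1)) (h2 (m + 1))
  have hs3 : Real.sqrt 3 ^ 2 = 3 := Real.sq_sqrt (by norm_num)
  have hs3p : 0 < Real.sqrt 3 := Real.sqrt_pos.mpr (by norm_num)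
  have hsumx : ∑ m : Fin 6, (β (m + 1) - β m) = 0 := by
    have h' := Equiv.sum_comp (Equiv.addRight (1 : Fin 6)) β
    simp only [Equiv.coe_addRight] at h'
    rw [Finset.sum_sub_distrib, h', sub_self]
  have hbase : ∑ m : Fin 6, (2 / Real.sqrt 3 + 4 / 3 * (β (m + 1) - β m)) = 4 * Real.sqrt 3 := by
    rw [Finset.sum_add_distrib, ← Finset.mul_sum, hsumx]
    simp only [Finset.sum_const, Finset.card_univ, Fintype.card_fin, nsmul_eq_mul, mul_zero,
      add_zero]
    push_cast
    rw [mul_div_assoc', div_eq_iff hs3p.ne']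
    nlinarith
  have hterm0 : ∀ m : Fin 6, 2 / Real.sqrt 3 + 4 / 3 * (β (m + 1) - β m) ≤
      2 * h m * h (m + 1) / Real.sin (Real.pi / 3 + (β (m + 1) - β m)) -
        (h m ^ 2 + h (m + 1) ^ 2) * Real.cos (Real.pi / 3 + (β (m + 1) - β m)) /
          Real.sin (Real.pi / 3 + (β (m + 1) - β m)) := by
    intro m
    have := (htb m).1
    linarith [h1 m, h1 (m + 1)]
  constructor
  · rw [hshoe, ← hbase]
    exact Finset.sum_le_sum (fun m _ => hterm0 m)
  · intro heq
    rw [hshoe, ← hbase] at heq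
    have hall := (Finset.sum_eq_sum_iff_of_le (fun m _ => hterm0 m)).mp heq.symm
    have hres : ∀ m, β (m + 1) - β m = 0 ∧ h m = 1 := fun m =>
      (htb m).2 (hall m (Finset.mem_univ m)).symm
    refine ⟨fun m => (hres m).2, ?_⟩
    have e : ∀ m, β (m + 1) = β m := fun m => by linarith [(hres m).1]
    have e0 := e 0
    have e1 := e 1
    have e2 := e 2
    have e3 := e 3
    have e4 := e 4
    intro m
    fin_cases m
    · rfl
    · exact e0
    · exact e1.trans e0
    · exact e2.trans (e1.trans e0)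
    · exact e3.trans (e2.trans (e1.trans e0))
    · exact e4.trans (e3.trans (e2.trans (e1.trans e0)))

end

end Pool.Agent.MP3e.MinB0

theorem Pool.Agent.MP3e.stmtB0 (_hV : Pool.Agent.MP3e.StmtVtx) : Pool.Agent.MP3e.StmtB0 :=
  Pool.Agent.MP3e.MinB0.main
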