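import Pool.Agent.Lib.MP_3e6a92_co.Spec

/-!
Algebraic local minimality of the hexagons.
-/

set_option autoImplicit false

namespace Pool.Agent.MP3e

open Set

namespace MinB4

theorem abs_cr_le (z w : ℂ) : |cr z w| ≤ ‖z‖ * ‖w‖ := by
  have h : cr z w = ((starRingEnd ℂ) z * w).im := by
    simp only [cr, Complex.mul_im, Complex.conj_re, Complex.conj_im]; ring
  rw [h]
  calc |((starRingEnd ℂ) z * w).im| ≤ ‖(starRingEnd ℂ) z * w‖ := Complex.abs_im_le_norm _
    _ = ‖z‖ * ‖w‖ := by rw [norm_mul, RCLike.norm_conj]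

theorem norm_cis (θ : ℝ) : ‖cis θ‖ = 1 := by
  have h : ‖cis θ‖ ^ 2 = 1 := by
    rw [Complex.sq_norm, Complex.normSq_apply]
    simp only [cis]
    have := Real.cos_sq_add_sin_sq θ
    nlinarith [this]
  have h0 : 0 ≤ ‖cis θ‖ := norm_nonneg _
  nlinarith

theorem cr_cis (θ : ℝ) (z w : ℂ) : cr (cis θ * z) (cis θ * w) = cr z w := by
  simp only [cr, cis, Complex.mul_re, Complex.mul_im]
  have := Real.cos_sq_add_sin_sq θ
  linear_combination (z.re * w.im - z.im * w.re) * this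

theorem sqrt3_sq : Real.sqrt 3 * Real.sqrt 3 = 3 := Real.mul_self_sqrt (by norm_num)

theorem sqrt3_lb : 1.732 ≤ Real.sqrt 3 := by
  apply Real.le_sqrt_of_sq_le; norm_num

theorem sqrt3_ub : Real.sqrt 3 ≤ 1.7321 := by
  rw [Real.sqrt_le_iff]; norm_num

theorem reg_re : ∀ m : Fin 6, (reg m).re = ![1, 0, -1, -1, 0, 1] m := by
  intro m
  fin_cases m <;> simp [reg, u1, u2] <;> norm_num

theorem reg_im : ∀ m : Fin 6, (reg m).im =
    ![Real.sqrt 3 / 3, 2 * Real.sqrt 3 / 3, Real.sqrt 3 / 3, -Real.sqrt 3 / 3,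
      -2 * Real.sqrt 3 / 3, -Real.sqrt 3 / 3] m := by
  intro m
  fin_cases m <;> simp [reg, u1, u2]

theorem reg_side_sq (m : Fin 6) : ‖reg (m + 1) - reg m‖ ^ 2 = 4 / 3 := by
  rw [Complex.sq_norm, Complex.normSq_apply, Complex.sub_re, Complex.sub_im, reg_re, reg_re,
    reg_im, reg_im]
  have h := sqrt3_sq
  fin_cases m <;> simp <;> nlinarith [h]

theorem reg_side (m : Fin 6) : ‖reg (m + 1) - reg m‖ ≤ 1.155 := by
  have h := reg_side_sq m
  have h0 : 0 ≤ ‖reg (m + 1) - reg m‖ := norm_nonneg _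
  nlinarith

theorem reg_cr (m : Fin 6) :
    1.1546 ≤ cr (reg (m + 1) - reg m) (reg (m + 1 + 1) - reg (m + 1)) := by
  have h := sqrt3_sq
  have h' := sqrt3_lb
  unfold cr
  rw [Complex.sub_re, Complex.sub_im, Complex.sub_re, Complex.sub_im, reg_re, reg_re,
    reg_im, reg_im, reg_re, reg_im]
  fin_cases m <;> simp <;> nlinarith [h, h']

theorem side_near {θ : ℝ} {q : Fin 6 → ℂ} (h : NearReg θ q) (m : Fin 6) :
    ‖(q (m + 1) - q m) - cis θ * (reg (m + 1) - reg m)‖ ≤ 2 / 100 := by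
  have e : (q (m + 1) - q m) - cis θ * (reg (m + 1) - reg m) =
      (q (m + 1) - cis θ * reg (m + 1)) - (q m - cis θ * reg m) := by ring
  rw [e]
  calc _ ≤ ‖q (m + 1) - cis θ * reg (m + 1)‖ + ‖q m - cis θ * reg m‖ := norm_sub_le _ _
    _ ≤ 1 / 100 + 1 / 100 := add_le_add (h _) (h _)
    _ = 2 / 100 := by norm_num

theorem norm_side_le {θ : ℝ} {q : Fin 6 → ℂ} (h : NearReg θ q) (m : Fin 6) :
    ‖q (m + 1) - q m‖ ≤ 1.175 := by
  have h1 := side_near h m
  have h2 := reg_side m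
  have e : q (m + 1) - q m = ((q (m + 1) - q m) - cis θ * (reg (m + 1) - reg m)) +
      cis θ * (reg (m + 1) - reg m) := by ring
  rw [e]
  calc _ ≤ ‖(q (m + 1) - q m) - cis θ * (reg (m + 1) - reg m)‖ +
      ‖cis θ * (reg (m + 1) - reg m)‖ := norm_add_le _ _
    _ ≤ 2 / 100 + 1.155 := by
      rw [norm_mul, norm_cis, one_mul]
      exact add_le_add h1 h2
    _ = 1.175 := by norm_num

theorem cr_side_ge {θ : ℝ} {q : Fin 6 → ℂ} (h : NearReg θ q) (m : Fin 6) :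
    1.1 ≤ cr (q (m + 1) - q m) (q (m + 1 + 1) - q (m + 1)) := by
  set R := cis θ * (reg (m + 1) - reg m) with hR
  set R' := cis θ * (reg (m + 1 + 1) - reg (m + 1)) with hR'
  set a := (q (m + 1) - q m) - R with ha
  set a' := (q (m + 1 + 1) - q (m + 1)) - R' with ha'
  have h1 : ‖a‖ ≤ 2 / 100 := side_near h m
  have h2 : ‖a'‖ ≤ 2 / 100 := side_near h (m + 1)
  have h3 : ‖R‖ ≤ 1.155 := by rw [hR, norm_mul, norm_cis, one_mul]; exact reg_side m
  have h4 : ‖R'‖ ≤ 1.155 := by rw [hR', norm_mul, norm_cis, one_mul]; exact reg_side (m + 1)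
  have h5 : 1.1546 ≤ cr R R' := by rw [hR, hR', cr_cis]; exact reg_cr m
  have e : cr (q (m + 1) - q m) (q (m + 1 + 1) - q (m + 1)) =
      cr R R' + cr R a' + cr a R' + cr a a' := by
    rw [ha, ha']
    simp only [cr, Complex.sub_re, Complex.sub_im]
    ring
  have k1 := abs_le.1 (abs_cr_le R a')
  have k2 := abs_le.1 (abs_cr_le a R')
  have k3 := abs_le.1 (abs_cr_le a a')
  have n1 : ‖R‖ * ‖a'‖ ≤ 1.155 * (2 / 100) := by gcongr
  have n2 : ‖a‖ * ‖R'‖ ≤ (2 / 100) * 1.155 := by gcongr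
  have n3 : ‖a‖ * ‖a'‖ ≤ (2 / 100) * (2 / 100) := by gcongr
  rw [e]
  norm_num at *
  linarith [k1.1, k2.1, k3.1]

/-- a vector is controlled by its cross products with two consecutive sides -/
theorem norm_le_of_cr {d E E' : ℂ} (hE : ‖E‖ ≤ 1.175) (hE' : ‖E'‖ ≤ 1.175)
    (hD : 1.1 ≤ cr E E') : ‖d‖ ≤ 1.2 * (|cr d E'| + |cr d E|) := by
  have e : ((cr E E' : ℝ) : ℂ) * d = ((cr d E' : ℝ) : ℂ) * E - ((cr d E : ℝ) : ℂ) * E' := by
    apply Complex.ext
    · simp only [cr, Complex.mul_re, Complex.sub_re, Complex.ofReal_re, Complex.ofReal_im]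
      ring
    · simp only [cr, Complex.mul_im, Complex.sub_im, Complex.ofReal_re, Complex.ofReal_im]
      ring
  have h1 : cr E E' * ‖d‖ ≤ |cr d E'| * 1.175 + |cr d E| * 1.175 := by
    calc cr E E' * ‖d‖ = ‖((cr E E' : ℝ) : ℂ) * d‖ := by
          rw [norm_mul, Complex.norm_real, Real.norm_eq_abs, abs_of_nonneg (by linarith)]
      _ = ‖((cr d E' : ℝ) : ℂ) * E - ((cr d E : ℝ) : ℂ) * E'‖ := by rw [e]
      _ ≤ ‖((cr d E' : ℝ) : ℂ) * E‖ + ‖((cr d E : ℝ) : ℂ) * E'‖ := norm_sub_le _ _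
      _ = |cr d E'| * ‖E‖ + |cr d E| * ‖E'‖ := by
          rw [norm_mul, norm_mul, Complex.norm_real, Complex.norm_real, Real.norm_eq_abs,
            Real.norm_eq_abs]
      _ ≤ |cr d E'| * 1.175 + |cr d E| * 1.175 := by gcongr
  have h2 : 1.1 * ‖d‖ ≤ cr E E' * ‖d‖ := by gcongr
  have h3 : 0 ≤ |cr d E'| := abs_nonneg _
  have h4 : 0 ≤ |cr d E| := abs_nonneg _
  norm_num at h1 h2 ⊢
  linarith

theorem sum_shift (f : Fin 6 → ℝ) : ∑ m, f (m + 1) = ∑ m, f m :=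
  Equiv.sum_comp (Equiv.addRight (1 : Fin 6)) f

end MinB4

open MinB4 in
theorem stmtB4 : StmtB4 := by
  intro κ hκ
  set L : ℝ := 4.8 * (1 + 1 / (2 * κ)) with hL
  have hκ' : 0 < 1 / (2 * κ) := by positivity
  have hLpos : 4.8 < L := by
    rw [hL]; norm_num at *; linarith
  have hL0 : 0 < L := by linarith
  refine ⟨1 / L, by positivity, ?_⟩
  intro θ q0 q hreg hc hs
  set d : Fin 6 → ℂ := fun m => q m - q0 m with hd
  set E : Fin 6 → ℂ := fun m => q0 (m + 1) - q0 m with hE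
  set C : Fin 6 → ℝ := fun m => (cr (d m) (E m) + cr (d (m + 1)) (E m)) / 2 +
    cr (d m) (d (m + 1)) with hC
  have hq : ∀ m, q m = q0 m + d m := fun m => by rw [hd]; ring
  have hcond : ∀ m, 0 ≤ C m + κ * (cr (d (m + 1)) (E m) - cr (d m) (E m)) ∧
      0 ≤ C m - κ * (cr (d (m + 1)) (E m) - cr (d m) (E m)) := by
    intro m
    have h1 := hs m κ (Or.inl rfl)
    have h2 := hs m (-κ) (Or.inr rfl)
    constructor
    · refine h1.trans_eq ?_
      simp only [hC, hd, hE, sidePt, cr, Complex.sub_re, Complex.sub_im, Complex.add_re,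
        Complex.add_im, Complex.mul_re, Complex.mul_im, Complex.ofReal_re, Complex.ofReal_im]
      ring
    · refine h2.trans_eq ?_
      simp only [hC, hd, hE, sidePt, cr, Complex.sub_re, Complex.sub_im, Complex.add_re,
        Complex.add_im, Complex.mul_re, Complex.mul_im, Complex.ofReal_re, Complex.ofReal_im]
      ring
  have hC0 : ∀ m, 0 ≤ C m := fun m => by linarith [(hcond m).1, (hcond m).2]
  have hdiff : ∀ m, |cr (d (m + 1)) (E m) - cr (d m) (E m)| / 2 ≤ 1 / (2 * κ) * C m := by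
    intro m
    have h1 : |cr (d (m + 1)) (E m) - cr (d m) (E m)| ≤ C m / κ := by
      rw [le_div_iff₀ hκ]
      rcases abs_cases (cr (d (m + 1)) (E m) - cr (d m) (E m)) with ⟨h, _⟩ | ⟨h, _⟩ <;> rw [h] <;>
        linarith [(hcond m).1, (hcond m).2]
    have h2 : 1 / (2 * κ) * C m = (C m / κ) / 2 := by field_simp
    rw [h2]; linarith
  have hdc : ∀ m, ‖d m‖ ≤ 1 / L := hc
  have hprod : ∀ m, |cr (d m) (d (m + 1))| ≤ 1 / L * ‖d m‖ := by
    intro m
    calc |cr (d m) (d (m + 1))| ≤ ‖d m‖ * ‖d (m + 1)‖ := abs_cr_le _ _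
      _ ≤ ‖d m‖ * (1 / L) := by gcongr; exact hdc _
      _ = 1 / L * ‖d m‖ := mul_comm _ _
  have hP : ∀ m, |cr (d m) (E m)| ≤ (1 + 1 / (2 * κ)) * C m + 1 / L * ‖d m‖ ∧
      |cr (d (m + 1)) (E m)| ≤ (1 + 1 / (2 * κ)) * C m + 1 / L * ‖d m‖ := by
    intro m
    have h1 := hdiff m
    have h2 := hprod m
    have h3 : (cr (d m) (E m) + cr (d (m + 1)) (E m)) / 2 = C m - cr (d m) (d (m + 1)) := by
      simp only [hC]; ring
    have h4 : |(cr (d m) (E m) + cr (d (m + 1)) (E m)) / 2| ≤ C m + 1 / L * ‖d m‖ := by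
      rw [h3]
      calc _ ≤ |C m| + |cr (d m) (d (m + 1))| := abs_sub _ _
        _ ≤ C m + 1 / L * ‖d m‖ := by rw [abs_of_nonneg (hC0 m)]; linarith
    have h5 := abs_le.1 h4
    have h6 := abs_le.1 (le_of_eq (rfl :
      |cr (d (m + 1)) (E m) - cr (d m) (E m)| = |cr (d (m + 1)) (E m) - cr (d m) (E m)|))
    constructor
    · rw [abs_le]; constructor <;> nlinarith [h5.1, h5.2, h6.1, h6.2]
    · rw [abs_le]; constructor <;> nlinarith [h5.1, h5.2, h6.1, h6.2]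
  have hdn : ∀ m, ‖d (m + 1)‖ ≤ 1.2 * (((1 + 1 / (2 * κ)) * C (m + 1) + 1 / L * ‖d (m + 1)‖) +
      ((1 + 1 / (2 * κ)) * C m + 1 / L * ‖d m‖)) := by
    intro m
    have h1 := norm_le_of_cr (d := d (m + 1)) (norm_side_le hreg m) (norm_side_le hreg (m + 1))
      (cr_side_ge hreg m)
    have h2 := (hP (m + 1)).1
    have h3 := (hP m).2
    refine h1.trans ?_
    gcongr
  have hsum : ∑ m, ‖d m‖ ≤ 2.4 * (1 + 1 / (2 * κ)) * ∑ m, C m + 2.4 * (1 / L) * ∑ m, ‖d m‖ := by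
    have h1 : ∑ m, ‖d (m + 1)‖ ≤ ∑ m, 1.2 * (((1 + 1 / (2 * κ)) * C (m + 1) +
        1 / L * ‖d (m + 1)‖) + ((1 + 1 / (2 * κ)) * C m + 1 / L * ‖d m‖)) :=
      Finset.sum_le_sum fun m _ => hdn m
    rw [sum_shift (fun m => ‖d m‖), ← Finset.mul_sum, Finset.sum_add_distrib,
      sum_shift (fun m => (1 + 1 / (2 * κ)) * C m + 1 / L * ‖d m‖), Finset.sum_add_distrib,
      ← Finset.mul_sum, ← Finset.mul_sum] at h1
    norm_num at h1 ⊢
    linarith
  set SC := ∑ m, C m with hSC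
  set SD := ∑ m, ‖d m‖ with hSD
  have hSC0 : 0 ≤ SC := Finset.sum_nonneg fun m _ => hC0 m
  have hSD0 : 0 ≤ SD := Finset.sum_nonneg fun m _ => norm_nonneg _
  have hL2 : 2.4 * (1 / L) ≤ 1 / 2 := by
    rw [mul_one_div, div_le_iff₀ hL0]
    norm_num at *; linarith
  have hSD : SD ≤ L * SC := by
    have h1 : 2.4 * (1 / L) * SD ≤ 1 / 2 * SD := by gcongr
    have h2 : L * SC = 2 * (2.4 * (1 + 1 / (2 * κ)) * SC) := by rw [hL]; ring
    linarith
  have hprod2 : |∑ m, cr (d m) (d (m + 1))| ≤ SC := by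
    calc |∑ m, cr (d m) (d (m + 1))| ≤ ∑ m, |cr (d m) (d (m + 1))| :=
          Finset.abs_sum_le_sum_abs _ _
      _ ≤ ∑ m, 1 / L * ‖d m‖ := Finset.sum_le_sum fun m _ => hprod m
      _ = 1 / L * SD := by rw [← Finset.mul_sum]
      _ ≤ 1 / L * (L * SC) := by gcongr
      _ = SC := by field_simp
  have hshoe : shoe q - shoe q0 = 2 * SC - ∑ m, cr (d m) (d (m + 1)) := by
    have h1 : ∑ m, cr (d (m + 1)) (q0 (m + 1)) = ∑ m, cr (d m) (q0 m) :=
      sum_shift (fun m => cr (d m) (q0 m))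
    have h2 : shoe q - shoe q0 = ∑ m, (cr (q0 m) (d (m + 1)) + cr (d m) (q0 (m + 1)) +
        cr (d m) (d (m + 1))) := by
      rw [shoe, shoe, ← Finset.sum_sub_distrib]
      refine Finset.sum_congr rfl fun m _ => ?_
      rw [hq m, hq (m + 1)]
      simp only [cr, Complex.add_re, Complex.add_im]
      ring
    have h3 : 2 * SC - ∑ m, cr (d m) (d (m + 1)) = ∑ m, ((cr (q0 m) (d (m + 1)) +
        cr (d m) (q0 (m + 1)) + cr (d m) (d (m + 1))) + (cr (d (m + 1)) (q0 (m + 1)) -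
        cr (d m) (q0 m))) := by
      rw [hSC, Finset.mul_sum, ← Finset.sum_sub_distrib]
      refine Finset.sum_congr rfl fun m _ => ?_
      simp only [hC, hE, cr, Complex.sub_re, Complex.sub_im]
      ring
    rw [h3, Finset.sum_add_distrib, Finset.sum_sub_distrib, h1, sub_self, add_zero, h2]
  have hle := abs_le.1 hprod2
  constructor
  · linarith [hle.2]
  · intro heq
    have h1 : SC = 0 := by linarith [hle.2]
    have h2 : SD = 0 := by
      rw [h1, mul_zero] at hSD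
      linarith
    have h3 := (Finset.sum_eq_zero_iff_of_nonneg (fun m _ => norm_nonneg (d m))).1 h2
    funext m
    have h4 := norm_eq_zero.1 (h3 m (Finset.mem_univ m))
    exact sub_eq_zero.1 h4

end Pool.Agent.MP3e
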