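import Pool.Agent.Lib.MP_3e6a92_co.Spec

/-!
Compactness step for the minimal hexagons.
-/

set_option autoImplicit false

namespace Pool.Agent.MP3e

open MeasureTheory Set Filter Topology

noncomputable section

namespace MinBc

lemma cis_re (θ : ℝ) : (cis θ).re = Real.cos θ := rfl
lemma cis_im (θ : ℝ) : (cis θ).im = Real.sin θ := rfl

lemma cis_exp (θ : ℝ) : cis θ = Complex.exp (θ * Complex.I) := by
  rw [Complex.exp_mul_I, ← Complex.ofReal_cos, ← Complex.ofReal_sin]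
  apply Complex.ext
  · simp only [cis, Complex.add_re, Complex.mul_re, Complex.ofReal_re, Complex.ofReal_im,
      Complex.I_re, Complex.I_im]
    ring
  · simp only [cis, Complex.add_im, Complex.mul_im, Complex.ofReal_re, Complex.ofReal_im,
      Complex.I_re, Complex.I_im]
    ring

lemma cis_add (a b : ℝ) : cis (a + b) = cis a * cis b := by
  rw [cis_exp, cis_exp, cis_exp, ← Complex.exp_add]
  congr 1
  push_cast
  ring

lemma cis_add_int (a : ℝ) (n : ℤ) : cis (a + n * (2 * Real.pi)) = cis a := by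
  apply Complex.ext
  · rw [cis_re, cis_re, Real.cos_add_int_mul_two_pi]
  · rw [cis_im, cis_im, Real.sin_add_int_mul_two_pi]

lemma continuous_cis : Continuous cis := by
  have : cis = fun θ : ℝ => Complex.exp (θ * Complex.I) := funext cis_exp
  rw [this]
  fun_prop

lemma norm_cis (θ : ℝ) : ‖cis θ‖ = 1 := by
  rw [cis_exp, Complex.norm_exp_ofReal_mul_I]

lemma continuous_dt : Continuous fun p : ℂ × ℂ => dt p.1 p.2 := by
  unfold dt
  fun_prop

lemma continuous_cr : Continuous fun p : ℂ × ℂ => cr p.1 p.2 := by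
  unfold cr
  fun_prop

lemma cr_cis (a b : ℝ) : cr (cis a) (cis b) = Real.sin (b - a) := by
  rw [Real.sin_sub]
  simp only [cr, cis_re, cis_im]
  ring

lemma dt_cis (a b t : ℝ) : dt (cis a) (cis b * ((1 : ℂ) + t * Complex.I)) =
    Real.cos (a - b) + t * Real.sin (a - b) := by
  rw [Real.sin_sub, Real.cos_sub]
  simp only [dt, cis_re, cis_im, Complex.mul_re, Complex.mul_im, Complex.add_re, Complex.add_im,
    Complex.one_re, Complex.one_im, Complex.ofReal_re, Complex.ofReal_im, Complex.I_re,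
    Complex.I_im]
  ring

lemma sqrt3_sq : Real.sqrt 3 * Real.sqrt 3 = 3 := Real.mul_self_sqrt (by norm_num)

lemma sqrt3_pos : 0 < Real.sqrt 3 := Real.sqrt_pos.mpr (by norm_num)

/-- `reg` in polar coordinates -/
lemma reg_eq (m : Fin 6) :
    reg m = ((2 / Real.sqrt 3 : ℝ) : ℂ) * cis (Real.pi / 6 + (m : ℕ) * (Real.pi / 3)) := by
  have h3 := sqrt3_sq
  have hp := sqrt3_pos
  have hne : Real.sqrt 3 ≠ 0 := hp.ne'
  have hdiv : 1 / Real.sqrt 3 = Real.sqrt 3 / 3 := by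
    field_simp
    nlinarith
  have e0 : ((0 : ℕ) : ℝ) * (Real.pi / 3) = 0 := by push_cast; ring
  have c0 : reg 0 = ((2 / Real.sqrt 3 : ℝ) : ℂ) * cis (Real.pi / 6) := by
    apply Complex.ext
    · simp only [reg, u1, u2, cis]
      simp
      field_simp
      nlinarith
    · simp only [reg, u1, u2, cis]
      simp
      field_simp
      nlinarith
  have hrot : ∀ m : Fin 6, (m : ℕ) < 5 → reg (m + 1) = reg m * cis (Real.pi / 3) := by
    intro m hm
    fin_cases m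
    · apply Complex.ext <;> simp [reg, u1, u2, cis] <;> ring_nf <;> norm_num
    · apply Complex.ext <;> simp [reg, u1, u2, cis] <;> ring_nf <;> norm_num
    · apply Complex.ext <;> simp [reg, u1, u2, cis] <;> ring_nf <;> norm_num
    · apply Complex.ext <;> simp [reg, u1, u2, cis] <;> ring_nf <;> norm_num
    · apply Complex.ext <;> simp [reg, u1, u2, cis] <;> ring_nf <;> norm_num
    · exact absurd hm (by decide)
  have hstep : ∀ m : Fin 6, (m : ℕ) < 5 →
      reg m = ((2 / Real.sqrt 3 : ℝ) : ℂ) * cis (Real.pi / 6 + (m : ℕ) * (Real.pi / 3)) →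
      reg (m + 1) = ((2 / Real.sqrt 3 : ℝ) : ℂ) *
        cis (Real.pi / 6 + (m + 1 : Fin 6).val * (Real.pi / 3)) := by
    intro m hm h
    rw [hrot m hm, h, mul_assoc, ← cis_add]
    congr 2
    have : ((m + 1 : Fin 6).val : ℝ) = (m : ℕ) + 1 := by
      have : (m + 1 : Fin 6).val = (m : ℕ) + 1 := by
        clear h
        revert m
        decide
      rw [this]
      push_cast
      ring
    rw [this]
    ring
  have r0 : reg 0 = ((2 / Real.sqrt 3 : ℝ) : ℂ) *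
      cis (Real.pi / 6 + (0 : Fin 6).val * (Real.pi / 3)) := by
    rw [c0]
    simp
  have r1 := hstep 0 (by decide) r0
  have r2 := hstep 1 (by decide) r1
  have r3 := hstep 2 (by decide) r2
  have r4 := hstep 3 (by decide) r3
  have r5 := hstep 4 (by decide) r4
  fin_cases m
  · exact r0
  · exact r1
  · exact r2
  · exact r3
  · exact r4
  · exact r5

lemma reg_succ (m : Fin 6) : reg (m + 1) = reg m * cis (Real.pi / 3) := by
  have h3 := sqrt3_sq
  fin_cases m <;> apply Complex.ext <;> simp [reg, u1, u2, cis] <;> ring_nf <;> norm_num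

/-- a point of the side of the regular hexagon -/
lemma sidePt_reg (m : Fin 6) (k s : ℝ) (R : Fin 6 → ℂ) (hR : ∀ m, R m = cis k * reg m) :
    sidePt R m s = cis (k + ((m : ℕ) + 1) * (Real.pi / 3)) *
      ((1 : ℂ) + ((2 / Real.sqrt 3 * s : ℝ) : ℂ) * Complex.I) := by
  have h3 := sqrt3_sq
  have hp := sqrt3_pos
  have hne : Real.sqrt 3 ≠ 0 := hp.ne'
  have key : (reg 0) + ((1 / 2 + s : ℝ) : ℂ) * (reg 0 * cis (Real.pi / 3) - reg 0) =
      cis (Real.pi / 3) * ((1 : ℂ) + ((2 / Real.sqrt 3 * s : ℝ) : ℂ) * Complex.I) := by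
    have hd : 2 / Real.sqrt 3 = 2 * Real.sqrt 3 / 3 := by
      field_simp
      nlinarith
    rw [hd]
    apply Complex.ext
    · simp [reg, u1, u2, cis]
      ring_nf
      rw [show Real.sqrt 3 ^ 2 = 3 by nlinarith]
      ring
    · simp [reg, u1, u2, cis]
      ring_nf
  have hreg : reg m = reg 0 * cis ((m : ℕ) * (Real.pi / 3)) := by
    rw [reg_eq m, reg_eq 0, mul_assoc, ← cis_add]
    simp
  unfold sidePt
  rw [hR, hR, reg_succ, hreg]
  have : cis (k + ((m : ℕ) + 1) * (Real.pi / 3)) =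
      cis k * (cis ((m : ℕ) * (Real.pi / 3)) * cis (Real.pi / 3)) := by
    rw [← cis_add, ← cis_add]
    congr 1
    ring
  rw [this]
  calc _ = cis k * cis ((m : ℕ) * (Real.pi / 3)) *
      ((reg 0) + ((1 / 2 + s : ℝ) : ℂ) * (reg 0 * cis (Real.pi / 3) - reg 0)) := by ring
    _ = _ := by rw [key]; ring

lemma val_sub_one (m : Fin 6) : (m - 1 : Fin 6).val + 1 = m.val ∨
    (m - 1 : Fin 6).val + 1 = m.val + 6 := by
  revert m
  decide

lemma val_sub (m l : Fin 6) : (m - l : Fin 6).val + l.val = m.val ∨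
    (m - l : Fin 6).val + l.val = m.val + 6 := by
  revert m l
  decide

/-- angles depend only on the index modulo 6 -/
lemma cis_shift (x : ℝ) (p q : ℕ) (h : p = q ∨ p = q + 6) :
    cis (x + p * (Real.pi / 3)) = cis (x + q * (Real.pi / 3)) := by
  rcases h with rfl | rfl
  · rfl
  · have := cis_add_int (x + q * (Real.pi / 3)) 1
    rw [← this]
    congr 1
    push_cast
    ring

/-- the vertex in the regular case -/
lemma vtx_regular (a : ℝ) (m : Fin 6) (n : Fin 6 → ℂ) (h : Fin 6 → ℝ)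
    (hn : ∀ m : Fin 6, n m = cis (a + (m : ℕ) * (Real.pi / 3))) (hh : ∀ m, h m = 1) :
    vtx n h m = ((2 / Real.sqrt 3 : ℝ) : ℂ) *
      cis (a + (m : ℕ) * (Real.pi / 3) - Real.pi / 6) := by
  have h3 := sqrt3_sq
  have hp := sqrt3_pos
  have hne : Real.sqrt 3 ≠ 0 := hp.ne'
  set x := a + (m : ℕ) * (Real.pi / 3) - Real.pi / 6 with hx
  have h1 : n m = cis (x + Real.pi / 6) := by
    rw [hn]
    congr 1
    rw [hx]
    ring
  have h2 : n (m - 1) = cis (x - Real.pi / 6) := by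
    rw [hn]
    have := cis_shift (a - Real.pi / 3) ((m - 1 : Fin 6).val + 1) m.val (val_sub_one m)
    have e1 : a - Real.pi / 3 + (((m - 1 : Fin 6).val + 1 : ℕ) : ℝ) * (Real.pi / 3) =
        a + ((m - 1 : Fin 6).val : ℝ) * (Real.pi / 3) := by
      rw [Nat.cast_add, Nat.cast_one]
      ring
    rw [e1] at this
    rw [this]
    congr 1
    rw [hx]
    ring
  unfold vtx
  rw [hh, hh, h1, h2, cr_cis]
  have e2 : x + Real.pi / 6 - (x - Real.pi / 6) = Real.pi / 3 := by ring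
  rw [e2, Real.sin_pi_div_three]
  have hc : ((Real.sqrt 3 / 2 : ℝ) : ℂ) ≠ 0 := by
    rw [Ne, Complex.ofReal_eq_zero]
    positivity
  rw [div_eq_iff hc]
  have e3 : ((2 / Real.sqrt 3 : ℝ) : ℂ) * cis x * ((Real.sqrt 3 / 2 : ℝ) : ℂ) = cis x := by
    have : ((2 / Real.sqrt 3 : ℝ) : ℂ) * ((Real.sqrt 3 / 2 : ℝ) : ℂ) = 1 := by
      rw [← Complex.ofReal_mul]
      have : 2 / Real.sqrt 3 * (Real.sqrt 3 / 2) = 1 := by field_simp
      rw [this, Complex.ofReal_one]
    calc _ = (((2 / Real.sqrt 3 : ℝ) : ℂ) * ((Real.sqrt 3 / 2 : ℝ) : ℂ)) * cis x := by ring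
      _ = _ := by rw [this, one_mul]
  rw [e3]
  apply Complex.ext
  · simp only [Complex.ofReal_one, one_mul, Complex.sub_re, Complex.mul_re, Complex.I_re,
      Complex.I_im, cis_re, cis_im]
    rw [Real.sin_add, Real.sin_sub, Real.sin_pi_div_six]
    ring
  · simp only [Complex.ofReal_one, one_mul, Complex.sub_im, Complex.mul_im, Complex.I_re,
      Complex.I_im, cis_re, cis_im]
    rw [Real.cos_add, Real.cos_sub, Real.sin_pi_div_six]
    ring

/-- the trigonometric core -/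
lemma trig_core {N : ℕ} (hN : 1 ≤ N) {X : ℝ} (hX : |X| ≤ Real.pi / (3 * N) / 2)
    (h1 : Real.cos X + Real.tan (Real.pi / (9 * N)) * Real.sin X ≤ 1)
    (h2 : Real.cos X - Real.tan (Real.pi / (9 * N)) * Real.sin X ≤ 1) : X = 0 := by
  by_contra hne
  have hN' : (1 : ℝ) ≤ N := by exact_mod_cast hN
  have hpi := Real.pi_pos
  set g := Real.pi / (3 * N) with hg
  have hg0 : 0 < g := by positivity
  have hg1 : g ≤ Real.pi / 3 := by
    rw [hg]
    apply div_le_div_of_nonneg_left hpi.le (by norm_num)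
    linarith
  have hg3 : Real.pi / (9 * N) = g / 3 := by
    rw [hg]; field_simp; ring
  rw [hg3] at h1 h2
  have hy : 0 < |X| := abs_pos.mpr hne
  set y := |X| with hyd
  have key : Real.cos y + Real.tan (g / 3) * Real.sin y ≤ 1 := by
    rcases abs_cases X with ⟨h, -⟩ | ⟨h, -⟩
    · rw [hyd, h]; exact h1
    · rw [hyd, h, Real.cos_neg, Real.sin_neg]; linarith
  have hc : Real.cos y = 1 - 2 * Real.sin (y / 2) ^ 2 := by
    have := Real.cos_two_mul (y / 2)
    rw [show 2 * (y / 2) = y by ring] at this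
    have h5 := Real.sin_sq_add_cos_sq (y / 2)
    linarith
  have hs : Real.sin y = 2 * Real.sin (y / 2) * Real.cos (y / 2) := by
    have := Real.sin_two_mul (y / 2)
    rwa [show 2 * (y / 2) = y by ring] at this
  have hs0 : 0 < Real.sin (y / 2) := Real.sin_pos_of_pos_of_lt_pi (by linarith) (by linarith)
  have hc0 : 0 < Real.cos (y / 2) :=
    Real.cos_pos_of_mem_Ioo ⟨by linarith, by linarith⟩
  rw [hc, hs] at key
  have h6 : Real.tan (g / 3) * Real.cos (y / 2) ≤ Real.sin (y / 2) := by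
    have h7 : 2 * Real.sin (y / 2) * (Real.tan (g / 3) * Real.cos (y / 2)) ≤
        2 * Real.sin (y / 2) * Real.sin (y / 2) := by nlinarith
    exact le_of_mul_le_mul_left h7 (by linarith)
  have h8 : Real.tan (g / 3) ≤ Real.tan (y / 2) := by
    rw [Real.tan_eq_sin_div_cos (y / 2), le_div_iff₀ hc0]
    exact h6
  have h9 : Real.tan (y / 2) < Real.tan (g / 3) :=
    Real.tan_lt_tan_of_lt_of_lt_pi_div_two (by linarith) (by linarith) (by linarith)
  linarith

lemma vtx_tendsto {n : ℕ → Fin 6 → ℂ} {h : ℕ → Fin 6 → ℝ} {n' : Fin 6 → ℂ} {h' : Fin 6 → ℝ}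
    (hn : ∀ m, Tendsto (fun k => n k m) atTop (𝓝 (n' m)))
    (hh : ∀ m, Tendsto (fun k => h k m) atTop (𝓝 (h' m)))
    (m : Fin 6) (hne : cr (n' (m - 1)) (n' m) ≠ 0) :
    Tendsto (fun k => vtx (n k) (h k) m) atTop (𝓝 (vtx n' h' m)) := by
  unfold vtx
  have hof : ∀ m, Tendsto (fun k => ((h k m : ℝ) : ℂ)) atTop (𝓝 ((h' m : ℝ) : ℂ)) := fun m =>
    (Complex.continuous_ofReal.tendsto _).comp (hh m)
  have hcr : Tendsto (fun k => ((cr (n k (m - 1)) (n k m) : ℝ) : ℂ)) atTop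
      (𝓝 ((cr (n' (m - 1)) (n' m) : ℝ) : ℂ)) :=
    (Complex.continuous_ofReal.tendsto _).comp
      ((continuous_cr.tendsto (n' (m - 1), n' m)).comp ((hn (m - 1)).prodMk_nhds (hn m)))
  refine Tendsto.div ?_ hcr (by rwa [Ne, Complex.ofReal_eq_zero])
  exact ((hof m).mul ((hn (m - 1)).const_mul _)).sub ((hof (m - 1)).mul ((hn m).const_mul _))

lemma nrm_cr_ne (α : ℝ) (β : Fin 6 → ℝ) (hβ : ∀ m, |β m| ≤ 1 / 1000) (m : Fin 6) :
    cr (nrm α β (m - 1)) (nrm α β m) ≠ 0 := by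
  unfold nrm
  rw [cr_cis]
  have h1 := abs_le.mp (hβ m)
  have h2 := abs_le.mp (hβ (m - 1))
  have hpi := Real.pi_gt_three
  have hpi' := Real.pi_lt_d2
  have hpos : 0 < Real.sin (Real.pi / 3 + (β m - β (m - 1))) := by
    apply Real.sin_pos_of_pos_of_lt_pi
    · linarith
    · linarith
  have heq : Real.sin (α + ((m : Fin 6).val : ℝ) * (Real.pi / 3) + β m -
      (α + ((m - 1 : Fin 6).val : ℝ) * (Real.pi / 3) + β (m - 1))) =
      Real.sin (Real.pi / 3 + (β m - β (m - 1))) := by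
    rcases val_sub_one m with h | h
    · have h' : (((m - 1 : Fin 6).val : ℝ)) + 1 = (m.val : ℝ) := by exact_mod_cast h
      rw [← h']
      congr 1
      ring
    · have h' : (((m - 1 : Fin 6).val : ℝ)) + 1 = (m.val : ℝ) + 6 := by exact_mod_cast h
      have h'' : (m.val : ℝ) = (((m - 1 : Fin 6).val : ℝ)) + 1 - 6 := by linarith
      rw [h'', ← Real.sin_add_two_pi]
      congr 1
      ring
  rw [heq]
  exact hpos.ne'

lemma nrm_tendsto {α : ℕ → ℝ} {β : ℕ → Fin 6 → ℝ} {α' : ℝ} {β' : Fin 6 → ℝ}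
    (hα : Tendsto α atTop (𝓝 α')) (hβ : ∀ m, Tendsto (fun k => β k m) atTop (𝓝 (β' m)))
    (m : Fin 6) : Tendsto (fun k => nrm (α k) (β k) m) atTop (𝓝 (nrm α' β' m)) := by
  unfold nrm
  exact (continuous_cis.tendsto _).comp ((hα.add_const _).add (hβ m))

lemma nrm_add_int (α : ℝ) (β : Fin 6 → ℝ) (z : ℤ) :
    nrm (α + z * (2 * Real.pi)) β = nrm α β := by
  funext m
  unfold nrm
  have := cis_add_int (α + (m : ℕ) * (Real.pi / 3) + β m) z
  rw [← this]
  congr 1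
  ring

lemma corner_tendsto (hCl : StmtClose) {S : Type} [Finite S] (W : WangSys S) (γ : S → ℝ)
    {ε : ℕ → ℝ} (hε : Tendsto ε atTop (𝓝 0)) (t : ℕ → Ty W) (m : Fin 6) :
    Tendsto (fun k => corner γ (ε k) (t k) m) atTop (𝓝 (reg m)) := by
  rw [Metric.tendsto_atTop]
  intro δ hδ
  obtain ⟨ε₀, hε₀, h⟩ := hCl S W γ (δ / 2) (by linarith)
  obtain ⟨M, hM⟩ := (Metric.tendsto_atTop.mp hε) ε₀ hε₀
  refine ⟨M, fun n hn => ?_⟩
  have h1 := hM n hn
  rw [Real.dist_eq, sub_zero] at h1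
  rw [dist_eq_norm]
  exact (h (ε n) h1 (t n) m).trans_lt (by linarith)

lemma limit_core {N : ℕ} (hN : 1 ≤ N) (a : ℝ) (n : Fin 6 → ℂ)
    (hn : ∀ m : Fin 6, n m = cis (a + (m : ℕ) * (Real.pi / 3)))
    (R : Fin N → Fin 6 → ℂ)
    (hR : ∀ k m, R k m = cis ((k : ℕ) * (Real.pi / (3 * N))) * reg m)
    (hcont : ∀ (k : Fin N) (m : Fin 6) (s : ℝ), (s = kap N ∨ s = -kap N) →
      ∀ m', dt (n m') (sidePt (R k) m s) ≤ 1) :
    ∃ (k : Fin N) (m₀ : Fin 6), ∀ m, vtx n (fun _ => 1) (m + m₀) = R k m := by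
  have hpi := Real.pi_pos
  have hN' : (1 : ℝ) ≤ N := by exact_mod_cast hN
  set g := Real.pi / (3 * N) with hg
  have hg0 : 0 < g := by positivity
  have hNg : (N : ℝ) * g = Real.pi / 3 := by
    rw [hg]; field_simp
  -- nearest multiple of `g`
  set ℓ : ℤ := round (a / g) with hℓ
  have hround : |a - ℓ * g| ≤ g / 2 := by
    have h1 := abs_sub_round (a / g)
    have h2 : a - ℓ * g = (a / g - ℓ) * g := by field_simp
    rw [h2, abs_mul, abs_of_pos hg0]
    calc |a / g - ℓ| * g ≤ 1 / 2 * g := mul_le_mul_of_nonneg_right h1 hg0.le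
      _ = g / 2 := by ring
  have hNz : (0 : ℤ) < N := by exact_mod_cast hN
  set j : ℤ := ℓ / N with hj
  have hk0 : 0 ≤ ℓ % N := Int.emod_nonneg _ hNz.ne'
  have hk1 : ℓ % N < N := Int.emod_lt_of_pos _ hNz
  let k : Fin N := ⟨(ℓ % N).toNat, by omega⟩
  have hkv : ((k : ℕ) : ℝ) = ((ℓ % N : ℤ) : ℝ) := by
    have : ((k : ℕ) : ℤ) = ℓ % N := Int.toNat_of_nonneg hk0
    exact_mod_cast this
  have hℓeq : (ℓ : ℝ) * g = (k : ℕ) * g + j * (Real.pi / 3) := by
    have h1 : (ℓ : ℝ) = ((ℓ % N : ℤ) : ℝ) + (N : ℝ) * (j : ℝ) := by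
      have := Int.emod_add_mul_ediv ℓ N
      rw [hj]
      exact_mod_cast this.symm
    rw [hkv, ← hNg, h1]
    ring
  set r : ℤ := (j - 1) % 6 with hr
  have hr0 : 0 ≤ r := Int.emod_nonneg _ (by norm_num)
  have hr1 : r < 6 := Int.emod_lt_of_pos _ (by norm_num)
  let l : Fin 6 := ⟨r.toNat, by omega⟩
  have hlv : ((l : ℕ) : ℝ) = (r : ℝ) := by
    have : ((l : ℕ) : ℤ) = r := Int.toNat_of_nonneg hr0
    exact_mod_cast this
  set q : ℤ := (j - 1) / 6 with hq
  have hjr : (j : ℝ) = (l : ℕ) + 1 + 6 * (q : ℝ) := by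
    have h1 : (j - 1 : ℤ) = r + 6 * q := (Int.emod_add_mul_ediv (j - 1) 6).symm
    have h2 : (j : ℝ) - 1 = (r : ℝ) + 6 * (q : ℝ) := by exact_mod_cast h1
    rw [hlv]
    linarith
  -- the angle
  have hX : a - ((k : ℕ) * g + ((l : ℕ) + 1) * (Real.pi / 3)) =
      (a - ℓ * g) + q * (2 * Real.pi) := by
    rw [hℓeq, hjr]
    ring
  have hkap : 2 / Real.sqrt 3 * kap N = Real.tan (Real.pi / (9 * N)) := by
    unfold kap
    have hp := sqrt3_pos
    field_simp
  have hcos : Real.cos (a - ((k : ℕ) * g + ((l : ℕ) + 1) * (Real.pi / 3))) =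
      Real.cos (a - ℓ * g) := by
    rw [hX, Real.cos_add_int_mul_two_pi]
  have hsin : Real.sin (a - ((k : ℕ) * g + ((l : ℕ) + 1) * (Real.pi / 3))) =
      Real.sin (a - ℓ * g) := by
    rw [hX, Real.sin_add_int_mul_two_pi]
  have hn0 : n 0 = cis a := by
    rw [hn]; simp
  have h1 := hcont k l (kap N) (Or.inl rfl) 0
  rw [sidePt_reg l _ _ _ (hR k), hn0, dt_cis, hkap, hcos, hsin] at h1
  have h2 := hcont k l (-kap N) (Or.inr rfl) 0
  have hkap' : 2 / Real.sqrt 3 * -kap N = -Real.tan (Real.pi / (9 * N)) := by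
    rw [mul_neg, hkap]
  rw [sidePt_reg l _ _ _ (hR k), hn0, dt_cis, hkap', hcos, hsin] at h2
  have hzero := trig_core hN (X := a - ℓ * g) (by rw [← hg]; exact hround) h1 (by linarith)
  have ha : a = (k : ℕ) * g + ((l : ℕ) + 1) * (Real.pi / 3) + q * (2 * Real.pi) := by
    rw [hzero] at hX
    linarith
  refine ⟨k, -l, fun m => ?_⟩
  rw [vtx_regular a (m + -l) n (fun _ => 1) hn (fun _ => rfl), hR, reg_eq m,
    mul_left_comm (cis _), ← cis_add, ha]
  congr 1
  have h3 := cis_add_int ((k : ℕ) * g + ((l : ℕ) + 1) * (Real.pi / 3) +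
    ((m + -l : Fin 6).val : ℝ) * (Real.pi / 3) - Real.pi / 6) q
  have h4 : (k : ℕ) * g + ((l : ℕ) + 1) * (Real.pi / 3) + q * (2 * Real.pi) +
      ((m + -l : Fin 6).val : ℝ) * (Real.pi / 3) - Real.pi / 6 =
      (k : ℕ) * g + ((l : ℕ) + 1) * (Real.pi / 3) +
    ((m + -l : Fin 6).val : ℝ) * (Real.pi / 3) - Real.pi / 6 + q * (2 * Real.pi) := by ring
  rw [h4, h3]
  have h5 := cis_shift ((k : ℕ) * g + Real.pi / 6) ((m - l : Fin 6).val + l.val) m.val
    (val_sub m l)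
  rw [← sub_eq_add_neg]
  have h6 : (k : ℕ) * g + (Real.pi / 6 + (m : ℕ) * (Real.pi / 3)) =
      (k : ℕ) * g + Real.pi / 6 + (m.val : ℝ) * (Real.pi / 3) := by ring
  rw [h6, ← h5]
  congr 1
  rw [Nat.cast_add]
  ring

end MinBc

open MinBc in
theorem stmtBc (_hV : StmtVtx) (hB0 : StmtB0) (hCl : StmtClose) : StmtBc := by
  intro S _ W γ N hN c hc
  by_contra hcon
  push Not at hcon
  have hpi := Real.pi_pos
  have hex : ∀ n : ℕ, ∃ (ε : ℝ) (tt : Fin N → Ty W) (α : ℝ) (β h : Fin 6 → ℝ),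
      (|ε| < 1 / ((n : ℝ) + 1) ∧ α ∈ Icc 0 (2 * Real.pi) ∧ (∀ m, |β m| ≤ 1 / 1000) ∧
      (∀ m, 1 - 1 / ((n : ℝ) + 1) ≤ h m) ∧ (∀ m, h m ≤ 1 + 1 / 1000)) ∧
      (∀ (k : Fin N) (m : Fin 6) (s : ℝ), (s = kap N ∨ s = -kap N) →
        sidePt (Qc γ ε tt k) m s ∈ cellOf (nrm α β) h) ∧
      shoe (vtx (nrm α β) h) ≤ 4 * Real.sqrt 3 ∧
      ∀ (k : Fin N) (m₀ : Fin 6), ∃ m, c < ‖vtx (nrm α β) h (m + m₀) - Qc γ ε tt k m‖ := by
    intro n
    have hpos : (0 : ℝ) < 1 / ((n : ℝ) + 1) := by positivity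
    obtain ⟨ε, hε, tt, α, β, h, h1, h2, h3, h4, h5, h6⟩ := hcon _ hpos _ hpos
    have hdec : α = toIcoMod Real.two_pi_pos 0 α +
        (toIcoDiv Real.two_pi_pos 0 α : ℤ) * (2 * Real.pi) := by
      have := toIcoMod_add_toIcoDiv_zsmul Real.two_pi_pos 0 α
      rw [zsmul_eq_mul] at this
      exact this.symm
    have hnrm : nrm α β = nrm (toIcoMod Real.two_pi_pos 0 α) β := by
      rw [← nrm_add_int (toIcoMod Real.two_pi_pos 0 α) β (toIcoDiv Real.two_pi_pos 0 α),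
        ← hdec]
    have hmem := toIcoMod_mem_Ico Real.two_pi_pos 0 α
    rw [zero_add] at hmem
    rw [hnrm] at h4 h5 h6
    exact ⟨ε, tt, toIcoMod Real.two_pi_pos 0 α, β, h,
      ⟨hε, ⟨hmem.1, hmem.2.le⟩, h1, h2, h3⟩, h4, h5, h6⟩
  choose ε tt α β h hA hB hC hD using hex
  -- compactness
  let K : Set (ℝ × (Fin 6 → ℝ) × (Fin 6 → ℝ)) := Icc 0 (2 * Real.pi) ×ˢ
    ((univ.pi fun _ => Icc (-(1 / 1000)) (1 / 1000)) ×ˢ (univ.pi fun _ => Icc 0 (1 + 1 / 1000)))
  have hK : IsCompact K := isCompact_Icc.prod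
    ((isCompact_univ_pi fun _ => isCompact_Icc).prod (isCompact_univ_pi fun _ => isCompact_Icc))
  have hpK : ∀ n, (α n, β n, h n) ∈ K := by
    intro n
    obtain ⟨-, h1, h2, h3, h4⟩ := hA n
    refine ⟨h1, fun m _ => ?_, fun m _ => ⟨?_, h4 m⟩⟩
    · exact ⟨(abs_le.mp (h2 m)).1, (abs_le.mp (h2 m)).2⟩
    · refine le_trans ?_ (h3 m)
      have : 1 / ((n : ℝ) + 1) ≤ 1 := by
        rw [div_le_one (by positivity)]
        have : (0 : ℝ) ≤ n := Nat.cast_nonneg n
        linarith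
      linarith
  obtain ⟨⟨α', β', h'⟩, hp, φ, hφ, hlim⟩ := hK.tendsto_subseq hpK
  have hα : Tendsto (fun n => α (φ n)) atTop (𝓝 α') :=
    (continuous_fst.tendsto _).comp hlim
  have hβ : ∀ m, Tendsto (fun n => β (φ n) m) atTop (𝓝 (β' m)) := fun m =>
    ((continuous_apply m).tendsto _).comp
      ((continuous_fst.tendsto _).comp ((continuous_snd.tendsto _).comp hlim))
  have hh : ∀ m, Tendsto (fun n => h (φ n) m) atTop (𝓝 (h' m)) := fun m =>
    ((continuous_apply m).tendsto _).comp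
      ((continuous_snd.tendsto _).comp ((continuous_snd.tendsto _).comp hlim))
  have hinv : Tendsto (fun n : ℕ => 1 / ((φ n : ℝ) + 1)) atTop (𝓝 0) :=
    tendsto_one_div_add_atTop_nhds_zero_nat.comp hφ.tendsto_atTop
  have hε : Tendsto (fun n => ε (φ n)) atTop (𝓝 0) := by
    apply squeeze_zero_norm _ hinv
    intro n
    rw [Real.norm_eq_abs]
    exact (hA (φ n)).1.le
  have hβ' : ∀ m, |β' m| ≤ 1 / 1000 := fun m => abs_le.mpr (hp.2.1 m (mem_univ m))
  have hh1 : ∀ m, 1 ≤ h' m := by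
    intro m
    have : Tendsto (fun n : ℕ => 1 - 1 / ((φ n : ℝ) + 1)) atTop (𝓝 (1 - 0)) :=
      hinv.const_sub 1
    rw [sub_zero] at this
    exact le_of_tendsto_of_tendsto' this (hh m) (fun n => (hA (φ n)).2.2.2.1 m)
  have hh2 : ∀ m, h' m ≤ 1 + 1 / 1000 := fun m => (hp.2.2 m (mem_univ m)).2
  have hvt : ∀ m, Tendsto (fun n => vtx (nrm (α (φ n)) (β (φ n))) (h (φ n)) m) atTop
      (𝓝 (vtx (nrm α' β') h' m)) := fun m =>
    vtx_tendsto (n := fun n => nrm (α (φ n)) (β (φ n))) (h := fun n => h (φ n))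
      (fun m => nrm_tendsto hα hβ m) hh m (nrm_cr_ne α' β' hβ' m)
  have hshoe : shoe (vtx (nrm α' β') h') ≤ 4 * Real.sqrt 3 := by
    have : Tendsto (fun n => shoe (vtx (nrm (α (φ n)) (β (φ n))) (h (φ n)))) atTop
        (𝓝 (shoe (vtx (nrm α' β') h'))) := by
      unfold shoe
      apply tendsto_finsetSum
      intro m _
      exact (continuous_cr.tendsto (vtx (nrm α' β') h' m, vtx (nrm α' β') h' (m + 1))).comp
        ((hvt m).prodMk_nhds (hvt (m + 1)))
    exact le_of_tendsto' this fun n => hC (φ n)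
  obtain ⟨hge, heq⟩ := hB0 α' β' h' hβ' hh1 hh2
  obtain ⟨hone, hbeta⟩ := heq (le_antisymm hshoe hge)
  have hone' : h' = fun _ => 1 := funext hone
  set a := α' + β' 0 with ha
  have hn : ∀ m : Fin 6, nrm α' β' m = cis (a + (m : ℕ) * (Real.pi / 3)) := by
    intro m
    unfold nrm
    rw [hbeta m, ha]
    congr 1
    ring
  let R : Fin N → Fin 6 → ℂ := fun k m => cis ((k : ℕ) * (Real.pi / (3 * N))) * reg m
  have hQ : ∀ k m, Tendsto (fun n => Qc γ (ε (φ n)) (tt (φ n)) k m) atTop (𝓝 (R k m)) := by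
    intro k m
    unfold Qc
    exact (corner_tendsto hCl W γ hε (fun n => tt (φ n) k) m).const_mul _
  have hside : ∀ (k : Fin N) (m : Fin 6) (s : ℝ),
      Tendsto (fun n => sidePt (Qc γ (ε (φ n)) (tt (φ n)) k) m s) atTop
        (𝓝 (sidePt (R k) m s)) := by
    intro k m s
    unfold sidePt
    exact (hQ k m).add (((hQ k (m + 1)).sub (hQ k m)).const_mul _)
  have hcont : ∀ (k : Fin N) (m : Fin 6) (s : ℝ), (s = kap N ∨ s = -kap N) →
      ∀ m', dt (nrm α' β' m') (sidePt (R k) m s) ≤ 1 := by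
    intro k m s hs m'
    have h1 : Tendsto (fun n => dt (nrm (α (φ n)) (β (φ n)) m')
        (sidePt (Qc γ (ε (φ n)) (tt (φ n)) k) m s)) atTop
        (𝓝 (dt (nrm α' β' m') (sidePt (R k) m s))) :=
      (continuous_dt.tendsto (nrm α' β' m', sidePt (R k) m s)).comp
        ((nrm_tendsto hα hβ m').prodMk_nhds (hside k m s))
    have h2 := le_of_tendsto_of_tendsto' h1 (hh m') (fun n => hB (φ n) k m s hs m')
    rwa [hone] at h2
  obtain ⟨k, m₀, hk⟩ := limit_core hN a (nrm α' β') hn R (fun _ _ => rfl) hcont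
  rw [← hone'] at hk
  -- contradiction
  have hfin : ∀ m : Fin 6, ∀ᶠ n in atTop,
      ‖vtx (nrm (α (φ n)) (β (φ n))) (h (φ n)) (m + m₀) -
        Qc γ (ε (φ n)) (tt (φ n)) k m‖ ≤ c := by
    intro m
    have h1 : Tendsto (fun n => ‖vtx (nrm (α (φ n)) (β (φ n))) (h (φ n)) (m + m₀) -
        Qc γ (ε (φ n)) (tt (φ n)) k m‖) atTop (𝓝 ‖vtx (nrm α' β') h' (m + m₀) - R k m‖) :=
      ((hvt (m + m₀)).sub (hQ k m)).norm
    rw [hk m, sub_self, norm_zero] at h1
    exact (h1.eventually (gt_mem_nhds hc)).mono fun n hn => hn.le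
  obtain ⟨n, hn'⟩ := (eventually_all.mpr hfin).exists
  obtain ⟨m, hm⟩ := hD (φ n) k m₀
  exact absurd (hn' m) (not_le.mpr hm)

end

end Pool.Agent.MP3e
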