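import Pool.Agent.Lib.MP_3e6a92_co.Spec

/-!
Numerical stability of the hexagon bound.
-/

set_option autoImplicit false

namespace Pool.Agent.MP3e

open MeasureTheory Set

namespace Num

theorem sc (x : ℝ) : Real.sin x * Real.cos x = Real.sin (2 * x) / 2 := by
  rw [Real.sin_two_mul]; ring

/-- Concavity of `sin (2 x)` between `a` and `b`. -/
theorem conc {a b : ℝ} (ha : 0 ≤ a) (hab : a ≤ b) (hb : b ≤ Real.pi) {l : ℝ} (h0 : 0 ≤ l)
    (h1 : l ≤ 1) : (1 - l) * Real.sin a + l * Real.sin b ≤ Real.sin ((1 - l) * a + l * b) := by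
  have ha' : a ∈ Icc (0 : ℝ) Real.pi := ⟨ha, hab.trans hb⟩
  have hb' : b ∈ Icc (0 : ℝ) Real.pi := ⟨ha.trans hab, hb⟩
  have h := strictConcaveOn_sin_Icc.concaveOn.2 ha' hb' (sub_nonneg.2 h1) h0 (sub_add_cancel 1 l)
  simpa [smul_eq_mul] using h

theorem key1 {x : ℝ} (h0 : 0 ≤ x) (h1 : x ≤ Real.pi / 12) :
    3 * (x / Real.pi) ≤ Real.sin x * Real.cos x := by
  have hp := Real.pi_pos
  have h := conc (a := 0) (b := Real.pi / 6) le_rfl (by positivity) (by linarith)
    (l := 12 * (x / Real.pi)) (by positivity) (by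
      rw [← mul_div_assoc, div_le_one hp]; linarith)
  have e : (1 - 12 * (x / Real.pi)) * 0 + 12 * (x / Real.pi) * (Real.pi / 6) = 2 * x := by
    field_simp; ring
  rw [e, Real.sin_zero, Real.sin_pi_div_six] at h
  rw [sc]
  linarith

theorem key2 {x : ℝ} (h0 : Real.pi / 12 ≤ x) (h1 : x ≤ Real.pi / 6) :
    (1 / 2 - Real.sqrt 3 / 4) + (3 * Real.sqrt 3 - 3) * (x / Real.pi) ≤
      Real.sin x * Real.cos x := by
  have hp := Real.pi_pos
  have h := conc (a := Real.pi / 6) (b := Real.pi / 3) (by positivity) (by linarith) (by linarith)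
    (l := 12 * (x / Real.pi) - 1) (by
      rw [← mul_div_assoc, sub_nonneg, one_le_div hp]; linarith) (by
      rw [← mul_div_assoc, sub_le_iff_le_add, div_le_iff₀ hp]; linarith)
  have e : (1 - (12 * (x / Real.pi) - 1)) * (Real.pi / 6) +
      (12 * (x / Real.pi) - 1) * (Real.pi / 3) = 2 * x := by
    field_simp; ring
  rw [e, Real.sin_pi_div_three, Real.sin_pi_div_six] at h
  rw [sc]
  linarith

theorem sqrt3_lt : Real.sqrt 3 < 2 := by
  rw [show (2 : ℝ) = Real.sqrt 4 by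
    rw [show (4 : ℝ) = 2 ^ 2 by norm_num, Real.sqrt_sq (by norm_num)]]
  exact Real.sqrt_lt_sqrt (by norm_num) (by norm_num)

end Num

open _root_.Pool.Agent.MP3e.Num in
theorem stmtNum : StmtNum := by
  classical
  intro δ hδ
  have hp := Real.pi_pos
  have hp3 := Real.pi_gt_three
  have hp4 := Real.pi_le_four
  have hs := sqrt3_lt
  set e : ℝ := min (1 / 8) (3 * δ / 4) with he
  have he0 : 0 < e := by rw [he]; positivity
  have he1 : e ≤ 1 / 8 := min_le_left _ _
  have he2 : e ≤ 3 * δ / 4 := min_le_right _ _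
  refine ⟨(2 - Real.sqrt 3) * e, mul_pos (by linarith) he0, ?_⟩
  intro J s φ hφ hsum hA
  set B := s.filter (fun j => Real.pi / 12 ≤ φ j) with hB
  set C := s.filter (fun j => ¬ Real.pi / 12 ≤ φ j) with hC
  set P := ∑ j ∈ B, φ j with hP
  set Q := ∑ j ∈ C, φ j with hQ
  have hBs : B ⊆ s := Finset.filter_subset _ _
  have hCs : C ⊆ s := Finset.filter_subset _ _
  have hPQ : ∑ j ∈ s, φ j = P + Q := by
    rw [hP, hQ, hB, hC, Finset.sum_filter_add_sum_filter_not]
  have hSC : ∑ j ∈ s, Real.sin (φ j) * Real.cos (φ j) =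
      ∑ j ∈ B, Real.sin (φ j) * Real.cos (φ j) + ∑ j ∈ C, Real.sin (φ j) * Real.cos (φ j) := by
    rw [hB, hC, Finset.sum_filter_add_sum_filter_not]
  have hQ0 : 0 ≤ Q := Finset.sum_nonneg (fun j hj => (hφ j (hCs hj)).1)
  have h1 : 3 * (Q / Real.pi) ≤ ∑ j ∈ C, Real.sin (φ j) * Real.cos (φ j) := by
    rw [hQ, Finset.sum_div, Finset.mul_sum]
    apply Finset.sum_le_sum
    intro j hj
    have h2 : ¬ Real.pi / 12 ≤ φ j := (Finset.mem_filter.1 hj).2
    exact key1 (hφ j (hCs hj)).1 (le_of_not_ge h2)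
  have h2 : (B.card : ℝ) * (1 / 2 - Real.sqrt 3 / 4) + (3 * Real.sqrt 3 - 3) * (P / Real.pi) ≤
      ∑ j ∈ B, Real.sin (φ j) * Real.cos (φ j) := by
    rw [hP, Finset.sum_div, Finset.mul_sum, ← nsmul_eq_mul, ← Finset.sum_const,
      ← Finset.sum_add_distrib]
    apply Finset.sum_le_sum
    intro j hj
    exact key2 (Finset.mem_filter.1 hj).2 (hφ j (hBs hj)).2
  have h3 : P ≤ B.card * (Real.pi / 6) := by
    rw [hP, ← nsmul_eq_mul, ← Finset.sum_const]
    exact Finset.sum_le_sum (fun j hj => (hφ j (hBs hj)).2)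
  rw [Finset.sum_sub_distrib, hPQ, hSC] at hA
  rw [hPQ] at hsum
  -- normalised variables
  set p := P / Real.pi with hpdef
  set q := Q / Real.pi with hqdef
  set b : ℝ := (B.card : ℝ) with hb
  have hPp : P = Real.pi * p := by rw [hpdef]; field_simp
  have hQq : Q = Real.pi * q := by rw [hqdef]; field_simp
  have hpq : p + q ≤ 1 := by
    rw [hpdef, hqdef, ← add_div, div_le_one hp]; exact hsum
  have hq0 : 0 ≤ q := div_nonneg hQ0 hp.le
  have hpb : p ≤ b / 6 := by
    rw [hpdef, div_le_iff₀ hp]; linarith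
  have h4 : 3 * (1 - p - q) ≤ Real.pi * (1 - p - q) :=
    mul_le_mul_of_nonneg_right hp3.le (by linarith)
  have h5 : (2 - Real.sqrt 3) * (3 / 2 - 3 * p + b / 4) ≤ (2 - Real.sqrt 3) * e := by
    nlinarith [h1, h2, hA, h4, hPp, hQq]
  have h6 : 3 / 2 - 3 * p + b / 4 ≤ e := le_of_mul_le_mul_left h5 (by linarith)
  have h7 : b < 7 := by linarith
  have h8 : 5 < b := by linarith
  have hcard : B.card = 6 := by
    rw [hb] at h7 h8
    have h9 : B.card < 7 := by exact_mod_cast h7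
    have h10 : 5 < B.card := by exact_mod_cast h8
    omega
  have hb6 : b = 6 := by rw [hb, hcard]; norm_num
  refine ⟨B, hBs, hcard, fun j hj => ?_⟩
  have h9 : P = φ j + ∑ i ∈ B.erase j, φ i := by
    rw [hP, Finset.add_sum_erase B φ hj]
  have h10 : ∑ i ∈ B.erase j, φ i ≤ 5 * (Real.pi / 6) := by
    have h11 : ∑ i ∈ B.erase j, φ i ≤ ∑ i ∈ B.erase j, (Real.pi / 6) :=
      Finset.sum_le_sum (fun i hi => (hφ i (hBs (Finset.mem_of_mem_erase hi))).2)
    rw [Finset.sum_const, Finset.card_erase_of_mem hj, hcard, nsmul_eq_mul] at h11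
    norm_num at h11 ⊢
    linarith
  have h12 : 1 - e / 3 ≤ p := by rw [hb6] at h6; linarith
  have h13 : Real.pi * (1 - e / 3) ≤ P := by
    rw [hPp]; exact mul_le_mul_of_nonneg_left h12 hp.le
  have h14 : Real.pi * (e / 3) ≤ 4 * (e / 3) := mul_le_mul_of_nonneg_right hp4 (by positivity)
  nlinarith [h9, h10, h13, h14, he2]

end Pool.Agent.MP3e
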