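import Pool.Agent.Lib.MP_3e6a92_co.Spec

/-!
Equivariant separating lines of a periodic packing.
-/

set_option autoImplicit false

namespace Pool.Agent.MP3e

open MeasureTheory Set

namespace SepLines

/-! ### Dot products -/

theorem dt_add (a b c : ℂ) : dt a (b + c) = dt a b + dt a c := by
  simp only [dt, Complex.add_re, Complex.add_im]; ring

theorem dt_sub (a b c : ℂ) : dt a (b - c) = dt a b - dt a c := by
  simp only [dt, Complex.sub_re, Complex.sub_im]; ring

theorem dt_neg_left (a b : ℂ) : dt (-a) b = -dt a b := by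
  simp only [dt, Complex.neg_re, Complex.neg_im]; ring

theorem dt_smul_right (a b : ℂ) (t : ℝ) : dt a ((t : ℂ) * b) = t * dt a b := by
  simp only [dt, Complex.mul_re, Complex.mul_im, Complex.ofReal_re, Complex.ofReal_im]; ring

theorem dt_smul_left (a b : ℂ) (t : ℝ) : dt ((t : ℂ) * a) b = t * dt a b := by
  simp only [dt, Complex.mul_re, Complex.mul_im, Complex.ofReal_re, Complex.ofReal_im]; ring

theorem dt_self (a : ℂ) : dt a a = ‖a‖ ^ 2 := by
  rw [Complex.sq_norm, Complex.normSq_apply]; rfl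

theorem dt_le (a b : ℂ) : dt a b ≤ ‖a‖ * ‖b‖ := by
  have h1 : dt a b ^ 2 ≤ (‖a‖ * ‖b‖) ^ 2 := by
    rw [mul_pow, Complex.sq_norm, Complex.sq_norm, Complex.normSq_apply, Complex.normSq_apply]
    simp only [dt]
    nlinarith [sq_nonneg (a.re * b.im - a.im * b.re)]
  exact le_of_sq_le_sq h1 (by positivity)
where
  le_of_sq_le_sq {x y : ℝ} (h : x ^ 2 ≤ y ^ 2) (hy : 0 ≤ y) : x ≤ y := by
    by_contra hcon
    push Not at hcon
    nlinarith

theorem continuous_dt (a : ℂ) : Continuous (dt a) := by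
  unfold dt
  exact ((continuous_const.mul Complex.continuous_re).add
    (continuous_const.mul Complex.continuous_im))

/-! ### Images of convex sets under isometries -/

theorem convex_image (P : ℂ ≃ᵢ ℂ) {K : Set ℂ} (hK : Convex ℝ K) : Convex ℝ (P '' K) := by
  have h := hK.affine_image (P.toRealAffineIsometryEquiv.toAffineEquiv : ℂ →ᵃ[ℝ] ℂ)
  have e : ((P.toRealAffineIsometryEquiv.toAffineEquiv : ℂ →ᵃ[ℝ] ℂ) : ℂ → ℂ) = P := by
    funext z; rfl
  rwa [e] at h

theorem nonempty_interior_image (P : ℂ ≃ᵢ ℂ) {K : Set ℂ} (hne : (interior K).Nonempty) :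
    (interior (P '' K)).Nonempty := by
  obtain ⟨z, hz⟩ := hne
  refine ⟨P z, ?_⟩
  have h1 : IsOpen (P '' interior K) := P.toHomeomorph.isOpenMap _ isOpen_interior
  exact interior_maximal (image_mono interior_subset) h1 ⟨z, hz, rfl⟩

theorem subset_closure_interior (P : ℂ ≃ᵢ ℂ) {K : Set ℂ} (hK : Convex ℝ K)
    (hne : (interior K).Nonempty) : P '' K ⊆ closure (interior (P '' K)) := by
  rw [(convex_image P hK).closure_interior_eq_closure_of_nonempty_interior
    (nonempty_interior_image P hne)]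
  exact subset_closure

/-- the rigid motion of a copy -/
noncomputable def plc {n : ℕ} (g : Fin n → (ℂ ≃ᵢ ℂ)) (u w : ℂ) (x : Fin n × ℤ × ℤ) : ℂ ≃ᵢ ℂ :=
  (g x.1).trans (IsometryEquiv.addRight ((x.2.1 : ℝ) • u + (x.2.2 : ℝ) • w))

theorem plc_apply {n : ℕ} (g : Fin n → (ℂ ≃ᵢ ℂ)) (u w : ℂ) (x : Fin n × ℤ × ℤ) (z : ℂ) :
    plc g u w x z = place g u w x z := rfl

theorem plc_eq {n : ℕ} (g : Fin n → (ℂ ≃ᵢ ℂ)) (u w : ℂ) (x : Fin n × ℤ × ℤ) :
    (plc g u w x : ℂ → ℂ) = place g u w x := rfl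

theorem norm_place_sub {n : ℕ} (g : Fin n → (ℂ ≃ᵢ ℂ)) (u w : ℂ) (x : Fin n × ℤ × ℤ) (z : ℂ) :
    ‖place g u w x z - place g u w x 0‖ = ‖z‖ := by
  rw [← plc_apply, ← plc_apply, ← dist_eq_norm, (plc g u w x).isometry.dist_eq, dist_zero_right]

/-! ### Separation of two convex sets -/

theorem separate {A B : Set ℂ} (hA : Convex ℝ A) (hB : Convex ℝ B)
    (hAi : (interior A).Nonempty) (hBi : (interior B).Nonempty)
    (hA' : A ⊆ closure (interior A)) (hB' : B ⊆ closure (interior B))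
    (hd : Disjoint (interior A) (interior B)) :
    ∃ (ν : ℂ) (η : ℝ), ‖ν‖ = 1 ∧ (∀ a ∈ A, dt ν a ≤ η) ∧ ∀ b ∈ B, η ≤ dt ν b := by
  obtain ⟨f, s, hf1, hf2⟩ := geometric_hahn_banach_open_open hA.interior isOpen_interior
    hB.interior isOpen_interior hd
  set v : ℂ := ⟨f 1, f Complex.I⟩ with hv
  have hfv : ∀ z : ℂ, f z = dt v z := by
    intro z
    have h1 : z = z.re • (1 : ℂ) + z.im • Complex.I := by
      rw [Complex.real_smul, Complex.real_smul, mul_one]
      exact (Complex.re_add_im z).symm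
    have h2 : f z = z.re * f 1 + z.im * f Complex.I := by
      conv_lhs => rw [h1]
      rw [map_add, map_smul, map_smul, smul_eq_mul, smul_eq_mul]
    rw [h2]; simp only [dt, hv]; ring
  have hv0 : v ≠ 0 := by
    intro h0
    obtain ⟨a, ha⟩ := hAi
    obtain ⟨b, hb⟩ := hBi
    have h1 := hf1 a ha
    have h2 := hf2 b hb
    rw [hfv, h0] at h1 h2
    simp only [dt, Complex.zero_re, Complex.zero_im, zero_mul, add_zero] at h1 h2
    linarith
  have hvn : 0 < ‖v‖ := norm_pos_iff.2 hv0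
  have hA2 : ∀ a ∈ A, dt v a ≤ s := by
    intro a ha
    have hcl : IsClosed {z : ℂ | dt v z ≤ s} := isClosed_le (continuous_dt v) continuous_const
    have hsub : closure (interior A) ⊆ {z : ℂ | dt v z ≤ s} :=
      closure_minimal (fun z hz => by
        have := hf1 z hz
        rw [hfv] at this
        exact this.le) hcl
    exact hsub (hA' ha)
  have hB2 : ∀ b ∈ B, s ≤ dt v b := by
    intro b hb
    have hcl : IsClosed {z : ℂ | s ≤ dt v z} := isClosed_le continuous_const (continuous_dt v)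
    have hsub : closure (interior B) ⊆ {z : ℂ | s ≤ dt v z} :=
      closure_minimal (fun z hz => by
        have := hf2 z hz
        rw [hfv] at this
        exact this.le) hcl
    exact hsub (hB' hb)
  refine ⟨((‖v‖⁻¹ : ℝ) : ℂ) * v, ‖v‖⁻¹ * s, ?_, ?_, ?_⟩
  · rw [norm_mul, Complex.norm_real, Real.norm_of_nonneg (inv_nonneg.2 hvn.le),
      inv_mul_cancel₀ hvn.ne']
  · intro a ha
    rw [dt_smul_left]
    exact mul_le_mul_of_nonneg_left (hA2 a ha) (inv_nonneg.2 hvn.le)
  · intro b hb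
    rw [dt_smul_left]
    exact mul_le_mul_of_nonneg_left (hB2 b hb) (inv_nonneg.2 hvn.le)

/-! ### Good separations -/

/-- `(ν, η)` separates the copies `x` and `y`, and is the bisector if they are far apart. -/
structure Good (K : Set ℂ) (e : ℝ) {n : ℕ} (g : Fin n → (ℂ ≃ᵢ ℂ)) (u w : ℂ)
    (x y : Fin n × ℤ × ℤ) (p : ℂ × ℝ) : Prop where
  norm : ‖p.1‖ = 1
  le : ∀ z ∈ K, dt p.1 (place g u w x z) ≤ p.2
  ge : ∀ z ∈ K, p.2 ≤ dt p.1 (place g u w y z)
  far : 2 * (1 + e) ≤ ‖place g u w y 0 - place g u w x 0‖ →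
    place g u w y 0 - place g u w x 0 =
      ((2 * (p.2 - dt p.1 (place g u w x 0)) : ℝ) : ℂ) * p.1

variable {K : Set ℂ} {e : ℝ} {n : ℕ} {g : Fin n → (ℂ ≃ᵢ ℂ)} {u w : ℂ}

theorem Good.symm {x y : Fin n × ℤ × ℤ} {p : ℂ × ℝ} (h : Good K e g u w x y p) :
    Good K e g u w y x (-p.1, -p.2) where
  norm := by simp only [norm_neg]; exact h.norm
  le := by
    intro z hz
    simp only [dt_neg_left]
    exact neg_le_neg (h.ge z hz)
  ge := by
    intro z hz
    simp only [dt_neg_left]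
    exact neg_le_neg (h.le z hz)
  far := by
    intro hfar
    rw [norm_sub_rev] at hfar
    have h1 := h.far hfar
    have h2 : dt p.1 (place g u w y 0) - dt p.1 (place g u w x 0) =
        2 * (p.2 - dt p.1 (place g u w x 0)) := by
      rw [← dt_sub, h1, dt_smul_right, dt_self, h.norm]; ring
    have h3 : p.2 - dt p.1 (place g u w y 0) = -(p.2 - dt p.1 (place g u w x 0)) := by
      linarith
    simp only [dt_neg_left]
    have h4 : (2 * (-p.2 - -dt p.1 (place g u w y 0)) : ℝ) =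
        2 * (p.2 - dt p.1 (place g u w x 0)) := by linarith
    rw [h4, ← neg_sub (place g u w y 0) (place g u w x 0), h1]
    ring

theorem place_sh (x : Fin n × ℤ × ℤ) (a b : ℤ) (z : ℂ) :
    place g u w (sh a b x) z = place g u w x z + ((a : ℝ) • u + (b : ℝ) • w) := by
  simp only [place, sh]
  push_cast
  simp only [add_smul]
  ring

theorem Good.shift {x y : Fin n × ℤ × ℤ} {p : ℂ × ℝ} (h : Good K e g u w x y p) (a b : ℤ) :
    Good K e g u w (sh a b x) (sh a b y) (p.1, p.2 + dt p.1 ((a : ℝ) • u + (b : ℝ) • w)) where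
  norm := h.norm
  le := by
    intro z hz
    simp only
    rw [place_sh, dt_add p.1 (place g u w x z)]
    have := h.le z hz
    linarith
  ge := by
    intro z hz
    simp only
    rw [place_sh, dt_add p.1 (place g u w y z)]
    have := h.ge z hz
    linarith
  far := by
    intro hfar
    simp only
    rw [place_sh, place_sh] at hfar ⊢
    rw [add_sub_add_right_eq_sub] at hfar ⊢
    rw [dt_add p.1 (place g u w x 0), add_sub_add_right_eq_sub]
    exact h.far hfar

theorem exists_good {r : ℝ} (hK : Convex ℝ K) (hr : 0 < r) (he : 0 ≤ e)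
    (hin : Metric.closedBall (0 : ℂ) r ⊆ K) (hout : K ⊆ Metric.closedBall (0 : ℂ) (1 + e))
    (hp : IsPacking K g u w) {x y : Fin n × ℤ × ℤ} (hxy : x ≠ y) :
    ∃ p, Good K e g u w x y p := by
  by_cases hfar : 2 * (1 + e) ≤ ‖place g u w y 0 - place g u w x 0‖
  · set d : ℂ := place g u w y 0 - place g u w x 0 with hd
    have hdpos : 0 < ‖d‖ := by linarith
    have hnorm : ‖((‖d‖⁻¹ : ℝ) : ℂ) * d‖ = 1 := by
      rw [norm_mul, Complex.norm_real, Real.norm_of_nonneg (inv_nonneg.2 hdpos.le),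
        inv_mul_cancel₀ hdpos.ne']
    have hdtd : dt (((‖d‖⁻¹ : ℝ) : ℂ) * d) d = ‖d‖ := by
      rw [dt_smul_left, dt_self, sq, inv_mul_cancel_left₀ hdpos.ne']
    have hbd : ∀ (c : Fin n × ℤ × ℤ) (z : ℂ), z ∈ K →
        |dt (((‖d‖⁻¹ : ℝ) : ℂ) * d) (place g u w c z) -
          dt (((‖d‖⁻¹ : ℝ) : ℂ) * d) (place g u w c 0)| ≤ 1 + e := by
      intro c z hz
      have h1 : ‖place g u w c z - place g u w c 0‖ ≤ 1 + e := by
        rw [norm_place_sub]
        have := hout hz
        rwa [Metric.mem_closedBall, dist_zero_right] at this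
      rw [← dt_sub, abs_le]
      constructor
      · have h2 := dt_le (((‖d‖⁻¹ : ℝ) : ℂ) * d) (-(place g u w c z - place g u w c 0))
        rw [norm_neg, hnorm, one_mul] at h2
        have h3 : dt (((‖d‖⁻¹ : ℝ) : ℂ) * d) (-(place g u w c z - place g u w c 0)) =
            -dt (((‖d‖⁻¹ : ℝ) : ℂ) * d) (place g u w c z - place g u w c 0) := by
          simp only [dt, Complex.neg_re, Complex.neg_im]; ring
        rw [h3] at h2
        linarith
      · have h2 := dt_le (((‖d‖⁻¹ : ℝ) : ℂ) * d) (place g u w c z - place g u w c 0)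
        rw [hnorm, one_mul] at h2
        linarith
    have hyx : dt (((‖d‖⁻¹ : ℝ) : ℂ) * d) (place g u w y 0) =
        dt (((‖d‖⁻¹ : ℝ) : ℂ) * d) (place g u w x 0) + ‖d‖ := by
      have h1 := hdtd
      nth_rewrite 3 [hd] at h1
      rw [dt_sub] at h1
      linarith
    refine ⟨(((‖d‖⁻¹ : ℝ) : ℂ) * d, dt (((‖d‖⁻¹ : ℝ) : ℂ) * d) (place g u w x 0) + ‖d‖ / 2),
      hnorm, ?_, ?_, ?_⟩
    · intro z hz
      have h1 := (abs_le.1 (hbd x z hz)).2
      simp only
      linarith
    · intro z hz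
      have h1 := (abs_le.1 (hbd y z hz)).1
      rw [hyx] at h1
      simp only
      linarith
    · intro _
      simp only
      rw [add_sub_cancel_left]
      have h1 : (2 * (‖d‖ / 2) : ℝ) = ‖d‖ := by ring
      rw [h1, ← mul_assoc, ← Complex.ofReal_mul, mul_inv_cancel₀ hdpos.ne', Complex.ofReal_one,
        one_mul]
  · have hne : (interior K).Nonempty := by
      refine ⟨0, ?_⟩
      rw [mem_interior_iff_mem_nhds]
      exact Filter.mem_of_superset (Metric.closedBall_mem_nhds 0 hr) hin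
    obtain ⟨ν, η, h1, h2, h3⟩ := separate (convex_image (plc g u w x) hK)
      (convex_image (plc g u w y) hK) (nonempty_interior_image _ hne)
      (nonempty_interior_image _ hne) (subset_closure_interior _ hK hne)
      (subset_closure_interior _ hK hne) (hp.2 x y hxy)
    exact ⟨(ν, η), h1, fun z hz => h2 _ ⟨z, hz, rfl⟩, fun z hz => h3 _ ⟨z, hz, rfl⟩,
      fun h => absurd h hfar⟩

/-- a shift invariant orientation of the pairs -/
def Pos {n : ℕ} (x y : Fin n × ℤ × ℤ) : Prop :=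
  x.1 < y.1 ∨ (x.1 = y.1 ∧ (x.2.1 < y.2.1 ∨ (x.2.1 = y.2.1 ∧ x.2.2 < y.2.2)))

theorem pos_sh {x y : Fin n × ℤ × ℤ} (a b : ℤ) : Pos (sh a b x) (sh a b y) ↔ Pos x y := by
  simp only [Pos, sh, add_lt_add_iff_right, add_left_inj]

theorem pos_total {x y : Fin n × ℤ × ℤ} (h : x ≠ y) : Pos x y ∨ Pos y x := by
  obtain ⟨i, a, b⟩ := x
  obtain ⟨j, c, d⟩ := y
  simp only [Pos]
  rcases lt_trichotomy i j with h1 | h1 | h1
  · exact Or.inl (Or.inl h1)
  · rcases lt_trichotomy a c with h2 | h2 | h2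
    · exact Or.inl (Or.inr ⟨h1, Or.inl h2⟩)
    · rcases lt_trichotomy b d with h3 | h3 | h3
      · exact Or.inl (Or.inr ⟨h1, Or.inr ⟨h2, h3⟩⟩)
      · exact absurd (by rw [h1, h2, h3]) h
      · exact Or.inr (Or.inr ⟨h1.symm, Or.inr ⟨h2.symm, h3⟩⟩)
    · exact Or.inr (Or.inr ⟨h1.symm, Or.inl h2⟩)
  · exact Or.inr (Or.inl h1)

theorem pos_asymm {x y : Fin n × ℤ × ℤ} (h : Pos x y) : ¬ Pos y x := by
  obtain ⟨i, a, b⟩ := x
  obtain ⟨j, c, d⟩ := y
  simp only [Pos] at h ⊢
  rintro (h1 | ⟨h1, h2 | ⟨h2, h3⟩⟩) <;> rcases h with h4 | ⟨h4, h5 | ⟨h5, h6⟩⟩ <;>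
    first | (exact absurd h1 (not_lt.2 h4.le)) |
      (subst h1; exact absurd h4 (lt_irrefl _)) | (subst h4; exact absurd h1 (lt_irrefl _)) | omega

theorem ne_sh {x y : Fin n × ℤ × ℤ} (a b : ℤ) (h : x ≠ y) : sh a b x ≠ sh a b y := by
  intro h'
  apply h
  obtain ⟨i, c, d⟩ := x
  obtain ⟨j, c', d'⟩ := y
  simp only [sh, Prod.mk.injEq, add_left_inj] at h'
  simp only [Prod.mk.injEq]
  exact h'

end SepLines

open SepLines

theorem stmtSep : StmtSep := by
  classical
  intro K r e hK hr he hin hout n g u w hp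
  have hex : ∀ x y : Fin n × ℤ × ℤ, ∃ p : ℂ × ℝ, x ≠ y → Good K e g u w x y p := by
    intro x y
    by_cases hxy : x = y
    · exact ⟨(0, 0), fun h => absurd hxy h⟩
    · obtain ⟨p, hp'⟩ := exists_good hK hr he hin hout hp hxy
      exact ⟨p, fun _ => hp'⟩
  choose ch hch using hex
  -- normalised choice
  let nrmx : Fin n × ℤ × ℤ → Fin n × ℤ × ℤ := fun x => (x.1, 0, 0)
  let rel : Fin n × ℤ × ℤ → Fin n × ℤ × ℤ → Fin n × ℤ × ℤ := fun x y =>
    (y.1, y.2.1 - x.2.1, y.2.2 - x.2.2)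
  let q : Fin n × ℤ × ℤ → Fin n × ℤ × ℤ → ℂ × ℝ := fun x y => ch (nrmx x) (rel x y)
  let base : Fin n × ℤ × ℤ → Fin n × ℤ × ℤ → ℂ × ℝ := fun x y =>
    ((q x y).1, (q x y).2 + dt (q x y).1 (((x.2.1 : ℤ) : ℝ) • u + ((x.2.2 : ℤ) : ℝ) • w))
  have hx0 : ∀ x : Fin n × ℤ × ℤ, sh x.2.1 x.2.2 (nrmx x) = x := by
    intro x; simp only [sh, nrmx, zero_add]
  have hy0 : ∀ x y : Fin n × ℤ × ℤ, sh x.2.1 x.2.2 (rel x y) = y := by
    intro x y; simp only [sh, rel, sub_add_cancel]
  have hbase : ∀ x y, x ≠ y → Good K e g u w x y (base x y) := by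
    intro x y hxy
    have hne : nrmx x ≠ rel x y := by
      intro h
      apply hxy
      calc x = sh x.2.1 x.2.2 (nrmx x) := (hx0 x).symm
        _ = sh x.2.1 x.2.2 (rel x y) := by rw [h]
        _ = y := hy0 x y
    have h1 := (hch _ _ hne).shift x.2.1 x.2.2
    rw [hx0, hy0] at h1
    exact h1
  have hqsh : ∀ x y a b, q (sh a b x) (sh a b y) = q x y := by
    intro x y a b
    simp only [q, nrmx, rel, sh, add_sub_add_right_eq_sub]
  have hb1 : ∀ x y a b, (base (sh a b x) (sh a b y)).1 = (base x y).1 := by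
    intro x y a b
    simp only [base, hqsh]
  have hb2 : ∀ x y a b, (base (sh a b x) (sh a b y)).2 =
      (base x y).2 + dt (base x y).1 ((a : ℝ) • u + (b : ℝ) • w) := by
    intro x y a b
    simp only [base, hqsh]
    rw [add_assoc, ← dt_add]
    congr 2
    simp only [sh]
    push_cast
    simp only [add_smul]
    ring
  refine ⟨fun x y => if Pos x y then (base x y).1 else -(base y x).1,
    fun x y => if Pos x y then (base x y).2 else -(base y x).2, ?_⟩
  have hgood : ∀ x y, x ≠ y → Good K e g u w x y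
      ((if Pos x y then (base x y).1 else -(base y x).1),
        (if Pos x y then (base x y).2 else -(base y x).2)) := by
    intro x y hxy
    by_cases hpos : Pos x y
    · rw [if_pos hpos, if_pos hpos]
      exact hbase x y hxy
    · rw [if_neg hpos, if_neg hpos]
      exact (hbase y x (Ne.symm hxy)).symm
  refine ⟨?_, ?_, ?_, ?_, ?_, ?_, ?_⟩
  · intro x y hxy
    exact (hgood x y hxy).norm
  · intro x y hxy
    by_cases hpos : Pos x y
    · simp only [if_pos hpos, if_neg (pos_asymm hpos)]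
    · have hpos' : Pos y x := (pos_total hxy).resolve_left hpos
      simp only [if_neg hpos, if_pos hpos', neg_neg]
  · intro x y hxy
    by_cases hpos : Pos x y
    · simp only [if_pos hpos, if_neg (pos_asymm hpos)]
    · have hpos' : Pos y x := (pos_total hxy).resolve_left hpos
      simp only [if_neg hpos, if_pos hpos', neg_neg]
  · intro x y a b _
    simp only [pos_sh, hb1]
  · intro x y a b _
    simp only [pos_sh, hb2]
    by_cases hpos : Pos x y
    · simp only [if_pos hpos]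
    · simp only [if_neg hpos, dt_neg_left]
      ring
  · intro x y hxy z hz
    exact (hgood x y hxy).le z hz
  · intro x y hxy hfar
    exact (hgood x y hxy).far hfar

end Pool.Agent.MP3e
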