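import Pool.Agent.Lib.MP_3e6a92_co.Spec

/-!
Six directions at pairwise angle about at least 60 degrees.
-/

set_option autoImplicit false

namespace Pool.Agent.MP3e

open MeasureTheory Set

namespace SixDir

lemma eq_cis_arg {z : ℂ} (h : ‖z‖ = 1) : z = cis (Complex.arg z) := by
  have h0 : z ≠ 0 := by
    intro h0
    rw [h0, norm_zero] at h
    exact zero_ne_one h
  apply Complex.ext
  · change z.re = Real.cos (Complex.arg z)
    rw [Complex.cos_arg h0, h, div_one]
  · change z.im = Real.sin (Complex.arg z)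
    rw [Complex.sin_arg, h, div_one]

lemma dt_cis_cis (a b : ℝ) : dt (cis a) (cis b) = Real.cos (b - a) := by
  rw [Real.cos_sub]
  simp only [dt, cis]
  ring

lemma gap {κ Δ : ℝ} (hκ : κ ≤ Real.pi) (h0 : 0 ≤ Δ) (h2 : Δ ≤ 2 * Real.pi)
    (hc : Real.cos Δ ≤ Real.cos κ) : κ ≤ Δ ∧ Δ ≤ 2 * Real.pi - κ := by
  constructor
  · by_contra hcon
    push Not at hcon
    have := Real.cos_lt_cos_of_nonneg_of_le_pi h0 hκ hcon
    linarith
  · by_contra hcon
    push Not at hcon
    have := Real.cos_lt_cos_of_nonneg_of_le_pi (x := 2 * Real.pi - Δ) (y := κ) (by linarith) hκ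
      (by linarith)
    rw [Real.cos_two_pi_sub] at this
    linarith

end SixDir

open SixDir in
theorem stmtSix : StmtSix := by
  intro δ hδ
  set d := min (δ / 6) (Real.pi / 6) with hd
  have hpi := Real.pi_pos
  have hd0 : 0 < d := lt_min (by linarith) (by linarith)
  have hd1 : d ≤ δ / 6 := min_le_left _ _
  have hd2 : d ≤ Real.pi / 6 := min_le_right _ _
  have hcos : 1 / 2 < Real.cos (Real.pi / 3 - d) := by
    rw [← Real.cos_pi_div_three]
    exact Real.cos_lt_cos_of_nonneg_of_le_pi (by linarith) (by linarith) (by linarith)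
  refine ⟨Real.cos (Real.pi / 3 - d) - 1 / 2, by linarith, ?_⟩
  intro n hn hdt
  set a : Fin 6 → ℝ := fun m => Complex.arg (n m) with ha
  set p := Tuple.sort a with hp
  have hmono : Monotone (a ∘ p) := Tuple.monotone_sort a
  have hna : ∀ m, n m = cis (a m) := fun m => eq_cis_arg (hn m)
  have hgap : ∀ k l : Fin 6, k < l → Real.pi / 3 - d ≤ a (p l) - a (p k) ∧
      a (p l) - a (p k) ≤ 2 * Real.pi - (Real.pi / 3 - d) := by
    intro k l hkl
    have h1 : a (p k) ≤ a (p l) := hmono hkl.le
    have h2 : a (p l) ≤ Real.pi := Complex.arg_le_pi _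
    have h3 : -Real.pi < a (p k) := Complex.neg_pi_lt_arg _
    refine gap (by linarith) (by linarith) (by linarith) ?_
    have h4 := hdt (p k) (p l) (fun h => hkl.ne (p.injective h))
    rw [hna (p k), hna (p l), dt_cis_cis] at h4
    linarith
  refine ⟨p, a (p 0), fun m => a (p m) - a (p 0) - (m : ℕ) * (Real.pi / 3), ?_, ?_⟩
  · have g01 := hgap 0 1 (by decide)
    have g12 := hgap 1 2 (by decide)
    have g23 := hgap 2 3 (by decide)
    have g34 := hgap 3 4 (by decide)
    have g45 := hgap 4 5 (by decide)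
    have g05 := hgap 0 5 (by decide)
    intro m
    rw [abs_le]
    fin_cases m <;> simp <;> (try constructor) <;> linarith
  · intro m
    rw [hna (p m), nrm]
    congr 1
    ring

end Pool.Agent.MP3e
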