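import Pool.Agent.Lib.MP_3e6a92_co.Spec

/-!
Sidon functions, the shoelace sum, labels and closeness of the corners.
-/

set_option autoImplicit false

namespace Pool.Agent.MP3e.Types

open Pool.Agent.MP3e

lemma pow_sum_aux {a b c d : ℕ} (h : 3 ^ a + 3 ^ d = 3 ^ b + 3 ^ c) (h1 : d ≤ a) (h2 : c ≤ b) :
    a = b ∧ d = c := by
  have hab : a = b := by
    have h3 : 3 ^ d ≤ 3 ^ a := Nat.pow_le_pow_right (by norm_num) h1
    have h4 : 3 ^ c ≤ 3 ^ b := Nat.pow_le_pow_right (by norm_num) h2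
    have h5 : 0 < 3 ^ d := by positivity
    have h6 : 0 < 3 ^ c := by positivity
    rcases lt_trichotomy a b with h7 | h7 | h7
    · have h8 : 3 ^ (a + 1) ≤ 3 ^ b := Nat.pow_le_pow_right (by norm_num) h7
      rw [pow_succ] at h8
      omega
    · exact h7
    · have h8 : 3 ^ (b + 1) ≤ 3 ^ a := Nat.pow_le_pow_right (by norm_num) h7
      rw [pow_succ] at h8
      omega
  subst hab
  have h7 : 3 ^ d = 3 ^ c := by omega
  exact ⟨rfl, Nat.pow_right_injective (le_refl _ |>.trans (by norm_num)) h7⟩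

lemma pow_sum {a b c d : ℕ} (h : 3 ^ a + 3 ^ d = 3 ^ b + 3 ^ c) :
    (a = b ∧ d = c) ∨ (a = c ∧ d = b) := by
  rcases le_total d a with h1 | h1 <;> rcases le_total c b with h2 | h2
  · exact Or.inl (pow_sum_aux h h1 h2)
  · exact Or.inr (pow_sum_aux (by omega) h1 h2)
  · have := pow_sum_aux (a := d) (d := a) (b := b) (c := c) (by omega) h1 h2
    exact Or.inr ⟨this.2, this.1⟩
  · have := pow_sum_aux (a := d) (d := a) (b := c) (c := b) (by omega) h1 h2
    exact Or.inl ⟨this.2, this.1⟩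

theorem stmtSidon : StmtSidon := by
  intro S _
  obtain ⟨n, ⟨e⟩⟩ := Finite.exists_equiv_fin S
  refine ⟨fun s => (3 : ℝ) ^ ((e s : Fin n) : ℕ), ?_⟩
  intro s t s' t' hst hst' h
  have h1 : (3 : ℝ) ^ ((e s : Fin n) : ℕ) + (3 : ℝ) ^ ((e t' : Fin n) : ℕ) =
      (3 : ℝ) ^ ((e s' : Fin n) : ℕ) + (3 : ℝ) ^ ((e t : Fin n) : ℕ) := by
    simp only at h
    linarith
  have h2 : 3 ^ ((e s : Fin n) : ℕ) + 3 ^ ((e t' : Fin n) : ℕ) =
      3 ^ ((e s' : Fin n) : ℕ) + 3 ^ ((e t : Fin n) : ℕ) := by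
    exact_mod_cast h1
  rcases pow_sum h2 with ⟨h3, h4⟩ | ⟨h3, h4⟩
  · exact ⟨e.injective (Fin.ext h3), e.injective (Fin.ext h4.symm)⟩
  · exact absurd (e.injective (Fin.ext h3)) hst

section
variable {S : Type} {W : WangSys S}

lemma sq3 : Real.sqrt 3 * Real.sqrt 3 = 3 := Real.mul_self_sqrt (by norm_num)

theorem stmtShoe : StmtShoe := by
  intro S W γ ε t
  unfold shoe
  rw [Fin.sum_univ_six]
  simp only [corner, disp, cr, u1, u2]
  have h := sq3
  simp [Complex.add_re, Complex.sub_re, Complex.mul_re, Complex.add_im, Complex.sub_im,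
    Complex.mul_im]
  ring_nf

lemma norm_sq_disp (γ : S → ℝ) (ε : ℝ) (s0 s1 s2 : S) :
    ‖disp γ ε s0 s1 s2‖ ^ 2 = 4 * ε ^ 2 * ((γ s1 - γ s0) ^ 2 - (γ s1 - γ s0) * (γ s2 - γ s0) +
      (γ s2 - γ s0) ^ 2) := by
  rw [← Complex.normSq_eq_norm_sq, Complex.normSq_apply]
  simp only [disp, u1, u2]
  have h := sq3
  simp [Complex.sub_re, Complex.mul_re, Complex.sub_im, Complex.mul_im]
  ring_nf
  rw [Real.sq_sqrt (by norm_num : (0 : ℝ) ≤ 3)]
  ring

lemma norm_sq_disp_le (γ : S → ℝ) (ε Γ : ℝ) (hΓ : ∀ s, |γ s| ≤ Γ) (s0 s1 s2 : S) :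
    ‖disp γ ε s0 s1 s2‖ ^ 2 ≤ 48 * Γ ^ 2 * ε ^ 2 := by
  rw [norm_sq_disp]
  have h0 := abs_le.1 (hΓ s0)
  have h1 := abs_le.1 (hΓ s1)
  have h2 := abs_le.1 (hΓ s2)
  have hx : (γ s1 - γ s0) ^ 2 ≤ 4 * Γ ^ 2 := by nlinarith
  have hy : (γ s2 - γ s0) ^ 2 ≤ 4 * Γ ^ 2 := by nlinarith
  have hz : (γ s1 - γ s0) ^ 2 - (γ s1 - γ s0) * (γ s2 - γ s0) + (γ s2 - γ s0) ^ 2 ≤
      12 * Γ ^ 2 := by nlinarith [sq_nonneg ((γ s1 - γ s0) + (γ s2 - γ s0))]
  have he := sq_nonneg ε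
  nlinarith

/-- the squared length of a side -/
lemma side_sq (γ : S → ℝ) (ε : ℝ) (t : Ty W) (m : Fin 6) : ∃ s0 s1 s2 : S,
    ‖corner γ ε t (m + 1) - corner γ ε t m‖ ^ 2 =
      4 / 3 - 4 * ε * (γ (label t m).2 - γ (label t m).1) + ‖disp γ ε s0 s1 s2‖ ^ 2 := by
  have h := sq3
  have h' : Real.sqrt 3 ^ 2 = 3 := Real.sq_sqrt (by norm_num)
  fin_cases m
  · refine ⟨t.A, t.B, t.D, ?_⟩
    rw [norm_sq_disp, ← Complex.normSq_eq_norm_sq, Complex.normSq_apply]
    simp [corner, label, disp, u1, u2]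
    ring_nf
    rw [h']
    ring
  · refine ⟨t.A, t.B, t.D, ?_⟩
    rw [norm_sq_disp, ← Complex.normSq_eq_norm_sq, Complex.normSq_apply]
    simp [corner, label, disp, u1, u2]
    ring_nf
    rw [h']
    ring
  · refine ⟨t.F, t.C, t.A, ?_⟩
    rw [norm_sq_disp, ← Complex.normSq_eq_norm_sq, Complex.normSq_apply]
    simp [corner, label, disp, u1, u2]
    ring_nf
    rw [h']
    ring
  · refine ⟨t.F, t.C, t.A, ?_⟩
    rw [norm_sq_disp, ← Complex.normSq_eq_norm_sq, Complex.normSq_apply]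
    simp [corner, label, disp, u1, u2]
    ring_nf
    rw [h']
    ring
  · refine ⟨t.C, t.E, t.B, ?_⟩
    rw [norm_sq_disp, ← Complex.normSq_eq_norm_sq, Complex.normSq_apply]
    simp [corner, label, disp, u1, u2]
    ring_nf
    rw [h']
    ring
  · refine ⟨t.C, t.E, t.B, ?_⟩
    rw [norm_sq_disp, ← Complex.normSq_eq_norm_sq, Complex.normSq_apply]
    simp [corner, label, disp, u1, u2]
    ring_nf
    rw [h']
    ring

lemma label_ne (t : Ty W) (m : Fin 6) : (label t m).1 ≠ (label t m).2 := by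
  have hAB := W.hE _ _ t.hAB
  have hAD := W.hN _ _ t.hAD
  have hCE := W.hE _ _ t.hCE
  have hCB := W.hN _ _ t.hCB
  have hFC := W.hE _ _ t.hFC
  have hFA := W.hN _ _ t.hFA
  have key : ∀ (x y : ZMod 7), (y = x + 1 ∨ x = y + 1 ∨ y = x + 3 ∨ x = y + 3 ∨ x = y + 2 ∨
      y = x + 2) → x ≠ y := by decide
  have hc : W.cls (label t m).1 ≠ W.cls (label t m).2 := by
    apply key
    fin_cases m
    · simp only [label]
      right; right; right; left
      simpa using hAD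
    · simp only [label]
      right; right; right; right; right
      show W.cls t.D = W.cls t.B + 2
      rw [hAD, hAB]; ring
    · simp only [label]
      left
      simpa using hFC
    · simp only [label]
      right; right; right; left
      simpa using hFA
    · simp only [label]
      right; right; right; right; right
      show W.cls t.B = W.cls t.E + 2
      rw [hCB, hCE]; ring
    · simp only [label]
      left
      simpa using hCE
  exact fun h => hc (by rw [h])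

lemma finite_gap {ι : Type*} [Finite ι] (f : ι → ℝ) : ∃ g > 0, ∀ i, f i ≠ 0 → g ≤ |f i| := by
  classical
  cases nonempty_fintype ι
  by_cases h : (Finset.univ.filter fun i => f i ≠ 0).Nonempty
  · obtain ⟨i, hi, hmin⟩ := Finset.exists_min_image _ (fun i => |f i|) h
    refine ⟨|f i|, abs_pos.2 (Finset.mem_filter.1 hi).2, fun j hj => hmin j ?_⟩
    exact Finset.mem_filter.2 ⟨Finset.mem_univ _, hj⟩
  · refine ⟨1, one_pos, fun i hi => ?_⟩
    exact absurd ⟨i, Finset.mem_filter.2 ⟨Finset.mem_univ _, hi⟩⟩ h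

lemma finite_bound {ι : Type*} [Finite ι] (f : ι → ℝ) : ∃ Γ, 0 < Γ ∧ ∀ i, |f i| ≤ Γ := by
  cases nonempty_fintype ι
  refine ⟨∑ i, |f i| + 1, by positivity, fun i => ?_⟩
  have := Finset.single_le_sum (f := fun i => |f i|) (fun i _ => abs_nonneg _) (Finset.mem_univ i)
  linarith

end

theorem stmtLabel : StmtLabel := by
  intro S _ W γ hγ
  obtain ⟨Γ, hΓ0, hΓ⟩ := finite_bound γ
  obtain ⟨g, hg0, hg⟩ := finite_gap (fun p : (S × S) × (S × S) =>
    (γ p.1.2 - γ p.1.1) - (γ p.2.2 - γ p.2.1))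
  refine ⟨g / (24 * Γ ^ 2), by positivity, ?_⟩
  intro ε hε hε' t t' m m' heq
  obtain ⟨a0, a1, a2, ha⟩ := side_sq γ ε t m
  obtain ⟨b0, b1, b2, hb⟩ := side_sq γ ε t' m'
  have hA := norm_sq_disp_le γ ε Γ hΓ a0 a1 a2
  have hB := norm_sq_disp_le γ ε Γ hΓ b0 b1 b2
  have hA0 := sq_nonneg ‖disp γ ε a0 a1 a2‖
  have hB0 := sq_nonneg ‖disp γ ε b0 b1 b2‖
  have h1 : 4 * ε * ((γ (label t m).2 - γ (label t m).1) - (γ (label t' m').2 -
      γ (label t' m').1)) = ‖disp γ ε a0 a1 a2‖ ^ 2 - ‖disp γ ε b0 b1 b2‖ ^ 2 := by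
    rw [heq] at ha
    linarith
  have h2 : γ (label t m).2 - γ (label t m).1 = γ (label t' m').2 - γ (label t' m').1 := by
    by_contra hne
    have h3 := hg ((label t m), (label t' m')) (sub_ne_zero.2 hne)
    simp only at h3
    have h4 : |4 * ε * ((γ (label t m).2 - γ (label t m).1) - (γ (label t' m').2 -
      γ (label t' m').1))| ≤ 48 * Γ ^ 2 * ε ^ 2 := by
      rw [h1, abs_le]
      constructor <;> linarith
    rw [abs_mul, abs_of_pos (by positivity : 0 < 4 * ε)] at h4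
    have h5 : 4 * ε * g ≤ 48 * Γ ^ 2 * ε ^ 2 := by
      refine le_trans ?_ h4
      exact mul_le_mul_of_nonneg_left h3 (by positivity)
    have h6 : g ≤ 12 * Γ ^ 2 * ε := by
      have : 4 * ε * g ≤ 4 * ε * (12 * Γ ^ 2 * ε) := by nlinarith
      exact le_of_mul_le_mul_left this (by positivity)
    have h7 : ε * (24 * Γ ^ 2) < g := by
      rwa [lt_div_iff₀ (by positivity)] at hε'
    nlinarith
  have h3 := hγ _ _ _ _ (label_ne t m).symm (label_ne t' m').symm h2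
  exact Prod.ext h3.2 h3.1

theorem stmtClose : StmtClose := by
  intro S _ W γ δ hδ
  obtain ⟨Γ, hΓ0, hΓ⟩ := finite_bound γ
  refine ⟨δ / (7 * Γ), by positivity, ?_⟩
  intro ε hε t m
  have h1 : ∀ s0 s1 s2 : S, ‖disp γ ε s0 s1 s2‖ ≤ δ := by
    intro s0 s1 s2
    have h2 := norm_sq_disp_le γ ε Γ hΓ s0 s1 s2
    have h3 : |ε| * (7 * Γ) < δ := by rwa [lt_div_iff₀ (by positivity)] at hε
    have h4 : 48 * Γ ^ 2 * ε ^ 2 ≤ δ ^ 2 := by
      have h5 : (|ε| * (7 * Γ)) ^ 2 ≤ δ ^ 2 := by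
        apply pow_le_pow_left₀ (by positivity) h3.le
      rw [mul_pow, sq_abs] at h5
      nlinarith [mul_nonneg (sq_nonneg ε) (sq_nonneg Γ)]
    exact le_of_sq_le_sq (h2.trans h4) hδ.le
  fin_cases m
  · simp [corner, reg, hδ.le]
  · simpa [corner, reg] using h1 t.A t.B t.D
  · simp [corner, reg, hδ.le]
  · simpa [corner, reg] using h1 t.F t.C t.A
  · simp [corner, reg, hδ.le]
  · simpa [corner, reg] using h1 t.C t.E t.B

end Pool.Agent.MP3e.Types

theorem Pool.Agent.MP3e.stmtTypes : Pool.Agent.MP3e.StmtSidon ∧ Pool.Agent.MP3e.StmtShoe ∧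
    Pool.Agent.MP3e.StmtLabel ∧ Pool.Agent.MP3e.StmtClose :=
  ⟨Pool.Agent.MP3e.Types.stmtSidon, Pool.Agent.MP3e.Types.stmtShoe,
    Pool.Agent.MP3e.Types.stmtLabel, Pool.Agent.MP3e.Types.stmtClose⟩
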