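import Pool.Agent.Lib.MP_3e6a92_co.Spec

/-!
Lines and vertices of a near regular hexagon.
-/

set_option autoImplicit false

namespace Pool.Agent.MP3e

open MeasureTheory Set

noncomputable section

namespace Vtx

lemma cis_re (θ : ℝ) : (cis θ).re = Real.cos θ := rfl
lemma cis_im (θ : ℝ) : (cis θ).im = Real.sin θ := rfl

lemma cis_add (a b : ℝ) : cis (a + b) = cis a * cis b := by
  apply Complex.ext
  · rw [Complex.mul_re, cis_re, cis_re, cis_re, cis_im, cis_im, Real.cos_add]
  · rw [Complex.mul_im, cis_im, cis_re, cis_re, cis_im, cis_im, Real.sin_add]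
    ring

lemma cis_add_two_pi (a : ℝ) : cis (a + 2 * Real.pi) = cis a := by
  apply Complex.ext
  · rw [cis_re, cis_re, Real.cos_add_two_pi]
  · rw [cis_im, cis_im, Real.sin_add_two_pi]

lemma norm_cis (θ : ℝ) : ‖cis θ‖ = 1 := by
  rw [Complex.norm_eq_sqrt_sq_add_sq, cis_re, cis_im, Real.cos_sq_add_sin_sq, Real.sqrt_one]

lemma cr_cis (a b : ℝ) : cr (cis a) (cis b) = Real.sin (b - a) := by
  rw [Real.sin_sub]
  simp only [cr, cis_re, cis_im]
  ring

lemma dt_cis (a b : ℝ) : dt (cis a) (cis b) = Real.cos (b - a) := by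
  rw [Real.cos_sub]
  simp only [dt, cis_re, cis_im]
  ring

lemma val_sub_one (m : Fin 6) : (m - 1 : Fin 6).val + 1 = m.val ∨
    (m - 1 : Fin 6).val + 1 = m.val + 6 := by
  revert m
  decide

lemma nrm_pred (α : ℝ) (β : Fin 6 → ℝ) (m : Fin 6) : nrm α β (m - 1) =
    cis (α + (m : ℕ) * (Real.pi / 3) + (β (m - 1) - Real.pi / 3)) := by
  unfold nrm
  rcases val_sub_one m with h | h
  · have h' : (((m - 1 : Fin 6).val : ℝ)) + 1 = (m.val : ℝ) := by exact_mod_cast h
    rw [← h']
    congr 1
    ring
  · have h' : (((m - 1 : Fin 6).val : ℝ)) + 1 = (m.val : ℝ) + 6 := by exact_mod_cast h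
    have h'' : (((m - 1 : Fin 6).val : ℝ)) = (m.val : ℝ) + 5 := by linarith
    rw [h'', ← cis_add_two_pi (α + (m : ℕ) * (Real.pi / 3) + (β (m - 1) - Real.pi / 3))]
    congr 1
    ring

lemma cr_nrm (α : ℝ) (β : Fin 6 → ℝ) (m : Fin 6) : cr (nrm α β (m - 1)) (nrm α β m) =
    Real.sin (Real.pi / 3 + (β m - β (m - 1))) := by
  rw [nrm_pred]
  unfold nrm
  rw [cr_cis]
  congr 1
  ring

lemma dt_nrm (α : ℝ) (β : Fin 6 → ℝ) (m : Fin 6) : dt (nrm α β (m - 1)) (nrm α β m) =
    Real.cos (Real.pi / 3 + (β m - β (m - 1))) := by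
  rw [nrm_pred]
  unfold nrm
  rw [dt_cis]
  congr 1
  ring

lemma sqrt3_bounds : 1.732 < Real.sqrt 3 ∧ Real.sqrt 3 < 1.7321 := by
  constructor
  · apply Real.lt_sqrt_of_sq_lt
    norm_num
  · rw [Real.sqrt_lt' (by norm_num)]
    norm_num

lemma sin_bound {d : ℝ} (hd : |d| ≤ 1 / 500) :
    |Real.sin (Real.pi / 3 + d) - Real.sqrt 3 / 2| ≤ 1 / 500 := by
  have := Real.abs_sin_sub_sin_le (Real.pi / 3 + d) (Real.pi / 3)
  rw [Real.sin_pi_div_three] at this
  refine this.trans ?_
  rw [show Real.pi / 3 + d - Real.pi / 3 = d by ring]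
  exact hd

lemma cos_bound {d e : ℝ} (hd : |d| ≤ e) :
    |Real.cos (Real.pi / 3 + d) - 1 / 2| ≤ e := by
  have := Real.abs_cos_sub_cos_le (Real.pi / 3 + d) (Real.pi / 3)
  rw [Real.cos_pi_div_three] at this
  refine this.trans ?_
  rw [show Real.pi / 3 + d - Real.pi / 3 = d by ring]
  exact hd

lemma dt_unit {n : ℂ} (hn : ‖n‖ = 1) : n.re * n.re + n.im * n.im = 1 := by
  have := Complex.sq_norm n
  rw [hn, Complex.normSq_apply] at this
  linarith

/-- intersection of two lines -/
lemma line_inter (a b : ℂ) (p q : ℝ) (hne : cr a b ≠ 0) (ha : ‖a‖ = 1) (hb : ‖b‖ = 1) (w : ℂ)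
    (hw : w = (((q : ℝ) : ℂ) * (Complex.I * a) - ((p : ℝ) : ℂ) * (Complex.I * b)) /
      ((cr a b : ℝ) : ℂ)) :
    dt a w = p ∧ dt b w = q ∧ dt (Complex.I * a) w = (q - p * dt a b) / cr a b ∧
      dt (Complex.I * b) w = (q * dt a b - p) / cr a b := by
  have ha' := dt_unit ha
  have hb' := dt_unit hb
  have hre : w.re = (-(q * a.im) + p * b.im) / cr a b := by
    rw [hw, Complex.div_ofReal_re]
    simp only [Complex.sub_re, Complex.mul_re, Complex.ofReal_re, Complex.ofReal_im,
      Complex.I_re, Complex.I_im, Complex.mul_im]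
    ring
  have him : w.im = (q * a.re - p * b.re) / cr a b := by
    rw [hw, Complex.div_ofReal_im]
    simp only [Complex.sub_im, Complex.mul_re, Complex.ofReal_re, Complex.ofReal_im,
      Complex.I_re, Complex.I_im, Complex.mul_im]
    ring
  refine ⟨?_, ?_, ?_, ?_⟩
  · unfold dt
    rw [hre, him, mul_div_assoc', mul_div_assoc', ← add_div, div_eq_iff hne]
    unfold cr
    ring
  · unfold dt
    rw [hre, him, mul_div_assoc', mul_div_assoc', ← add_div, div_eq_iff hne]
    unfold cr
    ring
  · have : dt (Complex.I * a) w = -a.im * w.re + a.re * w.im := by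
      simp [dt]
    rw [this, hre, him, mul_div_assoc', mul_div_assoc', ← add_div]
    congr 1
    unfold dt
    linear_combination q * ha'
  · have : dt (Complex.I * b) w = -b.im * w.re + b.re * w.im := by
      simp [dt]
    rw [this, hre, him, mul_div_assoc', mul_div_assoc', ← add_div]
    congr 1
    unfold dt
    linear_combination (-p) * hb'

lemma decomp {n v : ℂ} (hn : ‖n‖ = 1) (h0 : dt n v = 0) (w : ℂ) :
    cr v w = -(dt (Complex.I * n) v) * dt n w := by
  have hn' := dt_unit hn
  have h1 : dt (Complex.I * n) v = -n.im * v.re + n.re * v.im := by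
    simp [dt]
  rw [h1]
  unfold dt at h0 ⊢
  unfold cr
  have e1 : v.re = -(n.im) * (-n.im * v.re + n.re * v.im) := by
    linear_combination (-v.re) * hn' + n.re * h0
  have e2 : v.im = n.re * (-n.im * v.re + n.re * v.im) := by
    linear_combination (-v.im) * hn' + n.im * h0
  calc v.re * w.im - v.im * w.re
      = (-(n.im) * (-n.im * v.re + n.re * v.im)) * w.im -
        (n.re * (-n.im * v.re + n.re * v.im)) * w.re := by rw [← e1, ← e2]
    _ = _ := by ring

lemma dt_sub (n v w : ℂ) : dt n (v - w) = dt n v - dt n w := by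
  simp only [dt, Complex.sub_re, Complex.sub_im]
  ring

end Vtx

open Vtx in
theorem stmtVtx : StmtVtx := by
  intro α β h hβ hh
  have hs3 := sqrt3_bounds
  have hsq3 : Real.sqrt 3 * Real.sqrt 3 = 3 := Real.mul_self_sqrt (by norm_num)
  set n := nrm α β with hn
  set q := vtx n h with hq
  have hnorm : ∀ m, ‖n m‖ = 1 := fun m => norm_cis _
  have hd : ∀ m, |β m - β (m - 1)| ≤ 1 / 500 := by
    intro m
    have h1 := abs_le.mp (hβ m)
    have h2 := abs_le.mp (hβ (m - 1))
    rw [abs_le]
    constructor <;> linarith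
  have hcr : ∀ m, 0.864 < cr (n (m - 1)) (n m) := by
    intro m
    rw [hn, cr_nrm]
    have := (abs_le.mp (sin_bound (hd m))).1
    linarith
  have hdt : ∀ m, 0.49 < dt (n (m - 1)) (n m) ∧ dt (n (m - 1)) (n m) < 0.51 := by
    intro m
    rw [hn, dt_nrm]
    have := abs_le.mp (cos_bound (hd m))
    constructor <;> linarith
  have hh' : ∀ m, 0.999 ≤ h m ∧ h m ≤ 1.001 := by
    intro m
    have := abs_le.mp (hh m)
    constructor <;> linarith
  have hline : ∀ m, dt (n (m - 1)) (q m) = h (m - 1) ∧ dt (n m) (q m) = h m ∧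
      dt (Complex.I * n (m - 1)) (q m) =
        (h m - h (m - 1) * dt (n (m - 1)) (n m)) / cr (n (m - 1)) (n m) ∧
      dt (Complex.I * n m) (q m) =
        (h m * dt (n (m - 1)) (n m) - h (m - 1)) / cr (n (m - 1)) (n m) := by
    intro m
    have h1 := hcr m
    exact line_inter (n (m - 1)) (n m) (h (m - 1)) (h m) (by linarith) (hnorm _) (hnorm _)
      (q m) rfl
  -- the edges
  have hedge : ∀ m, ∃ L : ℝ, 0 < L ∧ ∀ z,
      cr (q (m + 1) - q m) (z - q m) = L * (h m - dt (n m) z) := by
    intro m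
    have hl := hline m
    have hl' := hline (m + 1)
    rw [add_sub_cancel_right] at hl'
    refine ⟨dt (Complex.I * n m) (q (m + 1) - q m), ?_, ?_⟩
    · rw [dt_sub, hl'.2.2.1, hl.2.2.2]
      have c1 := hcr (m + 1)
      have c2 := hcr m
      rw [add_sub_cancel_right] at c1
      have d1 := hdt (m + 1)
      have d2 := hdt m
      rw [add_sub_cancel_right] at d1
      have e1 := hh' m
      have e2 := hh' (m + 1)
      have e3 := hh' (m - 1)
      have p1 : 0 < (h (m + 1) - h m * dt (n m) (n (m + 1))) / cr (n m) (n (m + 1)) := by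
        apply div_pos _ (by linarith)
        nlinarith [d1.1, d1.2, e1.1, e1.2]
      have p2 : (h m * dt (n (m - 1)) (n m) - h (m - 1)) / cr (n (m - 1)) (n m) < 0 := by
        apply div_neg_of_neg_of_pos _ (by linarith)
        nlinarith [d2.1, d2.2, e1.1, e1.2]
      linarith
    · intro z
      have h0 : dt (n m) (q (m + 1) - q m) = 0 := by
        rw [dt_sub, hl'.1, hl.2.1, sub_self]
      rw [decomp (hnorm m) h0, dt_sub (n m) z, hl.2.1]
      ring
  refine ⟨?_, ?_, ?_⟩
  · intro m
    set x := α + (m : ℕ) * (Real.pi / 3) with hx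
    set b := β m with hb
    set b' := β (m - 1) with hb'
    have hnm : n m = cis x * cis b := by
      rw [← cis_add]
      rfl
    have hnm' : n (m - 1) = cis x * cis (b' - Real.pi / 3) := by
      rw [← cis_add, hn, nrm_pred]
    set s := cr (n (m - 1)) (n m) with hs
    have hs' : s = Real.sin (Real.pi / 3 + (b - b')) := by
      rw [hs, hn, cr_nrm]
    have hs0 := hcr m
    rw [← hs] at hs0
    have hreg : cis (α - Real.pi / 3) * reg m = cis x * ⟨1, -(Real.sqrt 3 / 3)⟩ := by
      have hr : reg m = cis ((m : ℕ) * (Real.pi / 3)) * ⟨1, Real.sqrt 3 / 3⟩ := by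
        have e1 : Real.cos (2 * (Real.pi / 3)) = -(1 / 2) := by
          rw [Real.cos_two_mul, Real.cos_pi_div_three]; norm_num
        have e2 : Real.sin (2 * (Real.pi / 3)) = Real.sqrt 3 / 2 := by
          rw [Real.sin_two_mul, Real.cos_pi_div_three, Real.sin_pi_div_three]; ring
        have e3 : Real.cos (3 * (Real.pi / 3)) = -1 := by
          rw [show 3 * (Real.pi / 3) = Real.pi by ring, Real.cos_pi]
        have e4 : Real.sin (3 * (Real.pi / 3)) = 0 := by
          rw [show 3 * (Real.pi / 3) = Real.pi by ring, Real.sin_pi]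
        have e5 : Real.cos (4 * (Real.pi / 3)) = -(1 / 2) := by
          rw [show 4 * (Real.pi / 3) = Real.pi / 3 + Real.pi by ring, Real.cos_add_pi,
            Real.cos_pi_div_three]
        have e6 : Real.sin (4 * (Real.pi / 3)) = -(Real.sqrt 3 / 2) := by
          rw [show 4 * (Real.pi / 3) = Real.pi / 3 + Real.pi by ring, Real.sin_add_pi,
            Real.sin_pi_div_three]
        have e7 : Real.cos (5 * (Real.pi / 3)) = 1 / 2 := by
          rw [show 5 * (Real.pi / 3) = 2 * Real.pi - Real.pi / 3 by ring,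
            Real.cos_two_pi_sub, Real.cos_pi_div_three]
        have e8 : Real.sin (5 * (Real.pi / 3)) = -(Real.sqrt 3 / 2) := by
          rw [show 5 * (Real.pi / 3) = 2 * Real.pi - Real.pi / 3 by ring,
            Real.sin_two_pi_sub, Real.sin_pi_div_three]
        fin_cases m
        · apply Complex.ext <;> simp [reg, u1, u2, cis] <;> ring
        · apply Complex.ext <;> simp [reg, u1, u2, cis] <;> nlinarith
        · apply Complex.ext <;> simp [reg, u1, u2, cis, e1, e2] <;> nlinarith
        · apply Complex.ext <;> simp [reg, u1, u2, cis, e3, e4] <;> nlinarith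
        · apply Complex.ext <;> simp [reg, u1, u2, cis, e5, e6] <;> nlinarith
        · apply Complex.ext <;> simp [reg, u1, u2, cis, e7, e8] <;> nlinarith
      have h1 : cis (-(Real.pi / 3)) * (⟨1, Real.sqrt 3 / 3⟩ : ℂ) =
          ⟨1, -(Real.sqrt 3 / 3)⟩ := by
        apply Complex.ext
        · simp only [Complex.mul_re, cis_re, cis_im, Real.cos_neg, Real.sin_neg,
            Real.cos_pi_div_three, Real.sin_pi_div_three]
          linear_combination (1 / 6) * hsq3
        · simp only [Complex.mul_im, cis_re, cis_im, Real.cos_neg, Real.sin_neg,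
            Real.cos_pi_div_three, Real.sin_pi_div_three]
          ring
      rw [hr, sub_eq_add_neg, cis_add, hx, cis_add, ← h1]
      ring
    have hqm : q m = cis x * ⟨(h m * Real.sin (Real.pi / 3 - b') + h (m - 1) * Real.sin b) / s,
        (h m * Real.cos (Real.pi / 3 - b') - h (m - 1) * Real.cos b) / s⟩ := by
      have h1 : q m = (((h m : ℝ) : ℂ) * (Complex.I * n (m - 1)) -
          ((h (m - 1) : ℝ) : ℂ) * (Complex.I * n m)) / ((s : ℝ) : ℂ) := rfl
      have h2 : (⟨(h m * Real.sin (Real.pi / 3 - b') + h (m - 1) * Real.sin b) / s,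
        (h m * Real.cos (Real.pi / 3 - b') - h (m - 1) * Real.cos b) / s⟩ : ℂ) =
          (((h m : ℝ) : ℂ) * (Complex.I * cis (b' - Real.pi / 3)) -
          ((h (m - 1) : ℝ) : ℂ) * (Complex.I * cis b)) / ((s : ℝ) : ℂ) := by
        have e1 : Real.sin (Real.pi / 3 - b') = -Real.sin (b' - Real.pi / 3) := by
          rw [← Real.sin_neg, neg_sub]
        have e2 : Real.cos (Real.pi / 3 - b') = Real.cos (b' - Real.pi / 3) := by
          rw [← Real.cos_neg, neg_sub]
        rw [e1, e2]
        apply Complex.ext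
        · rw [Complex.div_ofReal_re]
          simp only [Complex.sub_re, Complex.mul_re, Complex.ofReal_re, Complex.ofReal_im,
            Complex.I_re, Complex.I_im, Complex.mul_im, cis_re, cis_im]
          ring
        · rw [Complex.div_ofReal_im]
          simp only [Complex.sub_im, Complex.mul_re, Complex.ofReal_re, Complex.ofReal_im,
            Complex.I_re, Complex.I_im, Complex.mul_im, cis_re, cis_im]
          ring
      rw [h1, h2, hnm, hnm']
      ring
    rw [hreg, hqm, ← mul_sub, norm_mul, norm_cis, one_mul]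
    have hb1 : |b| ≤ 1 / 1000 := hβ m
    have hb1' : |b'| ≤ 1 / 1000 := hβ (m - 1)
    have f1 := hh' m
    have f2 := hh' (m - 1)
    -- elementary bounds
    have g1 : |Real.sin b| ≤ 1 / 1000 := Real.abs_sin_le_abs.trans hb1
    have g2 : |Real.cos b - 1| ≤ 1 / 1000 := by
      have := Real.abs_cos_sub_cos_le b 0
      rw [Real.cos_zero, sub_zero] at this
      exact this.trans hb1
    have g3 : |Real.sin (Real.pi / 3 - b') - s| ≤ 1 / 1000 := by
      rw [hs']
      refine (Real.abs_sin_sub_sin_le _ _).trans ?_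
      rw [show Real.pi / 3 - b' - (Real.pi / 3 + (b - b')) = -b by ring, abs_neg]
      exact hb1
    have g4 : |Real.cos (Real.pi / 3 - b') - 1 / 2| ≤ 1 / 1000 := by
      rw [sub_eq_add_neg (Real.pi / 3)]
      exact cos_bound (by rw [abs_neg]; exact hb1')
    have g5 : |s - Real.sqrt 3 / 2| ≤ 1 / 500 := by
      rw [hs']
      exact sin_bound (hd m)
    have g6 := Real.sin_le_one (Real.pi / 3 - b')
    have g6' := Real.neg_one_le_sin (Real.pi / 3 - b')
    have g7 := Real.cos_le_one (Real.pi / 3 - b')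
    have g7' := Real.neg_one_le_cos (Real.pi / 3 - b')
    have g8 := Real.cos_le_one b
    rw [abs_le] at g1 g2 g3 g4 g5
    refine (Complex.norm_le_abs_re_add_abs_im _).trans ?_
    have hs0' : 0 < s := by linarith
    have hR : |(h m * Real.sin (Real.pi / 3 - b') + h (m - 1) * Real.sin b) / s - 1| ≤
        0.0036 := by
      have e : (h m * Real.sin (Real.pi / 3 - b') + h (m - 1) * Real.sin b) / s - 1 =
          ((h m - 1) * Real.sin (Real.pi / 3 - b') + (Real.sin (Real.pi / 3 - b') - s) +
          h (m - 1) * Real.sin b) / s := by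
        field_simp
        ring
      rw [e, abs_div, abs_of_pos hs0', div_le_iff₀ hs0']
      have t1 : |(h m - 1) * Real.sin (Real.pi / 3 - b')| ≤ 1 / 1000 := by
        rw [abs_mul]
        have u1 : |h m - 1| ≤ 1 / 1000 := hh m
        have u2 : |Real.sin (Real.pi / 3 - b')| ≤ 1 := Real.abs_sin_le_one _
        calc |h m - 1| * |Real.sin (Real.pi / 3 - b')| ≤ 1 / 1000 * 1 :=
              mul_le_mul u1 u2 (abs_nonneg _) (by norm_num)
          _ = 1 / 1000 := by norm_num
      have t2 : |h (m - 1) * Real.sin b| ≤ 1.001 / 1000 := by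
        rw [abs_mul]
        have u1 : |h (m - 1)| ≤ 1.001 := by rw [abs_le]; constructor <;> linarith
        have u2 : |Real.sin b| ≤ 1 / 1000 := abs_le.mpr g1
        calc |h (m - 1)| * |Real.sin b| ≤ 1.001 * (1 / 1000) :=
              mul_le_mul u1 u2 (abs_nonneg _) (by norm_num)
          _ = 1.001 / 1000 := by norm_num
      rw [abs_le] at t1 t2 ⊢
      constructor
      · linarith
      · linarith
    have hI : |(h m * Real.cos (Real.pi / 3 - b') - h (m - 1) * Real.cos b) / s -
        (-(Real.sqrt 3 / 3))| ≤ 0.0061 := by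
      have e : (h m * Real.cos (Real.pi / 3 - b') - h (m - 1) * Real.cos b) / s -
          (-(Real.sqrt 3 / 3)) =
          ((h m - 1) * Real.cos (Real.pi / 3 - b') + (Real.cos (Real.pi / 3 - b') - 1 / 2) -
          (h (m - 1) - 1) * Real.cos b - (Real.cos b - 1) +
          (s - Real.sqrt 3 / 2) * (Real.sqrt 3 / 3)) / s := by
        have e' : (s - Real.sqrt 3 / 2) * (Real.sqrt 3 / 3) = s * (Real.sqrt 3 / 3) - 1 / 2 := by
          linear_combination (-(1 / 6)) * hsq3
        rw [e']
        field_simp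
        ring
      rw [e, abs_div, abs_of_pos hs0', div_le_iff₀ hs0']
      have t1 : |(h m - 1) * Real.cos (Real.pi / 3 - b')| ≤ 1 / 1000 := by
        rw [abs_mul]
        have u1 : |h m - 1| ≤ 1 / 1000 := hh m
        have u2 : |Real.cos (Real.pi / 3 - b')| ≤ 1 := Real.abs_cos_le_one _
        calc |h m - 1| * |Real.cos (Real.pi / 3 - b')| ≤ 1 / 1000 * 1 :=
              mul_le_mul u1 u2 (abs_nonneg _) (by norm_num)
          _ = 1 / 1000 := by norm_num
      have t2 : |(h (m - 1) - 1) * Real.cos b| ≤ 1 / 1000 := by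
        rw [abs_mul]
        have u1 : |h (m - 1) - 1| ≤ 1 / 1000 := hh (m - 1)
        have u2 : |Real.cos b| ≤ 1 := Real.abs_cos_le_one _
        calc |h (m - 1) - 1| * |Real.cos b| ≤ 1 / 1000 * 1 :=
              mul_le_mul u1 u2 (abs_nonneg _) (by norm_num)
          _ = 1 / 1000 := by norm_num
      have t3 : |(s - Real.sqrt 3 / 2) * (Real.sqrt 3 / 3)| ≤ 0.00116 := by
        rw [abs_mul]
        have u1 : |s - Real.sqrt 3 / 2| ≤ 1 / 500 := abs_le.mpr g5
        have u2 : |Real.sqrt 3 / 3| ≤ 0.578 := by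
          rw [abs_le]; constructor <;> linarith
        calc |s - Real.sqrt 3 / 2| * |Real.sqrt 3 / 3| ≤ 1 / 500 * 0.578 :=
              mul_le_mul u1 u2 (abs_nonneg _) (by norm_num)
          _ ≤ 0.00116 := by norm_num
      rw [abs_le] at t1 t2 t3 ⊢
      constructor
      · linarith
      · linarith
    have hre : ((⟨(h m * Real.sin (Real.pi / 3 - b') + h (m - 1) * Real.sin b) / s,
        (h m * Real.cos (Real.pi / 3 - b') - h (m - 1) * Real.cos b) / s⟩ : ℂ) -
        ⟨1, -(Real.sqrt 3 / 3)⟩).re =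
        (h m * Real.sin (Real.pi / 3 - b') + h (m - 1) * Real.sin b) / s - 1 := by
      rw [Complex.sub_re]
    have him : ((⟨(h m * Real.sin (Real.pi / 3 - b') + h (m - 1) * Real.sin b) / s,
        (h m * Real.cos (Real.pi / 3 - b') - h (m - 1) * Real.cos b) / s⟩ : ℂ) -
        ⟨1, -(Real.sqrt 3 / 3)⟩).im =
        (h m * Real.cos (Real.pi / 3 - b') - h (m - 1) * Real.cos b) / s -
          (-(Real.sqrt 3 / 3)) := by
      rw [Complex.sub_im]
    rw [hre, him]
    linarith
  · ext z
    constructor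
    · intro hz m
      obtain ⟨L, hL, hLz⟩ := hedge m
      rw [hLz z]
      have := hz m
      exact mul_nonneg hL.le (by linarith)
    · intro hz m
      obtain ⟨L, hL, hLz⟩ := hedge m
      have := hz m
      rw [hLz z] at this
      have := nonneg_of_mul_nonneg_right this hL
      linarith
  · intro m z
    obtain ⟨L, hL, hLz⟩ := hedge m
    rw [hLz z]
    constructor
    · intro hz
      rw [hz, sub_self, mul_zero]
    · intro hz
      rcases mul_eq_zero.mp hz with h0 | h0
      · exact absurd h0 hL.ne'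
      · linarith

end

end Pool.Agent.MP3e
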