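import Pool.Agent.Lib.MP_3e6a92_co.Spec

/-!
Kari's aperiodic Wang system.
-/

set_option autoImplicit false

namespace Pool.Agent.MP3e

namespace Wang

/-- raw tiles: `(q, a, 3b, 3c, d)` and a class modulo 7; `q = true` is the multiplier `2`,
`q = false` is the multiplier `2/3`. -/
abbrev Raw : Type :=
  Bool × Set.Icc (0 : ℤ) 2 × Set.Icc (-6 : ℤ) 3 × Set.Icc (-6 : ℤ) 3 × Set.Icc (0 : ℤ) 2 × ZMod 7

/-- three times the multiplier -/
def q3 (b : Bool) : ℤ := if b then 6 else 2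

/-- the conditions on a tile -/
def Good (t : Raw) : Prop :=
  q3 t.1 * t.2.1.1 + t.2.2.1.1 = t.2.2.2.1.1 + 3 * t.2.2.2.2.1.1 ∧
    (t.1 = true → 1 ≤ t.2.2.2.2.1.1) ∧ (t.1 = false → 1 ≤ t.2.1.1)

/-- the tiles -/
abbrev Tile : Type := {t : Raw // Good t}

instance : Finite Tile := by
  have : Finite (Set.Icc (0 : ℤ) 2) := (Set.finite_Icc (0 : ℤ) 2).to_subtype
  have : Finite (Set.Icc (-6 : ℤ) 3) := (Set.finite_Icc (-6 : ℤ) 3).to_subtype
  infer_instance

/-- the multiplier flag -/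
def qf (t : Tile) : Bool := t.1.1
/-- input -/
def ta (t : Tile) : ℤ := t.1.2.1.1
/-- left carry (times 3) -/
def tb (t : Tile) : ℤ := t.1.2.2.1.1
/-- right carry (times 3) -/
def tc (t : Tile) : ℤ := t.1.2.2.2.1.1
/-- output -/
def td (t : Tile) : ℤ := t.1.2.2.2.2.1.1
/-- class -/
def tcls (t : Tile) : ZMod 7 := t.1.2.2.2.2.2

lemma tile_eq (t : Tile) : q3 (qf t) * ta t + tb t = tc t + 3 * td t := t.2.1
lemma tile_true (t : Tile) (h : qf t = true) : 1 ≤ td t := t.2.2.1 h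
lemma tile_false (t : Tile) (h : qf t = false) : 1 ≤ ta t := t.2.2.2 h
lemma ta_nonneg (t : Tile) : 0 ≤ ta t := t.1.2.1.2.1
lemma td_nonneg (t : Tile) : 0 ≤ td t := t.1.2.2.2.2.1.2.1

/-- the Wang system -/
def sys : WangSys Tile where
  E s t := qf t = qf s ∧ tc s = tb t ∧ tcls t = tcls s + 1
  N s t := td s = ta t ∧ tcls t = tcls s + 3
  cls := tcls
  hE _ _ h := h.2.2
  hN _ _ h := h.2

/-! ### The configuration -/

/-- the real numbers carried by the rows -/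
noncomputable def X : ℕ → ℝ
  | 0 => 1
  | n + 1 => if X n ≤ 1 then 2 * X n else 2 / 3 * X n

/-- flag of row `n` -/
noncomputable def fl (n : ℕ) : Bool := if X n ≤ 1 then true else false

/-- multiplier of row `n` -/
noncomputable def ql (n : ℕ) : ℝ := if X n ≤ 1 then 2 else 2 / 3

lemma X_succ (n : ℕ) : X (n + 1) = ql n * X n := by
  rw [X, ql]
  split_ifs <;> rfl

lemma X_bounds (n : ℕ) : 2 / 3 ≤ X n ∧ X n ≤ 2 := by
  induction n with
  | zero => rw [X]; norm_num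
  | succ n ih =>
    rw [X]
    split_ifs with h
    · constructor <;> linarith [ih.1]
    · push Not at h
      constructor <;> linarith [ih.2]

lemma q3_fl (n : ℕ) : (q3 (fl n) : ℝ) = 3 * ql n := by
  unfold q3 fl ql
  split_ifs <;> norm_num at *

lemma ql_pos (n : ℕ) : 0 < ql n := by
  unfold ql; split_ifs <;> norm_num

lemma ql_le (n : ℕ) : ql n ≤ 2 := by
  unfold ql; split_ifs <;> norm_num

lemma floor_diff_bounds (i : ℤ) {x : ℝ} (h0 : 0 ≤ x) (h2 : x ≤ 2) :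
    0 ≤ ⌊((i + 1 : ℤ) : ℝ) * x⌋ - ⌊(i : ℝ) * x⌋ ∧ ⌊((i + 1 : ℤ) : ℝ) * x⌋ - ⌊(i : ℝ) * x⌋ ≤ 2 := by
  have e : ((i + 1 : ℤ) : ℝ) * x = (i : ℝ) * x + x := by push_cast; ring
  rw [e]
  constructor
  · have : ⌊(i : ℝ) * x⌋ ≤ ⌊(i : ℝ) * x + x⌋ := Int.floor_le_floor (by linarith)
    linarith
  · have : ⌊(i : ℝ) * x + x⌋ ≤ ⌊(i : ℝ) * x + 2⌋ := Int.floor_le_floor (by linarith)
    have h3 : ⌊(i : ℝ) * x + 2⌋ = ⌊(i : ℝ) * x⌋ + 2 := by
      exact_mod_cast Int.floor_add_ofNat ((i : ℝ) * x) 2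
    linarith

lemma floor_diff_one (i : ℤ) {x : ℝ} (h1 : 1 ≤ x) :
    1 ≤ ⌊((i + 1 : ℤ) : ℝ) * x⌋ - ⌊(i : ℝ) * x⌋ := by
  have e : ((i + 1 : ℤ) : ℝ) * x = (i : ℝ) * x + x := by push_cast; ring
  rw [e]
  have : ⌊(i : ℝ) * x + 1⌋ ≤ ⌊(i : ℝ) * x + x⌋ := Int.floor_le_floor (by linarith)
  rw [Int.floor_add_one] at this
  linarith

lemma carry_bounds (y : ℝ) {q : ℝ} (hq : 0 < q) (hq2 : q ≤ 2) (Q : ℤ) (hQ : (Q : ℝ) = 3 * q) :
    -6 ≤ Q * ⌊y⌋ - 3 * ⌊q * y⌋ ∧ Q * ⌊y⌋ - 3 * ⌊q * y⌋ ≤ 3 := by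
  have h1 := Int.floor_le y
  have h2 := Int.lt_floor_add_one y
  have h3 := Int.floor_le (q * y)
  have h4 := Int.lt_floor_add_one (q * y)
  have h5 : q * (⌊y⌋ : ℝ) ≤ q * y := mul_le_mul_of_nonneg_left h1 hq.le
  have h6 : q * y ≤ q * (⌊y⌋ + 1) := mul_le_mul_of_nonneg_left h2.le hq.le
  constructor
  · have : ((-6 : ℤ) : ℝ) ≤ ((Q * ⌊y⌋ - 3 * ⌊q * y⌋ : ℤ) : ℝ) := by
      push_cast
      rw [hQ]
      nlinarith
    exact_mod_cast this
  · have : ((Q * ⌊y⌋ - 3 * ⌊q * y⌋ : ℤ) : ℝ) ≤ ((3 : ℤ) : ℝ) := by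
      push_cast
      rw [hQ]
      nlinarith
    exact_mod_cast this

/-- input at column `i`, row `n` -/
noncomputable def ca (i : ℤ) (n : ℕ) : ℤ := ⌊((i + 1 : ℤ) : ℝ) * X n⌋ - ⌊(i : ℝ) * X n⌋

/-- carry left of column `i`, row `n` -/
noncomputable def cb (i : ℤ) (n : ℕ) : ℤ := q3 (fl n) * ⌊(i : ℝ) * X n⌋ - 3 * ⌊(i : ℝ) * X (n + 1)⌋

lemma ca_mem (i : ℤ) (n : ℕ) : ca i n ∈ Set.Icc (0 : ℤ) 2 := by
  have h := X_bounds n
  exact floor_diff_bounds i (by linarith) h.2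

lemma cb_mem (i : ℤ) (n : ℕ) : cb i n ∈ Set.Icc (-6 : ℤ) 3 := by
  have h := carry_bounds ((i : ℝ) * X n) (ql_pos n) (ql_le n) (q3 (fl n)) (q3_fl n)
  have e : ql n * ((i : ℝ) * X n) = (i : ℝ) * X (n + 1) := by rw [X_succ]; ring
  rw [e] at h
  exact h

lemma conf_good (i : ℤ) (n : ℕ) :
    Good (fl n, ⟨ca i n, ca_mem i n⟩, ⟨cb i n, cb_mem i n⟩, ⟨cb (i + 1) n, cb_mem (i + 1) n⟩,
      ⟨ca i (n + 1), ca_mem i (n + 1)⟩, (i : ZMod 7) + 3 * n) := by
  refine ⟨?_, ?_, ?_⟩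
  · simp only [ca, cb]
    ring
  · intro h
    simp only at h ⊢
    have hx : X n ≤ 1 := by
      by_contra hcon
      simp [fl, hcon] at h
    have h2 : 1 ≤ X (n + 1) := by
      rw [X_succ, ql, if_pos hx]
      linarith [(X_bounds n).1]
    exact floor_diff_one i h2
  · intro h
    simp only at h ⊢
    have hx : ¬ X n ≤ 1 := by
      intro hcon
      simp [fl, hcon] at h
    push Not at hx
    exact floor_diff_one i hx.le

/-- the configuration -/
noncomputable def conf (i : ℤ) (n : ℕ) : Tile :=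
  ⟨(fl n, ⟨ca i n, ca_mem i n⟩, ⟨cb i n, cb_mem i n⟩, ⟨cb (i + 1) n, cb_mem (i + 1) n⟩,
      ⟨ca i (n + 1), ca_mem i (n + 1)⟩, (i : ZMod 7) + 3 * n), conf_good i n⟩

lemma hasConf : HasConf sys := by
  refine ⟨conf, fun x y => ⟨⟨rfl, rfl, ?_⟩, rfl, ?_⟩⟩
  · change ((x + 1 : ℤ) : ZMod 7) + 3 * (y : ZMod 7) = ((x : ZMod 7) + 3 * y) + 1
    push_cast
    ring
  · change (x : ZMod 7) + 3 * ((y + 1 : ℕ) : ZMod 7) = ((x : ZMod 7) + 3 * y) + 3
    push_cast
    ring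

/-! ### No periodic configuration -/

lemma noPeriodic : NoPeriodic sys := by
  intro I _ hne E N a hcomm hrel
  classical
  have : Finite (Equiv.Perm I) := inferInstance
  obtain ⟨i0⟩ := hne
  set p := orderOf E with hp
  have hp0 : 0 < p := orderOf_pos E
  have hEp : ∀ x, (E ^ p) x = x := fun x => by rw [hp, pow_orderOf_eq_one]; rfl
  set r := orderOf N with hr
  have hr0 : 0 < r := orderOf_pos N
  -- flag is constant on rows
  have hflag : ∀ x (j : ℕ), qf (a ((E ^ j) x)) = qf (a x) := by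
    intro x j
    induction j with
    | zero => rfl
    | succ j ih =>
      rw [pow_succ', Equiv.Perm.mul_apply]
      exact ((hrel _).1.1).trans ih
  -- commutation
  have hcomm' : ∀ x (j : ℕ), (E ^ j) (N x) = N ((E ^ j) x) := by
    intro x j
    induction j with
    | zero => rfl
    | succ j ih => rw [pow_succ', Equiv.Perm.mul_apply, ih, hcomm, Equiv.Perm.mul_apply]
  -- row sums
  let n : I → ℤ := fun x => ∑ j ∈ Finset.range p, ta (a ((E ^ j) x))
  have hsum : ∀ x, q3 (qf (a x)) * n x = 3 * n (N x) := by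
    intro x
    have h1 : ∀ j ∈ Finset.range p, q3 (qf (a x)) * ta (a ((E ^ j) x)) =
        3 * ta (a ((E ^ j) (N x))) + (tb (a ((E ^ (j + 1)) x)) - tb (a ((E ^ j) x))) := by
      intro j _
      have h2 := tile_eq (a ((E ^ j) x))
      rw [hflag] at h2
      have h3 : tc (a ((E ^ j) x)) = tb (a ((E ^ (j + 1)) x)) := by
        rw [pow_succ', Equiv.Perm.mul_apply]
        exact (hrel _).1.2.1
      have h4 : td (a ((E ^ j) x)) = ta (a ((E ^ j) (N x))) := by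
        rw [hcomm']
        exact (hrel _).2.1
      rw [h3, h4] at h2
      linarith
    change q3 (qf (a x)) * ∑ j ∈ Finset.range p, ta (a ((E ^ j) x)) =
      3 * ∑ j ∈ Finset.range p, ta (a ((E ^ j) (N x)))
    rw [Finset.mul_sum, Finset.sum_congr rfl h1, Finset.sum_add_distrib,
      Finset.sum_range_sub (fun j => tb (a ((E ^ j) x))), hEp, Finset.mul_sum]
    simp
  have hpos : ∀ x, 0 < n x := by
    intro x
    have hge : ∀ y, (∀ j, 1 ≤ ta (a ((E ^ j) y))) → 0 < n y := by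
      intro y hy
      exact Finset.sum_pos (fun j _ => lt_of_lt_of_le one_pos (hy j)) ⟨0, Finset.mem_range.2 hp0⟩
    rcases hq : qf (a x) with _ | _
    · exact hge x fun j => tile_false _ (by rw [hflag, hq])
    · have h1 : 0 < n (N x) := hge (N x) fun j => by
        have h4 : td (a ((E ^ j) x)) = ta (a ((E ^ j) (N x))) := by
          rw [hcomm']
          exact (hrel _).2.1
        rw [← h4]
        exact tile_true _ (by rw [hflag, hq])
      have h2 := hsum x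
      rw [hq] at h2
      simp only [q3, if_true] at h2
      linarith
  -- product formula
  have hprod : ∀ k : ℕ, 3 ^ k * n ((N ^ k) i0) =
      (∏ j ∈ Finset.range k, q3 (qf (a ((N ^ j) i0)))) * n i0 := by
    intro k
    induction k with
    | zero => simp
    | succ k ih =>
      rw [Finset.prod_range_succ, pow_succ' N, Equiv.Perm.mul_apply]
      have := hsum ((N ^ k) i0)
      calc (3 : ℤ) ^ (k + 1) * n (N ((N ^ k) i0)) = 3 ^ k * (3 * n (N ((N ^ k) i0))) := by ring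
        _ = 3 ^ k * (q3 (qf (a ((N ^ k) i0))) * n ((N ^ k) i0)) := by rw [this]
        _ = (3 ^ k * n ((N ^ k) i0)) * q3 (qf (a ((N ^ k) i0))) := by ring
        _ = _ := by rw [ih]; ring
  have hfin := hprod r
  rw [hr, pow_orderOf_eq_one] at hfin
  have h1 : (3 : ℤ) ^ (orderOf N) =
      ∏ j ∈ Finset.range (orderOf N), q3 (qf (a ((N ^ j) i0))) :=
    mul_right_cancel₀ (hpos i0).ne' hfin
  have h2 : (2 : ℤ) ∣ ∏ j ∈ Finset.range (orderOf N), q3 (qf (a ((N ^ j) i0))) := by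
    refine dvd_trans ?_ (Finset.dvd_prod_of_mem _ (Finset.mem_range.2 hr0))
    unfold q3
    split_ifs <;> norm_num
  rw [← h1] at h2
  have h3 : (2 : ℤ) ∣ 3 := Int.prime_two.dvd_of_dvd_pow h2
  norm_num at h3

end Wang

theorem stmtW : StmtW := ⟨Wang.Tile, inferInstance, Wang.sys, Wang.hasConf, Wang.noPeriodic⟩

end Pool.Agent.MP3e
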