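import Pool.Agent.Lib.MP_3e6a92_co.Transfer
import Pool.Agent.Lib.MP_3e6a92_co.Bounds
import Pool.Agent.Lib.MP_3e6a92_co.Arcs
import Pool.Agent.Lib.MP_3e6a92_co.Body
import Pool.Agent.Lib.MP_3e6a92_co.CapArea
import Pool.Agent.Lib.MP_3e6a92_co.Comb
import Pool.Agent.Lib.MP_3e6a92_co.HexGeo
import Pool.Agent.Lib.MP_3e6a92_co.HexVol
import Pool.Agent.Lib.MP_3e6a92_co.LocStr
import Pool.Agent.Lib.MP_3e6a92_co.LocalA
import Pool.Agent.Lib.MP_3e6a92_co.LowerD
import Pool.Agent.Lib.MP_3e6a92_co.Meas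
import Pool.Agent.Lib.MP_3e6a92_co.MinB0
import Pool.Agent.Lib.MP_3e6a92_co.MinB4
import Pool.Agent.Lib.MP_3e6a92_co.MinBc
import Pool.Agent.Lib.MP_3e6a92_co.Num
import Pool.Agent.Lib.MP_3e6a92_co.SepLines
import Pool.Agent.Lib.MP_3e6a92_co.SixDir
import Pool.Agent.Lib.MP_3e6a92_co.Types
import Pool.Agent.Lib.MP_3e6a92_co.Vtx
import Pool.Agent.Lib.MP_3e6a92_co.Wang

/-!
The main theorem: there is a convex disc whose packing density is attained by no periodic packing.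
-/

set_option autoImplicit false

namespace Pool.Agent.MP3e

open MeasureTheory Set

theorem mainC : ∃ K : Set ℂ, Convex ℝ K ∧ IsCompact K ∧ (interior K).Nonempty ∧
      (∀ (n : ℕ) (g : Fin n → (ℂ ≃ᵢ ℂ)) (u w : ℂ), IsPacking K g u w →
        (n : ℝ) * (2 * Real.sqrt 3) < (volume (parallelepiped ![u, w])).toReal) ∧
      (∀ M : ℕ, 1 ≤ M → ∃ g : Fin (M * M) → (ℂ ≃ᵢ ℂ),
        IsPacking K g (((M : ℝ) + 1 : ℝ) * u1) (((M : ℝ) + 1 : ℝ) * u2)) := by
  obtain ⟨h1, h2, h3, h4⟩ := stmtTypes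
  exact main_C stmtW h1 (stmtA stmtCap stmtArc stmtNum stmtSix) (stmtBody h4)
    (stmtBc stmtVtx (stmtB0 stmtVtx) h4) stmtB4 stmtHexGeom stmtHexVol stmtVtx h2 h3 h4 stmtSep
    stmtMeas stmtQ stmtC (stmtD stmtHexGeom)

/-- There is a convex disc whose packing density is attained by no periodic packing. -/
theorem exists_disc :
    ∃ K : Set (EuclideanSpace ℝ (Fin 2)), Convex ℝ K ∧ IsCompact K ∧ (interior K).Nonempty ∧
      ¬ (sSup {d : ℝ | ∃ n : ℕ, ∃ g : Fin n → (EuclideanSpace ℝ (Fin 2) ≃ᵢ EuclideanSpace ℝ (Fin 2)),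
        ∃ u w : EuclideanSpace ℝ (Fin 2),
        LinearIndependent ℝ ![u, w] ∧
        (∀ i j : Fin n, ∀ a b c e : ℤ, (i, a, b) ≠ (j, c, e) →
          Disjoint (interior ((fun x => g i x + ((a : ℝ) • u + (b : ℝ) • w)) '' K))
                   (interior ((fun x => g j x + ((c : ℝ) • u + (e : ℝ) • w)) '' K))) ∧
        d = (n : ℝ) * (MeasureTheory.volume K).toReal
              / (MeasureTheory.volume (parallelepiped ![u, w])).toReal}
      ∈ {d : ℝ | ∃ n : ℕ, ∃ g : Fin n → (EuclideanSpace ℝ (Fin 2) ≃ᵢ EuclideanSpace ℝ (Fin 2)),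
        ∃ u w : EuclideanSpace ℝ (Fin 2),
        LinearIndependent ℝ ![u, w] ∧
        (∀ i j : Fin n, ∀ a b c e : ℤ, (i, a, b) ≠ (j, c, e) →
          Disjoint (interior ((fun x => g i x + ((a : ℝ) • u + (b : ℝ) • w)) '' K))
                   (interior ((fun x => g j x + ((c : ℝ) • u + (e : ℝ) • w)) '' K))) ∧
        d = (n : ℝ) * (MeasureTheory.volume K).toReal
              / (MeasureTheory.volume (parallelepiped ![u, w])).toReal}) :=
  notMain_of mainC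

end Pool.Agent.MP3e
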