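import Pool.Agent.Lib.MP_3e6a92_co.Basic

/-!
Assembly of the local theorem: every cell has area at least `2 √3`, with equality only for the
prescribed hexagons.
-/

set_option autoImplicit false

namespace Pool.Agent.MP3e

open MeasureTheory Set

noncomputable section

instance finite_Ty {S : Type} [Finite S] (W : WangSys S) : Finite (Ty W) := by
  let f : Ty W → S × S × S × S × S × S := fun t => (t.A, t.B, t.C, t.D, t.E, t.F)
  refine Finite.of_injective f ?_
  intro t t' h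
  cases t; cases t'
  simp only [f, Prod.mk.injEq] at h
  obtain ⟨h1, h2, h3, h4, h5, h6⟩ := h
  subst h1; subst h2; subst h3; subst h4; subst h5; subst h6
  rfl

theorem exists_surj (T : Type) [Finite T] [Nonempty T] (N : ℕ) (hN : Nat.card T ≤ N) :
    ∃ tt : Fin N → T, Function.Surjective tt := by
  have e := Finite.equivFin T
  let f : T → Fin N := fun t => Fin.castLE hN (e t)
  have hf : Function.Injective f := by
    intro a b hab
    have := Fin.castLE_injective hN hab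
    exact e.injective this
  exact ⟨Function.invFun f, Function.invFun_surjective hf⟩

/-- The complete package produced by the local analysis. -/
structure Package {S : Type} (W : WangSys S) (γ : S → ℝ) (ε : ℝ) {N : ℕ} (tt : Fin N → Ty W)
    (r e : ℝ) : Prop where
  surj : Function.Surjective tt
  r_pos : 0 < r
  e_nonneg : 0 ≤ e
  ball_sub : Metric.closedBall (0 : ℂ) r ⊆ body γ ε tt
  sub_ball : body γ ε tt ⊆ Metric.closedBall (0 : ℂ) (1 + e)
  close : ∀ (t : Ty W) (m : Fin 6), ‖corner γ ε t m - reg m‖ ≤ 1 / 100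
  lab : ∀ (t t' : Ty W) (m m' : Fin 6),
    ‖corner γ ε t (m + 1) - corner γ ε t m‖ = ‖corner γ ε t' (m' + 1) - corner γ ε t' m'‖ →
    label t m = label t' m'
  loc : LocalThm (body γ ε tt) r e (Qc γ ε tt)

theorem kap_pos {N : ℕ} (hN : 1 ≤ N) : 0 < kap N := by
  have h3 : 0 < Real.sqrt 3 / 2 := by positivity
  have hN' : (1 : ℝ) ≤ N := by exact_mod_cast hN
  have h1 : 0 < Real.pi / (9 * N) := by positivity
  have h2 : Real.pi / (9 * N) < Real.pi / 2 := by
    apply div_lt_div_of_pos_left Real.pi_pos (by norm_num) (by linarith)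
  exact mul_pos h3 (Real.tan_pos_of_pos_of_lt_pi_div_two h1 h2)

theorem nearReg_Qc {S : Type} {W : WangSys S} {γ : S → ℝ} {ε : ℝ} {N : ℕ} (tt : Fin N → Ty W)
    (hcl : ∀ (t : Ty W) (m : Fin 6), ‖corner γ ε t m - reg m‖ ≤ 1 / 100) (k : Fin N) :
    NearReg ((k : ℕ) * (Real.pi / (3 * N))) (Qc γ ε tt k) := by
  intro m
  have : Qc γ ε tt k m - cis ((k : ℕ) * (Real.pi / (3 * N))) * reg m =
      cis ((k : ℕ) * (Real.pi / (3 * N))) * (corner γ ε (tt k) m - reg m) := by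
    simp only [Qc]; ring
  rw [this, norm_mul, norm_cis, one_mul]
  exact hcl _ _

theorem shoe_Qc {S : Type} {W : WangSys S} {γ : S → ℝ} {ε : ℝ} {N : ℕ} (tt : Fin N → Ty W)
    (hShoe : StmtShoe) (k : Fin N) : shoe (Qc γ ε tt k) = 4 * Real.sqrt 3 := by
  have : Qc γ ε tt k = fun m => cis ((k : ℕ) * (Real.pi / (3 * N))) * corner γ ε (tt k) m := rfl
  rw [this, shoe_rot]
  exact hShoe S W γ ε (tt k)

theorem localThm_of (hB4 : StmtB4) (hHG : StmtHexGeom) (hHV : StmtHexVol)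
    (hV : StmtVtx) (hShoe : StmtShoe)
    {S : Type} {W : WangSys S} {γ : S → ℝ} {ε : ℝ} {N : ℕ} (hN : 1 ≤ N) (tt : Fin N → Ty W)
    (r e c : ℝ) (hr : 1 - 1 / 1000 ≤ r)
    (hcl : ∀ (t : Ty W) (m : Fin 6), ‖corner γ ε t m - reg m‖ ≤ 1 / 100)
    (hpt : ∀ (k : Fin N) (m : Fin 6) (s : ℝ), (s = kap N ∨ s = -kap N) →
        sidePt (Qc γ ε tt k) m s ∈ body γ ε tt)
    (hA : ∀ (J : Type) (c n : J → ℂ) (h : J → ℝ), Config r e c n h →
      volume (cellOf n h) ≤ ENNReal.ofReal (2 * Real.sqrt 3) →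
      ∃ (j : Fin 6 → J) (α : ℝ) (β : Fin 6 → ℝ), Function.Injective j ∧ (∀ m, |β m| ≤ 1 / 1000) ∧
        (∀ m, n (j m) = nrm α β m) ∧ (∀ m, h (j m) ≤ 1 + 1 / 1000) ∧
        (∀ l, l ∉ range j → 7 / 5 ≤ h l))
    (hB : ∀ (α : ℝ) (β h : Fin 6 → ℝ), (∀ m, |β m| ≤ 1 / 1000) → (∀ m, r ≤ h m) →
      (∀ m, h m ≤ 1 + 1 / 1000) →
      (∀ (k : Fin N) (m : Fin 6) (s : ℝ), (s = kap N ∨ s = -kap N) →
        sidePt (Qc γ ε tt k) m s ∈ cellOf (nrm α β) h) →
      shoe (vtx (nrm α β) h) ≤ 4 * Real.sqrt 3 →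
      ∃ (k : Fin N) (m₀ : Fin 6), ∀ m, ‖vtx (nrm α β) h (m + m₀) - Qc γ ε tt k m‖ ≤ c)
    (hc : ∀ (θ : ℝ) (q0 q : Fin 6 → ℂ), NearReg θ q0 →
      (∀ m, ‖q m - q0 m‖ ≤ c) →
      (∀ (m : Fin 6) (s : ℝ), (s = kap N ∨ s = -kap N) →
        0 ≤ cr (q (m + 1) - q m) (sidePt q0 m s - q m)) →
      shoe q0 ≤ shoe q ∧ (shoe q = shoe q0 → q = q0)) :
    LocalThm (body γ ε tt) r e (Qc γ ε tt) := by
  intro J cc n h hcfg hK
  by_cases hvol : volume (cellOf n h) ≤ ENNReal.ofReal (2 * Real.sqrt 3)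
  swap
  · exact ⟨le_of_lt (not_le.mp hvol), fun h' => absurd h' hvol⟩
  obtain ⟨j, α, β, hj, hβ, hn, hh, hoth⟩ := hA J cc n h hcfg hvol
  set h' : Fin 6 → ℝ := fun m => h (j m) with hh'
  have hh1 : ∀ m, |h' m - 1| ≤ 1 / 1000 := by
    intro m
    rw [abs_le]
    have h1 := hcfg.le_h (j m)
    have h2 := hh m
    constructor
    · simp only [hh']; linarith
    · simp only [hh']; linarith
  obtain ⟨hnear, hcell, hline⟩ := hV α β h' hβ hh1
  set q := vtx (nrm α β) h' with hq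
  have hgeo := hHG _ _ hnear
  -- the cell equals the polygon of the six lines
  have hCP : cellOf n h = Hex q := by
    rw [← hcell]
    apply Subset.antisymm
    · intro z hz m
      have := hz (j m)
      rw [hn m] at this
      exact this
    · intro z hz l
      by_cases hl : l ∈ range j
      · obtain ⟨m, rfl⟩ := hl
        rw [hn m]
        exact hz m
      · have hz' : z ∈ Hex q := by rw [← hcell]; exact hz
        have hz2 := hgeo.sub_ball hz'
        rw [mem_closedBall_zero_iff] at hz2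
        have h1 := dt_le (n l) z
        rw [hcfg.norm_n l, one_mul] at h1
        have h2 := hoth l hl
        linarith
  have hvolq := hHV _ _ hnear
  have hsh : shoe q ≤ 4 * Real.sqrt 3 := by
    have h1 : ENNReal.ofReal (shoe q / 2) ≤ ENNReal.ofReal (2 * Real.sqrt 3) := by
      refine hvolq.trans ?_
      rw [← hCP]; exact hvol
    rw [ENNReal.ofReal_le_ofReal_iff (by positivity)] at h1
    linarith
  have hmem : ∀ (k : Fin N) (m : Fin 6) (s : ℝ), (s = kap N ∨ s = -kap N) →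
      sidePt (Qc γ ε tt k) m s ∈ cellOf (nrm α β) h' := by
    intro k m s hs l
    have := hK (j l) _ (hpt k m s hs)
    rw [hn l] at this
    exact this
  obtain ⟨k, m₀, hkm⟩ := hB α β h' hβ (fun m => hcfg.le_h (j m)) hh hmem hsh
  have hqs : ∀ (m : Fin 6) (s : ℝ), (s = kap N ∨ s = -kap N) →
      0 ≤ cr (q (m + 1 + m₀) - q (m + m₀)) (sidePt (Qc γ ε tt k) m s - q (m + m₀)) := by
    intro m s hs
    have h1 := hmem k m s hs
    rw [hcell] at h1
    have h2 := h1 (m + m₀)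
    rw [add_right_comm m 1 m₀]
    exact h2
  obtain ⟨h4a, h4b⟩ := hc ((k : ℕ) * (Real.pi / (3 * N))) (Qc γ ε tt k) (fun m => q (m + m₀))
    (nearReg_Qc tt hcl k) hkm hqs
  rw [shoe_shift, shoe_Qc tt hShoe k] at h4a
  have hshe : shoe q = 4 * Real.sqrt 3 := le_antisymm hsh h4a
  have hqQ : (fun m => q (m + m₀)) = Qc γ ε tt k := by
    apply h4b
    rw [shoe_shift, shoe_Qc tt hShoe k, hshe]
  constructor
  · rw [hCP]
    refine le_trans ?_ hvolq
    apply ENNReal.ofReal_le_ofReal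
    rw [hshe]; linarith
  · intro _
    refine ⟨k, fun m => j (m + m₀), ?_, ?_, ?_, ?_⟩
    · intro a b hab
      exact add_right_cancel (hj hab)
    · rw [hCP, ← hqQ, Hex_shift]
    · intro m z
      have h1 := hline (m + m₀) z
      rw [← hn (m + m₀)] at h1
      rw [← hqQ]
      show dt (n (j (m + m₀))) z = h (j (m + m₀)) ↔
        cr (q (m + 1 + m₀) - q (m + m₀)) (z - q (m + m₀)) = 0
      rw [add_right_comm m 1 m₀]
      exact h1
    · intro l hl z hz
      have hl' : l ∉ range j := by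
        rintro ⟨m, rfl⟩
        exact hl ⟨m - m₀, by simp⟩
      have hz' : z ∈ Hex q := by rw [← hCP]; exact hz
      have hz2 := hgeo.sub_ball hz'
      rw [mem_closedBall_zero_iff] at hz2
      have h1 := dt_le (n l) z
      rw [hcfg.norm_n l, one_mul] at h1
      have h2 := hoth l hl'
      linarith

theorem exists_package (hA : StmtA) (hBody : StmtBody) (hBc : StmtBc) (hB4 : StmtB4)
    (hHG : StmtHexGeom) (hHV : StmtHexVol) (hV : StmtVtx) (hShoe : StmtShoe) (hLab : StmtLabel)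
    (hCl : StmtClose) {S : Type} [Finite S] (W : WangSys S) [Nonempty (Ty W)] (γ : S → ℝ)
    (hγ : Sidon γ) :
    ∃ (ε : ℝ) (N : ℕ) (tt : Fin N → Ty W) (r e : ℝ), 1 ≤ N ∧ Package W γ ε tt r e := by
  obtain ⟨τ, hτ, hA'⟩ := hA (1 / 1000) (by norm_num)
  obtain ⟨N₀, hN₀⟩ := hBody S W γ τ hτ
  set N := max (max N₀ 1) (Nat.card (Ty W)) with hN
  have hN1 : 1 ≤ N := le_trans (le_max_right _ _) (le_max_left _ _)
  have hNN : N₀ ≤ N := le_trans (le_max_left _ _) (le_max_left _ _)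
  obtain ⟨tt, htt⟩ := exists_surj (Ty W) N (le_max_right _ _)
  obtain ⟨c, hc, hc'⟩ := hB4 (kap N) (kap_pos hN1)
  obtain ⟨ε₁, hε₁, τ', hτ', hBc'⟩ := hBc S W γ N hN1 c hc
  set σ := min (min τ τ') (1 / 1000) with hσ
  have hσ0 : 0 < σ := by
    rw [hσ]; refine lt_min (lt_min hτ hτ') (by norm_num)
  have hσ1 : σ ≤ τ := le_trans (min_le_left _ _) (min_le_left _ _)
  have hσ2 : σ ≤ τ' := le_trans (min_le_left _ _) (min_le_right _ _)
  have hσ3 : σ ≤ 1 / 1000 := min_le_right _ _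
  obtain ⟨ε₂, hε₂, hbody⟩ := hN₀ N hNN hN1 σ hσ0
  obtain ⟨ε₃, hε₃, hcl⟩ := hCl S W γ (1 / 100) (by norm_num)
  obtain ⟨ε₄, hε₄, hlab⟩ := hLab S W γ hγ
  set ε := min (min ε₁ ε₂) (min ε₃ ε₄) / 2 with hε
  have hm : 0 < min (min ε₁ ε₂) (min ε₃ ε₄) := lt_min (lt_min hε₁ hε₂) (lt_min hε₃ hε₄)
  have hε0 : 0 < ε := by rw [hε]; linarith
  have hεlt : ε < min (min ε₁ ε₂) (min ε₃ ε₄) := by rw [hε]; linarith
  have hεa : |ε| = ε := abs_of_pos hε0
  have l1 : |ε| < ε₁ := by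
    rw [hεa]; exact lt_of_lt_of_le hεlt (le_trans (min_le_left _ _) (min_le_left _ _))
  have l2 : |ε| < ε₂ := by
    rw [hεa]; exact lt_of_lt_of_le hεlt (le_trans (min_le_left _ _) (min_le_right _ _))
  have l3 : |ε| < ε₃ := by
    rw [hεa]; exact lt_of_lt_of_le hεlt (le_trans (min_le_right _ _) (min_le_left _ _))
  have l4 : ε < ε₄ := lt_of_lt_of_le hεlt (le_trans (min_le_right _ _) (min_le_right _ _))
  obtain ⟨hb1, hb2, hb3⟩ := hbody ε l2 tt
  refine ⟨ε, N, tt, 1 - σ, τ, hN1, ?_⟩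
  refine ⟨htt, by linarith, hτ.le, hb1, hb2, hcl ε l3, hlab ε hε0 l4, ?_⟩
  refine localThm_of hB4 hHG hHV hV hShoe hN1 tt (1 - σ) τ c (by linarith) (hcl ε l3) hb3 ?_ ?_ hc'
  · intro J cc n h hcfg hvol
    exact hA' (1 - σ) τ (by linarith) (by linarith) hτ.le le_rfl J cc n h hcfg hvol
  · intro α β h hβ hr hh hpt hs
    exact hBc' ε l1 tt α β h hβ (fun m => by have := hr m; linarith) hh hpt hs

end

end Pool.Agent.MP3e
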