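import Pool.Agent.Lib.MP_3e6a92_co.Spec

/-!
Total area of the cells of a periodic packing, covering in case of equality.
-/

set_option autoImplicit false

namespace Pool.Agent.MP3e

open MeasureTheory Set
open scoped Pointwise

noncomputable section

namespace Meas

lemma dt_add (n z w : ℂ) : dt n (z + w) = dt n z + dt n w := by
  simp only [dt, Complex.add_re, Complex.add_im]; ring

lemma dt_sub (n z w : ℂ) : dt n (z - w) = dt n z - dt n w := by
  simp only [dt, Complex.sub_re, Complex.sub_im]; ring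

lemma dt_neg_left (n z : ℂ) : dt (-n) z = -dt n z := by
  simp only [dt, Complex.neg_re, Complex.neg_im]; ring

/-- the linear functional `dt n` -/
def dtL (n : ℂ) : ℂ →ₗ[ℝ] ℝ where
  toFun := dt n
  map_add' := dt_add n
  map_smul' := by
    intro c z
    simp [dt, Complex.real_smul, smul_eq_mul]
    ring

lemma dt_continuous (n : ℂ) : Continuous (dt n) :=
  (dtL n).continuous_of_finiteDimensional

lemma dt_self {n : ℂ} (hn : ‖n‖ = 1) : dt n n = 1 := by
  have h := Complex.sq_norm n
  rw [hn, Complex.normSq_apply] at h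
  simp only [dt]
  linarith

/-- lines are null sets -/
lemma line_null {n : ℂ} (hn : ‖n‖ = 1) (h : ℝ) : volume {z : ℂ | dt n z = h} = 0 := by
  have h1 : {z : ℂ | dt n z = h} =
      (fun z : ℂ => z + -((h : ℂ) * n)) ⁻¹' ((LinearMap.ker (dtL n) : Submodule ℝ ℂ) : Set ℂ) := by
    ext z
    simp only [mem_ofPred_eq, mem_preimage, SetLike.mem_coe, LinearMap.mem_ker]
    change dt n z = h ↔ dt n (z + -((h : ℂ) * n)) = 0
    rw [← sub_eq_add_neg]
    rw [dt_sub]
    have : dt n ((h : ℂ) * n) = h := by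
      have h2 := dt_self hn
      simp only [dt] at h2 ⊢
      simp only [Complex.mul_re, Complex.mul_im, Complex.ofReal_re, Complex.ofReal_im]
      linear_combination h * h2
    rw [this, sub_eq_zero]
  rw [h1, measure_preimage_add_right]
  apply Measure.addHaar_submodule
  intro htop
  have h3 : n ∈ (LinearMap.ker (dtL n) : Submodule ℝ ℂ) := by rw [htop]; trivial
  rw [LinearMap.mem_ker] at h3
  change dt n n = 0 at h3
  rw [dt_self hn] at h3
  exact one_ne_zero h3

variable {K : Set ℂ} {e : ℝ} {n : ℕ} {g : Fin n → (ℂ ≃ᵢ ℂ)} {u w : ℂ}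
  {nn : Fin n × ℤ × ℤ → Fin n × ℤ × ℤ → ℂ} {hh : Fin n × ℤ × ℤ → Fin n × ℤ × ℤ → ℝ}

lemma cell_closed {X : Type} (nn : X → X → ℂ) (hh : X → X → ℝ) (x : X) :
    IsClosed (cell nn hh x) := by
  have : cell nn hh x = ⋂ y, ⋂ (_ : y ≠ x), {z | dt (nn x y) z ≤ hh x y} := by
    ext z; simp [cell]
  rw [this]
  exact isClosed_iInter fun y => isClosed_iInter fun _ =>
    isClosed_le (dt_continuous _) continuous_const

/-- translation of cells -/
lemma cell_sh (s : Sep K e g u w nn hh) (a b : ℤ) (x : Fin n × ℤ × ℤ) (z : ℂ) :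
    z ∈ cell nn hh (sh a b x) ↔ z - ((a : ℝ) • u + (b : ℝ) • w) ∈ cell nn hh x := by
  have hinj : ∀ y z : Fin n × ℤ × ℤ, sh a b y = sh a b z ↔ y = z := by
    rintro ⟨i, y1, y2⟩ ⟨j, z1, z2⟩
    simp [sh]
  constructor
  · intro h y hy
    have h1 := h (sh a b y) (fun h => hy ((hinj _ _).1 h))
    rw [s.shift_n x y a b (Ne.symm hy), s.shift_h x y a b (Ne.symm hy)] at h1
    rw [dt_sub]
    linarith
  · intro h y hy
    obtain ⟨y', rfl⟩ : ∃ y', sh a b y' = y := ⟨sh (-a) (-b) y, by
      rcases y with ⟨i, y1, y2⟩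
      simp [sh]⟩
    have hy' : y' ≠ x := fun h => hy (by rw [h])
    have h1 := h y' hy'
    rw [s.shift_n x y' a b (Ne.symm hy'), s.shift_h x y' a b (Ne.symm hy')]
    rw [dt_sub] at h1
    linarith

/-- different cells meet in null sets -/
lemma cell_inter_null (s : Sep K e g u w nn hh) {x y : Fin n × ℤ × ℤ} (hxy : x ≠ y) :
    volume (cell nn hh x ∩ cell nn hh y) = 0 := by
  refine measure_mono_null ?_ (line_null (s.norm x y hxy) (hh x y))
  rintro z ⟨hx, hy⟩
  have h1 := hx y hxy.symm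
  have h2 := hy x hxy
  rw [s.anti_n x y hxy, s.anti_h x y hxy, dt_neg_left] at h2
  exact le_antisymm h1 (by linarith)

end Meas

open Meas in
theorem stmtMeas : StmtMeas := by
  intro K e n g u w nn hh hli s
  -- the basis
  let b : Module.Basis (Fin 2) ℝ ℂ := basisOfLinearIndependentOfCardEqFinrank hli
    (by rw [Fintype.card_fin, Complex.finrank_real_complex])
  have hb : (b : Fin 2 → ℂ) = ![u, w] := coe_basisOfLinearIndependentOfCardEqFinrank _ _
  have hb0 : b 0 = u := by rw [hb]; rfl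
  have hb1 : b 1 = w := by rw [hb]; rfl
  let L := (Submodule.span ℤ (Set.range b)).toAddSubgroup
  let F := ZSpan.fundamentalDomain b
  have hF : IsAddFundamentalDomain L F volume := ZSpan.isAddFundamentalDomain' b volume
  have hFm : MeasurableSet F := ZSpan.fundamentalDomain_measurableSet b
  have hFv : volume F = volume (parallelepiped ![u, w]) := by
    rw [← hb]; exact measure_congr (ZSpan.fundamentalDomain_ae_parallelepiped b volume)
  have hFfin : volume F ≠ ⊤ :=
    (Bornology.IsBounded.measure_lt_top (ZSpan.fundamentalDomain_isBounded b)).ne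
  have hcoord : ∀ x y : ℝ, b.equivFun (x • u + y • w) = ![x, y] := by
    intro x y
    rw [← hb0, ← hb1, map_add, map_smul, map_smul]
    funext j
    rw [Pi.add_apply, Pi.smul_apply, Pi.smul_apply, Module.Basis.equivFun_self,
      Module.Basis.equivFun_self]
    fin_cases j <;> simp
  -- the index
  have hmem : ∀ p : ℤ × ℤ, (p.1 : ℝ) • u + (p.2 : ℝ) • w ∈ L := by
    intro p
    change _ ∈ Submodule.span ℤ (Set.range b)
    have h0 : u ∈ Submodule.span ℤ (Set.range b) := Submodule.subset_span ⟨0, hb0⟩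
    have h1 : w ∈ Submodule.span ℤ (Set.range b) := Submodule.subset_span ⟨1, hb1⟩
    rw [Int.cast_smul_eq_zsmul, Int.cast_smul_eq_zsmul]
    exact add_mem (Submodule.smul_mem _ _ h0) (Submodule.smul_mem _ _ h1)
  let e' : ℤ × ℤ → L := fun p => ⟨(p.1 : ℝ) • u + (p.2 : ℝ) • w, hmem p⟩
  have he' : Function.Bijective e' := by
    constructor
    · intro p q hpq
      have h1 : (p.1 : ℝ) • u + (p.2 : ℝ) • w = (q.1 : ℝ) • u + (q.2 : ℝ) • w :=
        congrArg Subtype.val hpq
      have h2 := congrArg b.equivFun h1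
      rw [hcoord, hcoord] at h2
      have h3 := congrFun h2 0
      have h4 := congrFun h2 1
      simp only [Matrix.cons_val_zero, Matrix.cons_val_one, Int.cast_inj] at h3 h4
      exact Prod.ext h3 h4
    · rintro ⟨x, hx⟩
      change x ∈ Submodule.span ℤ (Set.range b) at hx
      rw [Submodule.mem_span_range_iff_exists_fun] at hx
      obtain ⟨c, hc⟩ := hx
      refine ⟨(c 0, c 1), Subtype.ext ?_⟩
      rw [Fin.sum_univ_two, hb0, hb1] at hc
      change ((c 0 : ℤ) : ℝ) • u + ((c 1 : ℤ) : ℝ) • w = x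
      rw [Int.cast_smul_eq_zsmul, Int.cast_smul_eq_zsmul]
      exact hc
  have hcell : ∀ (p : ℤ × ℤ) (i : Fin n), (e' p) +ᵥ cell nn hh (i, 0, 0) = cell nn hh (i, p) := by
    intro p i
    have h1 : (i, p) = sh p.1 p.2 (i, 0, 0) := by simp [sh]
    ext z
    rw [h1, cell_sh s, Set.mem_vadd_set_iff_neg_vadd_mem]
    change -((p.1 : ℝ) • u + (p.2 : ℝ) • w) + z ∈ _ ↔ _
    rw [neg_add_eq_sub]
  have hLc : Countable L := Function.Surjective.countable he'.2
  -- total area
  have harea : ∀ i : Fin n, volume (cell nn hh (i, 0, 0)) =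
      ∑' p : ℤ × ℤ, volume (cell nn hh (i, p) ∩ F) := by
    intro i
    rw [hF.measure_eq_tsum, ← (Equiv.ofBijective e' he').tsum_eq]
    refine tsum_congr fun p => ?_
    change volume ((e' p +ᵥ cell nn hh (i, 0, 0)) ∩ F) = _
    rw [hcell]
  have hU : ∑ i : Fin n, volume (cell nn hh (i, 0, 0)) =
      volume (⋃ x : Fin n × ℤ × ℤ, cell nn hh x ∩ F) := by
    rw [measure_iUnion₀]
    · rw [ENNReal.tsum_prod', tsum_fintype]
      exact Finset.sum_congr rfl fun i _ => harea i
    · intro x y hxy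
      refine measure_mono_null ?_ (cell_inter_null s hxy)
      rintro z ⟨⟨h1, -⟩, ⟨h2, -⟩⟩
      exact ⟨h1, h2⟩
    · intro x
      exact ((cell_closed nn hh x).measurableSet.inter hFm).nullMeasurableSet
  refine ⟨?_, ?_⟩
  · rw [hU, ← hFv]
    exact measure_mono (iUnion_subset fun x => inter_subset_right)
  · rintro ⟨ρ, hρ⟩
    -- local finiteness
    have hlf : LocallyFinite (cell nn hh) := by
      let φ : ℂ →L[ℝ] (Fin 2 → ℝ) := LinearMap.toContinuousLinearMap b.equivFun.toLinearMap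
      have hφ : ∀ a c : ℤ, |(a : ℝ)| ≤ ‖φ‖ * ‖(a : ℝ) • u + (c : ℝ) • w‖ ∧
          |(c : ℝ)| ≤ ‖φ‖ * ‖(a : ℝ) • u + (c : ℝ) • w‖ := by
        intro a c
        have h1 : φ ((a : ℝ) • u + (c : ℝ) • w) = ![(a : ℝ), (c : ℝ)] := hcoord _ _
        have h2 := φ.le_opNorm ((a : ℝ) • u + (c : ℝ) • w)
        rw [h1] at h2
        constructor
        · exact (norm_le_pi_norm ![(a : ℝ), (c : ℝ)] 0).trans h2
        · exact (norm_le_pi_norm ![(a : ℝ), (c : ℝ)] 1).trans h2
      intro z
      refine ⟨Metric.ball z 1, Metric.ball_mem_nhds z one_pos, ?_⟩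
      obtain ⟨M, hM⟩ := exists_nat_ge (‖φ‖ * (‖z‖ + 1 + ρ))
      have hfin : (Set.univ ×ˢ (Set.Icc (-(M : ℤ)) M ×ˢ Set.Icc (-(M : ℤ)) M) :
          Set (Fin n × ℤ × ℤ)).Finite :=
        Set.finite_univ.prod ((Set.finite_Icc _ _).prod (Set.finite_Icc _ _))
      refine hfin.subset ?_
      rintro ⟨i, a, c⟩ ⟨y, hy, hyz⟩
      have h1 : (i, a, c) = sh a c (i, 0, 0) := by simp [sh]
      rw [h1, cell_sh s] at hy
      have h2 := hρ i hy
      rw [mem_closedBall_zero_iff] at h2
      rw [mem_ball_iff_norm] at hyz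
      have h3 : ‖(a : ℝ) • u + (c : ℝ) • w‖ ≤ ‖z‖ + 1 + ρ := by
        calc ‖(a : ℝ) • u + (c : ℝ) • w‖ =
              ‖z + (y - z) - (y - ((a : ℝ) • u + (c : ℝ) • w))‖ := by congr 1; ring
          _ ≤ ‖z + (y - z)‖ + ‖y - ((a : ℝ) • u + (c : ℝ) • w)‖ := norm_sub_le _ _
          _ ≤ ‖z‖ + ‖y - z‖ + ‖y - ((a : ℝ) • u + (c : ℝ) • w)‖ := by
              gcongr; exact norm_add_le _ _
          _ ≤ ‖z‖ + 1 + ρ := by gcongr
      have h4 : ‖φ‖ * ‖(a : ℝ) • u + (c : ℝ) • w‖ ≤ M :=
        (mul_le_mul_of_nonneg_left h3 (norm_nonneg _)).trans hM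
      obtain ⟨h5, h6⟩ := hφ a c
      have h7 : |(a : ℝ)| ≤ M := h5.trans h4
      have h8 : |(c : ℝ)| ≤ M := h6.trans h4
      rw [abs_le] at h7 h8
      refine ⟨Set.mem_univ _, ⟨?_, ?_⟩, ?_, ?_⟩
      · exact_mod_cast h7.1
      · exact_mod_cast h7.2
      · exact_mod_cast h8.1
      · exact_mod_cast h8.2
    refine ⟨hlf, fun hle => ?_⟩
    -- covering
    have hclosed : IsClosed (⋃ x, cell nn hh x) :=
      hlf.isClosed_iUnion fun x => cell_closed nn hh x
    have hnull : volume (⋃ x, cell nn hh x)ᶜ = 0 := by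
      apply hF.measure_zero_of_invariant
      · intro l
        obtain ⟨p, rfl⟩ := he'.2 l
        ext z
        rw [Set.mem_vadd_set_iff_neg_vadd_mem, mem_compl_iff, mem_compl_iff, not_iff_not,
          mem_iUnion, mem_iUnion]
        change (∃ x, -((p.1 : ℝ) • u + (p.2 : ℝ) • w) + z ∈ cell nn hh x) ↔ _
        rw [neg_add_eq_sub]
        constructor
        · rintro ⟨x, hx⟩
          exact ⟨sh p.1 p.2 x, (cell_sh s _ _ _ _).2 hx⟩
        · rintro ⟨x, hx⟩
          refine ⟨sh (-p.1) (-p.2) x, ?_⟩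
          rw [cell_sh s]
          have : z - ((p.1 : ℝ) • u + (p.2 : ℝ) • w) -
              (((-p.1 : ℤ) : ℝ) • u + ((-p.2 : ℤ) : ℝ) • w) = z := by
            push_cast
            rw [neg_smul, neg_smul]
            abel
          rw [this]
          exact hx
      · have h1 : volume F ≤ volume ((⋃ x, cell nn hh x) ∩ F) := by
          rw [hFv, iUnion_inter, ← hU]
          exact hle
        have h2 : (⋃ x, cell nn hh x)ᶜ ∩ F = F \ ((⋃ x, cell nn hh x) ∩ F) := by
          ext z
          simp only [mem_inter_iff, mem_compl_iff, mem_sdiff]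
          tauto
        rw [h2, measure_sdiff inter_subset_right
          (hclosed.measurableSet.inter hFm).nullMeasurableSet
          ((measure_mono inter_subset_right).trans_lt (lt_top_iff_ne_top.2 hFfin)).ne]
        exact tsub_eq_zero_of_le h1
    have hempty := hclosed.isOpen_compl.eq_empty_of_measure_zero hnull
    intro z
    rw [Set.compl_empty_iff] at hempty
    have : z ∈ ⋃ x, cell nn hh x := by rw [hempty]; trivial
    exact mem_iUnion.1 this

end

end Pool.Agent.MP3e
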