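import Pool.Agent.Lib.MP_3e6a92_co.Defs

/-!
The statements of the independent modules, as propositions.
-/

set_option autoImplicit false

namespace Pool.Agent.MP3e

open MeasureTheory Set

noncomputable section

/-! ### W: the Wang system -/

def StmtW : Prop := ∃ (S : Type) (_ : Finite S) (W : WangSys S), HasConf W ∧ NoPeriodic W

/-! ### T: hexagon types -/

def StmtSidon : Prop := ∀ (S : Type) [Finite S], ∃ γ : S → ℝ, Sidon γ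

def StmtShoe : Prop := ∀ (S : Type) (W : WangSys S) (γ : S → ℝ) (ε : ℝ) (t : Ty W),
  shoe (corner γ ε t) = 4 * Real.sqrt 3

def StmtLabel : Prop := ∀ (S : Type) [Finite S] (W : WangSys S) (γ : S → ℝ), Sidon γ →
  ∃ ε₀ > 0, ∀ ε, 0 < ε → ε < ε₀ → ∀ (t t' : Ty W) (m m' : Fin 6),
    ‖corner γ ε t (m + 1) - corner γ ε t m‖ = ‖corner γ ε t' (m' + 1) - corner γ ε t' m'‖ →
    label t m = label t' m'

def StmtClose : Prop := ∀ (S : Type) [Finite S] (W : WangSys S) (γ : S → ℝ) (δ : ℝ), 0 < δ →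
  ∃ ε₀ > 0, ∀ ε, |ε| < ε₀ → ∀ (t : Ty W) (m : Fin 6), ‖corner γ ε t m - reg m‖ ≤ δ

/-! ### H: geometry of a near regular hexagon -/

/-- `q` is within `1/100` of a rotated regular hexagon. -/
def NearReg (θ : ℝ) (q : Fin 6 → ℂ) : Prop := ∀ m, ‖q m - cis θ * reg m‖ ≤ 1 / 100

structure HexGeom (q : Fin 6 → ℂ) : Prop where
  ball_sub : Metric.closedBall (0 : ℂ) (9 / 10) ⊆ Hex q
  sub_ball : Hex q ⊆ Metric.closedBall (0 : ℂ) (6 / 5)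
  compact : IsCompact (Hex q)
  convex : Convex ℝ (Hex q)
  vertex_mem : ∀ m, q m ∈ Hex q
  side : ∀ m z, (z ∈ Hex q ∧ cr (q (m + 1) - q m) (z - q m) = 0) ↔ z ∈ segment ℝ (q m) (q (m + 1))
  ne : ∀ m, q m ≠ q (m + 1)
  vertex_pos : ∀ m l, l ≠ m → l + 1 ≠ m → 0 < cr (q (l + 1) - q l) (q m - q l)
  side_pos : ∀ m z, z ∈ openSegment ℝ (q m) (q (m + 1)) → ∀ l, l ≠ m →
    0 < cr (q (l + 1) - q l) (z - q l)

def StmtHexGeom : Prop := ∀ (θ : ℝ) (q : Fin 6 → ℂ), NearReg θ q → HexGeom q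

def StmtHexVol : Prop := ∀ (θ : ℝ) (q : Fin 6 → ℂ), NearReg θ q →
  ENNReal.ofReal (shoe q / 2) ≤ volume (Hex q)

/-! ### V: lines and vertices -/

def StmtVtx : Prop := ∀ (α : ℝ) (β h : Fin 6 → ℝ), (∀ m, |β m| ≤ 1 / 1000) →
  (∀ m, |h m - 1| ≤ 1 / 1000) →
    NearReg (α - Real.pi / 3) (vtx (nrm α β) h) ∧
    cellOf (nrm α β) h = Hex (vtx (nrm α β) h) ∧
    ∀ m z, dt (nrm α β m) z = h m ↔
      cr (vtx (nrm α β) h (m + 1) - vtx (nrm α β) h m) (z - vtx (nrm α β) h m) = 0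

/-! ### K: the body -/

/-- relative half length of the contact segments -/
def kap (N : ℕ) : ℝ := Real.sqrt 3 / 2 * Real.tan (Real.pi / (9 * N))

/-- the point of the side `m` of `q` at relative position `1/2 + s` -/
def sidePt (q : Fin 6 → ℂ) (m : Fin 6) (s : ℝ) : ℂ := q m + ((1 / 2 + s : ℝ) : ℂ) * (q (m + 1) - q m)

def StmtBody : Prop := ∀ (S : Type) [Finite S] (W : WangSys S) (γ : S → ℝ) (τ : ℝ), 0 < τ →
  ∃ N₀ : ℕ, ∀ N : ℕ, N₀ ≤ N → 1 ≤ N → ∀ τ' : ℝ, 0 < τ' → ∃ ε₀ > 0, ∀ ε, |ε| < ε₀ →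
    ∀ tt : Fin N → Ty W,
      Metric.closedBall (0 : ℂ) (1 - τ') ⊆ body γ ε tt ∧
      body γ ε tt ⊆ Metric.closedBall (0 : ℂ) (1 + τ) ∧
      ∀ (k : Fin N) (m : Fin 6) (s : ℝ), (s = kap N ∨ s = -kap N) →
        sidePt (Qc γ ε tt k) m s ∈ body γ ε tt

/-! ### A: local stability, pieces -/

/-- area of a circular cap -/
def StmtCap : Prop := ∀ (R h : ℝ) (n : ℂ), 0 < h → h ≤ R → ‖n‖ = 1 →
  volume {z : ℂ | ‖z‖ ≤ R ∧ h < dt n z} ≤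
    ENNReal.ofReal (R ^ 2 * (Real.arccos (h / R) -
      Real.sin (Real.arccos (h / R)) * Real.cos (Real.arccos (h / R))))

/-- disjoint arcs of half lengths `φ j` on the unit circle -/
def StmtArc : Prop := ∀ (J : Type) (s : Finset J) (n : J → ℂ) (φ : J → ℝ),
  (∀ j ∈ s, ‖n j‖ = 1 ∧ 0 ≤ φ j ∧ φ j ≤ Real.pi) →
  (∀ j ∈ s, ∀ l ∈ s, j ≠ l → ∀ ω : ℂ, ‖ω‖ = 1 → Real.cos (φ j) < dt (n j) ω →
    Real.cos (φ l) < dt (n l) ω → False) →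
  ∑ j ∈ s, φ j ≤ Real.pi

/-- numerical stability -/
def StmtNum : Prop := ∀ δ : ℝ, 0 < δ → ∃ η > 0, ∀ (J : Type) (s : Finset J) (φ : J → ℝ),
  (∀ j ∈ s, 0 ≤ φ j ∧ φ j ≤ Real.pi / 6) → ∑ j ∈ s, φ j ≤ Real.pi →
  Real.pi - ∑ j ∈ s, (φ j - Real.sin (φ j) * Real.cos (φ j)) ≤ 3 * Real.sqrt 3 / 2 + η →
  ∃ t ⊆ s, t.card = 6 ∧ ∀ j ∈ t, Real.pi / 6 - δ ≤ φ j

/-- six directions pairwise at least about 60 degrees apart -/
def StmtSix : Prop := ∀ δ : ℝ, 0 < δ → ∃ σ > 0, ∀ n : Fin 6 → ℂ, (∀ m, ‖n m‖ = 1) →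
  (∀ m l, m ≠ l → dt (n m) (n l) ≤ 1 / 2 + σ) →
  ∃ (p : Equiv.Perm (Fin 6)) (α : ℝ) (β : Fin 6 → ℝ), (∀ m, |β m| ≤ δ) ∧
    ∀ m, n (p m) = nrm α β m

/-! ### A: local stability -/

def StmtA : Prop := ∀ δ : ℝ, 0 < δ → ∃ τ > 0, ∀ r e : ℝ, 1 - τ ≤ r → r ≤ 1 → 0 ≤ e → e ≤ τ →
  ∀ (J : Type) (c n : J → ℂ) (h : J → ℝ), Config r e c n h →
    volume (cellOf n h) ≤ ENNReal.ofReal (2 * Real.sqrt 3) →
    ∃ (j : Fin 6 → J) (α : ℝ) (β : Fin 6 → ℝ), Function.Injective j ∧ (∀ m, |β m| ≤ δ) ∧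
      (∀ m, n (j m) = nrm α β m) ∧ (∀ m, h (j m) ≤ 1 + δ) ∧
      (∀ l, l ∉ range j → 7 / 5 ≤ h l)

/-! ### B: minimal hexagons -/

def StmtB0 : Prop := ∀ (α : ℝ) (β h : Fin 6 → ℝ), (∀ m, |β m| ≤ 1 / 1000) →
  (∀ m, 1 ≤ h m) → (∀ m, h m ≤ 1 + 1 / 1000) →
    4 * Real.sqrt 3 ≤ shoe (vtx (nrm α β) h) ∧
    (shoe (vtx (nrm α β) h) = 4 * Real.sqrt 3 → (∀ m, h m = 1) ∧ ∀ m, β m = β 0)

def StmtBc : Prop := ∀ (S : Type) [Finite S] (W : WangSys S) (γ : S → ℝ) (N : ℕ), 1 ≤ N →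
  ∀ c : ℝ, 0 < c → ∃ ε₀ > 0, ∃ τ' > 0, ∀ ε, |ε| < ε₀ → ∀ (tt : Fin N → Ty W) (α : ℝ)
    (β h : Fin 6 → ℝ), (∀ m, |β m| ≤ 1 / 1000) → (∀ m, 1 - τ' ≤ h m) →
    (∀ m, h m ≤ 1 + 1 / 1000) →
    (∀ (k : Fin N) (m : Fin 6) (s : ℝ), (s = kap N ∨ s = -kap N) →
      sidePt (Qc γ ε tt k) m s ∈ cellOf (nrm α β) h) →
    shoe (vtx (nrm α β) h) ≤ 4 * Real.sqrt 3 →
    ∃ (k : Fin N) (m₀ : Fin 6), ∀ m, ‖vtx (nrm α β) h (m + m₀) - Qc γ ε tt k m‖ ≤ c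

def StmtB4 : Prop := ∀ κ : ℝ, 0 < κ → ∃ c > 0, ∀ (θ : ℝ) (q0 q : Fin 6 → ℂ), NearReg θ q0 →
  (∀ m, ‖q m - q0 m‖ ≤ c) →
  (∀ (m : Fin 6) (s : ℝ), (s = κ ∨ s = -κ) → 0 ≤ cr (q (m + 1) - q m) (sidePt q0 m s - q m)) →
  shoe q0 ≤ shoe q ∧ (shoe q = shoe q0 → q = q0)

/-! ### The local theorem -/

def LocalThm (K : Set ℂ) (r e : ℝ) {N : ℕ} (Q : Fin N → Fin 6 → ℂ) : Prop :=
  ∀ (J : Type) (c n : J → ℂ) (h : J → ℝ), Config r e c n h →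
    (∀ j, ∀ z ∈ K, dt (n j) z ≤ h j) →
    ENNReal.ofReal (2 * Real.sqrt 3) ≤ volume (cellOf n h) ∧
    (volume (cellOf n h) ≤ ENNReal.ofReal (2 * Real.sqrt 3) →
      ∃ (k : Fin N) (j : Fin 6 → J), Function.Injective j ∧ cellOf n h = Hex (Q k) ∧
        (∀ m z, dt (n (j m)) z = h (j m) ↔ cr (Q k (m + 1) - Q k m) (z - Q k m) = 0) ∧
        (∀ l, l ∉ range j → ∀ z ∈ cellOf n h, dt (n l) z < h l))

/-! ### P: periodic packings -/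

/-- translation of an index by a lattice vector -/
def sh {n : ℕ} (a b : ℤ) (x : Fin n × ℤ × ℤ) : Fin n × ℤ × ℤ := (x.1, x.2.1 + a, x.2.2 + b)

/-- equivariant antisymmetric system of separating lines, bisectors for far pairs -/
structure Sep (K : Set ℂ) (e : ℝ) {n : ℕ} (g : Fin n → (ℂ ≃ᵢ ℂ)) (u w : ℂ)
    (nn : Fin n × ℤ × ℤ → Fin n × ℤ × ℤ → ℂ) (hh : Fin n × ℤ × ℤ → Fin n × ℤ × ℤ → ℝ) : Prop where
  norm : ∀ x y, x ≠ y → ‖nn x y‖ = 1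
  anti_n : ∀ x y, x ≠ y → nn y x = -nn x y
  anti_h : ∀ x y, x ≠ y → hh y x = -hh x y
  shift_n : ∀ x y a b, x ≠ y → nn (sh a b x) (sh a b y) = nn x y
  shift_h : ∀ x y a b, x ≠ y →
    hh (sh a b x) (sh a b y) = hh x y + dt (nn x y) ((a : ℝ) • u + (b : ℝ) • w)
  sub : ∀ x y, x ≠ y → ∀ z ∈ K, dt (nn x y) (place g u w x z) ≤ hh x y
  far : ∀ x y, x ≠ y → 2 * (1 + e) ≤ ‖place g u w y 0 - place g u w x 0‖ →
    place g u w y 0 - place g u w x 0 =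
      ((2 * (hh x y - dt (nn x y) (place g u w x 0)) : ℝ) : ℂ) * nn x y

def StmtSep : Prop := ∀ (K : Set ℂ) (r e : ℝ), Convex ℝ K → 0 < r → 0 ≤ e →
  Metric.closedBall (0 : ℂ) r ⊆ K → K ⊆ Metric.closedBall (0 : ℂ) (1 + e) →
  ∀ (n : ℕ) (g : Fin n → (ℂ ≃ᵢ ℂ)) (u w : ℂ), IsPacking K g u w →
    ∃ nn hh, Sep K e g u w nn hh

/-- the cell of the copy `x` -/
def cell {X : Type} (nn : X → X → ℂ) (hh : X → X → ℝ) (x : X) : Set ℂ :=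
  {z | ∀ y, y ≠ x → dt (nn x y) z ≤ hh x y}

def StmtMeas : Prop := ∀ (K : Set ℂ) (e : ℝ) (n : ℕ) (g : Fin n → (ℂ ≃ᵢ ℂ)) (u w : ℂ)
  (nn : Fin n × ℤ × ℤ → Fin n × ℤ × ℤ → ℂ) (hh : Fin n × ℤ × ℤ → Fin n × ℤ × ℤ → ℝ),
  LinearIndependent ℝ ![u, w] → Sep K e g u w nn hh →
    ∑ i : Fin n, volume (cell nn hh (i, 0, 0)) ≤ volume (parallelepiped ![u, w]) ∧
    ((∃ ρ : ℝ, ∀ i : Fin n, cell nn hh (i, 0, 0) ⊆ Metric.closedBall 0 ρ) →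
      LocallyFinite (cell nn hh) ∧
      (volume (parallelepiped ![u, w]) ≤ ∑ i : Fin n, volume (cell nn hh (i, 0, 0)) →
        ∀ z, ∃ x, z ∈ cell nn hh x))

/-! ### Q: local structure of a tiling by cells -/

/-- A covering of the plane by cells bounded by separating lines `f x y = 0`, each cell being a
convex hexagon with vertices `v x m` and neighbours `nb x m`. -/
structure TilingData (X : Type) (C : X → Set ℂ) (v : X → Fin 6 → ℂ) (nb : X → Fin 6 → X)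
    (nn : X → X → ℂ) (hh : X → X → ℝ) : Prop where
  norm : ∀ x y, x ≠ y → ‖nn x y‖ = 1
  anti_n : ∀ x y, x ≠ y → nn y x = -nn x y
  anti_h : ∀ x y, x ≠ y → hh y x = -hh x y
  mem : ∀ x z, z ∈ C x ↔ ∀ y, y ≠ x → dt (nn x y) z ≤ hh x y
  nb_ne : ∀ x m, nb x m ≠ x
  nb_inj : ∀ x, Function.Injective (nb x)
  other : ∀ x y, y ≠ x → y ∉ range (nb x) → ∀ z ∈ C x, dt (nn x y) z < hh x y
  side : ∀ x m z, (z ∈ C x ∧ dt (nn x (nb x m)) z = hh x (nb x m)) ↔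
    z ∈ segment ℝ (v x m) (v x (m + 1))
  vne : ∀ x m, v x m ≠ v x (m + 1)
  vertex : ∀ x m l, dt (nn x (nb x l)) (v x m) = hh x (nb x l) → l = m ∨ l + 1 = m
  open_side : ∀ x m z, z ∈ openSegment ℝ (v x m) (v x (m + 1)) → ∀ l, l ≠ m →
    dt (nn x (nb x l)) z < hh x (nb x l)
  cover : ∀ z, ∃ x, z ∈ C x
  locfin : LocallyFinite C

/-- the combinatorial conclusion -/
structure SideData (X : Type) (nb : X → Fin 6 → X) (sd : X → Fin 6 → Fin 6) : Prop where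
  nb_nb : ∀ x m, nb (nb x m) (sd x m) = x
  sd_sd : ∀ x m, sd (nb x m) (sd x m) = m
  corner : ∀ x m, ∃ e e' : Fin 6, (e = 1 ∨ e = -1) ∧ (e' = 1 ∨ e' = -1) ∧
    nb (nb x m) (sd x m + e) = nb x (m + 1) ∧
    sd (nb x m) (sd x m + e) = sd x (m + 1) + e'

def StmtQ : Prop := ∀ (X : Type) (C : X → Set ℂ) (v : X → Fin 6 → ℂ) (nb : X → Fin 6 → X)
  (nn : X → X → ℂ) (hh : X → X → ℝ), TilingData X C v nb nn hh →
    ∃ sd : X → Fin 6 → Fin 6, SideData X nb sd ∧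
      ∀ x m, ‖v x (m + 1) - v x m‖ = ‖v (nb x m) (sd x m + 1) - v (nb x m) (sd x m)‖

/-! ### C: combinatorics -/

def StmtC : Prop := ∀ (S : Type) (W : WangSys S), NoPeriodic W →
  ∀ (I : Type) [Finite I] [Nonempty I] (ty : I → Ty W) (nb : I → Fin 6 → I)
    (sd : I → Fin 6 → Fin 6), SideData I nb sd →
    (∀ i m, label (ty i) m = label (ty (nb i m)) (sd i m)) → False

/-! ### D: the lower bound -/

def StmtD : Prop := ∀ (S : Type) (W : WangSys S) (γ : S → ℝ) (ε : ℝ) (N : ℕ) (tt : Fin N → Ty W),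
  HasConf W → (∀ (t : Ty W) (m : Fin 6), ‖corner γ ε t m - reg m‖ ≤ 1 / 100) →
  Function.Surjective tt → ∀ M : ℕ, 1 ≤ M →
    ∃ g : Fin (M * M) → (ℂ ≃ᵢ ℂ),
      IsPacking (body γ ε tt) g (((M : ℝ) + 1 : ℝ) * u1) (((M : ℝ) + 1 : ℝ) * u2)

end

end Pool.Agent.MP3e
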