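import Pool.Agent.Lib.MP_3e6a92_co.Defs

/-!
Transfer from `ℂ` to `EuclideanSpace ℝ (Fin 2)` and the final contradiction with attainment.
-/

set_option autoImplicit false

namespace Pool.Agent.MP3e

open MeasureTheory Set

noncomputable section

abbrev E2 := EuclideanSpace ℝ (Fin 2)

/-- the identification of the two models of the plane -/
def toC : E2 ≃ₗᵢ[ℝ] ℂ := Complex.orthonormalBasisOneI.repr.symm

theorem volume_preimage_toC (s : Set ℂ) : volume (toC ⁻¹' s) = volume s :=
  toC.measurePreserving.measure_preimage_equiv (f := toC.toHomeomorph.toMeasurableEquiv) s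

theorem volume_preimage_toC_symm (s : Set E2) : volume (toC.symm ⁻¹' s) = volume s :=
  toC.symm.measurePreserving.measure_preimage_equiv (f := toC.symm.toHomeomorph.toMeasurableEquiv) s

theorem volume_image_toC (s : Set E2) : volume (toC '' s) = volume s := by
  rw [← volume_preimage_toC_symm s]
  congr 1
  exact toC.toEquiv.image_eq_preimage_symm s

theorem volume_para (u w : E2) :
    volume (parallelepiped ![toC u, toC w]) = volume (parallelepiped ![u, w]) := by
  rw [← volume_image_toC (parallelepiped ![u, w])]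
  have h := image_parallelepiped (toC.toLinearEquiv : E2 →ₗ[ℝ] ℂ) ![u, w]
  have h2 : (toC.toLinearEquiv : E2 →ₗ[ℝ] ℂ) ∘ ![u, w] = ![toC u, toC w] := by
    ext i
    fin_cases i <;> simp
  rw [h2] at h
  rw [← h]
  rfl

theorem linInd_toC (u w : E2) :
    LinearIndependent ℝ ![toC u, toC w] ↔ LinearIndependent ℝ ![u, w] := by
  have h2 : ![toC u, toC w] = (toC.toLinearEquiv : E2 →ₗ[ℝ] ℂ) ∘ ![u, w] := by
    ext i
    fin_cases i <;> simp
  rw [h2]
  exact LinearMap.linearIndependent_iff _ (LinearEquiv.ker toC.toLinearEquiv)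

/-- conjugation of an isometry to `ℂ` -/
def conj1 (f : E2 ≃ᵢ E2) : ℂ ≃ᵢ ℂ := (toC.symm.toIsometryEquiv.trans f).trans toC.toIsometryEquiv

/-- conjugation of an isometry to the Euclidean plane -/
def conj2 (f : ℂ ≃ᵢ ℂ) : E2 ≃ᵢ E2 := (toC.toIsometryEquiv.trans f).trans toC.symm.toIsometryEquiv

theorem conj1_apply (f : E2 ≃ᵢ E2) (z : ℂ) : conj1 f z = toC (f (toC.symm z)) := rfl

theorem conj2_apply (f : ℂ ≃ᵢ ℂ) (z : E2) : conj2 f z = toC.symm (f (toC z)) := rfl

theorem image1 (K : Set ℂ) {n : ℕ} (g : Fin n → (E2 ≃ᵢ E2)) (u w : E2) (i : Fin n) (a b : ℤ) :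
    place (fun i => conj1 (g i)) (toC u) (toC w) (i, a, b) '' K =
      toC '' ((fun x => g i x + ((a : ℝ) • u + (b : ℝ) • w)) '' (toC ⁻¹' K)) := by
  ext z
  constructor
  · rintro ⟨y, hy, rfl⟩
    refine ⟨g i (toC.symm y) + ((a : ℝ) • u + (b : ℝ) • w), ⟨toC.symm y, ?_, rfl⟩, ?_⟩
    · simpa using hy
    · simp only [place, conj1_apply, map_add, map_smul]
  · rintro ⟨_, ⟨y, hy, rfl⟩, rfl⟩
    refine ⟨toC y, hy, ?_⟩
    simp only [place, conj1_apply, map_add, map_smul, LinearIsometryEquiv.symm_apply_apply]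

theorem interior_image_toC (s : Set E2) : interior (toC '' s) = toC '' interior s :=
  (toC.toHomeomorph.image_interior s).symm

theorem image2 (K : Set ℂ) {n : ℕ} (g : Fin n → (ℂ ≃ᵢ ℂ)) (u w : ℂ) (i : Fin n) (a b : ℤ) :
    toC '' ((fun x => conj2 (g i) x + ((a : ℝ) • toC.symm u + (b : ℝ) • toC.symm w)) ''
      (toC ⁻¹' K)) = place g u w (i, a, b) '' K := by
  ext z
  constructor
  · rintro ⟨_, ⟨y, hy, rfl⟩, rfl⟩
    refine ⟨toC y, hy, ?_⟩
    simp only [place, conj2_apply, map_add, map_smul, LinearIsometryEquiv.apply_symm_apply]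
  · rintro ⟨y, hy, rfl⟩
    refine ⟨_, ⟨toC.symm y, ?_, rfl⟩, ?_⟩
    · simpa using hy
    · simp only [place, conj2_apply, map_add, map_smul, LinearIsometryEquiv.apply_symm_apply]

theorem vol_para_C (U V : ℂ) :
    volume (parallelepiped ![U, V]) = ENNReal.ofReal |cr U V| := by
  have h1 := Complex.orthonormalBasisOneI.addHaar_eq_volume
  rw [← h1, Measure.addHaar_parallelepiped]
  congr 2
  rw [Module.Basis.det_apply, Matrix.det_fin_two]
  simp only [Module.Basis.toMatrix_apply, Complex.toBasis_orthonormalBasisOneI]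
  simp [cr]
  ring

theorem vol_UV (M : ℕ) :
    (volume (parallelepiped ![((((M : ℝ) + 1 : ℝ) : ℂ) * u1),
      ((((M : ℝ) + 1 : ℝ) : ℂ) * u2)])).toReal = ((M : ℝ) + 1) ^ 2 * (2 * Real.sqrt 3) := by
  rw [vol_para_C, ENNReal.toReal_ofReal (abs_nonneg _)]
  have : cr ((((M : ℝ) + 1 : ℝ) : ℂ) * u1) ((((M : ℝ) + 1 : ℝ) : ℂ) * u2) =
      ((M : ℝ) + 1) ^ 2 * (2 * Real.sqrt 3) := by
    simp only [cr, u1, u2, Complex.mul_re, Complex.mul_im, Complex.ofReal_re, Complex.ofReal_im]
    ring
  rw [this, abs_of_nonneg (by positivity)]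

/-- The final statement: from the result in `ℂ` to the negation of the frozen statement. -/
theorem notMain_of
    (hmain : ∃ K : Set ℂ, Convex ℝ K ∧ IsCompact K ∧ (interior K).Nonempty ∧
      (∀ (n : ℕ) (g : Fin n → (ℂ ≃ᵢ ℂ)) (u w : ℂ), IsPacking K g u w →
        (n : ℝ) * (2 * Real.sqrt 3) < (volume (parallelepiped ![u, w])).toReal) ∧
      (∀ M : ℕ, 1 ≤ M → ∃ g : Fin (M * M) → (ℂ ≃ᵢ ℂ),
        IsPacking K g (((M : ℝ) + 1 : ℝ) * u1) (((M : ℝ) + 1 : ℝ) * u2))) :
    ∃ K : Set (EuclideanSpace ℝ (Fin 2)), Convex ℝ K ∧ IsCompact K ∧ (interior K).Nonempty ∧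
      ¬ (sSup {d : ℝ | ∃ n : ℕ, ∃ g : Fin n → (EuclideanSpace ℝ (Fin 2) ≃ᵢ EuclideanSpace ℝ (Fin 2)),
        ∃ u w : EuclideanSpace ℝ (Fin 2),
        LinearIndependent ℝ ![u, w] ∧
        (∀ i j : Fin n, ∀ a b c e : ℤ, (i, a, b) ≠ (j, c, e) →
          Disjoint (interior ((fun x => g i x + ((a : ℝ) • u + (b : ℝ) • w)) '' K))
                   (interior ((fun x => g j x + ((c : ℝ) • u + (e : ℝ) • w)) '' K))) ∧
        d = (n : ℝ) * (MeasureTheory.volume K).toReal
              / (MeasureTheory.volume (parallelepiped ![u, w])).toReal}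
      ∈ {d : ℝ | ∃ n : ℕ, ∃ g : Fin n → (EuclideanSpace ℝ (Fin 2) ≃ᵢ EuclideanSpace ℝ (Fin 2)),
        ∃ u w : EuclideanSpace ℝ (Fin 2),
        LinearIndependent ℝ ![u, w] ∧
        (∀ i j : Fin n, ∀ a b c e : ℤ, (i, a, b) ≠ (j, c, e) →
          Disjoint (interior ((fun x => g i x + ((a : ℝ) • u + (b : ℝ) • w)) '' K))
                   (interior ((fun x => g j x + ((c : ℝ) • u + (e : ℝ) • w)) '' K))) ∧
        d = (n : ℝ) * (MeasureTheory.volume K).toReal
              / (MeasureTheory.volume (parallelepiped ![u, w])).toReal}) := by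
  obtain ⟨K, hconv, hcomp, hint, hup, hlow⟩ := hmain
  refine ⟨toC ⁻¹' K, ?_, ?_, ?_, ?_⟩
  · exact hconv.linear_preimage (toC.toLinearEquiv : E2 →ₗ[ℝ] ℂ)
  · exact toC.toHomeomorph.isCompact_preimage.mpr hcomp
  · obtain ⟨p, hp⟩ := hint
    refine ⟨toC.symm p, ?_⟩
    have h := toC.toHomeomorph.preimage_interior K
    have h2 : toC.symm p ∈ toC.toHomeomorph ⁻¹' interior K := by
      show toC (toC.symm p) ∈ interior K
      simpa using hp
    rw [h] at h2
    exact h2
  · rw [volume_preimage_toC]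
    set v := (volume K).toReal with hv
    have hvpos : 0 < v := by
      apply ENNReal.toReal_pos _ hcomp.measure_lt_top.ne
      exact (Measure.measure_pos_of_nonempty_interior volume hint).ne'
    set A : ℝ := 2 * Real.sqrt 3 with hA
    have hApos : 0 < A := by positivity
    -- the upper bound
    have hupper : ∀ (n : ℕ) (g : Fin n → (E2 ≃ᵢ E2)) (u w : E2), LinearIndependent ℝ ![u, w] →
        (∀ i j : Fin n, ∀ a b c e : ℤ, (i, a, b) ≠ (j, c, e) →
          Disjoint (interior ((fun x => g i x + ((a : ℝ) • u + (b : ℝ) • w)) '' (toC ⁻¹' K)))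
                   (interior ((fun x => g j x + ((c : ℝ) • u + (e : ℝ) • w)) '' (toC ⁻¹' K)))) →
        (n : ℝ) * v / (volume (parallelepiped ![u, w])).toReal < v / A := by
      intro n g u w hLI hdis
      have hp : IsPacking K (fun i => conj1 (g i)) (toC u) (toC w) := by
        refine ⟨(linInd_toC u w).mpr hLI, ?_⟩
        rintro ⟨i, a, b⟩ ⟨j, c, e⟩ hne
        rw [image1, image1, interior_image_toC, interior_image_toC]
        exact (disjoint_image_iff toC.injective).mpr (hdis i j a b c e hne)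
      have h := hup n _ _ _ hp
      rw [volume_para] at h
      have hT : 0 < (volume (parallelepiped ![u, w])).toReal :=
        lt_of_le_of_lt (by positivity) h
      rw [div_lt_div_iff₀ hT hApos]
      nlinarith
    rintro ⟨n, g, u, w, hLI, hdis, hd⟩
    have hlt := hupper n g u w hLI hdis
    rw [← hd] at hlt
    -- the lower bound
    have hlower : ∀ M : ℕ, 1 ≤ M → ((M : ℝ) * M) * v / (((M : ℝ) + 1) ^ 2 * A) ≤ sSup {d : ℝ | ∃ n : ℕ, ∃ g : Fin n → (EuclideanSpace ℝ (Fin 2) ≃ᵢ EuclideanSpace ℝ (Fin 2)),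
        ∃ u w : EuclideanSpace ℝ (Fin 2),
        LinearIndependent ℝ ![u, w] ∧
        (∀ i j : Fin n, ∀ a b c e : ℤ, (i, a, b) ≠ (j, c, e) →
          Disjoint (interior ((fun x => g i x + ((a : ℝ) • u + (b : ℝ) • w)) '' (toC ⁻¹' K)))
                   (interior ((fun x => g j x + ((c : ℝ) • u + (e : ℝ) • w)) '' (toC ⁻¹' K)))) ∧
        d = (n : ℝ) * v
              / (MeasureTheory.volume (parallelepiped ![u, w])).toReal} := by
      intro M hM
      apply le_csSup
      · refine ⟨v / A, ?_⟩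
        rintro d ⟨n, g, u, w, hLI, hdis, rfl⟩
        exact (hupper n g u w hLI hdis).le
      · obtain ⟨g, hLI, hdis⟩ := hlow M hM
        set U : ℂ := (((M : ℝ) + 1 : ℝ) * u1) with hU
        set V : ℂ := (((M : ℝ) + 1 : ℝ) * u2) with hV
        refine ⟨M * M, fun i => conj2 (g i), toC.symm U, toC.symm V, ?_, ?_, ?_⟩
        · rw [← linInd_toC]; simpa using hLI
        · intro i j a b c e hne
          have h := hdis (i, a, b) (j, c, e) hne
          rw [← image2, ← image2, interior_image_toC, interior_image_toC] at h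
          exact (disjoint_image_iff toC.injective).mp h
        · have h1 : volume (parallelepiped ![toC.symm U, toC.symm V]) =
              volume (parallelepiped ![U, V]) := by
            rw [← volume_para]; simp
          rw [h1]
          have h2 : (volume (parallelepiped ![U, V])).toReal = ((M : ℝ) + 1) ^ 2 * A := vol_UV M
          rw [h2]
          push_cast
          ring
    -- for large `M` the lower bound exceeds
    set s := sSup {d : ℝ | ∃ n : ℕ, ∃ g : Fin n → (EuclideanSpace ℝ (Fin 2) ≃ᵢ EuclideanSpace ℝ (Fin 2)),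
        ∃ u w : EuclideanSpace ℝ (Fin 2),
        LinearIndependent ℝ ![u, w] ∧
        (∀ i j : Fin n, ∀ a b c e : ℤ, (i, a, b) ≠ (j, c, e) →
          Disjoint (interior ((fun x => g i x + ((a : ℝ) • u + (b : ℝ) • w)) '' (toC ⁻¹' K)))
                   (interior ((fun x => g j x + ((c : ℝ) • u + (e : ℝ) • w)) '' (toC ⁻¹' K)))) ∧
        d = (n : ℝ) * v
              / (MeasureTheory.volume (parallelepiped ![u, w])).toReal} with hs
    have hgap : 0 < v / A - s := by linarith
    obtain ⟨M, hM⟩ := exists_nat_gt (2 * (v / A) / (v / A - s))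
    have hvA : 0 < v / A := by positivity
    have hM1 : 1 ≤ M := by
      by_contra hcon
      push Not at hcon
      have : M = 0 := by omega
      subst this
      have : 0 ≤ 2 * (v / A) / (v / A - s) := by positivity
      simp only [Nat.cast_zero] at hM
      linarith
    have h1 := hlower M hM1
    have hMr : (1 : ℝ) ≤ M := by exact_mod_cast hM1
    have h2 : (M : ℝ) * M * v / (((M : ℝ) + 1) ^ 2 * A) = (v / A) * ((M : ℝ) * M / ((M : ℝ) + 1) ^ 2) := by
      field_simp
    have h3 : 1 - 2 / (M : ℝ) ≤ (M : ℝ) * M / ((M : ℝ) + 1) ^ 2 := by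
      rw [le_div_iff₀ (by positivity)]
      have : (M : ℝ) ≠ 0 := by positivity
      field_simp
      nlinarith
    have h4 : (v / A) * (1 - 2 / (M : ℝ)) ≤ s := by
      refine le_trans ?_ h1
      rw [h2]
      exact mul_le_mul_of_nonneg_left h3 hvA.le
    rw [div_lt_iff₀ hgap] at hM
    have h5 : (v / A) * (2 / (M : ℝ)) < v / A - s := by
      rw [mul_div_assoc', div_lt_iff₀ (by linarith)]
      linarith
    linarith

end

end Pool.Agent.MP3e
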